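import Pool.Agent.H24.VP.PosB
import Pool.Agent.H83.TK.SubE

/-!
# [H60 ZC CX4] THEOREM C (MP_e49dc9_ag), CORE: the exact poles of a rational section

`E` effective, `φ` a section of `W + E`.  There is an effective `N ≤ E` such that `φ` is a section of `W + N` which does not vanish on the components of `N`.
PROOF. Induction on a bound of `T(A,A,E)` (as `fac_eff`, H24/VP/PosB: `aae_nn`, `aae_one`: `T(A,A,S) ≥ 1` for prime divisors `S`, `T(A,A,E) ≥ 0` for effective
`E`).  If `φ` does not vanish (`Un (X.O Q.η) (φ * (W * E).eq Q.η)`) for all `Q` with `¬ Un (X.O Q.η) (E.eq Q.η)`: `N = E`.  Otherwise let `Q` be such that both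
`E.eq Q.η` and `φ * (W * E).eq Q.η` are not units at `Q.η`; `S` a divisor with `SPr X Q.η S` (`pdiv_spr`).  `E' := E * S⁻¹` is effective and `φ` is a section of
`W * E'` (`ex_mem` of H83/TK/SubE for `s = 1`, `D = E`, and for `s = φ`, `D = W * E`; `n = 1`), `T(A,A,E') = T(A,A,E) - T(A,A,S) ≤ T(A,A,E) - 1`.  Take
`N` for `E'`: `E * N⁻¹ = S * (E' * N⁻¹)` is effective.
-/

set_option autoImplicit false

namespace Pool.Agent.H60.ZC

open Pool.Agent.H54.RV Pool.Agent.H83.TU Pool.Agent.H83.TK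
open Pool.Agent.H24.VP (RR)

variable {k K : Type} [Field k] [Field K] [Algebra k K] {X : Mod k K}
  {T : Cart X → Cart X → Cart X → ℝ} {l : Cart X → ℝ} {c : ℝ}

section

open Pool.Agent.H24.VP Pool.Agent.H24.TK

private theorem sec_mono {W E : Cart X} (hE : Effective E) : secL W 1 ≤ secL (W * E) 1 := by
  intro a ha x
  have h1 : a * W.eq x ^ 1 * E.eq x ∈ X.O x := (X.O x).mul_mem (ha x) (hE x)
  change a * (W * E).eq x ^ 1 ∈ X.O x
  rw [pow_one] at h1
  rwa [mul_eq, pow_one, ← mul_assoc]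

private theorem h0_mono [CharZero k] (h : Hyp X) {W E : Cart X} (hE : Effective E) : h0 W 1 ≤ h0 (W * E) 1 := by
  obtain ⟨A, hA⟩ := h.amp
  haveI := fd h.var h.gen hA (W * E)
  exact Submodule.finrank_mono (sec_mono hE)

private theorem t_expand (hT : Tri T) (A E : Cart X) (n : ℕ) :
    T (E * A ^ n) (E * A ^ n) (E * A ^ n) = T E E E + 3 * n * T A E E + 3 * n ^ 2 * T A A E + n ^ 3 * T A A A := by
  simp only [hT.add, hT.add2, hT.add3, hT.pow, hT.pow2, hT.pow3]
  rw [hT.s12 E A E, hT.s23 E E A, hT.s12 E A E, hT.s12 E A A, hT.s23 A E A]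
  ring

private theorem aae_nn [CharZero k] (h : Hyp X) (hr : RR T l c) {A E : Cart X} (hA : Ample A) (hE : Effective E) :
    0 ≤ T A A E := by
  obtain ⟨n1, h1⟩ := hr.ev E A hA
  obtain ⟨n2, h2⟩ := hr.ev 1 A hA
  have key : ∀ n : ℕ, n1 ≤ n → n2 ≤ n →
      0 ≤ (n : ℝ) ^ 2 * T A A E + n * T A E E + (T E E E / 3 + 2 * l E) := by
    intro n hn1 hn2
    have a1 := h1 n hn1
    have a2 := h2 n hn2
    have a3 : h0 (1 * A ^ n) 1 ≤ h0 (E * A ^ n) 1 := by
      have := h0_mono (W := 1 * A ^ n) h hE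
      rw [one_mul, mul_comm (A ^ n) E] at this
      rwa [one_mul]
    have a4 : (h0 (1 * A ^ n) 1 : ℝ) ≤ h0 (E * A ^ n) 1 := by exact_mod_cast a3
    rw [a1, a2, chi, chi, t_expand hr.tri, t_expand hr.tri] at a4
    simp only [hr.ladd, hr.l_one, hr.tri.one, hr.tri.one2, hr.tri.one3] at a4
    linarith
  by_contra hneg
  push Not at hneg
  obtain ⟨C, hC⟩ : ∃ C, C = |T A E E| + |T E E E / 3 + 2 * l E| := ⟨_, rfl⟩
  obtain ⟨n, hn⟩ := exists_nat_gt (max (max (n1 : ℝ) n2) (max 1 (C / -T A A E)))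
  have hn1 : (n1 : ℝ) < n := lt_of_le_of_lt ((le_max_left _ _).trans (le_max_left _ _)) hn
  have hn2 : (n2 : ℝ) < n := lt_of_le_of_lt ((le_max_right _ _).trans (le_max_left _ _)) hn
  have hn3 : (1 : ℝ) < n := lt_of_le_of_lt ((le_max_left _ _).trans (le_max_right _ _)) hn
  have hn4 : C < n * -T A A E := by
    have := lt_of_le_of_lt ((le_max_right _ _).trans (le_max_right _ _)) hn
    rwa [div_lt_iff₀ (by linarith)] at this
  have h3 := key n (by exact_mod_cast hn1.le) (by exact_mod_cast hn2.le)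
  have b1 := le_abs_self (T A E E)
  have b2 := le_abs_self (T E E E / 3 + 2 * l E)
  have b3 := abs_nonneg (T E E E / 3 + 2 * l E)
  have b4 : (n : ℝ) * T A E E ≤ n * |T A E E| := mul_le_mul_of_nonneg_left b1 (by linarith)
  have b5 : |T E E E / 3 + 2 * l E| ≤ n * |T E E E / 3 + 2 * l E| := by nlinarith
  have b6 : (n : ℝ) * C < n * (n * -T A A E) := mul_lt_mul_of_pos_left hn4 (by linarith)
  rw [hC] at b6
  nlinarith

private theorem aae_one [CharZero k] [T0Space X.P] (h : Hyp X) (hr : RR T l c) {A S : Cart X} (hA : Ample A)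
    (P : PDiv X) (hS : SPr X P.η S) : 1 ≤ T A A S := by
  have h1 := pos_prm h hr hA hA P hS
  obtain ⟨z, hz⟩ := t_int hr ⟨A, hA⟩ A A S
  rw [hz] at h1 ⊢
  have h2 : (0 : ℤ) < z := by exact_mod_cast h1
  have h3 : (1 : ℤ) ≤ z := h2
  exact_mod_cast h3

end

private theorem sec_one {E : Cart X} (hE : Effective E) : (1 : K) ∈ secL E 1 := by
  intro x
  change 1 * E.eq x ^ 1 ∈ X.O x
  rw [one_mul, pow_one]
  exact hE x

/-- one step of the induction -/
private theorem cx_step [CharZero k] [T0Space X.P] (h : Hyp X) {W E : Cart X} {φ : K}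
    (hE : Effective E) (h1 : Sec (W * E) 1 φ) {Q : PDiv X} (hQ1 : ¬ Un (X.O Q.η) (E.eq Q.η))
    (hQ2 : ¬ Un (X.O Q.η) (φ * (W * E).eq Q.η)) :
    ∃ S : Cart X, SPr X Q.η S ∧ Effective (E * S⁻¹) ∧ Sec (W * (E * S⁻¹)) 1 φ := by
  obtain ⟨S, hS⟩ := pdiv_spr h Q
  refine ⟨S, hS, ?_, ?_⟩
  · have h2 := (ex_mem h.var hS E 1 1).2 ⟨sec_one hE, by rwa [one_mul, pow_one]⟩
    intro x
    have h3 : (1 : K) * (E ^ 1 * S⁻¹).eq x ^ 1 ∈ X.O x := h2 x
    rwa [one_mul, pow_one, pow_one] at h3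
  · have h2 := (ex_mem h.var hS (W * E) 1 φ).2 ⟨h1, by rwa [pow_one]⟩
    rw [pow_one, mul_assoc] at h2
    exact h2

/-- the exact poles of a rational section -/
theorem pole [CharZero k] [T0Space X.P] (h : Hyp X) (hr : RR T l c) {W E : Cart X} {φ : K} (hE : Effective E)
    (h1 : Sec (W * E) 1 φ) :
    ∃ N : Cart X, Effective N ∧ Effective (E * N⁻¹) ∧ Sec (W * N) 1 φ ∧
      ∀ Q : PDiv X, ¬ Un (X.O Q.η) (N.eq Q.η) → Un (X.O Q.η) (φ * (W * N).eq Q.η) := by
  obtain ⟨A, hA⟩ := h.amp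
  obtain ⟨n, hn⟩ := exists_nat_ge (T A A E)
  have h11 : Effective (1 : Cart X) := fun x => (X.O x).one_mem
  induction n generalizing E with
  | zero =>
    by_cases hall : ∀ Q : PDiv X, ¬ Un (X.O Q.η) (E.eq Q.η) → Un (X.O Q.η) (φ * (W * E).eq Q.η)
    · refine ⟨E, hE, ?_, h1, hall⟩
      rw [mul_inv_cancel]
      exact h11
    · exfalso
      push Not at hall
      obtain ⟨Q, hQ1, hQ2⟩ := hall
      obtain ⟨S, hS, h2, h3⟩ := cx_step h hE h1 hQ1 hQ2
      have h4 := aae_nn h hr hA h2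
      have h5 := aae_one h hr hA Q hS
      rw [hr.tri.add3, hr.tri.inv3] at h4
      rw [Nat.cast_zero] at hn
      linarith
  | succ n ih =>
    by_cases hall : ∀ Q : PDiv X, ¬ Un (X.O Q.η) (E.eq Q.η) → Un (X.O Q.η) (φ * (W * E).eq Q.η)
    · refine ⟨E, hE, ?_, h1, hall⟩
      rw [mul_inv_cancel]
      exact h11
    · push Not at hall
      obtain ⟨Q, hQ1, hQ2⟩ := hall
      obtain ⟨S, hS, h2, h3⟩ := cx_step h hE h1 hQ1 hQ2
      have h5 := aae_one h hr hA Q hS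
      obtain ⟨N, h6, h7, h8, h9⟩ := ih h2 h3 (by
        rw [hr.tri.add3, hr.tri.inv3]
        push_cast at hn
        linarith)
      refine ⟨N, h6, ?_, h8, h9⟩
      have h10 : E * N⁻¹ = (E * S⁻¹ * N⁻¹) * S := by
        rw [mul_assoc (E * S⁻¹), mul_comm N⁻¹ S, ← mul_assoc, inv_mul_cancel_right]
      rw [h10]
      intro x
      have h12 := (X.O x).mul_mem (h7 x) (hS.eff x)
      exact h12

end Pool.Agent.H60.ZC
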