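import Pool.Agent.H60.ZC.Frm

/-!
# [H60 ZC Bex] THEOREM C (MP_e49dc9_ag): the bilinear map `B` with values in the span of the face

`B(u,u') ∈ Nn` with `T(B(u,u'),w,v) = - T(u,u',w) z(v)` for `w ∈ Nn`, `z = T(p,p,.)`.
PROOF. On `N = Nn ν TR p` the bilinear form `b(w,w') = T(w,w',A)` is symmetric and nondegenerate (`ip_nd`), `N` is finite dimensional: `N → Dual N` is injective, so bijective
(`LinearMap.BilinForm.dualBasis`, or `LinearEquiv.ofInjectiveEndo`-like, `LinearMap.linearEquivOfInjective`).  `B(u,u') := ` the inverse image of the functional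
`w ↦ - T(u,u',w) z(A)`; it is linear in `u` and `u'` (compose linear maps: `u ↦ u' ↦ (TR u u').domRestrict N` is linear).  `T(B(u,u'),w,v) = ip(B(u,u'),w) z(v)` (`form`),
`ip(B(u,u'),w) = T(B(u,u'),w,A) / z(A) = - T(u,u',w)`.  Symmetric: `T(u,u',w) = T(u',u,w)` (`tr_s12`), injectivity.
-/

set_option autoImplicit false

namespace Pool.Agent.H60.ZC

open Pool.Agent.H54.RV Pool.Agent.H83.TU Pool.Agent.H83.TK Pool.Agent.H20.TD Pool.Agent.H20.TP Pool.Agent.H20.RT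
open Pool.Agent.H24.VP (RR)

variable {k K : Type} [Field k] [Field K] [Algebra k K] {X : Mod k K} {r : ℕ}
  {ν : Cart X →* Multiplicative (Fin r → ℤ)} {T : Cart X → Cart X → Cart X → ℝ} {l : Cart X → ℝ} {c : ℝ} {TR : Tri3 r}
  {L : (Fin r → ℝ) →ₗ[ℝ] ℝ} {A : Cart X}

variable {p : Fin r → ℝ}

theorem ex_B [CharZero k] [IsAlgClosed k] [T0Space X.P] (f : Fr ν T l c TR L A) (hp : p ∈ closure (CC ν))
    (h3 : TR p p p = 0) (hpp : TR p p ≠ 0) :
    ∃ B : (Fin r → ℝ) →ₗ[ℝ] (Fin r → ℝ) →ₗ[ℝ] (Fin r → ℝ), (∀ u u', B u u' ∈ Nn ν TR p) ∧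
      (∀ u u', B u u' = B u' u) ∧
      ∀ u u', ∀ w ∈ Nn ν TR p, ∀ v, TR (B u u') w v = - TR u u' w * TR p p v := by
  have hz : 0 < TR p p (cR ν A) := ppa f hp hpp
  set N : Submodule ℝ (Fin r → ℝ) := Nn ν TR p with hN
  let TA : (Fin r → ℝ) →ₗ[ℝ] (Fin r → ℝ) →ₗ[ℝ] ℝ := TR.compr₂ (LinearMap.applyₗ (cR ν A))
  have hTA : ∀ u u', TA u u' = TR u u' (cR ν A) := fun u u' => rfl
  let β : N →ₗ[ℝ] N →ₗ[ℝ] ℝ := TA.domRestrict₁₂ N N
  have hβ : ∀ w w' : N, β w w' = TR (w : Fin r → ℝ) (w' : Fin r → ℝ) (cR ν A) := fun w w' => rfl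
  have hinj : Function.Injective β := by
    rw [injective_iff_map_eq_zero]
    intro w hw
    apply Subtype.ext
    refine ip_nd f hp h3 hpp w.2 (fun w' hw' => ?_)
    have h1 : β w ⟨w', hw'⟩ = 0 := by rw [hw]; rfl
    rw [hβ] at h1
    exact h1
  let e : N ≃ₗ[ℝ] Module.Dual ℝ N :=
    LinearMap.linearEquivOfInjective β hinj (Subspace.dual_finrank_eq (K := ℝ) (V := N)).symm
  have he : ∀ w, e w = β w := fun w => rfl
  let γ : (Fin r → ℝ) →ₗ[ℝ] (Fin r → ℝ) →ₗ[ℝ] Module.Dual ℝ N :=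
    TR.compr₂ ((-(TR p p (cR ν A))) • N.subtype.dualMap)
  have hγ : ∀ u u' (w : N), γ u u' w = -(TR p p (cR ν A)) * TR u u' w := fun u u' w => rfl
  let B : (Fin r → ℝ) →ₗ[ℝ] (Fin r → ℝ) →ₗ[ℝ] (Fin r → ℝ) :=
    γ.compr₂ (N.subtype ∘ₗ (e.symm : Module.Dual ℝ N →ₗ[ℝ] N))
  have hB : ∀ u u', B u u' = ((e.symm (γ u u') : N) : Fin r → ℝ) := fun u u' => rfl
  refine ⟨B, fun u u' => ?_, fun u u' => ?_, fun u u' w hw v => ?_⟩
  · rw [hB]
    exact (e.symm (γ u u')).2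
  · rw [hB, hB]
    have h1 : γ u u' = γ u' u := by
      ext w
      rw [hγ, hγ, tr_s12 f.hr f.hν f.hT u u']
    rw [h1]
  · have hmem : B u u' ∈ Nn ν TR p := by
      rw [hB]
      exact (e.symm (γ u u')).2
    rw [form f hp h3 hpp hmem hw v]
    have h1 : TR (B u u') w (cR ν A) = -(TR p p (cR ν A)) * TR u u' w := by
      have h2 : β (e.symm (γ u u')) ⟨w, hw⟩ = γ u u' ⟨w, hw⟩ := by
        rw [← he, LinearEquiv.apply_symm_apply]
      rw [hβ, hγ] at h2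
      rw [hB]
      exact h2
    unfold ip
    rw [h1]
    field_simp

end Pool.Agent.H60.ZC
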