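import Pool.Agent.H60.ZC.Rat
import Pool.Agent.H24.RC.LowN
import Pool.Agent.H61.NB.Nb

/-!
# [H60 ZC Nb] THEOREM C (MP_e49dc9_ag): the nef classes of the span of the face near `q`

`q ∈ Ph`, `T(q,q,A) > 0`: `w ∈ Nn` near `q` with `T(w,A,D) ≥ 0` for all prime divisors `D` with `T(q,A,D) = 0` is nef.
PROOF. `w₁, .., w_s` a basis of `Nn` of integral classes (`nn_span`), `R₀` large.  `low_nu` (H24/RC/LowN) at `q`: for `x` large all integral `W ∈ Nn` with `‖W - x q‖ ≤ R₀` have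
`h0 W ≥ l(W) + c - C > 0`: `T(W,W,W) = 0` on `Nn` (`form`, `nn_z`), `l(W) = L(W) ≥ x L(q) - const`, `L(q) > 0` (`hE.lp`; `q ≠ 0`).  Fix such an `x`, and integral `W j ∈ Nn` (finitely many, `W j`
near `x q + R w_i` and `x q - R w_i`, `R` large against the rounding error; `nn_vp`, `vp_near`) whose positive cone is a neighbourhood of `q` in `Nn` (compare `ww_cc`, H41/RT).
`W j` has a section with zero set `Z j` (`hasX_of_pos`).  The surfaces in the `Z j` are finitely many prime divisors `D` (`srf_fin`), `z(D) = 0` (`tr_eff`, `bgd_srf`: vertical).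
`w = ∑ c j W j`, `c j ≥ 0`.  By `klm` (H89/RS/Klm) it is enough that `dR y w ≥ 0` for all curves `y`.  If `y` is in no `Z j`: `dR y (W j) ≥ 0` (`hasX_res`, `dz_nn`, as `dR_X` in H89/RT/End).
If `y` is in `Z j`: `y` lies on a surface `D` of `Z j` (factorial: a prime factor).  `T(w,w',D) = 0` on `Nn` (`form`, `z(D) = 0`).
 (i) `T(q,A,D) > 0`: `T(q,A,D) dR y w = T(w,A,D) dR y q` (`hs_eq`), `dR y q ≥ 0`, `T(w,A,D) ≥ 0` for `w` near `q` (finitely many `D`).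
 (ii) `T(q,A,D) = 0`: `T(w,A,D) ≥ 0` by hypothesis.  `T(p,A,D) > 0`: `T(p,A,D) dR y w = T(w,A,D) dR y p ≥ 0` (`hs_eq` with `p`).  `T(p,A,D) = 0`: `dR y p = 0` (`hs_nn`), and
   `± w + C p` is nef (`nn_int`): `dR y w = 0`.
-/

set_option autoImplicit false

namespace Pool.Agent.H60.ZC

open Pool.Agent.H54.RV Pool.Agent.H83.TU Pool.Agent.H83.TK Pool.Agent.H20.TD Pool.Agent.H20.TP Pool.Agent.H20.RT
open Pool.Agent.H24.VP (RR)

variable {k K : Type} [Field k] [Field K] [Algebra k K] {X : Mod k K} {r : ℕ}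
  {ν : Cart X →* Multiplicative (Fin r → ℤ)} {T : Cart X → Cart X → Cart X → ℝ} {l : Cart X → ℝ} {c : ℝ} {TR : Tri3 r}
  {L : (Fin r → ℝ) →ₗ[ℝ] ℝ} {A : Cart X}

variable {P : Cart X} {q : Fin r → ℝ}

theorem nb [CharZero k] [IsAlgClosed k] [T0Space X.P] (f : Fr ν T l c TR L A) (hE : Ell ν TR L P)
    (hq : q ∈ Ph ν TR (cR ν P)) (hqq : 0 < TR q q (cR ν A)) : ∃ ρ : ℝ, 0 < ρ ∧ ∀ w ∈ Nn ν TR (cR ν P), ‖w - q‖ < ρ →
      (∀ (Q : PDiv X) (D : Cart X), SPr X Q.η D → TR q (cR ν A) (cR ν D) = 0 → 0 ≤ TR w (cR ν A) (cR ν D)) →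
      w ∈ closure (CC ν) := by
  have h1 : Pool.Agent.H61.NB.Fac ν TR (cR ν P) (Nn ν TR (cR ν P)) :=
    { pc := hE.nef
      pN := Submodule.subset_span (p_ph hE.nef hE.c3)
      int := fun w hw => nn_int f hE hw
      form := fun w hw w' hw' => ⟨_, fun v => form f hE.nef hE.c3 hE.sq hw hw' v⟩
      zN := fun w hw => nn_z hw
      rat := fun w hw => by
        obtain ⟨m, a, Q, hQ, hw'⟩ := nn_span f hE hw
        rw [hw']
        exact Submodule.sum_mem _ fun i _ => Submodule.smul_mem _ _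
          (Submodule.subset_span ⟨Submodule.subset_span (hQ i), Q i, rfl⟩) }
  have hq0 : q ≠ 0 := by
    rintro rfl
    rw [map_zero, LinearMap.zero_apply] at hqq
    exact lt_irrefl _ hqq
  obtain ⟨ρ, hρ, h2⟩ := Pool.Agent.H61.NB.nb f.h f.hr f.hν f.hT f.hL f.hA h1 hq.1 (Submodule.subset_span hq) hqq
    (hE.lp q hq hq0)
  exact ⟨ρ, hρ, fun w hw hwq hD => h2 w hw hwq fun Q D hS _ h3 => hD Q D hS h3⟩

end Pool.Agent.H60.ZC
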