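import Pool.Agent.H60.ZC.Frm

/-!
# [H60 ZC Ety] THEOREM C (MP_e49dc9_ag): the prime divisors `E` with `T(p,A,E) = 0`

`p` nef, `T(p,p,A) > 0`.
For such `E`: `T(p,.,E) = 0` (`hs_nn`).  Form `a(u,v) = T(A,u,v)`: `a(p,p) > 0`, `a(p,E) = 0`.  `a(E,E') ≥ 0` for different ones (`pr_pr`).
(1) For `e = ∑ b i E i` with `b i ≥ 0`, not all zero (different primes): `a(e,e) < 0`: `≤ 0` by `hx_le2` (`w = p`); `= 0` would give `a(e,.) = 0` (`hx_eq2`), `e = 0` (`lef`), but
    `T(A,A,E i) > 0` (`pos_srf`, H20/TP/Srf, or `pos_prm`).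
(2) For arbitrary `b`: `e = e⁺ - e⁻` (disjoint supports), `a(e,e) = a(e⁺,e⁺) - 2 a(e⁺,e⁻) + a(e⁻,e⁻) < 0` unless `b = 0`.  So the classes of different `E` are linearly independent in
    `ℝ ^ r`: at most `r` of them: finite.  [Enumerate: `m` maximal such that there are `m` different ones; all of them occur.]
(3) `proj`: the form `a` on `ℝ ^ m` (`b ↦ ∑ b i E i`) is negative definite, so the linear map `b ↦ (a(∑ b i E i,E j))_j` is injective, so surjective.
(4) `neg`: `a(e,E j) ≥ 0` for all `j`, `e = e⁺ - e⁻`: `0 ≤ a(e,e⁺) = a(e⁺,e⁺) - a(e⁻,e⁺)`, so `a(e⁺,e⁺) ≥ 0`, `e⁺ = 0`.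
-/

set_option autoImplicit false

namespace Pool.Agent.H60.ZC

open Pool.Agent.H54.RV Pool.Agent.H83.TU Pool.Agent.H83.TK Pool.Agent.H20.TD Pool.Agent.H20.TP Pool.Agent.H20.RT
open Pool.Agent.H24.VP (RR)

variable {k K : Type} [Field k] [Field K] [Algebra k K] {X : Mod k K} {r : ℕ}
  {ν : Cart X →* Multiplicative (Fin r → ℤ)} {T : Cart X → Cart X → Cart X → ℝ} {l : Cart X → ℝ} {c : ℝ} {TR : Tri3 r}
  {L : (Fin r → ℝ) →ₗ[ℝ] ℝ} {A : Cart X}

variable {p : Fin r → ℝ}

/-! ### Symmetric matrices with nonnegative entries outside the diagonal -/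

private theorem ety_le {m : ℕ} {M : Fin m → Fin m → ℝ}
    (h1 : ∀ b : Fin m → ℝ, (∀ i, 0 ≤ b i) → b ≠ 0 → ∑ i, ∑ j, b i * b j * M i j < 0)
    {b : Fin m → ℝ} (hb : ∀ i, 0 ≤ b i) : ∑ i, ∑ j, b i * b j * M i j ≤ 0 := by
  by_cases h : b = 0
  · rw [h]
    simp
  · exact (h1 b hb h).le

private theorem ety_neg {m : ℕ} {M : Fin m → Fin m → ℝ} (h0 : ∀ i j, i ≠ j → 0 ≤ M i j)
    (h1 : ∀ b : Fin m → ℝ, (∀ i, 0 ≤ b i) → b ≠ 0 → ∑ i, ∑ j, b i * b j * M i j < 0)
    {b : Fin m → ℝ} (hb : b ≠ 0) : ∑ i, ∑ j, b i * b j * M i j < 0 := by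
  have hle : ∑ i, ∑ j, b i * b j * M i j ≤
      ∑ i, ∑ j, max (b i) 0 * max (b j) 0 * M i j + ∑ i, ∑ j, max (-b i) 0 * max (-b j) 0 * M i j := by
    rw [← Finset.sum_add_distrib]
    refine Finset.sum_le_sum fun i _ => ?_
    rw [← Finset.sum_add_distrib]
    refine Finset.sum_le_sum fun j _ => ?_
    have e1 : b i = max (b i) 0 - max (-b i) 0 := by
      rcases le_total 0 (b i) with h | h
      · rw [max_eq_left h, max_eq_right (by linarith), sub_zero]
      · rw [max_eq_right h, max_eq_left (by linarith)]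
        ring
    have e2 : b j = max (b j) 0 - max (-b j) 0 := by
      rcases le_total 0 (b j) with h | h
      · rw [max_eq_left h, max_eq_right (by linarith), sub_zero]
      · rw [max_eq_right h, max_eq_left (by linarith)]
        ring
    have key : 0 ≤ (max (b i) 0 * max (-b j) 0 + max (-b i) 0 * max (b j) 0) * M i j := by
      by_cases hij : i = j
      · subst hij
        have h3 : max (b i) 0 * max (-b i) 0 = 0 := by
          rcases le_total 0 (b i) with h | h
          · rw [max_eq_right (by linarith : -b i ≤ 0), mul_zero]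
          · rw [max_eq_right h, zero_mul]
        rw [h3, mul_comm (max (-b i) 0), h3]
        simp
      · refine mul_nonneg (add_nonneg (mul_nonneg (le_max_right _ _) (le_max_right _ _))
          (mul_nonneg (le_max_right _ _) (le_max_right _ _))) (h0 i j hij)
    have e3 : b i * b j * M i j = max (b i) 0 * max (b j) 0 * M i j +
        max (-b i) 0 * max (-b j) 0 * M i j -
        (max (b i) 0 * max (-b j) 0 + max (-b i) 0 * max (b j) 0) * M i j := by
      conv_lhs => rw [e1, e2]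
      ring
    rw [e3]
    linarith
  have hp := ety_le h1 (b := fun i => max (b i) 0) fun i => le_max_right _ _
  have hm := ety_le h1 (b := fun i => max (-b i) 0) fun i => le_max_right _ _
  by_cases h2 : (fun i => max (b i) 0) = 0
  · have h3 : (fun i => max (-b i) 0) ≠ 0 := by
      intro h3
      apply hb
      funext i
      have h4 := congrFun h2 i
      have h5 := congrFun h3 i
      simp only [Pi.zero_apply] at h4 h5 ⊢
      have h6 : b i ≤ 0 := by
        rw [← h4]
        exact le_max_left _ _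
      have h7 : -b i ≤ 0 := by
        rw [← h5]
        exact le_max_left _ _
      linarith
    have h4 := h1 _ (fun i => le_max_right _ _) h3
    linarith
  · have h4 := h1 _ (fun i => le_max_right _ _) h2
    linarith

private theorem ety_surj {m : ℕ} {M : Fin m → Fin m → ℝ} (h0 : ∀ i j, i ≠ j → 0 ≤ M i j)
    (h1 : ∀ b : Fin m → ℝ, (∀ i, 0 ≤ b i) → b ≠ 0 → ∑ i, ∑ j, b i * b j * M i j < 0)
    (c : Fin m → ℝ) : ∃ b : Fin m → ℝ, ∀ j, ∑ i, b i * M i j = c j := by
  obtain ⟨Φ, hΦ⟩ : ∃ Φ : (Fin m → ℝ) →ₗ[ℝ] (Fin m → ℝ), ∀ b j, Φ b j = ∑ i, b i * M i j := by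
    refine ⟨LinearMap.pi fun j => ∑ i, M i j • LinearMap.proj i, fun b j => ?_⟩
    rw [LinearMap.pi_apply, LinearMap.sum_apply]
    refine Finset.sum_congr rfl fun i _ => ?_
    rw [LinearMap.smul_apply, LinearMap.proj_apply, smul_eq_mul, mul_comm]
  have hinj : Function.Injective Φ := by
    rw [injective_iff_map_eq_zero]
    intro b hb
    by_contra hne
    have h2 := ety_neg h0 h1 hne
    have h3 : ∑ i, ∑ j, b i * b j * M i j = ∑ j, b j * Φ b j := by
      rw [Finset.sum_comm]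
      refine Finset.sum_congr rfl fun j _ => ?_
      rw [hΦ, Finset.mul_sum]
      refine Finset.sum_congr rfl fun i _ => ?_
      ring
    rw [h3, hb] at h2
    simp at h2
  obtain ⟨b, hb⟩ := (LinearMap.injective_iff_surjective.1 hinj) c
  exact ⟨b, fun j => by rw [← hΦ, hb]⟩

private theorem ety_le0 {m : ℕ} {M : Fin m → Fin m → ℝ} (h0 : ∀ i j, i ≠ j → 0 ≤ M i j)
    (h1 : ∀ b : Fin m → ℝ, (∀ i, 0 ≤ b i) → b ≠ 0 → ∑ i, ∑ j, b i * b j * M i j < 0)
    {b : Fin m → ℝ} (hb : ∀ j, 0 ≤ ∑ i, b i * M i j) (i : Fin m) : b i ≤ 0 := by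
  have h2 : 0 ≤ ∑ j, max (b j) 0 * ∑ i, b i * M i j :=
    Finset.sum_nonneg fun j _ => mul_nonneg (le_max_right _ _) (hb j)
  have h3 : ∑ j, max (b j) 0 * ∑ i, b i * M i j ≤ ∑ i, ∑ j, max (b i) 0 * max (b j) 0 * M i j := by
    rw [Finset.sum_comm (f := fun i j => max (b i) 0 * max (b j) 0 * M i j)]
    refine Finset.sum_le_sum fun j _ => ?_
    rw [Finset.mul_sum]
    refine Finset.sum_le_sum fun i _ => ?_
    by_cases hij : i = j
    · subst hij
      rcases le_total 0 (b i) with h | h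
      · rw [max_eq_left h]
        exact le_of_eq (by ring)
      · rw [max_eq_right h]
        simp
    · have h4 := h0 i j hij
      have h5 : b i ≤ max (b i) 0 := le_max_left _ _
      have h6 : 0 ≤ max (b j) 0 := le_max_right _ _
      have h7 : max (b j) 0 * (b i * M i j) = b i * (max (b j) 0 * M i j) := by ring
      have h8 : max (b i) 0 * max (b j) 0 * M i j = max (b i) 0 * (max (b j) 0 * M i j) := by ring
      rw [h7, h8]
      exact mul_le_mul_of_nonneg_right h5 (mul_nonneg h6 h4)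
  by_contra hcon
  push Not at hcon
  have h4 := h1 (fun i => max (b i) 0) (fun i => le_max_right _ _) (by
    intro h5
    have h6 := congrFun h5 i
    simp only [Pi.zero_apply] at h6
    rw [max_eq_left hcon.le] at h6
    linarith)
  linarith

/-! ### The exceptional prime divisors -/

private theorem ety_mat [CharZero k] [IsAlgClosed k] [T0Space X.P] (f : Fr ν T l c TR L A)
    (hp : p ∈ closure (CC ν)) (hpp : 0 < TR p p (cR ν A)) {m : ℕ} {z : Fin m → PDiv X} {E : Fin m → Cart X}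
    (h1 : ∀ i, SPr X (z i).η (E i)) (h2 : ∀ i, TR p (cR ν A) (cR ν (E i)) = 0)
    (h3 : ∀ i j, (z i).η = (z j).η → i = j) :
    (∀ i j, i ≠ j → 0 ≤ TR (cR ν (E i)) (cR ν A) (cR ν (E j))) ∧
      ∀ b : Fin m → ℝ, (∀ i, 0 ≤ b i) → b ≠ 0 →
        ∑ i, ∑ j, b i * b j * TR (cR ν (E i)) (cR ν A) (cR ν (E j)) < 0 := by
  have hA : cR ν A ∈ closure (CC ν) := subset_closure (cc_amp f.h.var f.hν f.hA)
  have s12 : ∀ u v w, TR u v w = TR v u w := tr_s12 f.hr f.hν f.hT
  have s23 : ∀ u v w, TR u v w = TR u w v := tr_s23 f.hr f.hν f.hT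
  refine ⟨fun i j hij => ?_, fun b hb hb0 => ?_⟩
  · rw [s12]
    exact pr_pr f (h1 i) (h1 j) (fun h => hij (h3 i j h)) hA
  · obtain ⟨e, he⟩ : ∃ e : Fin r → ℝ, e = ∑ i, b i • cR ν (E i) := ⟨_, rfl⟩
    have hsum : ∑ i, ∑ j, b i * b j * TR (cR ν (E i)) (cR ν A) (cR ν (E j)) = TR (cR ν A) e e := by
      rw [s12 (cR ν A) e e, he]
      simp only [map_sum, map_smul, LinearMap.sum_apply, LinearMap.smul_apply, smul_eq_mul, Finset.mul_sum]
      rw [Finset.sum_comm]
      refine Finset.sum_congr rfl fun i _ => Finset.sum_congr rfl fun j _ => ?_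
      ring
    rw [hsum]
    have h4 : 0 < TR (cR ν A) p p := by
      rw [s12, s23]
      exact hpp
    have h5 : TR (cR ν A) p e = 0 := by
      rw [s12, he]
      simp only [map_sum, map_smul, smul_eq_mul]
      exact Finset.sum_eq_zero fun i _ => by rw [h2 i, mul_zero]
    refine lt_of_le_of_ne (hx_le2 f hA h4 h5) fun h6 => ?_
    have h7 := hx_eq2 f hA h4 h5 h6 (cR ν A)
    rw [s23, he] at h7
    simp only [map_sum, map_smul, smul_eq_mul] at h7
    obtain ⟨i, hi⟩ : ∃ i, b i ≠ 0 := by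
      by_contra hcon
      push Not at hcon
      exact hb0 (funext hcon)
    have hpos : ∀ i, 0 < TR (cR ν A) (cR ν A) (cR ν (E i)) := fun i => by
      rw [f.hT]
      exact Pool.Agent.H24.VP.pos_prm f.h f.hr f.hA f.hA (z i) (h1 i)
    have h8 := (Finset.sum_eq_zero_iff_of_nonneg fun i _ => mul_nonneg (hb i) (hpos i).le).1 h7 i (Finset.mem_univ i)
    rcases mul_eq_zero.1 h8 with h9 | h9
    · exact hi h9
    · exact (hpos i).ne' h9

private theorem ety_bd [CharZero k] [IsAlgClosed k] [T0Space X.P] (f : Fr ν T l c TR L A)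
    (hp : p ∈ closure (CC ν)) (hpp : 0 < TR p p (cR ν A)) {m : ℕ} {z : Fin m → PDiv X} {E : Fin m → Cart X}
    (h1 : ∀ i, SPr X (z i).η (E i)) (h2 : ∀ i, TR p (cR ν A) (cR ν (E i)) = 0)
    (h3 : ∀ i j, (z i).η = (z j).η → i = j) : m ≤ r := by
  obtain ⟨h4, h5⟩ := ety_mat f hp hpp h1 h2 h3
  have hli : LinearIndependent ℝ fun i => cR ν (E i) := by
    rw [Fintype.linearIndependent_iff]
    intro b hb
    by_contra hcon
    have hb0 : b ≠ 0 := fun h => hcon fun i => by rw [h]; rfl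
    have h6 := ety_neg h4 h5 hb0
    have h7 : ∑ i, ∑ j, b i * b j * TR (cR ν (E i)) (cR ν A) (cR ν (E j)) =
        TR (∑ i, b i • cR ν (E i)) (cR ν A) (∑ i, b i • cR ν (E i)) := by
      simp only [map_sum, map_smul, LinearMap.sum_apply, LinearMap.smul_apply, smul_eq_mul, Finset.mul_sum]
      rw [Finset.sum_comm]
      refine Finset.sum_congr rfl fun i _ => Finset.sum_congr rfl fun j _ => ?_
      ring
    rw [h7, hb] at h6
    simp at h6
  have h6 := hli.fintype_card_le_finrank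
  simpa using h6

theorem ex_et [CharZero k] [IsAlgClosed k] [T0Space X.P] (f : Fr ν T l c TR L A) (hp : p ∈ closure (CC ν))
    (hpp : 0 < TR p p (cR ν A)) : ∃ (m : ℕ) (z : Fin m → PDiv X) (E : Fin m → Cart X), Et ν TR A p z E := by
  classical
  obtain ⟨Pr, hPr⟩ : ∃ Pr : ℕ → Prop, ∀ m, Pr m ↔ ∃ (z : Fin m → PDiv X) (E : Fin m → Cart X),
      (∀ i, SPr X (z i).η (E i)) ∧ (∀ i, TR p (cR ν A) (cR ν (E i)) = 0) ∧
        ∀ i j, (z i).η = (z j).η → i = j := ⟨_, fun _ => Iff.rfl⟩
  have hP0 : Pr 0 := (hPr 0).2 ⟨Fin.elim0, Fin.elim0, fun i => i.elim0, fun i => i.elim0, fun i => i.elim0⟩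
  have hbd : ∀ m, Pr m → m ≤ r := by
    intro m hm
    obtain ⟨z, E, h1, h2, h3⟩ := (hPr m).1 hm
    exact ety_bd f hp hpp h1 h2 h3
  obtain ⟨m, hm1, hm2⟩ : ∃ m, Pr m ∧ ¬ Pr (m + 1) := by
    by_contra hcon
    push Not at hcon
    have hall : ∀ m, Pr m := by
      intro m
      induction m with
      | zero => exact hP0
      | succ m ih => exact hcon m ih
    have := hbd (r + 1) (hall _)
    omega
  obtain ⟨z, E, h1, h2, h3⟩ := (hPr m).1 hm1
  obtain ⟨h4, h5⟩ := ety_mat f hp hpp h1 h2 h3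
  have hform : ∀ (b : Fin m → ℝ) (j : Fin m), TR (∑ i, b i • cR ν (E i)) (cR ν A) (cR ν (E j)) =
      ∑ i, b i * TR (cR ν (E i)) (cR ν A) (cR ν (E j)) := by
    intro b j
    simp only [map_sum, map_smul, LinearMap.sum_apply, LinearMap.smul_apply, smul_eq_mul]
  refine ⟨m, z, E, h1, h2, ?_, h3, ?_, ?_⟩
  · intro Q D hD hz
    by_contra hcon
    push Not at hcon
    refine hm2 ((hPr (m + 1)).2 ⟨Fin.cons Q z, Fin.cons D E, ?_, ?_, ?_⟩)
    · intro i
      refine Fin.cases ?_ (fun i => ?_) i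
      · simpa using hD
      · simpa using h1 i
    · intro i
      refine Fin.cases ?_ (fun i => ?_) i
      · simpa using hz
      · simpa using h2 i
    · intro i j
      refine Fin.cases ?_ (fun i => ?_) i
      · refine Fin.cases (fun _ => rfl) (fun j => ?_) j
        intro h
        simp only [Fin.cons_zero, Fin.cons_succ] at h
        exact absurd h (hcon j)
      · refine Fin.cases ?_ (fun j => ?_) j
        · intro h
          simp only [Fin.cons_zero, Fin.cons_succ] at h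
          exact absurd h.symm (hcon i)
        · intro h
          simp only [Fin.cons_succ] at h
          rw [h3 i j h]
  · intro v
    obtain ⟨b, hb⟩ := ety_surj h4 h5 fun j => - TR v (cR ν A) (cR ν (E j))
    refine ⟨b, fun j => ?_⟩
    rw [map_add, LinearMap.add_apply, LinearMap.add_apply, hform, hb]
    ring
  · intro b hb i
    exact ety_le0 h4 h5 (b := b) (fun j => by rw [← hform]; exact hb j) i

end Pool.Agent.H60.ZC
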