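import Pool.Agent.H60.ZC.Frm

/-!
# [H60 ZC Rat] THEOREM C (MP_e49dc9_ag): the span of the face is rational

`p = cR ν P`.
* `vp_z`: `q ∈ Ph`: `z = T(p,p,.)` vanishes on `Vp q` (`vp_tri` or `vp_int`: `z(cR D) = T(P,P,D)` is an integer, `t_int`).
* `vp_nn`: `q ∈ Ph`, `q ≠ 0`: the `y ∈ Vp q` near `q` are nef (`hE.ri`) and `z(y) = 0`: in `Ph`.  So `Vp q ≤ Nn` (`y = q + s u`, `u ∈ Vp q`, `s` small).
* `ph_int`: `q ∈ Ph`: a combination of integral classes of `Ph`: `Vp q` is spanned by integral classes (`vp_sum`: `q = ∑ c j d j`); rational `y ∈ Vp q` near `q` are positive multiples of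
  integral classes of `Ph`, and `Vp q` (an open subset) is spanned by them: for `d` integral in `Vp q`: choose a rational `y₀` near `q` (in `Vp q`: `∑ c' j d j`, `c' j` rational near
  `c j`), `y₀ + s d` with `s > 0` rational small is nef too: `d = ((y₀ + s d) - y₀) / s`.
* `nn_span`: every `w ∈ Nn` is a combination of integral classes of `Ph` (`Submodule.span_induction`).
* `nn_int`: every `w ∈ Nn`: `C p + w` nef for some `C ≥ 0` (`Nn` is spanned by `Ph`, `hE.top` for the negative coefficients, the nef cone is a convex cone).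
* `nn_vp`: `w ∈ Nn`: `Vp w ≤ Nn`: `Nn` is spanned by integral vectors (`nn_span`), so `Nn` is the zero set of integral functionals `φ` (duality over `ℚ`), and `Vp w` satisfies
  `φ · w = 0` (`Vp` is defined by all integral functionals which vanish at `w`).
-/

set_option autoImplicit false

namespace Pool.Agent.H60.ZC

open Pool.Agent.H54.RV Pool.Agent.H83.TU Pool.Agent.H83.TK Pool.Agent.H20.TD Pool.Agent.H20.TP Pool.Agent.H20.RT
open Pool.Agent.H24.VP (RR)

variable {k K : Type} [Field k] [Field K] [Algebra k K] {X : Mod k K} {r : ℕ}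
  {ν : Cart X →* Multiplicative (Fin r → ℤ)} {T : Cart X → Cart X → Cart X → ℝ} {l : Cart X → ℝ} {c : ℝ} {TR : Tri3 r}
  {L : (Fin r → ℝ) →ₗ[ℝ] ℝ} {A : Cart X}

variable {P : Cart X} {q w : Fin r → ℝ}

private theorem cl_addR (hX : IsVar X) (hν : NumR ν) {x y : Fin r → ℝ} (hx : x ∈ closure (CC ν))
    (hy : y ∈ closure (CC ν)) : x + y ∈ closure (CC ν) :=
  map_mem_closure₂ continuous_add hx hy fun _ ha _ hb => cc_add hX hν ha hb

private theorem vp_z [CharZero k] [IsAlgClosed k] [T0Space X.P] (f : Fr ν T l c TR L A)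
    (hq : TR (cR ν P) (cR ν P) q = 0) {u : Fin r → ℝ} (hu : u ∈ Vp q) : TR (cR ν P) (cR ν P) u = 0 := by
  refine vp_int f.hν (F := TR (cR ν P) (cR ν P)) (fun D => ?_) hq hu
  obtain ⟨n, hn⟩ := Pool.Agent.H24.VP.t_int f.hr ⟨A, f.hA⟩ P P D
  exact ⟨n, by rw [f.hT, hn]⟩

private theorem ph_smul {p : Fin r → ℝ} {t : ℝ} (ht : 0 ≤ t) (hq : q ∈ Ph ν TR p) : t • q ∈ Ph ν TR p :=
  ⟨cl_smul ht hq.1, by rw [map_smul, hq.2, smul_zero]⟩

/-- the points of `Vp q` near `q` are in the face -/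
private theorem vp_ph [CharZero k] [IsAlgClosed k] [T0Space X.P] (f : Fr ν T l c TR L A) (hE : Ell ν TR L P)
    (hq : q ∈ Ph ν TR (cR ν P)) (hq0 : q ≠ 0) :
    ∃ e : ℝ, 0 < e ∧ ∀ y ∈ Vp q, ‖y - q‖ < e → y ∈ Ph ν TR (cR ν P) := by
  obtain ⟨e, he, h⟩ := hE.ri q hq hq0
  exact ⟨e, he, fun y hy h1 => ⟨h y hy h1, vp_z f hq.2 hy⟩⟩

/-- the integral classes of the face -/
private def IS (ν : Cart X →* Multiplicative (Fin r → ℤ)) (TR : Tri3 r) (P : Cart X) : Set (Fin r → ℝ) :=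
  {w | ∃ Q : Cart X, cR ν Q ∈ Ph ν TR (cR ν P) ∧ w = cR ν Q}

private theorem ph_int [CharZero k] [IsAlgClosed k] [T0Space X.P] (f : Fr ν T l c TR L A) (hE : Ell ν TR L P)
    (hq : q ∈ Ph ν TR (cR ν P)) : q ∈ Submodule.span ℝ (IS ν TR P) := by
  classical
  by_cases hq0 : q = 0
  · rw [hq0]
    exact Submodule.zero_mem _
  obtain ⟨e, he, hnear⟩ := vp_ph f hE hq hq0
  obtain ⟨cc, d, hd, hsum⟩ := vp_sum q (self_vp q)
  obtain ⟨S, hS⟩ : ∃ S : ℝ, S = ∑ j, ‖rv (d j)‖ := ⟨_, rfl⟩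
  have hSj : ∀ j, ‖rv (d j)‖ ≤ S := fun j => by
    rw [hS]
    exact Finset.single_le_sum (f := fun j => ‖rv (d j)‖) (fun i _ => norm_nonneg _) (Finset.mem_univ j)
  have hS0 : 0 ≤ S := by rw [hS]; positivity
  obtain ⟨N, hN⟩ := exists_nat_gt ((2 * S + 1) / e)
  rw [div_lt_iff₀ he] at hN
  have hN0 : (0 : ℝ) < N := by
    by_contra h
    have h1 : (N : ℝ) * e ≤ 0 := mul_nonpos_of_nonpos_of_nonneg (not_lt.1 h) he.le
    linarith
  obtain ⟨z0, hz0⟩ : ∃ z0 : Fin r → ℤ, z0 = ∑ j, ⌊(N : ℝ) * cc j⌋ • d j := ⟨_, rfl⟩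
  have e1 : rv z0 = ∑ j, (⌊(N : ℝ) * cc j⌋ : ℝ) • rv (d j) := by
    rw [hz0]
    funext i
    simp [rv, Finset.sum_apply]
  have hz0V : rv z0 ∈ Vp q := by
    rw [e1]
    exact Submodule.sum_mem _ fun j _ => Submodule.smul_mem _ _ (hd j)
  have hz0n : ‖rv z0 - (N : ℝ) • q‖ ≤ S := by
    have e2 : rv z0 - (N : ℝ) • q = ∑ j, ((⌊(N : ℝ) * cc j⌋ : ℝ) - N * cc j) • rv (d j) := by
      conv_lhs => rw [hsum]
      rw [Finset.smul_sum, e1, ← Finset.sum_sub_distrib]
      refine Finset.sum_congr rfl fun j _ => ?_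
      rw [smul_smul, sub_smul]
    rw [e2, hS]
    refine (norm_sum_le _ _).trans (Finset.sum_le_sum fun j _ => ?_)
    rw [norm_smul, Real.norm_eq_abs]
    refine mul_le_of_le_one_left (norm_nonneg _) ?_
    rw [abs_le]
    have h3 := Int.lt_floor_add_one ((N : ℝ) * cc j)
    have h4 := Int.floor_le ((N : ℝ) * cc j)
    constructor <;> linarith
  have key : ∀ y : Fin r → ℝ, y ∈ Vp q → ‖y - (N : ℝ) • q‖ ≤ 2 * S → y ∈ Ph ν TR (cR ν P) := by
    intro y hy h1
    have h2 : (N : ℝ)⁻¹ • y ∈ Ph ν TR (cR ν P) := by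
      refine hnear _ (Submodule.smul_mem _ _ hy) ?_
      have h3 : (N : ℝ)⁻¹ • y - q = (N : ℝ)⁻¹ • (y - (N : ℝ) • q) := by
        rw [smul_sub, smul_smul, inv_mul_cancel₀ hN0.ne', one_smul]
      rw [h3, norm_smul, Real.norm_eq_abs, abs_of_pos (inv_pos.2 hN0), inv_mul_lt_iff₀ hN0]
      linarith
    have h3 := ph_smul hN0.le h2
    rwa [smul_smul, mul_inv_cancel₀ hN0.ne', one_smul] at h3
  have hspan : ∀ z : Fin r → ℤ, rv z ∈ Ph ν TR (cR ν P) → rv z ∈ Submodule.span ℝ (IS ν TR P) := by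
    intro z hz
    obtain ⟨Q, hQ⟩ := ci_surj f.hν z
    refine Submodule.subset_span ⟨Q, ?_, ?_⟩
    · change rv (ci ν Q) ∈ _
      rw [hQ]
      exact hz
    · change rv z = rv (ci ν Q)
      rw [hQ]
  have h0 : rv z0 ∈ Submodule.span ℝ (IS ν TR P) := hspan z0 (key _ hz0V (by linarith))
  have hj : ∀ j, rv (d j) ∈ Submodule.span ℝ (IS ν TR P) := by
    intro j
    have h1 : rv (z0 + d j) ∈ Submodule.span ℝ (IS ν TR P) := by
      refine hspan _ (key _ ?_ ?_)
      · rw [rv_add]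
        exact Submodule.add_mem _ hz0V (hd j)
      · rw [rv_add, add_sub_right_comm]
        refine (norm_add_le _ _).trans ?_
        have := hSj j
        linarith
    have h2 : rv (d j) = rv (z0 + d j) - rv z0 := by
      rw [rv_add]
      abel
    rw [h2]
    exact Submodule.sub_mem _ h1 h0
  rw [hsum]
  exact Submodule.sum_mem _ fun j _ => Submodule.smul_mem _ _ (hj j)

/-- a real vector killed by all integral functionals which kill the integral vectors `z i` is in their span -/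
private theorem int_dual {ι : Type} [Fintype ι] (z : ι → Fin r → ℤ) {u : Fin r → ℝ}
    (h : ∀ φ : Fin r → ℤ, (∀ i, rv φ ⬝ᵥ rv (z i) = 0) → rv φ ⬝ᵥ u = 0) :
    u ∈ Submodule.span ℝ (Set.range fun i => rv (z i)) := by
  classical
  obtain ⟨U, hU⟩ : ∃ U : Submodule ℚ (Fin r → ℚ), U = Submodule.span ℚ (Set.range fun i => fun j => ((z i j : ℤ) : ℚ)) :=
    ⟨_, rfl⟩
  obtain ⟨U', hUU'⟩ := Submodule.exists_isCompl U
  obtain ⟨Pr, hPr⟩ : ∃ Pr : (Fin r → ℚ) →ₗ[ℚ] (Fin r → ℚ), Pr = U.subtype ∘ₗ Submodule.projectionOnto U U' hUU' := ⟨_, rfl⟩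
  have hP1 : ∀ v, Pr v ∈ U := fun v => by
    rw [hPr]
    exact Submodule.coe_mem _
  have hP2 : ∀ v ∈ U, Pr v = v := fun v hv => by
    rw [hPr]
    have h1 := Submodule.projectionOnto_apply_left hUU' ⟨v, hv⟩
    exact congrArg Subtype.val h1
  have hzU : ∀ i, (fun j => ((z i j : ℤ) : ℚ)) ∈ U := fun i => by
    rw [hU]
    exact Submodule.subset_span ⟨i, rfl⟩
  have hcoord : ∀ i, u i = ∑ j, (((Pr (Pi.single j 1)) i : ℚ) : ℝ) * u j := by
    intro i
    obtain ⟨g, hg⟩ : ∃ g : (Fin r → ℚ) →ₗ[ℚ] ℚ, g = LinearMap.proj i ∘ₗ (LinearMap.id - Pr) := ⟨_, rfl⟩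
    have hg0 : ∀ v ∈ U, g v = 0 := by
      intro v hv
      rw [hg, LinearMap.comp_apply, LinearMap.sub_apply, LinearMap.id_apply, hP2 v hv, sub_self, map_zero]
    obtain ⟨N, φ, hN, hφ⟩ := Pool.Agent.H32.TN.clear_den fun j => g (Pi.single j 1)
    have h1 : ∀ t, rv φ ⬝ᵥ rv (z t) = 0 := by
      intro t
      have h2 : g (fun j => ((z t j : ℤ) : ℚ)) = ∑ j, ((z t j : ℤ) : ℚ) * g (Pi.single j 1) := by
        rw [LinearMap.pi_apply_eq_sum_univ g]
        refine Finset.sum_congr rfl fun j _ => ?_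
        rw [smul_eq_mul]
        congr 2
        funext j'
        rw [Pi.single_apply]
        simp only [eq_comm]
      have h3 : ∑ j, ((φ j : ℤ) : ℚ) * ((z t j : ℤ) : ℚ) = 0 := by
        rw [← mul_zero (N : ℚ), ← hg0 _ (hzU t), h2, Finset.mul_sum]
        exact Finset.sum_congr rfl fun j _ => by rw [hφ]; ring
      have h4 : ((∑ j, ((φ j : ℤ) : ℚ) * ((z t j : ℤ) : ℚ) : ℚ) : ℝ) = 0 := by rw [h3]; simp
      push_cast at h4
      exact h4
    have h2 := h φ h1
    have h3 : rv φ ⬝ᵥ u = N * ∑ j, ((g (Pi.single j 1) : ℚ) : ℝ) * u j := by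
      rw [dotProduct, Finset.mul_sum]
      refine Finset.sum_congr rfl fun j _ => ?_
      have h4 : ((φ j : ℚ) : ℝ) = ((N * g (Pi.single j 1) : ℚ) : ℝ) := by rw [hφ]
      push_cast at h4
      change (φ j : ℝ) * u j = _
      rw [h4]
      ring
    rw [h3] at h2
    have h4 := (mul_eq_zero.1 h2).resolve_left (by exact_mod_cast hN.ne')
    have h5 : ∀ j, ((g (Pi.single j 1) : ℚ) : ℝ) * u j =
        (if j = i then u j else 0) - (((Pr (Pi.single j 1)) i : ℚ) : ℝ) * u j := by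
      intro j
      rw [hg, LinearMap.comp_apply, LinearMap.sub_apply, LinearMap.id_apply, LinearMap.proj_apply, Pi.sub_apply]
      by_cases hij : j = i
      · subst hij
        rw [Pi.single_eq_same, if_pos rfl]
        push_cast
        ring
      · rw [Pi.single_eq_of_ne (fun h => hij h.symm), if_neg hij]
        push_cast
        ring
    rw [Finset.sum_congr rfl fun j _ => h5 j, Finset.sum_sub_distrib, Finset.sum_ite_eq' Finset.univ i, if_pos (Finset.mem_univ _)] at h4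
    linarith
  have hreal : ∀ v ∈ U, (fun i => ((v i : ℚ) : ℝ)) ∈ Submodule.span ℝ (Set.range fun i => rv (z i)) := by
    intro v hv
    rw [hU, Submodule.mem_span_range_iff_exists_fun] at hv
    obtain ⟨a, rfl⟩ := hv
    have h1 : (fun i => (((∑ t, a t • fun j => ((z t j : ℤ) : ℚ)) i : ℚ) : ℝ)) = ∑ t, ((a t : ℚ) : ℝ) • rv (z t) := by
      funext i
      simp [rv, Finset.sum_apply]
    rw [h1]
    exact Submodule.sum_mem _ fun t _ => Submodule.smul_mem _ _ (Submodule.subset_span ⟨t, rfl⟩)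
  have hu : u = ∑ j, u j • (fun i => (((Pr (Pi.single j 1)) i : ℚ) : ℝ)) := by
    funext i
    rw [Finset.sum_apply, hcoord i]
    refine Finset.sum_congr rfl fun j _ => ?_
    rw [Pi.smul_apply, smul_eq_mul, mul_comm]
  rw [hu]
  exact Submodule.sum_mem _ fun j _ => Submodule.smul_mem _ _ (hreal _ (hP1 _))

theorem vp_nn [CharZero k] [IsAlgClosed k] [T0Space X.P] (f : Fr ν T l c TR L A) (hE : Ell ν TR L P)
    (hq : q ∈ Ph ν TR (cR ν P)) (hq0 : q ≠ 0) : Vp q ≤ Nn ν TR (cR ν P) := by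
  intro u hu
  obtain ⟨e, he, h⟩ := vp_ph f hE hq hq0
  obtain ⟨s, hs⟩ : ∃ s : ℝ, s = e / (2 * (‖u‖ + 1)) := ⟨_, rfl⟩
  have hu1 : 0 < ‖u‖ + 1 := by have := norm_nonneg u; linarith
  have hs0 : 0 < s := by rw [hs]; positivity
  have h1 : q + s • u ∈ Ph ν TR (cR ν P) := by
    refine h _ (Submodule.add_mem _ (self_vp q) (Submodule.smul_mem _ _ hu)) ?_
    rw [add_sub_cancel_left, norm_smul, Real.norm_eq_abs, abs_of_pos hs0, hs, div_mul_eq_mul_div,
      div_lt_iff₀ (by positivity)]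
    nlinarith [norm_nonneg u]
  have h2 : u = s⁻¹ • ((q + s • u) - q) := by
    rw [add_sub_cancel_left, smul_smul, inv_mul_cancel₀ hs0.ne', one_smul]
  rw [h2]
  exact Submodule.smul_mem _ _ (Submodule.sub_mem _ (Submodule.subset_span h1) (Submodule.subset_span hq))

theorem nn_span [CharZero k] [IsAlgClosed k] [T0Space X.P] (f : Fr ν T l c TR L A) (hE : Ell ν TR L P)
    (hw : w ∈ Nn ν TR (cR ν P)) : ∃ (m : ℕ) (a : Fin m → ℝ) (Q : Fin m → Cart X),
      (∀ i, cR ν (Q i) ∈ Ph ν TR (cR ν P)) ∧ w = ∑ i, a i • cR ν (Q i) := by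
  have h1 : w ∈ Submodule.span ℝ (IS ν TR P) :=
    (Submodule.span_le.2 fun q hq => ph_int f hE hq : Nn ν TR (cR ν P) ≤ _) hw
  obtain ⟨m, a, g, hg⟩ := Submodule.mem_span_set'.1 h1
  choose Q hQ1 hQ2 using fun i => (g i).2
  refine ⟨m, a, Q, hQ1, ?_⟩
  rw [← hg]
  exact Finset.sum_congr rfl fun i _ => by rw [hQ2]

theorem nn_int [CharZero k] [IsAlgClosed k] [T0Space X.P] (f : Fr ν T l c TR L A) (hE : Ell ν TR L P)
    (hw : w ∈ Nn ν TR (cR ν P)) : ∃ C : ℝ, 0 ≤ C ∧ C • cR ν P + w ∈ closure (CC ν) := by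
  have key : ∀ x ∈ Nn ν TR (cR ν P), ∃ C : ℝ, 0 ≤ C ∧ C • cR ν P + x ∈ closure (CC ν) ∧
      C • cR ν P - x ∈ closure (CC ν) := by
    intro x hx
    refine Submodule.span_induction (p := fun x _ => ∃ C : ℝ, 0 ≤ C ∧ C • cR ν P + x ∈ closure (CC ν) ∧
      C • cR ν P - x ∈ closure (CC ν)) ?_ ?_ ?_ ?_ hx
    · intro q hq
      obtain ⟨M, hM, h1⟩ := hE.top q hq
      exact ⟨M, hM, cl_addR f.h.var f.hν (cl_smul hM hE.nef) hq.1, h1⟩
    · refine ⟨0, le_rfl, ?_, ?_⟩
      · rw [add_zero]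
        exact cl_smul le_rfl hE.nef
      · rw [sub_zero]
        exact cl_smul le_rfl hE.nef
    · rintro x y - - ⟨C1, h1, h2, h3⟩ ⟨C2, h4, h5, h6⟩
      refine ⟨C1 + C2, add_nonneg h1 h4, ?_, ?_⟩
      · have e : (C1 + C2) • cR ν P + (x + y) = (C1 • cR ν P + x) + (C2 • cR ν P + y) := by
          rw [add_smul]
          abel
        rw [e]
        exact cl_addR f.h.var f.hν h2 h5
      · have e : (C1 + C2) • cR ν P - (x + y) = (C1 • cR ν P - x) + (C2 • cR ν P - y) := by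
          rw [add_smul]
          abel
        rw [e]
        exact cl_addR f.h.var f.hν h3 h6
    · rintro a x - ⟨C, h1, h2, h3⟩
      rcases le_or_gt 0 a with ha | ha
      · refine ⟨a * C, mul_nonneg ha h1, ?_, ?_⟩
        · rw [mul_smul, ← smul_add]
          exact cl_smul ha h2
        · rw [mul_smul, ← smul_sub]
          exact cl_smul ha h3
      · refine ⟨-a * C, mul_nonneg (by linarith) h1, ?_, ?_⟩
        · have e : (-a * C) • cR ν P + a • x = (-a) • (C • cR ν P - x) := by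
            rw [mul_smul, smul_sub, neg_smul a x]
            abel
          rw [e]
          exact cl_smul (by linarith) h3
        · have e : (-a * C) • cR ν P - a • x = (-a) • (C • cR ν P + x) := by
            rw [mul_smul, smul_add, neg_smul a x]
            abel
          rw [e]
          exact cl_smul (by linarith) h2
  obtain ⟨C, h1, h2, -⟩ := key w hw
  exact ⟨C, h1, h2⟩

theorem nn_vp [CharZero k] [IsAlgClosed k] [T0Space X.P] (f : Fr ν T l c TR L A) (hE : Ell ν TR L P)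
    (hw : w ∈ Nn ν TR (cR ν P)) : Vp w ≤ Nn ν TR (cR ν P) := by
  intro u hu
  obtain ⟨m, a, Q, hQ, hw'⟩ := nn_span f hE hw
  have h1 : u ∈ Submodule.span ℝ (Set.range fun i => rv (ci ν (Q i))) := by
    refine int_dual (fun i => ci ν (Q i)) fun φ hφ => ?_
    refine mem_vp.1 hu φ ?_
    rw [hw', dotProduct_sum]
    refine Finset.sum_eq_zero fun i _ => ?_
    rw [dotProduct_smul]
    have h2 := hφ i
    change a i • (rv φ ⬝ᵥ rv (ci ν (Q i))) = 0
    rw [h2, smul_zero]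
  refine (Submodule.span_le.2 ?_ : Submodule.span ℝ (Set.range fun i => rv (ci ν (Q i))) ≤ _) h1
  rintro _ ⟨i, rfl⟩
  exact Submodule.subset_span (hQ i)

end Pool.Agent.H60.ZC
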