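import Pool.Agent.H60.ZC.Sum
import Pool.Agent.H60.ZC.Rat
import Pool.Agent.H60.ZC.Ety
import Pool.Agent.H24.RC.LowN
import Pool.Agent.H41.RA.Rad

/-!
# [H60 ZC Rad] THEOREM C (MP_e49dc9_ag): RAD: `Uu` is the span of the face and of the exceptional prime divisors

`u ∈ Uu`: `u = n + ∑ b i E i` with `n ∈ Nn`.  (helper41: `rad` in H41/RA/Rad.lean is the main step.)
PROOF. (1) `u = cR U` integral, `T(p,u,.) = 0`.  `b` rational with `T(u₀,A,E j) = 0`, `u₀ = u + ∑ b i E i` (`Et.proj`; the solution of an integral linear system, unique, so rational).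
  `T(p,E i,.) = 0` (`hs_nn`).  `M` = a product of powers of the `E i` with exponents `≥ |b i|`.  `low_nu` / `low_w` at `p`: `P ^ n U M⁻¹` and `P ^ n U⁻¹ M⁻¹` have sections for large `n`:
  `T(p,p,w) = 0`, `T(p,w,w) = 0` for `w = ± u - M` , so `chi = n l(P) + const`.  So `n p ± u₀` is a combination with coefficients `≥ 0` of effective classes and of the `E i`; their components
  `D` are vertical.  `T(u₀,u₀,D) ≤ 0`: `hs_le` with `q = p` if `T(p,A,D) > 0` (`T(p,u₀,D) = 0`), `hs_le'` if `D = E i`.  Sum: `T(u₀,u₀,n p ± u₀) = ± T(u₀,u₀,u₀) ≤ 0` (`T(p,u₀,u₀) = 0`), so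
  `= 0` and all terms with positive coefficient are `0`: `hs_eq`: `dR y u₀ = c_D dR y p` on `D`, `hs_eq'`: `dR y u₀ = 0` on `E i`.  So for `t` large `t p ± u₀` has `dR ≥ 0` on all curves
  (finitely many `D`; outside of them by the sections): nef (`klm`).  `z(t p + u₀) = 0`, so `u₀ ∈ Nn`.
(2) `u ∈ Uu` real: `T(p,u,.) = a z`, `a = T(p,u,A) / z(A)`; `u' = u - a p` has `T(p,u',.) = 0`; `u' = ∑ c j d j` with `d j` integral in `Vp u'` (`vp_sum`), and `T(p,d j,.) = 0` by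
  `vp_tri`; add up.
-/

set_option autoImplicit false

namespace Pool.Agent.H60.ZC

open Pool.Agent.H54.RV Pool.Agent.H83.TU Pool.Agent.H83.TK Pool.Agent.H20.TD Pool.Agent.H20.TP Pool.Agent.H20.RT
open Pool.Agent.H24.VP (RR)
open Pool.Agent.H41.RA (Ort cR_pow cR_inv dR_eff crv_alt vv_np sec_u)

variable {k K : Type} [Field k] [Field K] [Algebra k K] {X : Mod k K} {r : ℕ}
  {ν : Cart X →* Multiplicative (Fin r → ℤ)} {T : Cart X → Cart X → Cart X → ℝ} {l : Cart X → ℝ} {c : ℝ} {TR : Tri3 r}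
  {L : (Fin r → ℝ) →ₗ[ℝ] ℝ} {A : Cart X}

variable {P : Cart X} {u : Fin r → ℝ} {m : ℕ} {z : Fin m → PDiv X} {E : Fin m → Cart X}

private theorem vv_np' [CharZero k] [IsAlgClosed k] [T0Space X.P] (f : Fr ν T l c TR L A) {p v : Fin r → ℝ}
    (hEt : Et ν TR A p z E) (hp : p ∈ closure (CC ν)) (ho : Ort TR ν A p v) {W : Cart X} (hW : 0 < h0 W 1)
    (hpW : TR p p (cR ν W) = 0) {a : Fin m → ℝ} (ha : ∀ i, 0 ≤ a i) (hpE : ∀ i w, TR p w (cR ν (E i)) = 0) :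
    TR v v (cR ν W + ∑ i, a i • cR ν (E i)) ≤ 0 := by
  rw [map_add, map_sum]
  have h1 := vv_np f.h f.hr f.hν f.hT f.hA hp ho hW hpW
  have h2 : ∑ i, TR v v (a i • cR ν (E i)) ≤ 0 := by
    refine Finset.sum_nonpos fun i _ => ?_
    rw [map_smul, smul_eq_mul]
    refine mul_nonpos_of_nonneg_of_nonpos (ha i) ?_
    exact (Pool.Agent.H41.RA.hs_le f.h f.hr f.hν f.hT (trdeg_pdiv f.h (z i)) (hEt.spr i) f.hA (hpE i p)
      (hpE i v) (fun h3 => ho.av _ _ (hEt.spr i) (hpE i p) h3)).1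
  linarith

private theorem crv_alt' [CharZero k] [IsAlgClosed k] [T0Space X.P] (f : Fr ν T l c TR L A) {p v : Fin r → ℝ}
    (hEt : Et ν TR A p z E) (hp : p ∈ closure (CC ν)) (ho : Ort TR ν A p v) {W : Cart X} (hW : 0 < h0 W 1)
    (hpW : TR p p (cR ν W) = 0) {a : Fin m → ℝ} (ha : ∀ i, 0 ≤ a i) (hpE : ∀ i w, TR p w (cR ν (E i)) = 0)
    (h0' : TR v v (cR ν W + ∑ i, a i • cR ν (E i)) = 0) :
    ∃ C : ℝ, 0 ≤ C ∧ ∀ x : X.P, Algebra.trdeg k (X.kap x) = 1 →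
      0 ≤ dR f.hν f.h.var x (cR ν W + ∑ i, a i • cR ν (E i)) ∨
      ∃ q : ℝ, |q| ≤ C ∧ dR f.hν f.h.var x v = q * dR f.hν f.h.var x p := by
  classical
  have hle : ∀ i, TR v v (cR ν (E i)) ≤ 0 := fun i =>
    (Pool.Agent.H41.RA.hs_le f.h f.hr f.hν f.hT (trdeg_pdiv f.h (z i)) (hEt.spr i) f.hA (hpE i p)
      (hpE i v) (fun h3 => ho.av _ _ (hEt.spr i) (hpE i p) h3)).1
  have hle2 : ∀ i, TR v v (a i • cR ν (E i)) ≤ 0 := fun i => by
    rw [map_smul, smul_eq_mul]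
    exact mul_nonpos_of_nonneg_of_nonpos (ha i) (hle i)
  have h1 := vv_np f.h f.hr f.hν f.hT f.hA hp ho hW hpW
  rw [map_add, map_sum] at h0'
  have h2 : ∑ i, TR v v (a i • cR ν (E i)) ≤ 0 := Finset.sum_nonpos fun i _ => hle2 i
  have h3 : TR v v (cR ν W) = 0 := by linarith
  have h4 : ∑ i, TR v v (a i • cR ν (E i)) = 0 := by linarith
  have h5 : ∀ i, a i = 0 ∨ TR v v (cR ν (E i)) = 0 := by
    intro i
    have h6 := (Finset.sum_eq_zero_iff_of_nonpos fun i _ => hle2 i).1 h4 i (Finset.mem_univ i)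
    rw [map_smul, smul_eq_mul] at h6
    exact mul_eq_zero.1 h6
  obtain ⟨C, hC, h6⟩ := crv_alt f.h f.hr f.hν f.hT f.hA hp ho hW hpW h3
  have h7 : ∀ i, ∃ q : ℝ, a i ≠ 0 → ∀ y, Cv (z i).η y → dR f.hν f.h.var y v = q * dR f.hν f.h.var y p := by
    intro i
    by_cases hi : a i = 0
    · exact ⟨0, fun h8 => absurd hi h8⟩
    · obtain ⟨q, hq⟩ := (Pool.Agent.H41.RA.hs_le f.h f.hr f.hν f.hT (trdeg_pdiv f.h (z i)) (hEt.spr i) f.hA
        (hpE i p) (hpE i v) (fun h3 => ho.av _ _ (hEt.spr i) (hpE i p) h3)).2 ((h5 i).resolve_left hi)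
      exact ⟨q, fun _ => hq⟩
  choose q hq using h7
  refine ⟨C + ∑ i, |q i|, by positivity, fun x hx => ?_⟩
  have h8 : ∀ i, |q i| ≤ ∑ i, |q i| := fun i =>
    Finset.single_le_sum (f := fun i => |q i|) (fun i _ => abs_nonneg _) (Finset.mem_univ i)
  by_cases hxE : ∃ i, a i ≠ 0 ∧ (z i).η ⤳ x
  · obtain ⟨i, hi, hix⟩ := hxE
    exact Or.inr ⟨q i, by linarith [h8 i], hq i hi x ⟨hix, hx⟩⟩
  · push Not at hxE
    rcases h6 x hx with h9 | ⟨q', hq', h9⟩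
    · refine Or.inl ?_
      rw [map_add, map_sum]
      refine add_nonneg h9 (Finset.sum_nonneg fun i _ => ?_)
      rw [map_smul, smul_eq_mul]
      by_cases hi : a i = 0
      · rw [hi, zero_mul]
      · exact mul_nonneg (ha i) (dR_eff f.h f.hν (hEt.spr i).eff ((hEt.spr i).un x (hxE i hi)) hx)
    · refine Or.inr ⟨q', ?_, h9⟩
      have : 0 ≤ ∑ i, |q i| := Finset.sum_nonneg fun i _ => abs_nonneg _
      linarith

/-- the main step, with nonnegative combinations of the exceptional divisors -/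
private theorem rad' [CharZero k] [IsAlgClosed k] [T0Space X.P] (f : Fr ν T l c TR L A) {p v : Fin r → ℝ}
    (hEt : Et ν TR A p z E) (hp : p ∈ closure (CC ν)) (hppp : TR p p p = 0) (hpv : ∀ w, TR p v w = 0)
    (ho : Ort TR ν A p v) {W₁ W₂ : Cart X} (h1 : 0 < h0 W₁ 1) (h2 : 0 < h0 W₂ 1) {n : ℝ} (hn : 0 ≤ n)
    {a₁ a₂ : Fin m → ℝ} (ha₁ : ∀ i, 0 ≤ a₁ i) (ha₂ : ∀ i, 0 ≤ a₂ i) (hpE : ∀ i w, TR p w (cR ν (E i)) = 0)
    (e1 : n • p + v = cR ν W₁ + ∑ i, a₁ i • cR ν (E i)) (e2 : n • p - v = cR ν W₂ + ∑ i, a₂ i • cR ν (E i)) :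
    ∃ s : ℝ, 0 < s ∧ p + s • v ∈ closure (CC ν) := by
  have hs12 := tr_s12 f.hr f.hν f.hT
  have hs23 := tr_s23 f.hr f.hν f.hT
  have x1 : TR p p v = 0 := by rw [hs23, hpv]
  have x2 : TR v v p = 0 := by rw [hs23, hs12, hpv]
  have key : ∀ (W : Cart X) (a : Fin m → ℝ), TR p p (cR ν W + ∑ i, a i • cR ν (E i)) = 0 → TR p p (cR ν W) = 0 := by
    intro W a h3
    rw [map_add, map_sum, Finset.sum_eq_zero, add_zero] at h3
    · exact h3
    · intro i _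
      rw [map_smul, hpE, smul_zero]
  have b1 : TR p p (cR ν W₁) = 0 := key W₁ a₁ (by rw [← e1, map_add, map_smul, hppp, x1, smul_zero, zero_add])
  have b2 : TR p p (cR ν W₂) = 0 := key W₂ a₂ (by rw [← e2, map_sub, map_smul, hppp, x1, smul_zero, sub_zero])
  have d1 := vv_np' f hEt hp ho h1 b1 ha₁ hpE
  have d2 := vv_np' f hEt hp ho h2 b2 ha₂ hpE
  have c1 : TR v v (n • p + v) = TR v v v := by rw [map_add, map_smul, x2, smul_zero, zero_add]
  have c2 : TR v v (n • p - v) = - TR v v v := by rw [map_sub, map_smul, x2, smul_zero, zero_sub]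
  rw [← e1, c1] at d1
  rw [← e2, c2] at d2
  have d3 : TR v v v = 0 := by linarith
  obtain ⟨C, hC, f1⟩ := crv_alt' f hEt hp ho h1 b1 ha₁ hpE (by rw [← e1, c1, d3])
  have hden : 0 < C + n + 1 := by linarith
  refine ⟨1 / (C + n + 1), by positivity, Pool.Agent.H89.RS.klm f.h f.hr f.hν f.hT fun x hx => ?_⟩
  obtain ⟨s, hs⟩ : ∃ s, s = 1 / (C + n + 1) := ⟨_, rfl⟩
  have hs0 : 0 < s := by rw [hs]; positivity
  have hs1 : s * (C + n + 1) = 1 := by rw [hs, one_div, inv_mul_cancel₀ hden.ne']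
  rw [← hs]
  have hdp := dR_nef f.hν f.h.var f.hA hx hp
  rcases f1 x hx with h3 | ⟨q, hq, h3⟩
  · rw [← e1, map_add, map_smul, smul_eq_mul] at h3
    rw [map_add, map_smul, smul_eq_mul]
    have h4 : s * n ≤ 1 := by nlinarith [mul_nonneg hs0.le hC]
    nlinarith [mul_nonneg hs0.le h3, mul_nonneg (sub_nonneg.2 h4) hdp]
  · rw [map_add, map_smul, smul_eq_mul, h3]
    have h4 : -(s * C) ≤ s * q := by
      have := mul_le_mul_of_nonneg_left (abs_le.1 hq).1 hs0.le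
      linarith
    have h5 : 0 ≤ 1 + s * q := by nlinarith [mul_nonneg hs0.le hn]
    nlinarith [mul_nonneg h5 hdp]

/-- integral classes -/
private theorem uu_int [CharZero k] [IsAlgClosed k] [T0Space X.P] (f : Fr ν T l c TR L A) (hE : Ell ν TR L P)
    (hEt : Et ν TR A (cR ν P) z E) {U : Cart X} (hu : ∀ w, TR (cR ν P) (cR ν U) w = 0) :
    ∃ n ∈ Nn ν TR (cR ν P), ∃ b : Fin m → ℝ, cR ν U = n + ∑ i, b i • cR ν (E i) := by
  classical
  have hs12 := tr_s12 f.hr f.hν f.hT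
  have hs23 := tr_s23 f.hr f.hν f.hT
  obtain ⟨p, hpd⟩ : ∃ p, p = cR ν P := ⟨_, rfl⟩
  have hpp := pp_pos f.h f.hr f.hν f.hT f.hA hE.nef hE.sq
  have hpP : cR ν P ∈ Ph ν TR (cR ν P) := ⟨hE.nef, hE.c3⟩
  have hP0 : cR ν P ≠ 0 := by
    intro h1
    apply hE.sq
    rw [h1, map_zero]
  have hl : 0 < l P := by
    have h1 := hE.lp _ hpP hP0
    rwa [f.hL] at h1
  have hpE : ∀ i w, TR (cR ν P) w (cR ν (E i)) = 0 := fun i w =>
    ks_zero f.hν (ms_zero f.h f.hr f.hν f.hT (trdeg_pdiv f.h (z i)) (hEt.spr i) f.hA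
      (ms_nef f.h f.hr f.hν f.hT (trdeg_pdiv f.h (z i)) (hEt.spr i) hE.nef) (hEt.zero i)) w
  obtain ⟨b, hb⟩ := hEt.proj (cR ν U)
  obtain ⟨v, hv⟩ : ∃ v, v = cR ν U + ∑ i, b i • cR ν (E i) := ⟨_, rfl⟩
  rw [← hv] at hb
  have hpE' : ∀ i w, TR (cR ν P) (cR ν (E i)) w = 0 := fun i w => by rw [hs23, hpE]
  have hpv : ∀ w, TR (cR ν P) v w = 0 := by
    intro w
    rw [hv, map_add, map_sum, LinearMap.add_apply, hu, zero_add, LinearMap.sum_apply]
    refine Finset.sum_eq_zero fun i _ => ?_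
    rw [map_smul, LinearMap.smul_apply, hpE', smul_zero]
  choose e he using fun i => exists_nat_ge |b i|
  obtain ⟨M, hM⟩ : ∃ M : Cart X, M = ∏ i, E i ^ e i := ⟨_, rfl⟩
  have hMc : cR ν M = ∑ i, (e i : ℝ) • cR ν (E i) := by
    have h1 : ∀ s : Finset (Fin m), cR ν (∏ i ∈ s, E i ^ e i) = ∑ i ∈ s, (e i : ℝ) • cR ν (E i) := by
      intro s
      induction s using Finset.induction_on with
      | empty => rw [Finset.prod_empty, Finset.sum_empty, cR_one]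
      | insert a s ha ih => rw [Finset.prod_insert ha, Finset.sum_insert ha, cR_mul, cR_pow, ih]
    rw [hM]
    exact h1 Finset.univ
  have hpM : ∀ w, TR (cR ν P) (cR ν M) w = 0 := by
    intro w
    rw [hMc, map_sum, LinearMap.sum_apply]
    refine Finset.sum_eq_zero fun i _ => ?_
    rw [map_smul, LinearMap.smul_apply, hpE', smul_zero]
  obtain ⟨n₁, hn₁⟩ := sec_u f.h f.hr f.hν f.hT f.hA (u := U * M⁻¹) hE.nef hE.c3 hpp hl (fun w => by
    rw [cR_mul, cR_inv, map_add, map_neg, LinearMap.add_apply, LinearMap.neg_apply, hu, hpM, neg_zero, add_zero])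
  obtain ⟨n₂, hn₂⟩ := sec_u f.h f.hr f.hν f.hT f.hA (u := U⁻¹ * M⁻¹) hE.nef hE.c3 hpp hl (fun w => by
    rw [cR_mul, cR_inv, cR_inv, map_add, map_neg, map_neg, LinearMap.add_apply, LinearMap.neg_apply,
      LinearMap.neg_apply, hu, hpM, neg_zero, add_zero])
  have k1 := hn₁ (n₁ + n₂) (Nat.le_add_right _ _)
  have k2 := hn₂ (n₁ + n₂) (Nat.le_add_left _ _)
  have hbe : ∀ i, 0 ≤ (e i : ℝ) + b i ∧ 0 ≤ (e i : ℝ) - b i := fun i => by
    have h1 := (abs_le.1 (he i))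
    constructor <;> linarith [h1.1, h1.2]
  have e1 : ((n₁ + n₂ : ℕ) : ℝ) • cR ν P + v = cR ν (P ^ (n₁ + n₂) * (U * M⁻¹)) +
      ∑ i, ((e i : ℝ) + b i) • cR ν (E i) := by
    rw [cR_mul, cR_mul, cR_pow, cR_inv, hMc, hv]
    simp only [add_smul, Finset.sum_add_distrib]
    abel
  have e2 : ((n₁ + n₂ : ℕ) : ℝ) • cR ν P - v = cR ν (P ^ (n₁ + n₂) * (U⁻¹ * M⁻¹)) +
      ∑ i, ((e i : ℝ) - b i) • cR ν (E i) := by
    rw [cR_mul, cR_mul, cR_pow, cR_inv, cR_inv, hMc, hv]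
    simp only [sub_smul, Finset.sum_sub_distrib]
    abel
  have ho : Ort TR ν A (cR ν P) v := by
    refine ⟨fun _ _ _ _ => hpv _, fun Q D hD h3 h4 => ?_⟩
    obtain ⟨i, hi⟩ := hEt.all Q D hD h4
    have h5 := hb i
    rw [← Pool.Agent.H89.RT.spr_R f.h f.hr f.hν f.hT hD (by rw [hi]; exact hEt.spr i)] at h5
    exact h5
  obtain ⟨s, hs, h3⟩ := rad' f hEt hE.nef hE.c3 hpv ho k1 k2 (n := ((n₁ + n₂ : ℕ) : ℝ)) (Nat.cast_nonneg _)
    (fun i => (hbe i).1) (fun i => (hbe i).2) hpE e1 e2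
  have h4 : cR ν P + s • v ∈ Nn ν TR (cR ν P) := Submodule.subset_span ⟨h3, by
    rw [map_add, map_smul, hE.c3, hs23, hpv, smul_zero, add_zero]⟩
  have h5 : v ∈ Nn ν TR (cR ν P) := by
    have h6 := Submodule.smul_mem _ s⁻¹ (Submodule.sub_mem _ h4 (Submodule.subset_span hpP))
    rwa [add_sub_cancel_left, smul_smul, inv_mul_cancel₀ hs.ne', one_smul] at h6
  refine ⟨v, h5, fun i => - b i, ?_⟩
  rw [hv]
  simp only [neg_smul, Finset.sum_neg_distrib]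
  abel

theorem uu_dec [CharZero k] [IsAlgClosed k] [T0Space X.P] (f : Fr ν T l c TR L A) (hE : Ell ν TR L P)
    (hEt : Et ν TR A (cR ν P) z E) (hu : u ∈ Uu TR (cR ν P)) :
    ∃ n ∈ Nn ν TR (cR ν P), ∃ b : Fin m → ℝ, u = n + ∑ i, b i • cR ν (E i) := by
  classical
  obtain ⟨a, ha⟩ := hu
  obtain ⟨u', hu'⟩ : ∃ u', u' = u - a • cR ν P := ⟨_, rfl⟩
  have h1 : ∀ v, TR (cR ν P) u' v = 0 := by
    intro v
    rw [hu', map_sub, map_smul, LinearMap.sub_apply, LinearMap.smul_apply, ha, smul_eq_mul, sub_self]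
  obtain ⟨q, d, h2, h3⟩ := vp_sum u' (self_vp u')
  have h4 : ∀ j, ∃ n ∈ Nn ν TR (cR ν P), ∃ b : Fin m → ℝ, rv (d j) = n + ∑ i, b i • cR ν (E i) := by
    intro j
    obtain ⟨D, hD⟩ := ci_surj f.hν (d j)
    have h5 : rv (d j) = cR ν D := by
      change _ = rv (ci ν D)
      rw [hD]
    have h6 : TR (cR ν P) (cR ν D) = 0 := ext_uniq f.hν fun V => by
      have h7 := vp_tri f.hr f.hν f.hT (U := P) (V := V) ⟨A, f.hA⟩ (by rw [tr_s12 f.hr f.hν f.hT]; exact h1 _) (h2 j)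
      rw [h5, tr_s12 f.hr f.hν f.hT] at h7
      exact h7
    rw [h5]
    exact uu_int f hE hEt fun w => by rw [h6]; rfl
  choose n hn b hb using h4
  refine ⟨a • cR ν P + ∑ j, q j • n j, Submodule.add_mem _ (Submodule.smul_mem _ _
    (Submodule.subset_span ⟨hE.nef, hE.c3⟩)) (Submodule.sum_mem _ fun j _ => Submodule.smul_mem _ _ (hn j)),
    fun i => ∑ j, q j * b j i, ?_⟩
  have h5 : u = a • cR ν P + u' := by rw [hu']; abel
  rw [h5, h3]
  have h6 : ∑ j, q j • rv (d j) = ∑ j, q j • n j + ∑ i, (∑ j, q j * b j i) • cR ν (E i) := by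
    simp only [hb, smul_add, Finset.sum_add_distrib, Finset.smul_sum, Finset.sum_smul, smul_smul]
    rw [add_right_inj, Finset.sum_comm]
  rw [h6, ← add_assoc]

end Pool.Agent.H60.ZC
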