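import Pool.Agent.H60.ZC.Th
import Pool.Agent.H60.ZC.Nb
import Pool.Agent.H60.ZC.Rad

/-!
# [H60 ZC Bn] THEOREM C (MP_e49dc9_ag): `B(u,u)` is nef

`u ∈ K1`, `b ∈ Nn` with `T(b,w,.) = - T(u,u,w) z` for `w ∈ Nn`: `b` is nef.
PROOF. `(w,w') := ip`: `(b,w) = - T(u,u,w)`.  For `q ∈ Ph`, `q ≠ 0`: `(b,q) ≥ 0`: form `T(q,.,.)`: `T(q,p,p) = 0`, `T(q,p,u) = (q,p) z(u) = 0` (`form`), `T(q,p,A) > 0` (`pqa`): `T(q,u,u) ≤ 0`
(`hx_le`).  Suppose `b` is not nef.  `s ∈ [0,1)` maximal with `q = (1-s) p + s b` nef (closed convex set).  `z(q) = 0`: `q ∈ Ph`; `(p,q) = (1-s)(p,p) + s(b,p) > 0`, so `q ≠ 0`;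
`(q,q) = (1-s)(p,q) + s(b,q) > 0`.  `nb` at `q`: for `s' > s` near `s`, `w = (1-s') p + s' b` is not nef, so there is a prime divisor `D₀` with `T(q,A,D₀) = 0`, `T(w,A,D₀) < 0`, so
`T(b,A,D₀) < 0` and then `T(p,A,D₀) > 0` (`T(q,A,D₀) = 0`, `s > 0`; `s = 0` would give `q = p`, `T(p,A,D₀) = 0`, and then `T(p,.,D₀) = 0` and `± b + C p` nef give `T(b,A,D₀) = 0`).  `D₀` is
vertical: `T(q,.,D₀) = 0` (`hs_nn`), `T(q,q,.) = (q,q) z`.  `th`: `Ls`, `Θ`.  `Et` (`ex_et`), `u₀ = u + ∑ a i E i` with `T(u₀,A,E j) = 0`.  `T(w,E i,.) = 0` for `w ∈ Nn` (`hs_nn` for `p`, `nn_int`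
for `± w`).  So `T(u₀,u₀,w) = T(u,u,w)`.  For `D ∈ Ls`: `T(p,u₀,D) = T(p,u,D) = 0` (`u ∈ K1`), so `T(u₀,u₀,D) ≤ 0` (`hs_le`): `T(u₀,u₀,Θ) ≤ 0`.  `uu_dec`: `Θ = Θ' + ∑ e i E i`, `Θ' ∈ Nn`.
`T(Θ,A,E j) ≥ 0` (`pr_pr`: `D ≠ E j`), `= T(∑ e i E i,A,E j)`: `e i ≤ 0` (`Et.neg`).  `T(u₀,u₀,E i) ≤ 0` (`hs_le'`).  `T(u₀,u₀,Θ') = T(u₀,u₀,Θ) - ∑ e i T(u₀,u₀,E i) ≤ 0`, that is
`- (b,Θ') ≤ 0`.  But `(b,Θ') z(A) = T(b,Θ',A) = T(b,A,Θ) < 0` (`T(b,E i,.) = 0`).  Contradiction.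
-/

set_option autoImplicit false

namespace Pool.Agent.H60.ZC

open Pool.Agent.H54.RV Pool.Agent.H83.TU Pool.Agent.H83.TK Pool.Agent.H20.TD Pool.Agent.H20.TP Pool.Agent.H20.RT
open Pool.Agent.H24.VP (RR)

variable {k K : Type} [Field k] [Field K] [Algebra k K] {X : Mod k K} {r : ℕ}
  {ν : Cart X →* Multiplicative (Fin r → ℤ)} {T : Cart X → Cart X → Cart X → ℝ} {l : Cart X → ℝ} {c : ℝ} {TR : Tri3 r}
  {L : (Fin r → ℝ) →ₗ[ℝ] ℝ} {A : Cart X}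

variable {P : Cart X} {u b : Fin r → ℝ}

private theorem bn_list (v w : Fin r → ℝ) (Ls : List (PDiv X × Cart X)) :
    TR v w (cR ν (Ls.map Prod.snd).prod) = (Ls.map fun x => TR v w (cR ν x.2)).sum := by
  induction Ls with
  | nil =>
    rw [List.map_nil, List.prod_nil, List.map_nil, List.sum_nil, cR_one, map_zero]
  | cons x Ls ih =>
    rw [List.map_cons, List.prod_cons, List.map_cons, List.sum_cons, cR_mul, map_add, ih]

private theorem bn_sum_le {α : Type*} (g : α → ℝ) (Ls : List α) (h : ∀ x ∈ Ls, g x ≤ 0) :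
    (Ls.map g).sum ≤ 0 := by
  induction Ls with
  | nil => simp
  | cons x Ls ih =>
    rw [List.map_cons, List.sum_cons]
    have h1 := h x List.mem_cons_self
    have h2 := ih fun y hy => h y (List.mem_cons_of_mem _ hy)
    linarith

private theorem bn_sum_lt {α : Type*} (g : α → ℝ) (Ls : List α) (hne : Ls ≠ []) (h : ∀ x ∈ Ls, g x < 0) :
    (Ls.map g).sum < 0 := by
  cases Ls with
  | nil => exact absurd rfl hne
  | cons x Ls =>
    rw [List.map_cons, List.sum_cons]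
    have h1 := h x List.mem_cons_self
    have h2 := bn_sum_le g Ls fun y hy => (h y (List.mem_cons_of_mem _ hy)).le
    linarith

/-- classes of the span of the face are orthogonal to the prime divisors with `T(p,A,D) = 0` -/
private theorem bn_nn [CharZero k] [IsAlgClosed k] [T0Space X.P] (f : Fr ν T l c TR L A) (hE : Ell ν TR L P)
    {w : Fin r → ℝ} (hw : w ∈ Nn ν TR (cR ν P)) {Q : PDiv X} {D : Cart X} (hD : SPr X Q.η D)
    (h0 : TR (cR ν P) (cR ν A) (cR ν D) = 0) (v : Fin r → ℝ) : TR w v (cR ν D) = 0 := by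
  have hAC : cR ν A ∈ closure (CC ν) := subset_closure (cc_amp f.h.var f.hν f.hA)
  have hp := (hs_nn f hD hE.nef h0).1
  obtain ⟨C, hC, h1⟩ := nn_int f hE hw
  obtain ⟨C', hC', h2⟩ := nn_int f hE (Submodule.neg_mem _ hw)
  have e1 : TR (C • cR ν P + w) (cR ν A) (cR ν D) = TR w (cR ν A) (cR ν D) := by
    rw [map_add, map_smul, LinearMap.add_apply, LinearMap.add_apply, LinearMap.smul_apply,
      LinearMap.smul_apply, h0, smul_zero, zero_add]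
  have e2 : TR (C' • cR ν P + -w) (cR ν A) (cR ν D) = -TR w (cR ν A) (cR ν D) := by
    rw [map_add, map_smul, map_neg, LinearMap.add_apply, LinearMap.add_apply, LinearMap.smul_apply,
      LinearMap.smul_apply, LinearMap.neg_apply, LinearMap.neg_apply, h0, smul_zero, zero_add]
  have h3 := pr_nn f hD h1 hAC
  have h4 := pr_nn f hD h2 hAC
  rw [e1] at h3
  rw [e2] at h4
  have h5 : TR w (cR ν A) (cR ν D) = 0 := by linarith
  have h6 := (hs_nn f hD h1 (e1.trans h5)).1 v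
  rw [map_add, map_smul, LinearMap.add_apply, LinearMap.add_apply, LinearMap.smul_apply,
    LinearMap.smul_apply, hp v, smul_zero, zero_add] at h6
  exact h6

/-- the last member of the segment from `p` to `b` in the nef cone -/
private theorem bn_seg {C : Set (Fin r → ℝ)} (hC : IsClosed C) {p b : Fin r → ℝ} (hp : p ∈ C) (hb : b ∉ C)
    {ρf : (Fin r → ℝ) → ℝ} (hρ : ∀ s : ℝ, 0 ≤ s → s < 1 → (1 - s) • p + s • b ∈ C → 0 < ρf ((1 - s) • p + s • b)) :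
    ∃ s t : ℝ, 0 ≤ s ∧ s < t ∧ t ≤ 1 ∧ (1 - s) • p + s • b ∈ C ∧ (1 - t) • p + t • b ∉ C ∧
      ‖((1 - t) • p + t • b) - ((1 - s) • p + s • b)‖ < ρf ((1 - s) • p + s • b) := by
  obtain ⟨S, hS⟩ : ∃ S : Set ℝ, S = {s | s ∈ Set.Icc (0 : ℝ) 1 ∧ (1 - s) • p + s • b ∈ C} := ⟨_, rfl⟩
  have hmem : ∀ s, s ∈ S ↔ (0 ≤ s ∧ s ≤ 1) ∧ (1 - s) • p + s • b ∈ C := by
    intro s
    rw [hS]
    exact Iff.rfl
  have hcl : IsClosed S := by
    rw [hS]
    refine IsClosed.inter isClosed_Icc (hC.preimage ?_)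
    fun_prop
  have hne : S.Nonempty := ⟨0, (hmem 0).2 ⟨⟨le_rfl, zero_le_one⟩, by
    rw [sub_zero, one_smul, zero_smul, add_zero]
    exact hp⟩⟩
  have hbd : BddAbove S := ⟨1, fun s hs => ((hmem s).1 hs).1.2⟩
  obtain ⟨s, hs⟩ : ∃ s, s = sSup S := ⟨_, rfl⟩
  have hsS : s ∈ S := by
    rw [hs]
    exact hcl.csSup_mem hne hbd
  obtain ⟨⟨h0, h1⟩, h2⟩ := (hmem s).1 hsS
  have h3 : s < 1 := by
    refine lt_of_le_of_ne h1 fun h4 => ?_
    rw [h4, sub_self, zero_smul, one_smul, zero_add] at h2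
    exact hb h2
  have hρs := hρ s h0 h3 h2
  obtain ⟨τ, hτ⟩ : ∃ τ, τ = min (1 - s) (ρf ((1 - s) • p + s • b) / (‖b - p‖ + 1)) := ⟨_, rfl⟩
  have hn : 0 < ‖b - p‖ + 1 := by have := norm_nonneg (b - p); linarith
  have hτ0 : 0 < τ := by
    rw [hτ]
    exact lt_min (by linarith) (div_pos hρs hn)
  have hτ1 : τ ≤ 1 - s := by rw [hτ]; exact min_le_left _ _
  have hτ2 : τ * (‖b - p‖ + 1) ≤ ρf ((1 - s) • p + s • b) := by
    rw [← le_div_iff₀ hn, hτ]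
    exact min_le_right _ _
  refine ⟨s, s + τ, h0, by linarith, by linarith, h2, fun h4 => ?_, ?_⟩
  · have h5 : s + τ ∈ S := (hmem _).2 ⟨⟨by linarith, by linarith⟩, h4⟩
    have h6 := le_csSup hbd h5
    rw [← hs] at h6
    linarith
  · have h5 : ((1 - (s + τ)) • p + (s + τ) • b) - ((1 - s) • p + s • b) = τ • (b - p) := by
      module
    rw [h5, norm_smul, Real.norm_eq_abs, abs_of_pos hτ0]
    linarith

theorem bn [CharZero k] [IsAlgClosed k] [T0Space X.P] (f : Fr ν T l c TR L A) (hE : Ell ν TR L P)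
    (hu : u ∈ K1 ν TR (cR ν P)) (hb : b ∈ Nn ν TR (cR ν P))
    (hbu : ∀ w ∈ Nn ν TR (cR ν P), ∀ v, TR b w v = - TR u u w * TR (cR ν P) (cR ν P) v) : b ∈ closure (CC ν) := by
  classical
  have hs12 := tr_s12 f.hr f.hν f.hT
  have hs23 := tr_s23 f.hr f.hν f.hT
  obtain ⟨p, hp⟩ : ∃ p, p = cR ν P := ⟨_, rfl⟩
  obtain ⟨a, ha⟩ : ∃ a, a = cR ν A := ⟨_, rfl⟩
  have hAC : cR ν A ∈ closure (CC ν) := subset_closure (cc_amp f.h.var f.hν f.hA)
  have hpn : cR ν P ∈ closure (CC ν) := hE.nef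
  have hp3 := hE.c3
  have hpp := hE.sq
  have hzA : 0 < TR (cR ν P) (cR ν P) (cR ν A) := ppa f hpn hpp
  have hpPh : cR ν P ∈ Ph ν TR (cR ν P) := p_ph hpn hp3
  have hpN : cR ν P ∈ Nn ν TR (cR ν P) := Submodule.subset_span hpPh
  have hzu : TR (cR ν P) (cR ν P) u = 0 := hu.1
  -- `β ≥ 0` on the face
  have hβ : ∀ q ∈ Ph ν TR (cR ν P), 0 ≤ - TR u u q := by
    intro q hq
    by_cases hq0 : q = 0
    · rw [hq0, map_zero, neg_zero]
    · have hqN : q ∈ Nn ν TR (cR ν P) := Submodule.subset_span hq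
      have e1 : TR q (cR ν P) (cR ν P) = 0 := by
        rw [hs12, hs23]
        exact hq.2
      have e2 : TR q (cR ν P) u = 0 := by
        rw [form f hpn hp3 hpp hqN hpN, hzu, mul_zero]
      have e3 : 0 < TR q (cR ν P) (cR ν A) := by
        rw [hs12]
        exact pqa f hpn hp3 hpp hq hq0
      have e4 := hx_le f hq.1 e1 e2 e3
      have e5 : TR u u q = TR q u u := by rw [hs23, hs12]
      rw [e5]
      linarith
  by_contra hbn
  -- the radius of `nb`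
  have hpbA : 0 ≤ TR (cR ν P) b (cR ν A) := by
    rw [hs12, hbu _ hpN]
    exact mul_nonneg (hβ _ hpPh) hzA.le
  have hqfacts : ∀ s : ℝ, 0 ≤ s → s < 1 → (1 - s) • cR ν P + s • b ∈ closure (CC ν) →
      (1 - s) • cR ν P + s • b ∈ Ph ν TR (cR ν P) ∧
      0 < TR ((1 - s) • cR ν P + s • b) ((1 - s) • cR ν P + s • b) (cR ν A) := by
    intro s h0 h1 h2
    have hqN : (1 - s) • cR ν P + s • b ∈ Nn ν TR (cR ν P) :=
      Submodule.add_mem _ (Submodule.smul_mem _ _ hpN) (Submodule.smul_mem _ _ hb)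
    have hqP : (1 - s) • cR ν P + s • b ∈ Ph ν TR (cR ν P) := ⟨h2, nn_z hqN⟩
    refine ⟨hqP, ?_⟩
    have e1 : TR (cR ν P) ((1 - s) • cR ν P + s • b) (cR ν A) =
        (1 - s) * TR (cR ν P) (cR ν P) (cR ν A) + s * TR (cR ν P) b (cR ν A) := by
      rw [map_add, map_smul, map_smul, LinearMap.add_apply, LinearMap.smul_apply, LinearMap.smul_apply,
        smul_eq_mul, smul_eq_mul]
    have e2 : 0 < TR (cR ν P) ((1 - s) • cR ν P + s • b) (cR ν A) := by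
      rw [e1]
      have : 0 < (1 - s) * TR (cR ν P) (cR ν P) (cR ν A) := mul_pos (by linarith) hzA
      have : 0 ≤ s * TR (cR ν P) b (cR ν A) := mul_nonneg h0 hpbA
      linarith
    have e3 : 0 ≤ TR b ((1 - s) • cR ν P + s • b) (cR ν A) := by
      rw [hbu _ hqN]
      exact mul_nonneg (hβ _ hqP) hzA.le
    have e4 : TR ((1 - s) • cR ν P + s • b) ((1 - s) • cR ν P + s • b) (cR ν A) =
        (1 - s) * TR (cR ν P) ((1 - s) • cR ν P + s • b) (cR ν A) +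
          s * TR b ((1 - s) • cR ν P + s • b) (cR ν A) := by
      rw [map_add TR, map_smul TR, map_smul TR, LinearMap.add_apply, LinearMap.add_apply, LinearMap.smul_apply,
        LinearMap.smul_apply, LinearMap.smul_apply, LinearMap.smul_apply, smul_eq_mul, smul_eq_mul]
    rw [e4]
    have : 0 < (1 - s) * TR (cR ν P) ((1 - s) • cR ν P + s • b) (cR ν A) := mul_pos (by linarith) e2
    have : 0 ≤ s * TR b ((1 - s) • cR ν P + s • b) (cR ν A) := mul_nonneg h0 e3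
    linarith
  have hex : ∀ q : Fin r → ℝ, ∃ ρ : ℝ, (q ∈ Ph ν TR (cR ν P) → 0 < TR q q (cR ν A) → 0 < ρ ∧
      ∀ w ∈ Nn ν TR (cR ν P), ‖w - q‖ < ρ →
      (∀ (Q : PDiv X) (D : Cart X), SPr X Q.η D → TR q (cR ν A) (cR ν D) = 0 → 0 ≤ TR w (cR ν A) (cR ν D)) →
      w ∈ closure (CC ν)) := by
    intro q
    by_cases h1 : q ∈ Ph ν TR (cR ν P) ∧ 0 < TR q q (cR ν A)
    · obtain ⟨ρ, h2, h3⟩ := nb f hE h1.1 h1.2
      exact ⟨ρ, fun _ _ => ⟨h2, h3⟩⟩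
    · exact ⟨0, fun h2 h3 => absurd ⟨h2, h3⟩ h1⟩
  choose ρf hρf using hex
  obtain ⟨s, t, hs0, hst, ht1, hq, hw, hnorm⟩ := bn_seg (C := closure (CC ν)) isClosed_closure hpn hbn
    (ρf := ρf) (fun s h0 h1 h2 => (hρf _ (hqfacts s h0 h1 h2).1 (hqfacts s h0 h1 h2).2).1)
  have hs1 : s < 1 := lt_of_lt_of_le hst ht1
  obtain ⟨hqP, hqq⟩ := hqfacts s hs0 hs1 hq
  obtain ⟨q, hqd⟩ : ∃ q, q = (1 - s) • cR ν P + s • b := ⟨_, rfl⟩
  obtain ⟨w, hwd⟩ : ∃ w, w = (1 - t) • cR ν P + t • b := ⟨_, rfl⟩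
  have hwN : (1 - t) • cR ν P + t • b ∈ Nn ν TR (cR ν P) :=
    Submodule.add_mem _ (Submodule.smul_mem _ _ hpN) (Submodule.smul_mem _ _ hb)
  have hex2 : ∃ (Q : PDiv X) (D : Cart X), SPr X Q.η D ∧
      TR ((1 - s) • cR ν P + s • b) (cR ν A) (cR ν D) = 0 ∧
      TR ((1 - t) • cR ν P + t • b) (cR ν A) (cR ν D) < 0 := by
    by_contra hcon
    push Not at hcon
    exact hw ((hρf _ hqP hqq).2 _ hwN hnorm fun Q D hD h0 => hcon Q D hD h0)
  obtain ⟨Q₀, D₀, hD₀, hq0, hw0⟩ := hex2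
  have exp1 : ∀ x : ℝ, TR ((1 - x) • cR ν P + x • b) (cR ν A) (cR ν D₀) =
      (1 - x) * TR (cR ν P) (cR ν A) (cR ν D₀) + x * TR b (cR ν A) (cR ν D₀) := by
    intro x
    rw [map_add TR, map_smul TR, map_smul TR, LinearMap.add_apply, LinearMap.add_apply, LinearMap.smul_apply,
      LinearMap.smul_apply, LinearMap.smul_apply, LinearMap.smul_apply, smul_eq_mul, smul_eq_mul]
  have hver : Ver ν TR (cR ν P) Q₀ D₀ := by
    refine ⟨hD₀, ?_⟩
    have h1 := (hs_nn f hD₀ hq hq0).1 ((1 - s) • cR ν P + s • b)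
    have hqN : (1 - s) • cR ν P + s • b ∈ Nn ν TR (cR ν P) := Submodule.subset_span hqP
    rw [form f hpn hp3 hpp hqN hqN] at h1
    rcases mul_eq_zero.1 h1 with h2 | h2
    · exfalso
      rw [form f hpn hp3 hpp hqN hqN, h2, zero_mul] at hqq
      exact lt_irrefl _ hqq
    · exact h2
  rw [exp1] at hq0 hw0
  obtain ⟨α, hα⟩ : ∃ α, α = TR (cR ν P) (cR ν A) (cR ν D₀) := ⟨_, rfl⟩
  obtain ⟨γ, hγ⟩ : ∃ γ, γ = TR b (cR ν A) (cR ν D₀) := ⟨_, rfl⟩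
  have hα0 : 0 ≤ α := by rw [hα]; exact pr_nn f hD₀ hpn hAC
  rw [← hα, ← hγ] at hq0 hw0
  have hαpos : 0 < α := by
    rcases hα0.eq_or_lt with h1 | h1
    · exfalso
      have h2 : γ = 0 := by
        rw [hγ]
        exact bn_nn f hE hb hD₀ (by rw [← hα]; exact h1.symm) _
      rw [h2, ← h1] at hw0
      linarith
    · exact h1
  have hspos : 0 < s := by
    rcases hs0.eq_or_lt with h1 | h1
    · exfalso
      rw [← h1] at hq0
      linarith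
    · exact h1
  have hγneg : γ < 0 := by
    have h1 : s * γ < 0 := by
      have : 0 < (1 - s) * α := mul_pos (by linarith) hαpos
      linarith
    by_contra h2
    push Not at h2
    have := mul_nonneg hspos.le h2
    linarith
  obtain ⟨Ls, hLne, hLs, hΘ⟩ := th f hE hb hver (by rw [← hα]; exact hαpos) (by rw [← hγ]; exact hγneg)
  obtain ⟨Θ, hΘd⟩ : ∃ Θ, Θ = cR ν (Ls.map Prod.snd).prod := ⟨_, rfl⟩
  rw [← hΘd] at hΘ
  obtain ⟨m, z, E, hEt⟩ := ex_et f hpn hzA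
  obtain ⟨c', hc'⟩ := hEt.proj u
  obtain ⟨u₀, hu₀⟩ : ∃ u₀, u₀ = u + ∑ i, c' i • cR ν (E i) := ⟨_, rfl⟩
  rw [← hu₀] at hc'
  have hNE : ∀ w ∈ Nn ν TR (cR ν P), ∀ i v, TR w v (cR ν (E i)) = 0 := fun w hw i v =>
    bn_nn f hE hw (hEt.spr i) (hEt.zero i) v
  -- `T(w,u₀,v) = T(w,u,v)`
  have hwu : ∀ w ∈ Nn ν TR (cR ν P), ∀ v, TR w u₀ v = TR w u v := by
    intro w hw v
    rw [hs23 w u₀ v, hs23 w u v, hu₀, map_add, map_sum]
    rw [Finset.sum_eq_zero, add_zero]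
    intro i _
    rw [map_smul, hNE w hw, smul_zero]
  have huu : ∀ w ∈ Nn ν TR (cR ν P), TR u₀ u₀ w = TR u u w := by
    intro w hw
    rw [hs23 u₀ u₀ w, hs12 u₀ w u₀, hwu w hw u₀, hs23 w u u₀, hwu w hw u, hs12 w u u, hs23 u w u]
  obtain ⟨n', hn', e, he⟩ := uu_dec f hE hEt hΘ
  -- `T(Θ,A,E j) ≥ 0`
  have hΘE : ∀ j, 0 ≤ TR (∑ i, e i • cR ν (E i)) (cR ν A) (cR ν (E j)) := by
    intro j
    have h1 : TR Θ (cR ν A) (cR ν (E j)) = TR (∑ i, e i • cR ν (E i)) (cR ν A) (cR ν (E j)) := by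
      rw [he, map_add, LinearMap.add_apply, LinearMap.add_apply, hNE n' hn', zero_add]
    rw [← h1]
    have h2 : TR Θ (cR ν A) (cR ν (E j)) = TR (cR ν A) (cR ν (E j)) Θ := by
      rw [hs12 Θ, hs23 (cR ν A)]
    rw [h2, hΘd, bn_list]
    refine List.sum_nonneg fun y hy => ?_
    obtain ⟨x, hx, rfl⟩ := List.mem_map.1 hy
    obtain ⟨hx1, hx2, hx3⟩ := hLs x hx
    refine pr_pr f (hEt.spr j) hx1.spr (fun h3 => ?_) hAC
    have h4 : SPr X x.1.η (E j) := by rw [← h3]; exact hEt.spr j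
    rw [Pool.Agent.H89.RT.spr_R f.h f.hr f.hν f.hT hx1.spr h4, hEt.zero j] at hx2
    exact lt_irrefl _ hx2
  have he0 := hEt.neg e hΘE
  have hEu : ∀ i, TR u₀ u₀ (cR ν (E i)) ≤ 0 := fun i => hs_le' f (hEt.spr i) (hc' i)
  have hΘu : TR u₀ u₀ Θ ≤ 0 := by
    rw [hΘd, bn_list]
    refine bn_sum_le _ _ fun x hx => ?_
    obtain ⟨hx1, hx2, -⟩ := hLs x hx
    refine hs_le f hx1.spr hpn hx1.ver ?_ hx2
    rw [hwu _ hpN]
    exact hu.2 _ _ hx1
  have hΘ' : TR u₀ u₀ n' ≤ 0 := by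
    have h1 : TR u₀ u₀ Θ = TR u₀ u₀ n' + ∑ i, e i * TR u₀ u₀ (cR ν (E i)) := by
      rw [he, map_add, map_sum]
      simp only [map_smul, smul_eq_mul]
    have h2 : 0 ≤ ∑ i, e i * TR u₀ u₀ (cR ν (E i)) :=
      Finset.sum_nonneg fun i _ => mul_nonneg_of_nonpos_of_nonpos (he0 i) (hEu i)
    linarith
  rw [huu _ hn'] at hΘ'
  have h1 : 0 ≤ TR b n' (cR ν A) := by
    rw [hbu _ hn']
    exact mul_nonneg (by linarith) hzA.le
  have h2 : TR b n' (cR ν A) = TR b (cR ν A) Θ := by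
    rw [hs23 b n', he, map_add, map_sum, Finset.sum_eq_zero, add_zero]
    intro i _
    rw [map_smul, hNE b hb, smul_zero]
  have h3 : TR b (cR ν A) Θ < 0 := by
    rw [hΘd, bn_list]
    exact bn_sum_lt _ _ hLne fun x hx => (hLs x hx).2.2
  linarith

end Pool.Agent.H60.ZC
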