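import Pool.Agent.H20.TP.Sec

/-!
# [H60 ZC CX1] THEOREM C (MP_e49dc9_ag), CORE: extension of a section of `W` on the prime divisor `S`, by dimensions

PROOF. `V := secL (resD h.var z (W * D)) 1`, a finite dimensional `k`-space (`fd_sub` of H20/TP/Sec; `h.amp`), `finrank V = hz h.var z (W * D)`.
Two `k`-linear maps to `V`: `α : secL D 1 → V`, `s ↦ X.rs z (s * D.eq z) * g` (a product of a section of `resD D` and of the section `g` of `resD W`:
`resS h.var z D 1` and `resD` is multiplicative), and `β = resS h.var z (W * D) 1`.  Both are injective: the kernel of `resS h.var z E 1` is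
`secL (E * S⁻¹) 1` (`ex_ker`, H83/TK/SubE, with `E ^ 1`), which is `0` by `h1`, `h2` (`finrank = 0` and finite dimensional, `ex_sec`), and `g ≠ 0`.
`finrank (range α) + finrank (range β) > finrank V`, so `range α ⊓ range β ≠ ⊥` (`Submodule.finrank_sup_add_finrank_inf_eq`), which gives
`s ≠ 0` and `u` with `α s = β u`.  `Un (X.O z) (s * D.eq z)`: otherwise `s ∈ secL (D * S⁻¹) 1` (`ex_mem`), so `s = 0`.
-/

set_option autoImplicit false

namespace Pool.Agent.H60.ZC

open Pool.Agent.H54.RV Pool.Agent.H83.TU Pool.Agent.H83.TK Pool.Agent.H20.TD Pool.Agent.H20.TP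

variable {k K : Type} [Field k] [Field K] [Algebra k K] {X : Mod k K} {z : X.P} {S : Cart X}

/-- multiplication of the restricted sections of `D` by the section `g` of `resD W` -/
private noncomputable def alp (hX : IsVar X) (z : X.P) (W D : Cart X) (g : X.kap z) (hg : Sec (resD hX z W) 1 g) :
    secL D 1 →ₗ[k] secL (resD hX z (W * D)) 1 where
  toFun s := ⟨(resS hX z D 1 s : X.kap z) * g, fun x => by
    have h1 := (resS hX z D 1 s).2 x
    have h2 := hg x
    have h3 : (resD hX z (W * D)).eq x = (resD hX z W).eq x * (resD hX z D).eq x := by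
      rw [map_mul, mul_eq]
    rw [h3, mul_pow]
    have h4 : (resS hX z D 1 s : X.kap z) * g * ((resD hX z W).eq x ^ 1 * (resD hX z D).eq x ^ 1) =
        ((resS hX z D 1 s : X.kap z) * (resD hX z D).eq x ^ 1) * (g * (resD hX z W).eq x ^ 1) := by ring
    rw [h4]
    exact mul_mem h1 h2⟩
  map_add' s t := Subtype.ext (by
    change (resS hX z D 1 (s + t) : X.kap z) * g = (resS hX z D 1 s : X.kap z) * g + (resS hX z D 1 t : X.kap z) * g
    rw [map_add, ← add_mul]
    rfl)
  map_smul' c s := Subtype.ext (by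
    change (resS hX z D 1 (c • s) : X.kap z) * g = c • ((resS hX z D 1 s : X.kap z) * g)
    rw [map_smul, ← smul_mul_assoc]
    rfl)

/-- extension by dimensions -/
theorem ext_dim [CharZero k] (h : Hyp X) (hS : SPr X z S) {W D : Cart X} {g : X.kap z} (hg0 : g ≠ 0)
    (hg : Sec (resD h.var z W) 1 g) (h1 : h0 (W * D * S⁻¹) 1 = 0) (h2 : h0 (D * S⁻¹) 1 = 0)
    (h3 : hz h.var z (W * D) < h0 D 1 + h0 (W * D) 1) :
    ∃ s u : K, s ≠ 0 ∧ Sec D 1 s ∧ Un (X.O z) (s * D.eq z) ∧ Sec (W * D) 1 u ∧
      X.rs z (u * (W * D).eq z) = X.rs z (s * D.eq z) * g := by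
  classical
  obtain ⟨A, hA⟩ := h.amp
  have hV : FiniteDimensional k (secL (resD h.var z (W * D)) 1) := fd_sub h.var hA z _
  have hf1 : FiniteDimensional k (secL (D * S⁻¹) 1) := Pool.Agent.H24.TK.fd h.var h.gen hA _
  have hf2 : FiniteDimensional k (secL (W * D * S⁻¹) 1) := Pool.Agent.H24.TK.fd h.var h.gen hA _
  have hz1 : ∀ s : K, s ∈ secL (D * S⁻¹) 1 → s = 0 := by
    intro s hs
    by_contra hne
    have h5 := H32.TK.pos_of_sec _ hf1 hs hne
    omega
  have hz2 : ∀ s : K, s ∈ secL (W * D * S⁻¹) 1 → s = 0 := by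
    intro s hs
    by_contra hne
    have h5 := H32.TK.pos_of_sec _ hf2 hs hne
    omega
  have hαi : Function.Injective (alp h.var z W D g hg) := by
    rw [← LinearMap.ker_eq_bot, LinearMap.ker_eq_bot']
    intro s hs
    have h5 : (resS h.var z D 1 s : X.kap z) * g = 0 := congrArg Subtype.val hs
    have h6 : resS h.var z D 1 s = 0 := Subtype.ext ((mul_eq_zero.1 h5).resolve_right hg0)
    have h7 := (ex_ker h.var hS D 1 s).1 h6
    rw [pow_one] at h7
    exact Subtype.ext (hz1 _ h7)
  have hβi : Function.Injective (resS h.var z (W * D) 1) := by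
    rw [← LinearMap.ker_eq_bot, LinearMap.ker_eq_bot']
    intro s hs
    have h7 := (ex_ker h.var hS (W * D) 1 s).1 hs
    rw [pow_one] at h7
    exact Subtype.ext (hz2 _ h7)
  have hα : Module.finrank k (LinearMap.range (alp h.var z W D g hg)) = h0 D 1 :=
    LinearMap.finrank_range_of_inj hαi
  have hβ : Module.finrank k (LinearMap.range (resS h.var z (W * D) 1)) = h0 (W * D) 1 :=
    LinearMap.finrank_range_of_inj hβi
  have h5 := Submodule.finrank_sup_add_finrank_inf_eq (LinearMap.range (alp h.var z W D g hg))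
    (LinearMap.range (resS h.var z (W * D) 1))
  have h6 := Submodule.finrank_le
    (LinearMap.range (alp h.var z W D g hg) ⊔ LinearMap.range (resS h.var z (W * D) 1))
  have h7 : Module.finrank k (secL (resD h.var z (W * D)) 1) = hz h.var z (W * D) := rfl
  have h8 : 0 < Module.finrank k ((LinearMap.range (alp h.var z W D g hg) ⊓
      LinearMap.range (resS h.var z (W * D) 1) : Submodule k (secL (resD h.var z (W * D)) 1))) := by
    omega
  have h9 : (LinearMap.range (alp h.var z W D g hg) ⊓
      LinearMap.range (resS h.var z (W * D) 1) : Submodule k (secL (resD h.var z (W * D)) 1)) ≠ ⊥ := by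
    intro h10
    rw [h10, finrank_bot] at h8
    omega
  obtain ⟨v, ⟨⟨s, hs⟩, ⟨u, hu⟩⟩, hv⟩ := Submodule.exists_mem_ne_zero_of_ne_bot h9
  have hsv : (resS h.var z D 1 s : X.kap z) * g = (v : X.kap z) := congrArg Subtype.val hs
  have huv : (resS h.var z (W * D) 1 u : X.kap z) = (v : X.kap z) := congrArg Subtype.val hu
  rw [resS_coe, pow_one] at hsv huv
  have hv0 : (v : X.kap z) ≠ 0 := fun h10 => hv (Subtype.ext h10)
  have hrs : X.rs z (s.1 * D.eq z) ≠ 0 := by
    intro h10
    rw [h10, zero_mul] at hsv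
    exact hv0 hsv.symm
  have hmem : s.1 * D.eq z ∈ X.O z := by
    have h10 := s.2 z
    rwa [pow_one] at h10
  have hun := (rs_ne z hmem).1 hrs
  refine ⟨s.1, u.1, ?_, s.2, hun, u.2, ?_⟩
  · intro h10
    rw [h10, zero_mul] at hun
    exact hun.1 rfl
  · rw [huv, ← hsv]

end Pool.Agent.H60.ZC
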