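import Pool.Agent.H60.ZC.CXD
import Pool.Agent.H20.RT.Loc
import Pool.Agent.H89.RT.Hc

/-!
# [H60 ZC CX10] THEOREM C (MP_e49dc9_ag), CORE (b'): a horizontal prime divisor `S`, and sections of `S + U` on `S`, `U` near `m (V + θ p)`

`ex_hor`: PROOF. `A ^ n` has a nonzero section for some `n ≥ 1`, so `E = prin s * A ^ n` is effective with `T(p,p,E) = n T(p,p,A) > 0` (principal divisors have class `0`); `fac_eff` (H24/VP/PosB),
`list_tr`, `tr_triv` (H20/RT/Iso): some component has `T(p,p,S) ≠ 0`, `≥ 0` by `tr_srf`.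
`ex_g`: PROOF. `T(p,A,S) > 0`: `T(p,A,S) ≥ 0` (`tpa_nn`), and if it is `0` then `T(p,p,S) = 0` (`ms_zero`, `ks_zero` as in `loc_neg`, H20/RT/Loc; or `C A - p` nef, `ms_nef`).  `θ ≥ 0` so large that `u := V + θ p` has
`T(u,u,S) = T(V,V,S) + 2 θ T(V,p,S) + θ ^ 2 T(p,p,S) > 0` and `T(u,A,S) > 0`.  `C` of `vp_near V` (H20/RT/Vp), `C₀ := C`.  `t₀` of `big_s` (H89/RT/Hc) for `u` and the radius `‖cR S‖ + C + ‖p‖`.
Given `m₀` let `m := max m₀ (max t₀ 0)`, `d` integral in `Vp V` with `‖rv d - m • V‖ ≤ C`, `n := ⌈θ m⌉₊`, `U := D * P ^ n` with `ci ν D = d` (`ci_surj`), `o := rv d - m • V ∈ Vp V` (`self_vp`), `x := n`.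
`‖cR (S * U) - m • u‖ = ‖cR S + o + (n - θ m) • p‖ ≤ ‖cR S‖ + C + ‖p‖`.
-/

set_option autoImplicit false

namespace Pool.Agent.H60.ZC

open Pool.Agent.H54.RV Pool.Agent.H83.TU Pool.Agent.H83.TK Pool.Agent.H20.TD Pool.Agent.H20.TP Pool.Agent.H20.RT
open Pool.Agent.H24.VP (RR chS chi)

variable {k K : Type} [Field k] [Field K] [Algebra k K] {X : Mod k K} {r : ℕ}
  {ν : Cart X →* Multiplicative (Fin r → ℤ)} {T : Cart X → Cart X → Cart X → ℝ} {l : Cart X → ℝ} {c : ℝ} {TR : Tri3 r}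
  {A P S : Cart X} {p : Fin r → ℝ} {z : X.P}

private theorem cx10_prin (hν : NumR ν) {s : K} (hs0 : s ≠ 0) : cR ν (prin X s hs0) = 0 := by
  change rv (ci ν (prin X s hs0)) = 0
  unfold ci
  rw [(hν.ker _).2 (numz_prin s hs0), toAdd_one]
  funext j
  simp [rv]

private theorem cx10_pow (U : Cart X) (n : ℕ) : cR ν (U ^ n) = (n : ℝ) • cR ν U := by
  change rv (ci ν (U ^ n)) = _
  rw [ci_pow, rv_smul]
  rfl

private theorem cx10_sum (L : List ℝ) (h : ∀ x ∈ L, x ≤ 0) : L.sum ≤ 0 := by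
  induction L with
  | nil => simp
  | cons a L ih =>
    rw [List.sum_cons]
    have h1 := h a List.mem_cons_self
    have h2 := ih fun x hx => h x (List.mem_cons_of_mem _ hx)
    linarith

/-- horizontal prime divisors -/
theorem ex_hor [CharZero k] [IsAlgClosed k] [T0Space X.P] (h : Hyp X) (hr : RR T l c) (hν : NumR ν)
    (hT : ∀ U V W, TR (cR ν U) (cR ν V) (cR ν W) = T U V W) (hA : Ample A) (hp : p ∈ closure (CC ν))
    (hpp : 0 < TR p p (cR ν A)) : ∃ (Q : PDiv X) (S : Cart X), SPr X Q.η S ∧ 0 < TR p p (cR ν S) := by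
  obtain ⟨n, hn1, _, hn3⟩ := exists_bpf h.var hA
  obtain ⟨Z, s, hs0, hs, _⟩ := bpf_hasX h hn3
  have hE : Effective (prin X s hs0 * A ^ n) := by
    intro y
    have h4 := hs y
    rw [pow_one] at h4
    rw [mul_eq]
    exact h4
  have hpos : 0 < TR p p (cR ν (prin X s hs0 * A ^ n)) := by
    rw [cR_mul, cx10_prin hν, zero_add, cx10_pow, map_smul, smul_eq_mul]
    have h5 : (1 : ℝ) ≤ n := by exact_mod_cast hn1
    exact mul_pos (by linarith) hpp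
  obtain ⟨Ls, U, h1, h2, h3, h4⟩ := Pool.Agent.H24.VP.fac_eff h hr hE
  rw [h4, cR_mul, map_add, list_tr, tr_triv h hr hν hT h2 h3, add_zero] at hpos
  by_contra hcon
  push Not at hcon
  have h5 : (Ls.map fun x => TR p p (cR ν x.2)).sum ≤ 0 := by
    refine cx10_sum _ fun y hy => ?_
    obtain ⟨x, hx, rfl⟩ := List.mem_map.1 hy
    exact hcon x.1 x.2 (h1 x hx)
  linarith

/-- sections near `m (V + θ p)` on a horizontal prime divisor -/
theorem ex_g [CharZero k] [IsAlgClosed k] [T0Space X.P] (h : Hyp X) (hr : RR T l c) (hν : NumR ν)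
    (hT : ∀ U V W, TR (cR ν U) (cR ν V) (cR ν W) = T U V W) (htr : Algebra.trdeg k (X.kap z) = 2) (hS : SPr X z S)
    (hP : cR ν P = p) (hp : p ∈ closure (CC ν)) (hzS : 0 < TR p p (cR ν S)) (V : Fin r → ℝ) :
    ∃ C₀ θ : ℝ, 0 ≤ θ ∧ ∀ m₀ : ℝ, ∃ (m x : ℝ) (o : Fin r → ℝ) (U : Cart X), m₀ ≤ m ∧ 0 ≤ x ∧ x ≤ θ * m + 1 ∧
      o ∈ Vp V ∧ ‖o‖ ≤ C₀ ∧ cR ν U = m • V + o + x • p ∧ 0 < hz h.var z (S * U) := by
  obtain ⟨A, hA⟩ := h.amp
  have hpA : 0 < TR p (cR ν A) (cR ν S) := by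
    rcases (Pool.Agent.H20.RT.tpa_nn h hr hν hT htr hS hA hp).eq_or_lt with h0 | h0
    · exfalso
      have h1 := (ms_zero h hr hν hT htr hS hA (ms_nef h hr hν hT htr hS hp) h0.symm).1 P
      rw [hP] at h1
      linarith
    · exact h0
  obtain ⟨a, ha⟩ : ∃ a, a = TR p p (cR ν S) := ⟨_, rfl⟩
  obtain ⟨b, hb⟩ : ∃ b, b = TR V p (cR ν S) := ⟨_, rfl⟩
  obtain ⟨e, he⟩ : ∃ e, e = TR V V (cR ν S) := ⟨_, rfl⟩
  obtain ⟨f, hf⟩ : ∃ f, f = TR V (cR ν A) (cR ν S) := ⟨_, rfl⟩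
  obtain ⟨g, hg⟩ : ∃ g, g = TR p (cR ν A) (cR ν S) := ⟨_, rfl⟩
  have hb' : TR p V (cR ν S) = b := by rw [tr_s12 hr hν hT, hb]
  rw [← ha] at hzS
  rw [← hg] at hpA
  obtain ⟨θ, h1, h2, h3⟩ : ∃ θ : ℝ, 1 ≤ θ ∧ 2 * |b| + |e| + 1 ≤ θ * a ∧ |f| + 1 ≤ θ * g := by
    refine ⟨max 1 (max ((2 * |b| + |e| + 1) / a) ((|f| + 1) / g)), le_max_left _ _, ?_, ?_⟩
    · rw [← div_le_iff₀ hzS]
      exact (le_max_left _ _).trans (le_max_right _ _)
    · rw [← div_le_iff₀ hpA]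
      exact (le_max_right _ _).trans (le_max_right _ _)
  have hu1 : 0 < TR (V + θ • p) (cR ν A) (cR ν S) := by
    simp only [map_add, map_smul, LinearMap.add_apply, LinearMap.smul_apply, smul_eq_mul]
    rw [← hf, ← hg]
    have := neg_abs_le f
    linarith
  have hu2 : 0 < TR (V + θ • p) (V + θ • p) (cR ν S) := by
    simp only [map_add, map_smul, LinearMap.add_apply, LinearMap.smul_apply, smul_eq_mul]
    rw [hb', ← ha, ← hb, ← he]
    have h4 := neg_abs_le b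
    have h5 := neg_abs_le e
    have h6 := abs_nonneg b
    have h7 := abs_nonneg e
    have h8 : θ * (2 * |b| + |e| + 1) ≤ θ * (θ * a) := mul_le_mul_of_nonneg_left h2 (by linarith)
    have h9 : 1 * |e| ≤ θ * |e| := mul_le_mul_of_nonneg_right h1 h7
    have h10 : θ * -|b| ≤ θ * b := mul_le_mul_of_nonneg_left h4 (by linarith)
    nlinarith
  obtain ⟨C, hC0, hC⟩ := vp_near V
  obtain ⟨t₀, ht₀⟩ := Pool.Agent.H89.RT.big_s h hr hν hT htr hS hA hu1 hu2 (‖cR ν S‖ + C + ‖p‖)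
  refine ⟨C, θ, by linarith, ?_⟩
  intro m₀
  obtain ⟨m, hm⟩ : ∃ m : ℝ, m = max m₀ (max t₀ 0) := ⟨_, rfl⟩
  have hm1 : m₀ ≤ m := by rw [hm]; exact le_max_left _ _
  have hm2 : t₀ ≤ m := by rw [hm]; exact (le_max_left _ _).trans (le_max_right _ _)
  have hm3 : 0 ≤ m := by rw [hm]; exact (le_max_right _ _).trans (le_max_right _ _)
  obtain ⟨d, hd1, hd2⟩ := hC m
  obtain ⟨D, hD⟩ := ci_surj hν d
  have hcD : cR ν D = rv d := by
    change rv (ci ν D) = _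
    rw [hD]
  have hθm : 0 ≤ θ * m := mul_nonneg (by linarith) hm3
  have hn1 : (⌈θ * m⌉₊ : ℝ) < θ * m + 1 := Nat.ceil_lt_add_one hθm
  have hn2 : θ * m ≤ (⌈θ * m⌉₊ : ℝ) := Nat.le_ceil _
  have hU : cR ν (D * P ^ ⌈θ * m⌉₊) = m • V + (rv d - m • V) + (⌈θ * m⌉₊ : ℝ) • p := by
    rw [cR_mul, cx10_pow, hcD, hP]
    abel
  refine ⟨m, (⌈θ * m⌉₊ : ℝ), rv d - m • V, D * P ^ ⌈θ * m⌉₊, hm1, Nat.cast_nonneg _, hn1.le, ?_, hd2, hU, ?_⟩
  · exact Submodule.sub_mem _ hd1 (Submodule.smul_mem _ _ (self_vp V))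
  · refine ht₀ m _ hm2 ?_
    have e1 : cR ν (S * (D * P ^ ⌈θ * m⌉₊)) - m • (V + θ • p) =
        cR ν S + (rv d - m • V) + ((⌈θ * m⌉₊ : ℝ) - θ * m) • p := by
      rw [cR_mul, hU, smul_add, smul_smul, sub_smul, mul_comm m θ]
      abel
    rw [e1]
    refine (norm_add_le _ _).trans ?_
    refine add_le_add ((norm_add_le _ _).trans (add_le_add le_rfl hd2)) ?_
    rw [norm_smul, Real.norm_eq_abs, abs_of_nonneg (by linarith)]
    exact mul_le_of_le_one_left (norm_nonneg _) (by linarith)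

end Pool.Agent.H60.ZC
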