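import Pool.Agent.H20.TP.Sec

/-!
# [H60 ZC CX5] THEOREM C (MP_e49dc9_ag), CORE: a section on the components of the poles

`S` a prime divisor (generic point `z`), `y` another point, `g` a section of `W` on `S`, `φ` a rational section of `W` which is regular at `z` and equal to `g` there, `N`
effective, `φ` a section of `W + N`, not zero at `y`, and `y` is in the support of `N`: then `W - S + N` has a nonzero section on `y`.
PROOF. `a := φ * (W * N * S⁻¹).eq y ∈ X.O y` is a unit at `y` (`hu`; `S.eq y` is a unit at `y` by `hS.un`), `τ := X.rs y a ≠ 0`.  `Sec (resD h.var y (W * S⁻¹ * N)) 1 τ`: let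
`x ∈ subM h.var y`, that is `y ⤳ x.1`.  As in `rs_sec` (H83/TK/SubD), `τ * (resD ..).eq x = X.rs y (φ * (W * S⁻¹ * N).eq x.1)`, and
`φ * (W * N).eq x / S.eq x` has to be congruent, modulo the non-units at `y`, to an element of `X.O x.1` (`mem_subO`).
(i) `¬ z ⤳ x`: `S.eq x` is a unit at `x` (`hS.un`): it is in `X.O x`.
(ii) `z ⤳ x`: `X.rs z (φ * W.eq x) = g * (resD W).eq x ∈ subO X z x` by `hg`, so there is `b ∈ X.O x` with `X.rs z b = X.rs z (φ * W.eq x)` (`b ∈ X.O z`, `φ * W.eq x ∈ X.O z`).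
`φ * W.eq x - b` is not a unit at `z`; `e := (φ * W.eq x - b) * N.eq x = φ * (W * N).eq x - b * N.eq x ∈ X.O x` is not a unit at `z` (`N.eq x ∈ X.O x ≤ X.O z`), so
`e / S.eq x ∈ X.O x` (`hS.ker`).  `φ * (W * N).eq x / S.eq x = e / S.eq x + b * N.eq x / S.eq x`, and `b * N.eq x / S.eq x` is not a unit at `y`: `S.eq x` is a unit at `y`
(`hS.un y`, and `S.eq x / S.eq y` is a unit at `y`, `quo_un`), `b ∈ X.O x ≤ X.O y`, `N.eq x` is not a unit at `y` (`hN`, `quo_un`).
-/

set_option autoImplicit false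

namespace Pool.Agent.H60.ZC

open Pool.Agent.H54.RV Pool.Agent.H83.TU Pool.Agent.H83.TK Pool.Agent.H20.TD Pool.Agent.H20.TP

variable {k K : Type} [Field k] [Field K] [Algebra k K] {X : Mod k K} {z y : X.P} {S : Cart X}

private theorem rs_of_not_un (x : X.P) {a : K} (ha : a ∈ X.O x) (h : ¬ Un (X.O x) a) : X.rs x a = 0 := by
  by_contra h1
  exact h ((rs_ne x ha).1 h1)

/-- a section of `W - S + N` on the component `y` of `N` -/
theorem sec_comp [CharZero k] (h : Hyp X) (hS : SPr X z S) (hzy : ¬ z ⤳ y) {W N : Cart X} {φ : K} {g : X.kap z}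
    (hg : Sec (resD h.var z W) 1 g) (hφ : φ * W.eq z ∈ X.O z) (hφg : X.rs z (φ * W.eq z) = g) (hNe : Effective N)
    (h1 : Sec (W * N) 1 φ) (hu : Un (X.O y) (φ * (W * N).eq y)) (hN : ¬ Un (X.O y) (N.eq y)) :
    0 < hz h.var y (W * S⁻¹ * N) := by
  have hD : ∀ x, φ * (W * S⁻¹ * N).eq x = φ * (W * N).eq x * (S.eq x)⁻¹ := by
    intro x
    rw [mul_eq, mul_eq, mul_eq, inv_eq]
    ring
  have hSy : Un (X.O y) (S.eq y) := hS.un y hzy
  have hua : Un (X.O y) (φ * (W * S⁻¹ * N).eq y) := by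
    rw [hD]
    exact un_mul hu (un_inv hSy)
  have hne : X.rs y (φ * (W * S⁻¹ * N).eq y) ≠ 0 := (rs_ne y hua.2.1).2 hua
  obtain ⟨A, hA⟩ := h.amp
  refine H32.TK.pos_of_sec _ (fd_sub h.var hA y _) (s := X.rs y (φ * (W * S⁻¹ * N).eq y)) ?_ hne
  rintro ⟨x, hyx⟩
  have hyx' : y ⤳ x := hyx
  have hq := quo_un (W * S⁻¹ * N) y x hyx'
  have hval : X.rs y (φ * (W * S⁻¹ * N).eq y) * (resD h.var y (W * S⁻¹ * N)).eq ⟨x, hyx⟩ ^ 1 =
      X.rs y (φ * (W * S⁻¹ * N).eq x) := by
    rw [pow_one, resD_eq]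
    change X.rs y (φ * (W * S⁻¹ * N).eq y) * X.rs y ((W * S⁻¹ * N).eq x / (W * S⁻¹ * N).eq y) = _
    rw [← rs_mul y hua.2.1 hq.2.1]
    congr 1
    have h2 := (W * S⁻¹ * N).ne y
    field_simp
  rw [hval]
  change X.rs y (φ * (W * S⁻¹ * N).eq x) ∈ subO X y x
  rw [subO_iff h.var hyx']
  have hx1 : φ * (W * N).eq x ∈ X.O x := by
    have h2 := h1 x
    rwa [pow_one] at h2
  by_cases hzx : z ⤳ x
  · -- the residue on `z`
    have hsec := hg ⟨x, hzx⟩
    rw [pow_one, resD_eq, ← hφg] at hsec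
    change X.rs z (φ * W.eq z) * X.rs z (W.eq x / W.eq z) ∈ subO X z x at hsec
    have hqz := quo_un W z x hzx
    rw [← rs_mul z hφ hqz.2.1] at hsec
    have he1 : φ * W.eq z * (W.eq x / W.eq z) = φ * W.eq x := by
      have h2 := W.ne z
      field_simp
    have hWx : φ * W.eq x ∈ X.O z := by
      rw [← he1]
      exact mul_mem hφ hqz.2.1
    rw [he1, subO_iff h.var hzx] at hsec
    obtain ⟨b, hb, hbr⟩ := hsec
    have hbz : b ∈ X.O z := h.var.spec z x hzx hb
    have hby : b ∈ X.O y := h.var.spec y x hyx' hb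
    have hNz : N.eq x ∈ X.O z := h.var.spec z x hzx (hNe x)
    have hNy : N.eq x ∈ X.O y := h.var.spec y x hyx' (hNe x)
    have he0 : φ * W.eq x - b ∈ X.O z := sub_mem hWx hbz
    have he0u : ¬ Un (X.O z) (φ * W.eq x - b) := by
      rw [← rs_ne z he0, not_not]
      have h2 : X.rs z (φ * W.eq x - b) + X.rs z b = X.rs z (φ * W.eq x) := by
        rw [← rs_add z he0 hbz, sub_add_cancel]
      rw [hbr] at h2
      exact add_eq_right.1 h2
    have heq : (φ * W.eq x - b) * N.eq x = φ * (W * N).eq x - b * N.eq x := by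
      rw [mul_eq]
      ring
    have hex : (φ * W.eq x - b) * N.eq x ∈ X.O x := by
      rw [heq]
      exact sub_mem hx1 (mul_mem hb (hNe x))
    have heu : ¬ Un (X.O z) ((φ * W.eq x - b) * N.eq x) := by
      rw [un_mul_iff he0 hNz]
      exact fun h2 => he0u h2.1
    have hc := hS.ker x hzx _ hex heu
    refine ⟨_, hc, ?_⟩
    -- the remainder is not a unit at `y`
    have hSx : Un (X.O y) (S.eq x) := by
      have h2 := un_mul (quo_un S y x hyx') hSy
      have h3 := S.ne y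
      rwa [div_mul_cancel₀ _ h3] at h2
    have hNu : ¬ Un (X.O y) (N.eq x) := by
      intro h2
      apply hN
      have h3 := un_mul h2 (un_inv (quo_un N y x hyx'))
      have h4 : N.eq x * (N.eq x / N.eq y)⁻¹ = N.eq y := by
        have h5 := N.ne x
        have h6 := N.ne y
        field_simp
      rwa [h4] at h3
    have hrm : b * N.eq x * (S.eq x)⁻¹ ∈ X.O y := mul_mem (mul_mem hby hNy) hSx.2.2
    have hru : ¬ Un (X.O y) (b * N.eq x * (S.eq x)⁻¹) := by
      rw [un_mul_iff (mul_mem hby hNy) hSx.2.2, un_mul_iff hby hNy]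
      exact fun h2 => hNu h2.1.2
    have hcy : (φ * W.eq x - b) * N.eq x / S.eq x ∈ X.O y := h.var.spec y x hyx' hc
    have hsum : φ * (W * S⁻¹ * N).eq x = (φ * W.eq x - b) * N.eq x / S.eq x + b * N.eq x * (S.eq x)⁻¹ := by
      rw [hD, heq, div_eq_mul_inv]
      ring
    rw [hsum, rs_add y hcy hrm, rs_of_not_un y hrm hru, add_zero]
  · refine ⟨φ * (W * S⁻¹ * N).eq x, ?_, rfl⟩
    rw [hD]
    exact mul_mem hx1 (hS.un x hzx).2.2

end Pool.Agent.H60.ZC
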