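import Pool.Agent.H60.ZC.CXD

/-!
# [H60 ZC CX7] THEOREM C (MP_e49dc9_ag), CORE (e): the inequality for the poles

`U` integral of the class `m V + o + x p`, `o` in the rational hull of `V`; `E` effective and vertical such that `U + E` has a nonzero section on all components of `E`.
PROOF.  `a := cR A`.  `fac_eff` (H24/VP/PosB): `E = ∏ D_i * (trivial)`, `Ls` a list of pairs (`Q_i`, `D_i`), `SPr X Q_i.η D_i`; `tr_triv`, `list_tr` (H20/RT/Iso): `T(v,w,E) = ∑ T(v,w,D_i)`.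
`D_i` is vertical: `T(p,p,D_i) ≥ 0` (`tr_srf`), the sum is `0` (compare `bgd_eff`).  `D_i` is a component: `¬ Un (X.O Q_i.η) (E.eq Q_i.η)` (`D_i.eq Q_i.η` is not a unit, `spr.nun`, and
`E * D_i⁻¹` is effective).  So `0 < hz Q_i.η (U * E)`.
(1) `w ∈ N` nef: `T(w,U+E,D_i) ≥ 0` (`ms_nef .. .eff`, `trdeg_pdiv`).  `T(w,U,D_i) = 0`: `m V + o ∈ Vp V` (`self_vp`), `vv`, and `T(w,p,D_i) = 0` (`form`, `Ver.ver`).  So
`T(w,E,D_i) ≥ 0`, `T(w,E,E) ≥ 0`.  If `w ≠ 0`: `T(w,p,.) = a' T(p,p,.)` (`form`), `T(w,p,p) = T(w,p,E) = 0`, `T(w,p,A) > 0` (`pw`, `pq_zero`), so `T(w,E,E) ≤ 0` (`hd_w`).  So `T(w,E,E) = 0`, all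
`T(w,E,D_i) = 0`, and `T(w,E,.)` vanishes on the kernel of `T(p,p,.)`: for `v` with `T(p,p,v) = 0`: Cauchy-Schwarz for the form `T(w,.,.)`, which is `≤ 0` on the kernel
(`hd_w` for `v + s E`, all `s`: `T(w,v,v) + 2 s T(w,v,E) ≤ 0`), so `T(w,E,v) = 0`.  So `T(w,E,v) = (T(w,E,A) / T(p,p,A)) T(p,p,v)` for all `v`.
(2) `w ∈ N` arbitrary: `w = (C p + w) - C p` (`int`, `pN`), both nef: this gives `VEff`.
(3) `T(p,U+E,D_i) = 0` by (1) for `w = p`, so `T(V,U+E,D_i) ≥ 0` (`test`), the sum over `i`: `T(V,U,E) + T(V,E,E) ≥ 0`, `T(V,E,E) ≤ 0` (`nsq`), so `T(V,U,E) ≥ 0`, and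
`T(V,U,E) = m T(V,V,E) + T(V,o,E) + x T(V,p,E)`, `T(V,p,E) = ∑ T(p,V,D_i) = 0` (`vv`).
-/

set_option autoImplicit false

namespace Pool.Agent.H60.ZC

open Pool.Agent.H54.RV Pool.Agent.H83.TU Pool.Agent.H83.TK Pool.Agent.H20.TD Pool.Agent.H20.TP Pool.Agent.H20.RT
open Pool.Agent.H24.VP (RR chS chi)

variable {k K : Type} [Field k] [Field K] [Algebra k K] {X : Mod k K} {r : ℕ}
  {ν : Cart X →* Multiplicative (Fin r → ℤ)} {T : Cart X → Cart X → Cart X → ℝ} {l : Cart X → ℝ} {c : ℝ} {TR : Tri3 r}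
  {A : Cart X} {p V : Fin r → ℝ} {N : Submodule ℝ (Fin r → ℝ)} {B : (Fin r → ℝ) →ₗ[ℝ] (Fin r → ℝ) →ₗ[ℝ] (Fin r → ℝ)}

private theorem eff_split [CharZero k] (L : List (PDiv X × Cart X)) (hL : ∀ y ∈ L, Effective y.2) :
    Effective (L.map Prod.snd).prod ∧ ∀ y ∈ L, ∃ R : Cart X, Effective R ∧ (L.map Prod.snd).prod = y.2 * R := by
  induction L with
  | nil =>
    refine ⟨fun z => ?_, fun y hy => absurd hy (by simp)⟩
    rw [List.map_nil, List.prod_nil]
    exact (X.O z).one_mem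
  | cons S L ih =>
    obtain ⟨h1, h2⟩ := ih fun y hy => hL y (List.mem_cons_of_mem _ hy)
    have hS : Effective S.2 := hL S List.mem_cons_self
    refine ⟨fun z => ?_, fun y hy => ?_⟩
    · rw [List.map_cons, List.prod_cons]
      exact mul_mem (hS z) (h1 z)
    · rw [List.map_cons, List.prod_cons]
      rcases List.mem_cons.1 hy with h3 | h3
      · subst h3
        exact ⟨_, h1, rfl⟩
      · obtain ⟨R, hR, h4⟩ := h2 y h3
        refine ⟨S.2 * R, fun z => mul_mem (hS z) (hR z), ?_⟩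
        rw [h4, mul_left_comm]

/-- the index theorem for the form `T(w,.,.)` on the orthogonal complement of an isotropic class `p` -/
private theorem hd_w [CharZero k] [IsAlgClosed k] [T0Space X.P] (h : Hyp X) (hr : RR T l c) (hν : NumR ν)
    (hT : ∀ U V W, TR (cR ν U) (cR ν V) (cR ν W) = T U V W) (hA : Ample A) {w v : Fin r → ℝ}
    (hw : w ∈ closure (CC ν)) (h0 : TR w p p = 0) (h1 : 0 < TR w p (cR ν A)) (h2 : TR w p v = 0) :
    TR w v v ≤ 0 := by
  have hAc : cR ν A ∈ closure (CC ν) := subset_closure (cc_amp h.var hν hA)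
  have h4 := tr_nn h hr hν hT hw hAc hAc
  obtain ⟨y, hy⟩ : ∃ y, y = TR w (cR ν A) v ^ 2 := ⟨_, rfl⟩
  have hy0 : 0 ≤ y := by rw [hy]; positivity
  by_contra hcon
  push Not at hcon
  have key : ∀ t : ℝ, 0 < t → 2 * TR w p (cR ν A) * TR w v v ≤ t * y := by
    intro t ht
    have e1 : TR w (p + t • cR ν A) (p + t • cR ν A) =
        2 * t * TR w p (cR ν A) + t ^ 2 * TR w (cR ν A) (cR ν A) := by
      simp only [map_add, map_smul, LinearMap.add_apply, LinearMap.smul_apply, smul_eq_mul]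
      rw [h0, tr_s23 hr hν hT w (cR ν A) p]
      ring
    have e2 : TR w (p + t • cR ν A) v = t * TR w (cR ν A) v := by
      simp only [map_add, map_smul, LinearMap.add_apply, LinearMap.smul_apply, smul_eq_mul]
      rw [h2, zero_add]
    have h5 := hi_real h hr hν hT hw (L := p + t • cR ν A) (v := v) (by
      rw [e1]
      have := mul_pos ht h1
      have := mul_nonneg (pow_pos ht 2).le h4
      linarith)
    rw [e1, e2, mul_pow, ← hy] at h5
    have h6 : 2 * t * TR w p (cR ν A) * TR w v v ≤ t ^ 2 * y := by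
      have h8 := mul_nonneg (mul_nonneg (sq_nonneg t) h4) hcon.le
      nlinarith
    have h7 : t * (2 * TR w p (cR ν A) * TR w v v) ≤ t * (t * y) := by nlinarith
    exact le_of_mul_le_mul_left h7 ht
  have h5 : 0 < 2 * TR w p (cR ν A) * TR w v v := by positivity
  have h6 := key (TR w p (cR ν A) * TR w v v / (y + 1)) (by positivity)
  have h7 : TR w p (cR ν A) * TR w v v / (y + 1) * y ≤ TR w p (cR ν A) * TR w v v := by
    rw [div_mul_eq_mul_div, div_le_iff₀ (by linarith)]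
    nlinarith
  linarith

/-- a class `w` for which the form `T(w,.,.)` vanishes at `E` is a multiple of `T(p,p,.)` at `E` -/
private theorem prop_nef [CharZero k] [IsAlgClosed k] [T0Space X.P] (h : Hyp X) (hr : RR T l c) (hν : NumR ν)
    (hT : ∀ U V W, TR (cR ν U) (cR ν V) (cR ν W) = T U V W) (hA : Ample A) {w e : Fin r → ℝ}
    (hw : w ∈ closure (CC ν)) (hwA : 0 < TR w p (cR ν A)) (hwp : ∃ a : ℝ, ∀ v, TR w p v = a * TR p p v)
    (h3 : TR p p p = 0) (hpA : 0 < TR p p (cR ν A)) (he : TR p p e = 0) (hee : 0 ≤ TR w e e) :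
    ∃ a : ℝ, ∀ v, TR w e v = a * TR p p v := by
  obtain ⟨a, ha⟩ := hwp
  have hwe : TR w p e = 0 := by rw [ha, he, mul_zero]
  have hwpp : TR w p p = 0 := by rw [ha, h3, mul_zero]
  have h0 : TR w e e = 0 := le_antisymm (hd_w h hr hν hT hA hw hwpp hwA hwe) hee
  -- the kernel of `T(p,p,.)`
  have key : ∀ v : Fin r → ℝ, TR p p v = 0 → TR w e v = 0 := by
    intro v hv
    have h1 : ∀ s : ℝ, TR w v v + 2 * s * TR w e v ≤ 0 := by
      intro s
      have h2 := hd_w h hr hν hT hA hw hwpp hwA (v := v + s • e) (by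
        rw [map_add, map_smul, hwe, ha, hv, mul_zero, smul_zero, add_zero])
      have e1 : TR w (v + s • e) (v + s • e) = TR w v v + 2 * s * TR w e v + s ^ 2 * TR w e e := by
        simp only [map_add, map_smul, LinearMap.add_apply, LinearMap.smul_apply, smul_eq_mul]
        rw [tr_s23 hr hν hT w v e]
        ring
      rw [e1, h0, mul_zero, add_zero] at h2
      exact h2
    by_contra hne
    have h2 := h1 ((1 - TR w v v) / (2 * TR w e v))
    have h3 : 2 * ((1 - TR w v v) / (2 * TR w e v)) * TR w e v = 1 - TR w v v := by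
      field_simp
    rw [h3] at h2
    linarith
  refine ⟨TR w e (cR ν A) / TR p p (cR ν A), fun v => ?_⟩
  have h1 := key (v - (TR p p v / TR p p (cR ν A)) • cR ν A) (by
    rw [map_sub, map_smul, smul_eq_mul, div_mul_cancel₀ _ hpA.ne', sub_self])
  rw [map_sub, map_smul, smul_eq_mul, sub_eq_zero] at h1
  rw [h1]
  field_simp

/-- the inequality for the poles -/
theorem k1 [CharZero k] [IsAlgClosed k] [T0Space X.P] (h : Hyp X) (hr : RR T l c) (hν : NumR ν)
    (hT : ∀ U V W, TR (cR ν U) (cR ν V) (cR ν W) = T U V W) (hp : p ∈ closure (CC ν)) (hp0 : p ≠ 0)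
    (hC : Core ν TR p V N B h.var) {U E : Cart X} {m x : ℝ} {o : Fin r → ℝ} (ho : o ∈ Vp V)
    (hU : cR ν U = m • V + o + x • p) (hE : Effective E) (hz0 : TR p p (cR ν E) = 0)
    (hs : ∀ Q : PDiv X, ¬ Un (X.O Q.η) (E.eq Q.η) → 0 < hz h.var Q.η (U * E)) :
    VEff ν TR p N E ∧ 0 ≤ m * TR V V (cR ν E) + TR V o (cR ν E) := by
  obtain ⟨A, hA⟩ := h.amp
  have hpA : 0 < TR p p (cR ν A) := pp_pos h hr hν hT hA hp hC.sqp
  obtain ⟨Ls, U', h1, h2, h3, h4⟩ := Pool.Agent.H24.VP.fac_eff h hr hE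
  have hsum : ∀ v w : Fin r → ℝ, TR v w (cR ν E) = (Ls.map fun y => TR v w (cR ν y.2)).sum := by
    intro v w
    rw [h4, cR_mul, map_add, list_tr, tr_triv h hr hν hT h2 h3, add_zero]
  -- the components are vertical
  have hver : ∀ y ∈ Ls, Ver ν TR p y.1 y.2 := by
    intro y hy
    refine ⟨h1 y hy, ?_⟩
    have h7 : ∀ t ∈ Ls.map (fun y => TR p p (cR ν y.2)), 0 ≤ t := by
      intro t ht
      obtain ⟨z, hz, rfl⟩ := List.mem_map.1 ht
      exact tr_srf h hr hν hT hp z.1 (h1 z hz)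
    have h8 := List.single_le_sum h7 (TR p p (cR ν y.2)) (List.mem_map.2 ⟨y, hy, rfl⟩)
    rw [← hsum, hz0] at h8
    exact le_antisymm h8 (tr_srf h hr hν hT hp y.1 (h1 y hy))
  -- sections on the components
  have hpos : ∀ y ∈ Ls, 0 < hz h.var y.1.η (U * E) := by
    intro y hy
    refine hs y.1 fun hun => ?_
    obtain ⟨R, hR, h5⟩ := (eff_split Ls fun z hz => (h1 z hz).eff).2 y hy
    rw [h4, h5, mul_assoc, mul_eq] at hun
    have h6 : (R * U').eq y.1.η ∈ X.O y.1.η := mul_mem (hR _) (h2 _)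
    exact (h1 y hy).nun _ specializes_rfl ((un_mul_iff ((h1 y hy).eff _) h6).1 hun).1
  -- `T(w,U,D) = 0`
  have hU0 : ∀ w ∈ N, ∀ y ∈ Ls, TR w (cR ν U) (cR ν y.2) = 0 := by
    intro w hw y hy
    obtain ⟨a, ha⟩ := hC.form w hw p hC.pN
    rw [hU]
    simp only [map_add, map_smul, LinearMap.add_apply, LinearMap.smul_apply, smul_eq_mul]
    rw [hC.vv V (self_vp V) w hw _ _ (hver y hy), hC.vv o ho w hw _ _ (hver y hy), ha, (hver y hy).ver]
    ring
  -- (1) the nef classes in `N`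
  have hnef : ∀ w ∈ N, w ∈ closure (CC ν) → ∃ a : ℝ, ∀ v, TR w (cR ν E) v = a * TR p p v := by
    intro w hw hwC
    by_cases hw0 : w = 0
    · refine ⟨0, fun v => ?_⟩
      rw [hw0, map_zero, LinearMap.zero_apply, LinearMap.zero_apply, zero_mul]
    · have hwpA : 0 < TR w p (cR ν A) := by
        rw [tr_s12 hr hν hT]
        rcases (tr_nn h hr hν hT hp hwC (subset_closure (cc_amp h.var hν hA))).eq_or_lt with h5 | h5
        · exact absurd (pq_zero h hr hν hT hA hp hwC h5.symm) (hC.pw w hw hwC hw0)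
        · exact h5
      refine prop_nef h hr hν hT hA hwC hwpA (hC.form w hw p hC.pN) (hC.zN p hC.pN) hpA hz0 ?_
      rw [hsum]
      refine List.sum_nonneg fun t ht => ?_
      obtain ⟨y, hy, rfl⟩ := List.mem_map.1 ht
      have h5 := (ms_nef h hr hν hT (trdeg_pdiv h y.1) (h1 y hy) hwC).eff _ (hpos y hy)
      rw [cR_mul, map_add, LinearMap.add_apply, hU0 w hw y hy, zero_add] at h5
      exact h5
  obtain ⟨a₀, ha₀⟩ := hnef p hC.pN hp
  -- (2)
  have hVE : VEff ν TR p N E := by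
    refine ⟨hE, hz0, fun w hw => ?_⟩
    obtain ⟨C, hC0, hCw⟩ := hC.int w hw
    obtain ⟨a₁, ha₁⟩ := hnef _ (N.add_mem (N.smul_mem C hC.pN) hw) hCw
    refine ⟨a₁ - C * a₀, fun v => ?_⟩
    have h5 := ha₁ v
    rw [map_add, map_smul, LinearMap.add_apply, LinearMap.add_apply, LinearMap.smul_apply, LinearMap.smul_apply,
      smul_eq_mul, ha₀] at h5
    linarith
  refine ⟨hVE, ?_⟩
  -- (3)
  have h5 : 0 ≤ TR V (cR ν (U * E)) (cR ν E) := by
    rw [hsum]
    refine List.sum_nonneg fun t ht => ?_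
    obtain ⟨y, hy, rfl⟩ := List.mem_map.1 ht
    refine hC.test y.1 y.2 (U * E) (hver y hy) (hpos y hy) ?_
    rw [cR_mul, map_add, LinearMap.add_apply, hU0 p hC.pN y hy, ha₀, (hver y hy).ver, mul_zero, add_zero]
  have h6 : TR V p (cR ν E) = 0 := by
    rw [hsum]
    refine List.sum_eq_zero fun t ht => ?_
    obtain ⟨y, hy, rfl⟩ := List.mem_map.1 ht
    rw [tr_s12 hr hν hT]
    exact hC.vv V (self_vp V) p hC.pN _ _ (hver y hy)
  have h7 := hC.nsq E hVE
  rw [cR_mul, map_add, LinearMap.add_apply, hU] at h5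
  simp only [map_add, map_smul, LinearMap.add_apply, LinearMap.smul_apply, smul_eq_mul] at h5
  rw [h6] at h5
  linarith

end Pool.Agent.H60.ZC
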