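import Pool.Agent.H60.ZC.CX6
import Pool.Agent.H20.RT.Loc
import Pool.Agent.H89.RT.End

/-!
# [H60 ZC CX8] THEOREM C (MP_e49dc9_ag), CORE (f): the components `D` of the poles have `T(b,A,D) = 0`, `b = B(V,V)`

PROOF.  `a := cR A`, `b := B V V`.  `fac_eff`: `E = ∏ D_i * (trivial)`, `T(v,w,E) = ∑ T(v,w,D_i)` (`list_tr`, `tr_triv`), all `D_i` vertical (`tr_srf`, `hE.ver`).
(1) By `dec` with `u = V` and `u = o` (`self_vp`), `v = a`: `m T(b,a,E) + T(B(V,o),a,E) = - (m T(V,V,E) + T(V,o,E)) T(p,p,a) ≤ 0`.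
(2) Every `D_i` with `T(b,a,D_i) = 0` has `T(B(V,o),a,D_i) = 0`: for real `s`, `V + s o ∈ Vp V`, `B(V + s o, V + s o)` is nef (`Bnef`), so
`0 ≤ T(B(V+so,V+so),a,D_i) = T(b,a,D_i) + 2 s T(B(V,o),a,D_i) + s ^ 2 T(B(o,o),a,D_i)` for all `s` (`tpa_nn`, `Bsym`), so the linear coefficient is `0`.
(3) Every `D_i` with `T(b,a,D_i) ≠ 0` has `m T(b,a,D_i) + T(B(V,o),a,D_i) > 0`: `T(b,a,D_i) ≥ c₁ T(p,a,D_i)` (`c1_ex`; `T(b,b,a) > 0`: `hbb`), `T(p,a,D_i) > 0` (`T(p,a,D_i) ≥ 0` by `tpa_nn`; if it is `0`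
then `C p - b` nef (`int` for `- b`) gives `T(b,a,D_i) ≤ 0`, so `= 0`), and `T(B(V,o),a,D_i) ≥ - C₂ T(p,a,D_i)` with `C₂` depending only on `C₀`: choose (finitely many) `w_j` spanning `N`
with `B(V,o) = ∑ λ_j w_j`, `|λ_j| ≤ C₃ ‖o‖` (for instance `w_j = B V (Pi.single j 1)`, `λ_j = o j`, so `|λ_j| ≤ ‖o‖ ≤ C₀`), and `C_j p ± w_j` nef (`int`): `|T(w_j,a,D_i)| ≤ C_j T(p,a,D_i)`.
`m₀ := (C₂ + 1) / c₁`: for `m ≥ m₀` the number is `≥ (m c₁ - C₂) T(p,a,D_i) ≥ T(p,a,D_i) > 0`.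
(4) So in (1) a sum of numbers `≥ 0` is `≤ 0`: all are `0`, and there is no `D_i` as in (3).
(5) A prime divisor (`Q`, `D`) with `¬ Un (X.O Q.η) (E.eq Q.η)` is one of the `D_i`: some `D_i.eq Q.η` is not a unit at `Q.η` (the product of units is a unit), so `Q_i.η ⤳ Q.η` (`spr.un`), so
`Q_i.η = Q.η` (`eq_of_sp`, `trdeg_pdiv`), and `spr_R` or `spr_T` (H89/RT/End): `T(b,a,D) = T(b,a,D_i)`.
-/

set_option autoImplicit false

namespace Pool.Agent.H60.ZC

open Pool.Agent.H54.RV Pool.Agent.H83.TU Pool.Agent.H83.TK Pool.Agent.H20.TD Pool.Agent.H20.TP Pool.Agent.H20.RT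
open Pool.Agent.H24.VP (RR chS chi)

variable {k K : Type} [Field k] [Field K] [Algebra k K] {X : Mod k K} {r : ℕ}
  {ν : Cart X →* Multiplicative (Fin r → ℤ)} {T : Cart X → Cart X → Cart X → ℝ} {l : Cart X → ℝ} {c : ℝ} {TR : Tri3 r}
  {A : Cart X} {p V : Fin r → ℝ} {N : Submodule ℝ (Fin r → ℝ)} {B : (Fin r → ℝ) →ₗ[ℝ] (Fin r → ℝ) →ₗ[ℝ] (Fin r → ℝ)}

/-- a quadratic polynomial with nonnegative values and value `0` at `0` has linear coefficient `0` -/
private theorem lin_zero {x y : ℝ} (h : ∀ s : ℝ, 0 ≤ 2 * s * x + s ^ 2 * y) : x = 0 := by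
  have h1 := discrim_le_zero (a := y) (b := 2 * x) (c := 0) (fun s => by
    have := h s
    nlinarith)
  rw [discrim] at h1
  have h2 : x ^ 2 ≤ 0 := by nlinarith
  exact pow_eq_zero_iff (two_ne_zero) |>.1 (le_antisymm h2 (sq_nonneg x))

/-- the surface among the factors -/
private theorem ex_fac {x : X.P} : ∀ (Ls : List (PDiv X × Cart X)), (∀ p ∈ Ls, Effective p.2) →
    ¬ Un (X.O x) ((Ls.map Prod.snd).prod.eq x) → ∃ p ∈ Ls, ¬ Un (X.O x) (p.2.eq x) := by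
  intro Ls
  induction Ls with
  | nil =>
    intro _ h
    rw [List.map_nil, List.prod_nil, one_eq] at h
    exact absurd (un_one _) h
  | cons q L ih =>
    intro he h
    rw [List.map_cons, List.prod_cons, mul_eq] at h
    by_cases h1 : Un (X.O x) (q.2.eq x)
    · have h2 : ¬ Un (X.O x) ((L.map Prod.snd).prod.eq x) := fun h3 => h (un_mul h1 h3)
      obtain ⟨p, hp, hp'⟩ := ih (fun p hp => he p (List.mem_cons_of_mem _ hp)) h2
      exact ⟨p, List.mem_cons_of_mem _ hp, hp'⟩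
    · exact ⟨q, List.mem_cons_self, h1⟩

/-- a point where an effective divisor is not a unit lies on one of its surfaces -/
private theorem ex_srf [T0Space X.P] (h : Hyp X) {E U : Cart X} {Ls : List (PDiv X × Cart X)}
    (h1 : ∀ p ∈ Ls, SPr X p.1.η p.2) (h2 : Effective U) (h3 : Effective U⁻¹) (h4 : E = (Ls.map Prod.snd).prod * U)
    (Q : PDiv X) (hQ : ¬ Un (X.O Q.η) (E.eq Q.η)) : ∃ q ∈ Ls, SPr X Q.η q.2 := by
  have h5 : Un (X.O Q.η) (U.eq Q.η) := ⟨U.ne _, h2 _, by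
    have := h3 Q.η
    rw [inv_eq] at this
    exact this⟩
  rw [h4, mul_eq] at hQ
  have h6 : ¬ Un (X.O Q.η) ((Ls.map Prod.snd).prod.eq Q.η) := fun h7 => hQ (un_mul h7 h5)
  obtain ⟨q, hq, hq'⟩ := ex_fac Ls (fun p hp => (h1 p hp).eff) h6
  refine ⟨q, hq, ?_⟩
  have h7 : q.1.η ⤳ Q.η := by
    by_contra h8
    exact hq' ((h1 q hq).un _ h8)
  have h8 := Pool.Agent.H89.RT.eq_of_sp h.var h7 (by rw [trdeg_pdiv h q.1, trdeg_pdiv h Q])
  rw [← h8]
  exact h1 q hq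

/-- the bound of `B(V,o)` on the surfaces -/
private theorem bnd_o [CharZero k] [IsAlgClosed k] [T0Space X.P] (h : Hyp X) (hr : RR T l c) (hν : NumR ν)
    (hT : ∀ U V W, TR (cR ν U) (cR ν V) (cR ν W) = T U V W) (hA : Ample A) (hp0 : p ∈ closure (CC ν))
    (hC : Core ν TR p V N B h.var) (C₀ : ℝ) : ∃ C₂ : ℝ, 0 ≤ C₂ ∧ ∀ (o : Fin r → ℝ), ‖o‖ ≤ C₀ →
      ∀ (Q : PDiv X) (D : Cart X), SPr X Q.η D →
        - (C₂ * TR p (cR ν A) (cR ν D)) ≤ TR (B V o) (cR ν A) (cR ν D) := by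
  choose C₁ hC₁ hC₁' using hC.int
  have hN : ∀ j, B V (Pi.single j 1) ∈ N := fun j => hC.BN _ _
  have hN' : ∀ j, - B V (Pi.single j 1) ∈ N := fun j => N.neg_mem (hN j)
  refine ⟨|C₀| * ∑ j, (C₁ _ (hN j) + C₁ _ (hN' j)), mul_nonneg (abs_nonneg _) (Finset.sum_nonneg fun j _ =>
    add_nonneg (hC₁ _ _) (hC₁ _ _)), fun o ho Q D hD => ?_⟩
  have htr := trdeg_pdiv h Q
  have hpn := tpa_nn h hr hν hT htr hD hA hp0
  have hp : ∀ j, |TR (B V (Pi.single j 1)) (cR ν A) (cR ν D)| ≤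
      (C₁ _ (hN j) + C₁ _ (hN' j)) * TR p (cR ν A) (cR ν D) := by
    intro j
    have a1 := tpa_nn h hr hν hT htr hD hA (hC₁' _ (hN j))
    have a2 := tpa_nn h hr hν hT htr hD hA (hC₁' _ (hN' j))
    simp only [map_add, map_smul, map_neg, LinearMap.add_apply, LinearMap.smul_apply, LinearMap.neg_apply,
      smul_eq_mul] at a1 a2
    have b1 := mul_nonneg (hC₁ _ (hN j)) hpn
    have b2 := mul_nonneg (hC₁ _ (hN' j)) hpn
    rw [abs_le]
    constructor <;> linarith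
  have ho' : B V o = ∑ j, o j • B V (Pi.single j 1) := by
    conv_lhs => rw [← Finset.univ_sum_single o]
    rw [map_sum]
    refine Finset.sum_congr rfl fun j _ => ?_
    rw [← map_smul]
    congr 1
    rw [← Pi.single_smul, smul_eq_mul, mul_one]
  have h1 : |TR (B V o) (cR ν A) (cR ν D)| ≤
      |C₀| * (∑ j, (C₁ _ (hN j) + C₁ _ (hN' j))) * TR p (cR ν A) (cR ν D) := by
    rw [ho', map_sum, LinearMap.sum_apply, LinearMap.sum_apply, Finset.mul_sum, Finset.sum_mul]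
    refine (Finset.abs_sum_le_sum_abs _ _).trans (Finset.sum_le_sum fun j _ => ?_)
    rw [map_smul, LinearMap.smul_apply, LinearMap.smul_apply, smul_eq_mul, abs_mul, mul_assoc]
    refine mul_le_mul ?_ (hp j) (abs_nonneg _) (abs_nonneg _)
    have := norm_le_pi_norm o j
    rw [Real.norm_eq_abs] at this
    exact this.trans (ho.trans (le_abs_self _))
  exact (abs_le.1 h1).1

/-- the support of the poles -/
theorem supp [CharZero k] [IsAlgClosed k] [T0Space X.P] (h : Hyp X) (hr : RR T l c) (hν : NumR ν)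
    (hT : ∀ U V W, TR (cR ν U) (cR ν V) (cR ν W) = T U V W) (hA : Ample A) (hp : p ∈ closure (CC ν)) (hp0 : p ≠ 0)
    (hC : Core ν TR p V N B h.var) (hbb : 0 < TR (B V V) (B V V) (cR ν A)) (C₀ : ℝ) :
    ∃ m₀ : ℝ, ∀ (m : ℝ) (o : Fin r → ℝ) (E : Cart X), m₀ ≤ m → o ∈ Vp V → ‖o‖ ≤ C₀ → VEff ν TR p N E →
      0 ≤ m * TR V V (cR ν E) + TR V o (cR ν E) → ∀ (Q : PDiv X) (D : Cart X), SPr X Q.η D →
        ¬ Un (X.O Q.η) (E.eq Q.η) → TR (B V V) (cR ν A) (cR ν D) = 0 := by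
  obtain ⟨c₁, hc₁, h1⟩ := c1_ex h hr hν hT hA (hC.Bnef V (self_vp V)) hbb p
  obtain ⟨C₂, hC₂, h2⟩ := bnd_o h hr hν hT hA hp hC C₀
  refine ⟨(C₂ + 1) / c₁, fun m o E hm ho hoC hE hnn => ?_⟩
  have hm0 : C₂ + 1 ≤ m * c₁ := (div_le_iff₀ hc₁).1 hm
  obtain ⟨Ls, U, f1, f2, f3, f4⟩ := Pool.Agent.H24.VP.fac_eff h hr hE.eff
  -- every term is nonnegative, and positive if `T(b,a,D_i) ≠ 0`
  have key : ∀ (Q : PDiv X) (D : Cart X), SPr X Q.η D →
      0 ≤ m * TR (B V V) (cR ν A) (cR ν D) + TR (B V o) (cR ν A) (cR ν D) ∧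
      (m * TR (B V V) (cR ν A) (cR ν D) + TR (B V o) (cR ν A) (cR ν D) = 0 →
        TR (B V V) (cR ν A) (cR ν D) = 0) := by
    intro Q D hD
    have htr := trdeg_pdiv h Q
    by_cases h0 : TR (B V V) (cR ν A) (cR ν D) = 0
    · refine ⟨?_, fun _ => h0⟩
      have h3 : TR (B V o) (cR ν A) (cR ν D) = 0 := by
        refine lin_zero (y := TR (B o o) (cR ν A) (cR ν D)) fun s => ?_
        have h4 := tpa_nn h hr hν hT htr hD hA
          (hC.Bnef (V + s • o) ((Vp V).add_mem (self_vp V) ((Vp V).smul_mem s ho)))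
        simp only [map_add, map_smul, LinearMap.add_apply, LinearMap.smul_apply, smul_eq_mul] at h4
        rw [hC.Bsym o V, h0] at h4
        linarith
      rw [h0, h3, mul_zero, add_zero]
    · have h3 : 0 < TR p (cR ν A) (cR ν D) := by
        refine lt_of_le_of_ne (tpa_nn h hr hν hT htr hD hA hp) fun h4 => h0 ?_
        have h5 := tpa_nn h hr hν hT htr hD hA (hC.Bnef V (self_vp V))
        obtain ⟨C, hC0, hC'⟩ := hC.int (- B V V) (N.neg_mem (hC.BN V V))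
        have h6 := tpa_nn h hr hν hT htr hD hA hC'
        simp only [map_add, map_smul, map_neg, LinearMap.add_apply, LinearMap.smul_apply, LinearMap.neg_apply,
          smul_eq_mul] at h6
        rw [← h4, mul_zero, zero_add] at h6
        linarith
      have h4 := h1 Q D hD h0
      have h5 := h2 o hoC Q D hD
      have hmp : 0 ≤ m := by
        by_contra hneg
        have : m * c₁ ≤ 0 := mul_nonpos_of_nonpos_of_nonneg (not_le.1 hneg).le hc₁.le
        linarith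
      have h6 : m * (c₁ * TR p (cR ν A) (cR ν D)) ≤ m * TR (B V V) (cR ν A) (cR ν D) :=
        mul_le_mul_of_nonneg_left h4 hmp
      have h7 : (C₂ + 1) * TR p (cR ν A) (cR ν D) ≤ m * c₁ * TR p (cR ν A) (cR ν D) :=
        mul_le_mul_of_nonneg_right hm0 h3.le
      have h8 : 0 < m * TR (B V V) (cR ν A) (cR ν D) + TR (B V o) (cR ν A) (cR ν D) := by
        have e1 : m * (c₁ * TR p (cR ν A) (cR ν D)) = m * c₁ * TR p (cR ν A) (cR ν D) := by ring
        have e2 : (C₂ + 1) * TR p (cR ν A) (cR ν D) = C₂ * TR p (cR ν A) (cR ν D) + TR p (cR ν A) (cR ν D) := by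
          ring
        linarith
      exact ⟨h8.le, fun h9 => absurd h9 h8.ne'⟩
  -- the sum is nonpositive
  have hsum : m * TR (B V V) (cR ν A) (cR ν E) + TR (B V o) (cR ν A) (cR ν E) ≤ 0 := by
    rw [hC.dec E hE V (self_vp V) (cR ν A), hC.dec E hE o ho (cR ν A)]
    have h3 : 0 ≤ TR p p (cR ν A) := tr_nn h hr hν hT hp hp (subset_closure (cc_amp h.var hν hA))
    have h4 := mul_nonneg hnn h3
    have e : m * (-TR V V (cR ν E) * TR p p (cR ν A)) + -TR V o (cR ν E) * TR p p (cR ν A) =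
      - ((m * TR V V (cR ν E) + TR V o (cR ν E)) * TR p p (cR ν A)) := by ring
    rw [e]
    linarith
  have hlist : ∀ L : List (PDiv X × Cart X), (∀ x ∈ L, SPr X x.1.η x.2) →
      (L.map fun x => m * TR (B V V) (cR ν A) (cR ν x.2) + TR (B V o) (cR ν A) (cR ν x.2)).sum =
      m * (L.map fun x => TR (B V V) (cR ν A) (cR ν x.2)).sum + (L.map fun x => TR (B V o) (cR ν A) (cR ν x.2)).sum := by
    intro L
    induction L with
    | nil => intro _; simp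
    | cons a L ih =>
      intro hL
      rw [List.map_cons, List.sum_cons, ih fun x hx => hL x (List.mem_cons_of_mem _ hx), List.map_cons, List.sum_cons,
        List.map_cons, List.sum_cons]
      ring
  have hE2 : ∀ w, TR w (cR ν A) (cR ν E) = (Ls.map fun x => TR w (cR ν A) (cR ν x.2)).sum := by
    intro w
    rw [f4, cR_mul, map_add, list_tr, tr_triv h hr hν hT f2 f3, add_zero]
  rw [hE2, hE2, ← hlist Ls f1] at hsum
  intro Q D hD hQ
  obtain ⟨q, hq, hq'⟩ := ex_srf h f1 f2 f3 f4 Q hQ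
  rw [Pool.Agent.H89.RT.spr_R h hr hν hT hD hq']
  refine (key q.1 q.2 (f1 q hq)).2 (le_antisymm ?_ (key q.1 q.2 (f1 q hq)).1)
  refine (List.single_le_sum ?_ _ (List.mem_map.2 ⟨q, hq, rfl⟩)).trans hsum
  intro y hy
  obtain ⟨x, hx, rfl⟩ := List.mem_map.1 hy
  exact (key x.1 x.2 (f1 x hx)).1

end Pool.Agent.H60.ZC
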