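import Pool.Agent.H60.ZC.CXD

/-!
# [H60 ZC CX9] THEOREM C (MP_e49dc9_ag), CORE: the numbers of the last step; sections

`bb_pos`: `b := B(V,V)` has `T(b,b,A) > 0` if `T(p,V,V) < 0`.  PROOF. `Bdef` with `w = p`: `T(b,p,v) = - T(V,V,p) T(p,p,v)`, not `0` at `v = cR A`, so `b ≠ 0` (`T(p,p,A) > 0`: `sqp`, `pp_pos`);
`b ∈ N` (`BN`), nef (`Bnef`, `self_vp`), `TR b b ≠ 0` (`sqb`), `pp_pos`.
`neg`: PROOF.  `a := cR A`, `D' := a + n V + t p = n (V + (1 / n) a + (t / n) p)` is nef for `n ≥ 1` and a suitable `t = t(n)` (`tan` with `e = 1 / n`; positive multiples of nef classes are nef: `cl_smul`).  With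
`z = T(p,p,.)`: `T(b,V,V) = - (T(b,b,a) / z(a))` [`Bdef` with `w = b`, `v = a`: `T(b,b,a) = - T(V,V,b) z(a)`], `T(b,p,v) = β z(v)`, `β = - T(V,V,p)`, so `T(b,p,V) = T(b,p,o) = 0` (`zV`), `T(b,p,p) = 0` (`zN`):
`T(b,D',s + m V + o + x p) = T(b,D',s) + m T(b,a,V) + T(b,a,o) + x T(b,a,p) + n m T(b,V,V) + n T(b,V,o) + 0`, where `T(b,D',s)` is a constant (depending on `n`, `t`), `|T(b,a,o)| ≤ C ‖o‖`,
`|T(b,V,o)| ≤ C ‖o‖`, `x T(b,a,p) ≤ (θ m + 1) |T(b,a,p)|` for `0 ≤ x ≤ θ m + 1`.  The coefficient of `m` is `≤ T(b,a,V) + θ |T(b,a,p)| - n T(b,b,a) / z(a)`, negative for `n` large; then `m` large.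
`nosec`: PROOF. Let `E` be effective of the class `m V + o + x p` (`ex_sec` of H20/TP/Sec and `prin`: `E = prin s * U`, `cR E = cR U`; principal divisors have class `0`).  `T(p,p,E) = 0` (`zV`, `zN`), `fac_eff`: all
components `D_i` of `E` are vertical, `T(p,V,D_i) = 0` (`vv` with `u = V`, `w = p`), so `T(p,V,E) = 0`; but `T(p,V,E) = m T(p,V,V) + T(p,V,o) + x T(p,V,p)`, `T(p,V,p) = T(p,p,V) = 0`, `|T(p,V,o)| ≤ C C₀`:
negative for `m` large.
-/

set_option autoImplicit false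

namespace Pool.Agent.H60.ZC

open Pool.Agent.H54.RV Pool.Agent.H83.TU Pool.Agent.H83.TK Pool.Agent.H20.TD Pool.Agent.H20.TP Pool.Agent.H20.RT
open Pool.Agent.H24.VP (RR chS chi)

variable {k K : Type} [Field k] [Field K] [Algebra k K] {X : Mod k K} {r : ℕ}
  {ν : Cart X →* Multiplicative (Fin r → ℤ)} {T : Cart X → Cart X → Cart X → ℝ} {l : Cart X → ℝ} {c : ℝ} {TR : Tri3 r}
  {A : Cart X} {p V : Fin r → ℝ} {N : Submodule ℝ (Fin r → ℝ)} {B : (Fin r → ℝ) →ₗ[ℝ] (Fin r → ℝ) →ₗ[ℝ] (Fin r → ℝ)}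

private theorem cx9_p0 [CharZero k] [IsAlgClosed k] [T0Space X.P] (h : Hyp X) (hr : RR T l c) (hν : NumR ν)
    (hT : ∀ U V W, TR (cR ν U) (cR ν V) (cR ν W) = T U V W) (hA : Ample A) (hp : p ∈ closure (CC ν)) (hp0 : p ≠ 0)
    (hC : Core ν TR p V N B h.var) : 0 < TR p p (cR ν A) :=
  pp_pos h hr hν hT hA hp hC.sqp

private theorem cx9_vvp (hr : RR T l c) (hν : NumR ν) (hT : ∀ U V W, TR (cR ν U) (cR ν V) (cR ν W) = T U V W)
    (u v w : Fin r → ℝ) : TR u v w = TR w u v := by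
  rw [tr_s23 hr hν hT u v w, tr_s12 hr hν hT u w v]

theorem bb_pos [CharZero k] [IsAlgClosed k] [T0Space X.P] (h : Hyp X) (hr : RR T l c) (hν : NumR ν)
    (hT : ∀ U V W, TR (cR ν U) (cR ν V) (cR ν W) = T U V W) (hA : Ample A) (hp : p ∈ closure (CC ν)) (hp0 : p ≠ 0)
    (hC : Core ν TR p V N B h.var) (hV : TR p V V < 0) : 0 < TR (B V V) (B V V) (cR ν A) := by
  have hza := cx9_p0 h hr hν hT hA hp hp0 hC
  have h1 : TR V V p < 0 := by
    rw [cx9_vvp hr hν hT]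
    exact hV
  have h2 := hC.Bdef V V p hC.pN (cR ν A)
  have h3 : 0 < TR (B V V) p (cR ν A) := by
    rw [h2]
    nlinarith
  have hb0 : B V V ≠ 0 := by
    intro h4
    rw [h4, map_zero, LinearMap.zero_apply, LinearMap.zero_apply] at h3
    exact lt_irrefl _ h3
  have hbn := hC.Bnef V (self_vp V)
  exact pp_pos h hr hν hT hA hbn hC.sqb

/-- the last step: a nef class `d` with `T(b,d,.) < 0` on the classes of the divisors -/
theorem neg [CharZero k] [IsAlgClosed k] [T0Space X.P] (h : Hyp X) (hr : RR T l c) (hν : NumR ν)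
    (hT : ∀ U V W, TR (cR ν U) (cR ν V) (cR ν W) = T U V W) (hA : Ample A) (hp : p ∈ closure (CC ν)) (hp0 : p ≠ 0)
    (hC : Core ν TR p V N B h.var) (hV : TR p V V < 0) (s : Fin r → ℝ) (C₀ θ : ℝ) :
    ∃ (d : Fin r → ℝ) (m₀ : ℝ), d ∈ closure (CC ν) ∧ ∀ (m x : ℝ) (o : Fin r → ℝ), m₀ ≤ m → o ∈ Vp V → ‖o‖ ≤ C₀ →
      0 ≤ x → x ≤ θ * m + 1 → TR (B V V) d (s + m • V + o + x • p) < 0 := by
  have hza := cx9_p0 h hr hν hT hA hp hp0 hC
  have hbba := bb_pos h hr hν hT hA hp hp0 hC hV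
  have hVVp : TR V V p < 0 := by
    rw [cx9_vvp hr hν hT]
    exact hV
  set b := B V V with hb
  set a := cR ν A with ha
  have hbp : ∀ v, TR b p v = -TR V V p * TR p p v := hC.Bdef V V p hC.pN
  have hbb : TR b b a = -TR V V b * TR p p a := hC.Bdef V V b (hC.BN V V) a
  have hq : TR b V V = TR V V b := (cx9_vvp hr hν hT V V b).symm
  have hq0 : TR b V V < 0 := by
    rw [hq]
    by_contra hcon
    push Not at hcon
    nlinarith
  have hzV := hC.zV V (self_vp V)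
  have hbVp : TR b V p = 0 := by rw [tr_s23 hr hν hT, hbp, hzV, mul_zero]
  have hg : 0 ≤ TR b a p := by
    rw [tr_s23 hr hν hT, hbp]
    nlinarith
  obtain ⟨C1, hC1, hC1'⟩ : ∃ C1 : ℝ, 0 ≤ C1 ∧ ∀ v, |TR b V v| ≤ C1 * ‖v‖ :=
    ⟨‖LinearMap.toContinuousLinearMap (TR b V)‖, norm_nonneg _, fun v =>
      (LinearMap.toContinuousLinearMap (TR b V)).le_opNorm v⟩
  obtain ⟨C2, hC2, hC2'⟩ : ∃ C2 : ℝ, 0 ≤ C2 ∧ ∀ v, |TR b a v| ≤ C2 * ‖v‖ :=
    ⟨‖LinearMap.toContinuousLinearMap (TR b a)‖, norm_nonneg _, fun v =>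
      (LinearMap.toContinuousLinearMap (TR b a)).le_opNorm v⟩
  obtain ⟨n, hn1, hn2⟩ : ∃ n : ℝ, 1 ≤ n ∧ TR b a V + θ * TR b a p + 1 ≤ n * -TR b V V := by
    refine ⟨max 1 ((TR b a V + θ * TR b a p + 1) / -TR b V V), le_max_left _ _, ?_⟩
    rw [← div_le_iff₀ (by linarith)]
    exact le_max_right _ _
  obtain ⟨t, ht⟩ := hC.tan A (1 / n) hA (by positivity)
  obtain ⟨M, hM⟩ : ∃ M : ℝ, M = n * TR b V s + TR b a s + n * t * (-TR V V p * TR p p s) +
    n * (C1 * |C₀|) + C2 * |C₀| + TR b a p := ⟨_, rfl⟩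
  refine ⟨n • (V + (1 / n) • a + t • p), |M| + 1, cl_smul (by linarith) ht, ?_⟩
  intro m x o hm ho hon hx0 hx
  have hzo := hC.zV o ho
  have hzp := hC.zN p hC.pN
  have hexp : TR b (n • (V + (1 / n) • a + t • p)) (s + m • V + o + x • p) =
      n * TR b V s + TR b a s + n * t * (-TR V V p * TR p p s) + n * TR b V o + TR b a o + x * TR b a p +
        m * (n * TR b V V + TR b a V) := by
    simp only [map_add, map_smul, LinearMap.add_apply, LinearMap.smul_apply, smul_eq_mul]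
    rw [hbp V, hbp o, hbp p, hbp s, hzV, hzo, hzp, hbVp]
    have hn0 : n ≠ 0 := by linarith
    field_simp
    ring
  rw [hexp]
  have h1 : TR b V o ≤ C1 * |C₀| :=
    (le_abs_self _).trans ((hC1' o).trans (mul_le_mul_of_nonneg_left (hon.trans (le_abs_self C₀)) hC1))
  have h2 : TR b a o ≤ C2 * |C₀| :=
    (le_abs_self _).trans ((hC2' o).trans (mul_le_mul_of_nonneg_left (hon.trans (le_abs_self C₀)) hC2))
  have h3 : n * TR b V o ≤ n * (C1 * |C₀|) := mul_le_mul_of_nonneg_left h1 (by linarith)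
  have h4 : x * TR b a p ≤ (θ * m + 1) * TR b a p := mul_le_mul_of_nonneg_right hx hg
  have h5 : 0 ≤ m := by linarith [abs_nonneg M]
  have h6 : m * (TR b a V + θ * TR b a p + 1) ≤ m * (n * -TR b V V) := mul_le_mul_of_nonneg_left hn2 h5
  have h7 := le_abs_self M
  nlinarith

/-- no sections -/
theorem nosec [CharZero k] [IsAlgClosed k] [T0Space X.P] (h : Hyp X) (hr : RR T l c) (hν : NumR ν)
    (hT : ∀ U V W, TR (cR ν U) (cR ν V) (cR ν W) = T U V W) (hp : p ∈ closure (CC ν)) (hp0 : p ≠ 0)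
    (hC : Core ν TR p V N B h.var) (hV : TR p V V < 0) (C₀ : ℝ) :
    ∃ m₀ : ℝ, ∀ (m x : ℝ) (o : Fin r → ℝ) (U : Cart X), m₀ ≤ m → o ∈ Vp V → ‖o‖ ≤ C₀ →
      cR ν U = m • V + o + x • p → h0 U 1 = 0 := by
  obtain ⟨A, hA⟩ := h.amp
  obtain ⟨C3, hC3, hC3'⟩ : ∃ C3 : ℝ, 0 ≤ C3 ∧ ∀ v, |TR p V v| ≤ C3 * ‖v‖ :=
    ⟨‖LinearMap.toContinuousLinearMap (TR p V)‖, norm_nonneg _, fun v =>
      (LinearMap.toContinuousLinearMap (TR p V)).le_opNorm v⟩
  refine ⟨C3 * |C₀| / -TR p V V + 1, ?_⟩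
  intro m x o U hm ho hon hU
  by_contra hne
  obtain ⟨s, hs0, hs⟩ := ex_sec (Nat.pos_of_ne_zero hne)
  have hE : Effective (prin X s hs0 * U) := by
    intro y
    have h4 := hs y
    rw [pow_one] at h4
    rw [mul_eq]
    exact h4
  have hcE : cR ν (prin X s hs0 * U) = cR ν U := by
    have e1 : cR ν (prin X s hs0) = 0 := by
      change rv (ci ν (prin X s hs0)) = 0
      unfold ci
      rw [(hν.ker _).2 (numz_prin s hs0), toAdd_one]
      funext j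
      simp [rv]
    rw [cR_mul, e1, zero_add]
  have hzV := hC.zV V (self_vp V)
  have hzo := hC.zV o ho
  have hzp := hC.zN p hC.pN
  have hzE : TR p p (cR ν (prin X s hs0 * U)) = 0 := by
    rw [hcE, hU]
    simp only [map_add, map_smul, smul_eq_mul]
    rw [hzV, hzo, hzp]
    ring
  have hVE : TR p V (cR ν (prin X s hs0 * U)) = m * TR p V V + TR p V o := by
    rw [hcE, hU]
    simp only [map_add, map_smul, smul_eq_mul]
    rw [tr_s23 hr hν hT p V p, hzV]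
    ring
  have hneg : TR p V (cR ν (prin X s hs0 * U)) < 0 := by
    rw [hVE]
    have h1 : TR p V o ≤ C3 * |C₀| :=
      (le_abs_self _).trans ((hC3' o).trans (mul_le_mul_of_nonneg_left (hon.trans (le_abs_self C₀)) hC3))
    have h2 : C3 * |C₀| / -TR p V V < m := by linarith
    rw [div_lt_iff₀ (by linarith)] at h2
    linarith
  obtain ⟨Ls, W, h2, h3, h4, h5⟩ := Pool.Agent.H24.VP.fac_eff h hr hE
  rw [h5, cR_mul, map_add, list_tr, tr_triv h hr hν hT h3 h4, add_zero] at hzE hneg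
  have h6 : ∀ x ∈ Ls, TR p p (cR ν x.2) = 0 := by
    intro x hx
    have h7 : ∀ y ∈ Ls.map (fun x => TR p p (cR ν x.2)), 0 ≤ y := by
      intro y hy
      obtain ⟨z, hz, rfl⟩ := List.mem_map.1 hy
      exact tr_srf h hr hν hT hp z.1 (h2 z hz)
    have h8 := List.single_le_sum h7 (TR p p (cR ν x.2)) (List.mem_map.2 ⟨x, hx, rfl⟩)
    rw [hzE] at h8
    exact le_antisymm h8 (tr_srf h hr hν hT hp x.1 (h2 x hx))
  have h9 : (Ls.map fun x => TR p V (cR ν x.2)).sum = 0 := by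
    refine List.sum_eq_zero fun y hy => ?_
    obtain ⟨x, hx, rfl⟩ := List.mem_map.1 hy
    exact hC.vv V (self_vp V) p hC.pN x.1 x.2 ⟨h2 x hx, h6 x hx⟩
  rw [h9] at hneg
  exact lt_irrefl _ hneg

end Pool.Agent.H60.ZC
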