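import Pool.Agent.H60.ZC.CX3
import Pool.Agent.H60.ZC.CX4
import Pool.Agent.H60.ZC.CX5
import Pool.Agent.H60.ZC.CX7
import Pool.Agent.H60.ZC.CX8
import Pool.Agent.H60.ZC.CX9
import Pool.Agent.H60.ZC.CX10
import Pool.Agent.H89.RT.Mub

/-!
# [H60 ZC CX11] THEOREM C (MP_e49dc9_ag): THE CORE: `T(p,V,V) ≥ 0`

PROOF.  Suppose `T(p,V,V) < 0`.  `A` ample, `T(p,p,A) > 0` (`sqp`, `pp_pos`), `b := B(V,V)`, `T(b,b,A) > 0` (`bb_pos`).  `Q₀`, `S` of `ex_hor`, `z := Q₀.η`; `C₀`, `θ` of `ex_g`; `d`, `m₁` of `neg` with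
`s := cR S`; `m₂` of `nosec`; `m₃` of `supp`; `m`, `x`, `o`, `U` of `ex_g` for `m₀ := max m₁ (max m₂ m₃)`.  `W := S * U`; `0 < hz z W`: a nonzero section `g` of `W` on `S`.
EXTENSION (`ext_s`; `cl_eq h.var hν` for `AmpR`): `T(P,P,W) = T(P,P,S)` (`hC.zV`, `zN`: `T(p,p,m V + o + x p) = 0`; `m V + o ∈ Vp V`), `h0 (W * P ^ n * S⁻¹) 1 = h0 (U * P ^ n) 1 = 0` (`nosec` with `x + n`; `cR (U * P ^ n) = cR U + n p`),
`h0 (P ^ n * S⁻¹) 1 = 0` (an effective divisor of this class has `T(p,p,.) = - T(p,p,S) < 0`, `tr_eff`; `T(p,p,p) = 0` by `zN`, `pN`).  We get `n`, `s`, `u`; `φ := u / s`.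
`φ * W.eq z ∈ X.O z` and `X.rs z (φ * W.eq z) = g`: `s * (P ^ n).eq z` is a unit at `z`, `φ * W.eq z = (u * (W * P ^ n).eq z) / (s * (P ^ n).eq z)`.  So `φ ≠ 0`.
POLES (`pole`): `E₀ := prin X s _ * P ^ n` is effective (`Sec (P ^ n) 1 s`), `φ` is a section of `W * E₀` (`φ s = u`); `E` := the divisor `N` of `pole`: `E` and `E₀ * E⁻¹` effective, so `T(p,p,E) = 0`
(`T(p,p,E₀) = n T(p,p,p) = 0`, `tr_eff` for both).
For `Q` with `¬ Un (X.O Q.η) (E.eq Q.η)`: `¬ z ⤳ Q.η`: otherwise `z = Q.η` (`eq_of_sp`, `trdeg_pdiv`) and `E * S⁻¹` is effective (`ex_mem` with `s = 1`), `T(p,p,S) ≤ T(p,p,E) = 0`.  `sec_comp`: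
`0 < hz Q.η (W * S⁻¹ * E)`, and `W * S⁻¹ = U`.  `k1`: `VEff ν TR p N E` and the inequality; `supp`: `T(b,A,D) = 0` for all components `D` of `E`, so `T(b,v,D) = 0` for all `v` (`ms_zero`, `ks_zero`), so
`T(b,d,E) = 0` (`fac_eff`, `list_tr`, `tr_triv`; the `D_i` are components: `D_i.eq Q_i.η` is not a unit).
END: `φ` is a nonzero section of `W * E`, so `prin X φ _ * (W * E)` is effective, and `T(b,d,.) ≥ 0` on effective divisors for nef `b`, `d` (`ms_nef`, `tr_nn`; on a prime divisor `D`: `b` and `d` in `MS`, the form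
`T(.,.,D)` is `≥ 0` on `MS`: approximate `d` by ample classes, `ms_nef .. .eff`; see `ms_TT` of H20/TP).  So `0 ≤ T(b,d,W) + T(b,d,E) = T(b,d,cR S + m V + o + x p) < 0` (`neg`): contradiction.
-/

set_option autoImplicit false

namespace Pool.Agent.H60.ZC

open Pool.Agent.H54.RV Pool.Agent.H83.TU Pool.Agent.H83.TK Pool.Agent.H20.TD Pool.Agent.H20.TP Pool.Agent.H20.RT
open Pool.Agent.H24.VP (RR chS chi)

variable {k K : Type} [Field k] [Field K] [Algebra k K] {X : Mod k K} {r : ℕ}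
  {ν : Cart X →* Multiplicative (Fin r → ℤ)} {T : Cart X → Cart X → Cart X → ℝ} {l : Cart X → ℝ} {c : ℝ} {TR : Tri3 r}
  {A P : Cart X} {p V : Fin r → ℝ} {N : Submodule ℝ (Fin r → ℝ)} {B : (Fin r → ℝ) →ₗ[ℝ] (Fin r → ℝ) →ₗ[ℝ] (Fin r → ℝ)}

private theorem cx11_eff (Ls : List (PDiv X × Cart X)) (h1 : ∀ q ∈ Ls, SPr X q.1.η q.2) {U : Cart X}
    (hU : Effective U) : Effective ((Ls.map Prod.snd).prod * U) := by
  induction Ls with
  | nil =>
    rw [List.map_nil, List.prod_nil, one_mul]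
    exact hU
  | cons q Ls ih =>
    intro y
    rw [List.map_cons, List.prod_cons, mul_assoc, mul_eq]
    exact (X.O y).mul_mem ((h1 q List.mem_cons_self).eff y)
      (ih (fun q' hq' => h1 q' (List.mem_cons_of_mem _ hq')) y)

private theorem cx11_un (Ls : List (PDiv X × Cart X)) (h1 : ∀ q ∈ Ls, SPr X q.1.η q.2) {U : Cart X}
    (hU : Effective U) {y : X.P} (h2 : Un (X.O y) (((Ls.map Prod.snd).prod * U).eq y)) :
    ∀ q ∈ Ls, Un (X.O y) (q.2.eq y) := by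
  induction Ls with
  | nil => intro q hq; exact absurd hq List.not_mem_nil
  | cons q Ls ih =>
    have h1' : ∀ q' ∈ Ls, SPr X q'.1.η q'.2 := fun q' hq' => h1 q' (List.mem_cons_of_mem q hq')
    rw [List.map_cons, List.prod_cons, mul_assoc, mul_eq,
      un_mul_iff ((h1 q List.mem_cons_self).eff y) (cx11_eff Ls h1' hU y)] at h2
    intro q' hq'
    rcases List.mem_cons.1 hq' with rfl | hq'
    · exact h2.1
    · exact ih h1' h2.2 q' hq'

/-- a divisor whose components are orthogonal to `b` -/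
private theorem cx11_bd [CharZero k] [IsAlgClosed k] [T0Space X.P] (h : Hyp X) (hr : RR T l c) (hν : NumR ν)
    (hT : ∀ U V W, TR (cR ν U) (cR ν V) (cR ν W) = T U V W) (hA : Ample A) {b d : Fin r → ℝ}
    (hb : b ∈ closure (CC ν)) {E : Cart X} (hE : Effective E)
    (h0 : ∀ (Q : PDiv X) (D : Cart X), SPr X Q.η D → ¬ Un (X.O Q.η) (E.eq Q.η) → TR b (cR ν A) (cR ν D) = 0) :
    TR b d (cR ν E) = 0 := by
  obtain ⟨Ls, U, h1, h2, h3, h4⟩ := Pool.Agent.H24.VP.fac_eff h hr hE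
  have h5 : ∀ q ∈ Ls, TR b (cR ν A) (cR ν q.2) = 0 := by
    intro q hq
    refine h0 q.1 q.2 (h1 q hq) fun hun => ?_
    rw [h4] at hun
    exact (h1 q hq).nun q.1.η specializes_rfl (cx11_un Ls h1 h2 hun q hq)
  rw [h4, cR_mul, map_add, list_tr, tr_triv h hr hν hT h2 h3, add_zero]
  refine List.sum_eq_zero fun y hy => ?_
  obtain ⟨q, hq, rfl⟩ := List.mem_map.1 hy
  exact ks_zero hν (ms_zero h hr hν hT (trdeg_pdiv h q.1) (h1 q hq) hA
    (ms_nef h hr hν hT (trdeg_pdiv h q.1) (h1 q hq) hb) (h5 q hq)) d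

private theorem cx11_nn [CharZero k] [IsAlgClosed k] [T0Space X.P] (h : Hyp X) (hr : RR T l c) (hν : NumR ν)
    (hT : ∀ U V W, TR (cR ν U) (cR ν V) (cR ν W) = T U V W) {b d : Fin r → ℝ}
    (hb : b ∈ closure (CC ν)) (hd : d ∈ closure (CC ν)) {E : Cart X} (hE : Effective E) :
    0 ≤ TR b d (cR ν E) := by
  obtain ⟨Ls, U, h1, h2, h3, h4⟩ := Pool.Agent.H24.VP.fac_eff h hr hE
  rw [h4, cR_mul, map_add, list_tr, tr_triv h hr hν hT h2 h3, add_zero]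
  refine List.sum_nonneg fun y hy => ?_
  obtain ⟨q, hq, rfl⟩ := List.mem_map.1 hy
  exact ms_TT h hr hν hT (trdeg_pdiv h q.1) (h1 q hq) (ms_nef h hr hν hT (trdeg_pdiv h q.1) (h1 q hq) hb)
    (ms_nef h hr hν hT (trdeg_pdiv h q.1) (h1 q hq) hd)

private theorem cx11_prin (hν : NumR ν) {s : K} (hs0 : s ≠ 0) : cR ν (prin X s hs0) = 0 := by
  change rv (ci ν (prin X s hs0)) = 0
  unfold ci
  rw [(hν.ker _).2 (numz_prin s hs0), toAdd_one]
  funext j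
  simp [rv]

private theorem cx11_pow (U : Cart X) (n : ℕ) : cR ν (U ^ n) = (n : ℝ) • cR ν U := by
  change rv (ci ν (U ^ n)) = _
  rw [ci_pow, rv_smul]
  rfl

private theorem cx11_inv (U : Cart X) : cR ν U⁻¹ = - cR ν U := by
  change rv (ci ν U⁻¹) = _
  rw [ci_inv, rv_neg]

private theorem cx11_sec {U : Cart X} {s : K} (hs0 : s ≠ 0) (hs : Sec U 1 s) : Effective (prin X s hs0 * U) := by
  intro y
  have h4 := hs y
  rw [pow_one] at h4
  rw [mul_eq]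
  exact h4

/-- no sections of `P ^ n * S⁻¹` -/
private theorem cx11_h2 [CharZero k] [IsAlgClosed k] [T0Space X.P] (h : Hyp X) (hr : RR T l c) (hν : NumR ν)
    (hT : ∀ U V W, TR (cR ν U) (cR ν V) (cR ν W) = T U V W) (hP : cR ν P = p) (hp : p ∈ closure (CC ν))
    (hppp : TR p p p = 0) {S : Cart X} (hSp : 0 < TR p p (cR ν S)) (n : ℕ) : h0 (P ^ n * S⁻¹) 1 = 0 := by
  by_contra hne
  obtain ⟨s, hs0, hs⟩ := ex_sec (Nat.pos_of_ne_zero hne)
  have h1 := tr_eff h hr hν hT hp (cx11_sec hs0 hs)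
  rw [cR_mul, cx11_prin hν, zero_add, cR_mul, cx11_pow, cx11_inv, hP, map_add, map_smul, map_neg, hppp,
    smul_zero, zero_add] at h1
  linarith

/-- the rational section `u / s` -/
private theorem cx11_phi {z : X.P} {P W : Cart X} {n : ℕ} {s u : K} {g : X.kap z} (hg0 : g ≠ 0)
    (hsu : Un (X.O z) (s * (P ^ n).eq z)) (hu : Sec (W * P ^ n) 1 u)
    (hug : X.rs z (u * (W * P ^ n).eq z) = X.rs z (s * (P ^ n).eq z) * g) :
    u / s * W.eq z ∈ X.O z ∧ X.rs z (u / s * W.eq z) = g ∧ u / s ≠ 0 := by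
  have h1 : u * (W * P ^ n).eq z ∈ X.O z := by
    have h2 := hu z
    rwa [pow_one] at h2
  have hs0 : s ≠ 0 := left_ne_zero_of_mul hsu.1
  have hP0 : (P ^ n).eq z ≠ 0 := right_ne_zero_of_mul hsu.1
  have e1 : u / s * W.eq z = (u * (W * P ^ n).eq z) / (s * (P ^ n).eq z) := by
    rw [mul_eq]
    field_simp
  have h2 : u / s * W.eq z ∈ X.O z := by
    rw [e1, div_eq_mul_inv]
    exact (X.O z).mul_mem h1 hsu.2.2
  have h3 : X.rs z (u / s * W.eq z) = g := by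
    rw [e1, rs_div z h1 hsu, hug, mul_div_cancel_left₀]
    exact (rs_ne z hsu.2.1).2 hsu
  refine ⟨h2, h3, ?_⟩
  intro h4
  rw [h4, zero_mul, rs_zero] at h3
  exact hg0 h3.symm

/-- **the core** -/
theorem core [CharZero k] [IsAlgClosed k] [T0Space X.P] (h : Hyp X) (hr : RR T l c) (hν : NumR ν)
    (hT : ∀ U V W, TR (cR ν U) (cR ν V) (cR ν W) = T U V W) (hP : cR ν P = p) (hp : p ∈ closure (CC ν)) (hp0 : p ≠ 0)
    (hC : Core ν TR p V N B h.var)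
    (hlow : ∀ W : Cart X, ∃ (C : ℝ) (n₀ : ℕ), ∀ n, n₀ ≤ n → chi T l c (W * P ^ n) - C ≤ h0 (W * P ^ n) 1)
    {c₀ : ℝ} (hc₀ : 0 < c₀) (hgro : ∃ n₀ : ℕ, ∀ n : ℕ, n₀ ≤ n → c₀ * (n : ℝ) ^ 2 ≤ h0 (P ^ n) 1) :
    0 ≤ TR p V V := by
  by_contra hV
  push Not at hV
  obtain ⟨A, hA⟩ := h.amp
  have hpp : 0 < TR p p (cR ν A) := pp_pos h hr hν hT hA hp hC.sqp
  have hbb := bb_pos h hr hν hT hA hp hp0 hC hV
  have hbn := hC.Bnef V (self_vp V)
  obtain ⟨Q₀, S, hS, hSp⟩ := ex_hor h hr hν hT hA hp hpp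
  have htr : Algebra.trdeg k (X.kap Q₀.η) = 2 := trdeg_pdiv h Q₀
  obtain ⟨C₀, θ, hθ, hg⟩ := ex_g h hr hν hT htr hS hP hp hSp V
  obtain ⟨d, m₁, hd, hneg⟩ := neg h hr hν hT hA hp hp0 hC hV (cR ν S) C₀ θ
  obtain ⟨m₂, hns⟩ := nosec h hr hν hT hp hp0 hC hV C₀
  obtain ⟨m₃, hsupp⟩ := supp h hr hν hT hA hp hp0 hC hbb C₀
  obtain ⟨m, x, o, U, hm, hx0, hx, ho, hon, hU, hzg⟩ := hg (max m₁ (max m₂ m₃))
  have hm1 : m₁ ≤ m := (le_max_left _ _).trans hm
  have hm2 : m₂ ≤ m := ((le_max_left _ _).trans (le_max_right _ _)).trans hm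
  have hm3 : m₃ ≤ m := ((le_max_right _ _).trans (le_max_right _ _)).trans hm
  have hzV := hC.zV V (self_vp V)
  have hzo := hC.zV o ho
  have hzp := hC.zN p hC.pN
  obtain ⟨g, hg0, hgs⟩ := ex_sec hzg
  have hzU : TR p p (cR ν U) = 0 := by
    rw [hU]
    simp only [map_add, map_smul, smul_eq_mul]
    rw [hzV, hzo, hzp]
    ring
  -- the extension
  have hPm : cR ν P ∈ closure (AmpR ν) := by
    rw [hP, cl_eq h.var hν]
    exact hp
  have h3 : T P P P = 0 := by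
    rw [← hT, hP]
    exact hzp
  have hW : T P P S ≤ T P P (S * U) := by
    rw [← hT, ← hT, hP, cR_mul, map_add, hzU, add_zero]
  have h1 : ∀ n : ℕ, h0 (S * U * P ^ n * S⁻¹) 1 = 0 := by
    intro n
    have e1 : S * U * P ^ n * S⁻¹ = U * P ^ n := by
      rw [mul_assoc S, mul_comm S, mul_inv_cancel_right]
    rw [e1]
    refine hns m (x + n) o (U * P ^ n) hm2 ho hon ?_
    rw [cR_mul, cx11_pow, hU, hP, add_smul, add_assoc]
  obtain ⟨n, s, u, hs0, hs, hsu, hu, hug⟩ := ext_s h hr hν htr hS hPm h3 (hlow (S * U)) hc₀ hgro hW h1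
    (cx11_h2 h hr hν hT hP hp hzp hSp) hg0 hgs
  obtain ⟨hφ1, hφ2, hφ0⟩ := cx11_phi hg0 hsu hu hug
  obtain ⟨φ, hφ⟩ : ∃ φ, φ = u / s := ⟨_, rfl⟩
  rw [← hφ] at hφ1 hφ2 hφ0
  -- the poles
  have hE0 : Effective (prin X s hs0 * P ^ n) := cx11_sec hs0 hs
  have hcE0 : TR p p (cR ν (prin X s hs0 * P ^ n)) = 0 := by
    rw [cR_mul, cx11_prin hν, zero_add, cx11_pow, hP, map_smul, hzp, smul_zero]
  have hφE : Sec (S * U * (prin X s hs0 * P ^ n)) 1 φ := by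
    intro y
    have h4 := hu y
    have e1 : φ * (S * U * (prin X s hs0 * P ^ n)).eq y = u * (S * U * P ^ n).eq y := by
      rw [hφ, mul_eq, mul_eq (prin X s hs0), mul_eq (S * U) (P ^ n)]
      change u / s * ((S * U).eq y * (s * (P ^ n).eq y)) = _
      field_simp
    rw [pow_one, e1]
    rwa [pow_one] at h4
  obtain ⟨E, hE, hE2, hE3, hE4⟩ := pole h hr hE0 hφE
  have hzE : TR p p (cR ν E) = 0 := by
    have h4 := tr_eff h hr hν hT hp hE
    have h5 := tr_eff h hr hν hT hp hE2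
    rw [cR_mul, cx11_inv, map_add, map_neg, hcE0, zero_add] at h5
    linarith
  have hs' : ∀ Q : PDiv X, ¬ Un (X.O Q.η) (E.eq Q.η) → 0 < hz h.var Q.η (U * E) := by
    intro Q hQ
    have hzQ : ¬ Q₀.η ⤳ Q.η := by
      intro h4
      have h5 : Q₀.η = Q.η := Pool.Agent.H89.RT.eq_of_sp h.var h4 (by rw [htr, trdeg_pdiv h Q])
      have h6 : Effective (E * S⁻¹) := by
        have h7 := (ex_mem h.var hS E 1 1).2 ⟨by
          intro y
          rw [one_mul, pow_one]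
          exact hE y, by
          rw [one_mul, pow_one, h5]
          exact hQ⟩
        intro y
        have h8 : (1 : K) * (E ^ 1 * S⁻¹).eq y ^ 1 ∈ X.O y := h7 y
        rwa [one_mul, pow_one, pow_one] at h8
      have h7 := bgd_srf h hr hν hT hp Q₀ hS h6 hzE
      linarith
    have h4 := sec_comp h hS hzQ hgs hφ1 hφ2 hE hE3 (hE4 Q hQ) hQ
    have e1 : S * U * S⁻¹ * E = U * E := by
      rw [mul_comm S, mul_inv_cancel_right]
    rwa [e1] at h4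
  obtain ⟨hVE, hineq⟩ := k1 h hr hν hT hp hp0 hC ho hU hE hzE hs'
  have hbE : TR (B V V) d (cR ν E) = 0 := cx11_bd h hr hν hT hA hbn hE
    fun Q D hD hQ => hsupp m o E hm3 ho hon hVE hineq Q D hD hQ
  -- the end
  have h4 := cx11_nn h hr hν hT hbn hd (cx11_sec hφ0 hE3)
  rw [cR_mul, cx11_prin hν, zero_add, cR_mul, map_add, hbE, add_zero, cR_mul, hU] at h4
  have h5 := hneg m x o hm1 ho hon hx0 hx
  have e1 : cR ν S + (m • V + o + x • p) = cR ν S + m • V + o + x • p := by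
    rw [← add_assoc, ← add_assoc]
  rw [e1] at h4
  linarith

end Pool.Agent.H60.ZC
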