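import Pool.Agent.H20.TP.Srf
import Pool.Agent.H20.TP.Sec
import Pool.Agent.H89.RT.Hc

/-!
# [H60 ZC CX2] THEOREM C (MP_e49dc9_ag), CORE: upper bound for the number of sections of `W P ^ (i n)` on the prime divisor `S`

PROOF. `H := A ^ a` ample without base points (`exists_bpf`, H20/TP/Sec), so `H` and all its powers have nonzero sections on `z` (`bpf_hasS`), so
`hz z U ≤ hz z (U * H ^ n)` (multiply by a section; `H20/TP` has `hasS`; or `h0`-monotonicity of H32.TK `mul_le` on `subM h.var z`).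
`i ≥ 1` so large that `2 T(P,H,S) / i + T(H,H,S) / i ^ 2 ≤ ε`.  `G := P ^ i * H` is ample: its class `i p + cR H` is in `CC ν` (`p` nef, `H` ample;
compare `cc_amp`, `good_cc`, `cl_eq` in H20/TP and H20/TD: an integral class in `CC ν` is ample), and so `hz z (W * G ^ n) = chS T l S (W * G ^ n)` for
`n ≥ n₀` (`srf_ev` of H20/TQ/Geo, or `ev_srf`, H20/TP/Srf).  `chS T l S (W * G ^ n) = n ^ 2 T(G,G,S) / 2 + n (T(W,G,S) - T(G,S,S) / 2) + chS T l S W` and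
`T(G,G,S) = i ^ 2 T(P,P,S) + 2 i T(P,H,S) + T(H,H,S) ≤ i ^ 2 (T(P,P,S) + ε)`.  `n < n₀`: finitely many values, absorbed in `C`.
-/

set_option autoImplicit false

namespace Pool.Agent.H60.ZC

open Pool.Agent.H54.RV Pool.Agent.H83.TU Pool.Agent.H83.TK Pool.Agent.H20.TD Pool.Agent.H20.TP
open Pool.Agent.H24.VP (RR chS)

variable {k K : Type} [Field k] [Field K] [Algebra k K] {X : Mod k K} {r : ℕ}
  {ν : Cart X →* Multiplicative (Fin r → ℤ)} {T : Cart X → Cart X → Cart X → ℝ} {l : Cart X → ℝ} {c : ℝ} {TR : Tri3 r}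
  {z : X.P} {S : Cart X}

private theorem cR_mulU (U V : Cart X) : cR ν (U * V) = cR ν U + cR ν V := by
  show rv (ci ν (U * V)) = _
  rw [ci_mul, rv_add]

private theorem cR_powU (U : Cart X) (n : ℕ) : cR ν (U ^ n) = (n : ℝ) • cR ν U := by
  show rv (ci ν (U ^ n)) = _
  rw [ci_pow, rv_smul]
  rfl

private theorem cl_addU (hX : IsVar X) (hν : NumR ν) {x y : Fin r → ℝ} (hx : x ∈ closure (CC ν))
    (hy : y ∈ CC ν) : x + y ∈ CC ν := by
  obtain ⟨δ, hδ, hb⟩ := Metric.isOpen_iff.1 (cc_open (ν := ν)) y hy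
  obtain ⟨x', hx', hd⟩ := Metric.mem_closure_iff.1 hx δ hδ
  have e : x + y = x' + (y + (x - x')) := by abel
  rw [e]
  refine cc_add hX hν hx' (hb ?_)
  rw [Metric.mem_ball, dist_eq_norm, add_sub_cancel_left, ← dist_eq_norm]
  exact hd

private theorem numU {n i a1 a2 a3 a4 a5 a6 a7 b1 b2 b3 ε c1 c2 : ℝ} (hn : 0 ≤ n)
    (hk : 2 * i * b2 + b3 ≤ i ^ 2 * ε) (hc1 : 0 ≤ c1) (hc2 : 0 ≤ c2) :
    (a1 + 2 * n * a2 + n ^ 2 * (b3 + 2 * i * b2 + i ^ 2 * b1)) / 2 - (a3 + n * a4) / 2 + a5 / 6 + a6 + 0 * a7 ≤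
      (i * n) ^ 2 * (b1 + ε) / 2 +
        (|a1| / 2 + |a2| + |a3| / 2 + |a4| / 2 + |a5| / 6 + |a6| + c1 + c2) * (n + 1) := by
  have h1 : n ^ 2 * (b3 + 2 * i * b2 + i ^ 2 * b1) ≤ n ^ 2 * (i ^ 2 * (b1 + ε)) :=
    mul_le_mul_of_nonneg_left (by linarith) (sq_nonneg n)
  have h2 := mul_le_mul_of_nonneg_left (le_abs_self a2) hn
  have h3 := mul_le_mul_of_nonneg_left (neg_abs_le a4) hn
  have h4 := le_abs_self a1
  have h5 := neg_abs_le a3
  have h6 := le_abs_self a5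
  have h7 := le_abs_self a6
  have p1 := mul_nonneg (abs_nonneg a1) hn
  have p3 := mul_nonneg (abs_nonneg a3) hn
  have p5 := mul_nonneg (abs_nonneg a5) hn
  have p6 := mul_nonneg (abs_nonneg a6) hn
  have p7 := mul_nonneg hc1 hn
  have p8 := mul_nonneg hc2 hn
  have p2 := abs_nonneg a2
  have p4 := abs_nonneg a4
  nlinarith

/-- upper bound on a prime divisor -/
theorem up_z [CharZero k] [IsAlgClosed k] [T0Space X.P] (h : Hyp X) (hr : RR T l c) (hν : NumR ν)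
    (htr : Algebra.trdeg k (X.kap z) = 2) (hS : SPr X z S) {P : Cart X} (hP : cR ν P ∈ closure (AmpR ν)) (W : Cart X)
    {ε : ℝ} (hε : 0 < ε) :
    ∃ (i : ℕ) (C : ℝ), 1 ≤ i ∧ 0 ≤ C ∧ ∀ n : ℕ,
      (hz h.var z (W * P ^ (i * n)) : ℝ) ≤ ((i * n : ℕ) : ℝ) ^ 2 * (T P P S + ε) / 2 + C * (n + 1) := by
  classical
  have _ := htr
  obtain ⟨A, hA⟩ := h.amp
  obtain ⟨a, ha, hH, hb⟩ := exists_bpf h.var hA
  obtain ⟨H, hHe⟩ : ∃ H, H = A ^ a := ⟨_, rfl⟩
  rw [← hHe] at hH hb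
  obtain ⟨Z, hZ⟩ := bpf_hasS h hb z
  obtain ⟨i0, hi0⟩ := exists_nat_gt ((2 * |T H P S| + |T H H S|) / ε)
  obtain ⟨i, hi⟩ : ∃ i : ℕ, i = i0 + 1 := ⟨_, rfl⟩
  have hi1 : 1 ≤ i := by omega
  have hiR : (1 : ℝ) ≤ i := by exact_mod_cast hi1
  have hi2 : 2 * |T H P S| + |T H H S| ≤ i * ε := by
    rw [div_lt_iff₀ hε] at hi0
    have h1 : (i0 : ℝ) ≤ i := by exact_mod_cast (show i0 ≤ i by omega)
    have h2 : (i0 : ℝ) * ε ≤ i * ε := mul_le_mul_of_nonneg_right h1 hε.le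
    linarith
  have hkey : 2 * (i : ℝ) * T H P S + T H H S ≤ (i : ℝ) ^ 2 * ε := by
    have a1 := mul_le_mul_of_nonneg_left (le_abs_self (T H P S)) (show (0 : ℝ) ≤ 2 * i by positivity)
    have a2 := le_abs_self (T H H S)
    have a3 := mul_le_mul_of_nonneg_right hiR (abs_nonneg (T H H S))
    have a4 := mul_le_mul_of_nonneg_left hi2 (show (0 : ℝ) ≤ i by positivity)
    nlinarith
  have hG : Ample (H * P ^ i) := by
    apply cc_ample (ν := ν)
    show cR ν (H * P ^ i) ∈ CC ν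
    rw [cR_mulU, cR_powU, add_comm]
    refine cl_addU h.var hν (cl_smul (Nat.cast_nonneg i) ?_) (cc_amp h.var hν hH)
    rw [← cl_eq h.var hν]
    exact hP
  obtain ⟨n0, hn0⟩ := ev_srf h hr hS W (H * P ^ i) hG
  have hcmp : ∀ n : ℕ, 1 ≤ n →
      hz h.var z (W * P ^ (i * n)) ≤ hz h.var z (W * (H * P ^ i) ^ n) := by
    intro n hn
    have e1 : W * (H * P ^ i) ^ n = (W * P ^ (i * n)) * H ^ n := by
      rw [mul_pow, ← pow_mul, mul_assoc, mul_comm (H ^ n)]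
    have h1 : 0 < hz h.var z (H ^ n) := hasS_pos h.var hA (hasS_pow h.var hZ hn)
    rw [e1]
    unfold hz
    have e2 : resD h.var z (W * P ^ (i * n) * H ^ n) =
        resD h.var z (W * P ^ (i * n)) * resD h.var z (H ^ n) := map_mul _ _ _
    rw [e2]
    exact H32.TK.mul_le _ _ (fd_sub h.var hA z _) h1
  obtain ⟨N, hN⟩ : ∃ N, N = max n0 1 := ⟨_, rfl⟩
  obtain ⟨c1, hc1⟩ : ∃ c1 : ℝ, c1 = ∑ m ∈ Finset.range N, (hz h.var z (W * P ^ (i * m)) : ℝ) := ⟨_, rfl⟩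
  obtain ⟨c2, hc2⟩ : ∃ c2 : ℝ, c2 = ((i * N : ℕ) : ℝ) ^ 2 * |T P P S + ε| / 2 := ⟨_, rfl⟩
  have hc1n : 0 ≤ c1 := by
    rw [hc1]
    exact Finset.sum_nonneg fun _ _ => Nat.cast_nonneg _
  have hc2n : 0 ≤ c2 := by
    rw [hc2]
    positivity
  refine ⟨i, |T W W S| / 2 + |T W (H * P ^ i) S| + |T W S S| / 2 + |T (H * P ^ i) S S| / 2 +
    |T S S S| / 6 + |l S| + c1 + c2, hi1, by positivity, fun n => ?_⟩
  have hnn : (0 : ℝ) ≤ n := Nat.cast_nonneg n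
  by_cases hn : N ≤ n
  · have hn1 : 1 ≤ n := le_trans (by rw [hN]; exact le_max_right _ _) hn
    have hn2 : n0 ≤ n := le_trans (by rw [hN]; exact le_max_left _ _) hn
    have h1 : (hz h.var z (W * P ^ (i * n)) : ℝ) ≤ hz h.var z (W * (H * P ^ i) ^ n) := by
      exact_mod_cast hcmp n hn1
    have h2 := hn0 n hn2
    dsimp only at h2
    rw [h2] at h1
    refine h1.trans ?_
    have h3 : chS T l S (W * (H * P ^ i) ^ n) = T (W * (H * P ^ i) ^ n) (W * (H * P ^ i) ^ n) S / 2 -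
        T (W * (H * P ^ i) ^ n) S S / 2 + T S S S / 6 + l S := rfl
    rw [h3, T_sq hr W (H * P ^ i) S n, T_lin hr W (H * P ^ i) S S n, T_sq hr H P S i]
    have h4 := numU (n := (n : ℝ)) (i := (i : ℝ)) (a1 := T W W S) (a2 := T W (H * P ^ i) S) (a3 := T W S S)
      (a4 := T (H * P ^ i) S S) (a5 := T S S S) (a6 := l S) (a7 := 0) (b1 := T P P S) hnn hkey hc1n hc2n
    rw [zero_mul, add_zero] at h4
    push_cast
    exact h4
  · push Not at hn
    have h1 : (hz h.var z (W * P ^ (i * n)) : ℝ) ≤ c1 := by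
      rw [hc1]
      exact Finset.single_le_sum (f := fun m => (hz h.var z (W * P ^ (i * m)) : ℝ))
        (fun _ _ => Nat.cast_nonneg _) (Finset.mem_range.2 hn)
    have h2 : -c2 ≤ ((i * n : ℕ) : ℝ) ^ 2 * (T P P S + ε) / 2 := by
      rw [hc2]
      have h3 : ((i * n : ℕ) : ℝ) ^ 2 ≤ ((i * N : ℕ) : ℝ) ^ 2 := by
        have h4 : ((i * n : ℕ) : ℝ) ≤ ((i * N : ℕ) : ℝ) := by
          exact_mod_cast Nat.mul_le_mul_left i hn.le
        exact pow_le_pow_left₀ (Nat.cast_nonneg _) h4 2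
      have h5 := mul_le_mul_of_nonneg_right h3 (abs_nonneg (T P P S + ε))
      have h6 := mul_le_mul_of_nonneg_left (neg_abs_le (T P P S + ε)) (sq_nonneg ((i * n : ℕ) : ℝ))
      linarith
    have h3 : c1 + c2 ≤ (|T W W S| / 2 + |T W (H * P ^ i) S| + |T W S S| / 2 + |T (H * P ^ i) S S| / 2 +
        |T S S S| / 6 + |l S| + c1 + c2) * (n + 1) := by
      have h4 : 0 ≤ |T W W S| / 2 + |T W (H * P ^ i) S| + |T W S S| / 2 + |T (H * P ^ i) S S| / 2 +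
          |T S S S| / 6 + |l S| := by positivity
      have h5 : 0 ≤ (|T W W S| / 2 + |T W (H * P ^ i) S| + |T W S S| / 2 + |T (H * P ^ i) S S| / 2 +
          |T S S S| / 6 + |l S| + c1 + c2) * n := by positivity
      linarith
    linarith

end Pool.Agent.H60.ZC
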