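import Pool.Agent.H60.ZC.CX1
import Pool.Agent.H60.ZC.CX2

/-!
# [H60 ZC CX3] THEOREM C (MP_e49dc9_ag), CORE: extension of a section `g` of `W` on the prime divisor `S`: `s g = u` on `S`

PROOF. `ε := c₀ > 0`, `i`, `C` of `up_z`.  With `j = i n`, `n` large: `h0 (W P ^ j) ≥ chi (W P ^ j) - C' = j ^ 2 T(P,P,W) / 2 + O(j)` (expand `chi` =
`T(U,U,U) / 6 + l U + c` with the trilinearity of `hr`, `T P P P = 0`), `h0 (P ^ j) ≥ c₀ j ^ 2`, so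
`h0 (P ^ j) + h0 (W P ^ j) - hz z (W P ^ j) ≥ c₀ j ^ 2 + j ^ 2 T(P,P,W) / 2 - j ^ 2 (T(P,P,S) + ε) / 2 - O(j) = c₀ j ^ 2 / 2 - O(j) > 0`.
Apply `ext_dim` with `D = P ^ j`.
-/

set_option autoImplicit false

namespace Pool.Agent.H60.ZC

open Pool.Agent.H54.RV Pool.Agent.H83.TU Pool.Agent.H83.TK Pool.Agent.H20.TD Pool.Agent.H20.TP
open Pool.Agent.H24.VP (RR chS chi)

variable {k K : Type} [Field k] [Field K] [Algebra k K] {X : Mod k K} {r : ℕ}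
  {ν : Cart X →* Multiplicative (Fin r → ℤ)} {T : Cart X → Cart X → Cart X → ℝ} {l : Cart X → ℝ} {c : ℝ} {TR : Tri3 r}
  {z : X.P} {S : Cart X}

private theorem chi_ex {T : Cart X → Cart X → Cart X → ℝ} {l : Cart X → ℝ} {c : ℝ} (hr : RR T l c) (P W : Cart X)
    (h3 : T P P P = 0) (j : ℕ) :
    chi T l c (W * P ^ j) = T W W W / 6 + (j : ℝ) * (T W W P / 2) + (j : ℝ) ^ 2 * (T P P W / 2) + l W + j * l P + c := by
  have e1 : ∀ U V : Cart X, T U V (W * P ^ j) = T U V W + j * T U V P := fun U V => by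
    rw [hr.tri.s23, hr.tri.s12, T_lin hr, hr.tri.s12 W, hr.tri.s23 U, hr.tri.s12 P, hr.tri.s23 U P V]
  have e2 : chi T l c (W * P ^ j) = T (W * P ^ j) (W * P ^ j) (W * P ^ j) / 6 + l (W * P ^ j) + c := rfl
  rw [e2, T_sq hr, e1, e1, e1, hr.ladd, hr.l_pow, h3, hr.tri.s23 W P W, hr.tri.s12 W P P, hr.tri.s23 P W P]
  ring

private theorem num3 {c₀ j n a b q A B K0 L0 C : ℝ} (hn : 1 ≤ n) (hj : n ≤ j) (hC : 0 ≤ C) (hc : 0 < c₀)
    (hab : b ≤ a) (hbig : |q| / 2 + |B| + (|A| / 6 + |L0| + |K0|) + 2 * C < c₀ / 2 * n) :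
    j ^ 2 * (b + c₀) / 2 + C * (n + 1) <
      c₀ * j ^ 2 + (A / 6 + j * (q / 2) + j ^ 2 * (a / 2) + L0 + j * B + K0) := by
  have hj1 : 1 ≤ j := hn.trans hj
  have h1 : c₀ / 2 * n * j ≤ c₀ / 2 * j * j := by
    have : c₀ / 2 * n ≤ c₀ / 2 * j := mul_le_mul_of_nonneg_left hj (by positivity)
    exact mul_le_mul_of_nonneg_right this (by linarith)
  have h2 := mul_lt_mul_of_pos_right hbig (show 0 < j by linarith)
  have h3 : j ^ 2 * b ≤ j ^ 2 * a := mul_le_mul_of_nonneg_left hab (sq_nonneg j)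
  have h4 : -(|q| * j) ≤ q * j := by
    have := mul_le_mul_of_nonneg_right (neg_abs_le q) (show 0 ≤ j by linarith)
    linarith
  have h5 : -(|B| * j) ≤ B * j := by
    have := mul_le_mul_of_nonneg_right (neg_abs_le B) (show 0 ≤ j by linarith)
    linarith
  have h6 : |A| ≤ |A| * j := le_mul_of_one_le_right (abs_nonneg A) hj1
  have h7 : |L0| ≤ |L0| * j := le_mul_of_one_le_right (abs_nonneg L0) hj1
  have h8 : |K0| ≤ |K0| * j := le_mul_of_one_le_right (abs_nonneg K0) hj1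
  have h9 : C * (n + 1) ≤ C * (2 * j) := mul_le_mul_of_nonneg_left (by linarith) hC
  have a1 := neg_abs_le A
  have a2 := neg_abs_le L0
  have a3 := neg_abs_le K0
  nlinarith

/-- extension of a section -/
theorem ext_s [CharZero k] [IsAlgClosed k] [T0Space X.P] (h : Hyp X) (hr : RR T l c) (hν : NumR ν)
    (htr : Algebra.trdeg k (X.kap z) = 2) (hS : SPr X z S) {P W : Cart X} (hP : cR ν P ∈ closure (AmpR ν))
    (h3 : T P P P = 0) (hlow : ∃ (C : ℝ) (n₀ : ℕ), ∀ n, n₀ ≤ n → chi T l c (W * P ^ n) - C ≤ h0 (W * P ^ n) 1)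
    {c₀ : ℝ} (hc₀ : 0 < c₀) (hgro : ∃ n₀ : ℕ, ∀ n : ℕ, n₀ ≤ n → c₀ * (n : ℝ) ^ 2 ≤ h0 (P ^ n) 1)
    (hW : T P P S ≤ T P P W) (h1 : ∀ n : ℕ, h0 (W * P ^ n * S⁻¹) 1 = 0) (h2 : ∀ n : ℕ, h0 (P ^ n * S⁻¹) 1 = 0)
    {g : X.kap z} (hg0 : g ≠ 0) (hg : Sec (resD h.var z W) 1 g) :
    ∃ (n : ℕ) (s u : K), s ≠ 0 ∧ Sec (P ^ n) 1 s ∧ Un (X.O z) (s * (P ^ n).eq z) ∧ Sec (W * P ^ n) 1 u ∧
      X.rs z (u * (W * P ^ n).eq z) = X.rs z (s * (P ^ n).eq z) * g := by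
  obtain ⟨i, C, hi, hC, hup⟩ := up_z h hr hν htr hS hP W hc₀
  obtain ⟨C', n₁, hlo⟩ := hlow
  obtain ⟨n₂, hgr⟩ := hgro
  obtain ⟨n₃, hn₃⟩ := exists_nat_gt ((|T W W P| / 2 + |l P| + (|T W W W| / 6 + |l W| + |c - C'|) + 2 * C) / (c₀ / 2))
  obtain ⟨n, hn⟩ : ∃ n : ℕ, n = n₁ + n₂ + n₃ + 1 := ⟨_, rfl⟩
  have hni : n ≤ i * n := Nat.le_mul_of_pos_left n hi
  have hkey : hz h.var z (W * P ^ (i * n)) < h0 (P ^ (i * n)) 1 + h0 (W * P ^ (i * n)) 1 := by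
    have b1 := hup n
    have b2 := hlo (i * n) (by omega)
    have b3 := hgr (i * n) (by omega)
    rw [chi_ex hr P W h3] at b2
    have b4 : |T W W P| / 2 + |l P| + (|T W W W| / 6 + |l W| + |c - C'|) + 2 * C < c₀ / 2 * (n : ℝ) := by
      rw [div_lt_iff₀ (by positivity)] at hn₃
      have b5 : (n₃ : ℝ) ≤ n := by exact_mod_cast (show n₃ ≤ n by omega)
      have b6 := mul_le_mul_of_nonneg_right b5 (show 0 ≤ c₀ / 2 by positivity)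
      linarith
    have b7 : (1 : ℝ) ≤ n := by exact_mod_cast (show 1 ≤ n by omega)
    have b8 : (n : ℝ) ≤ ((i * n : ℕ) : ℝ) := by exact_mod_cast hni
    have b9 := num3 (c₀ := c₀) (j := ((i * n : ℕ) : ℝ)) (n := (n : ℝ)) (a := T P P W) (b := T P P S) (q := T W W P)
      (A := T W W W) (B := l P) (K0 := c - C') (L0 := l W) (C := C) b7 b8 hC hc₀ hW b4
    have b10 : (hz h.var z (W * P ^ (i * n)) : ℝ) < ((h0 (P ^ (i * n)) 1 + h0 (W * P ^ (i * n)) 1 : ℕ) : ℝ) := by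
      push_cast at b1 b2 b3 b9 ⊢
      linarith
    exact_mod_cast b10
  obtain ⟨s, u, a1, a2, a3, a4, a5⟩ := ext_dim h hS hg0 hg (h1 (i * n)) (h2 (i * n)) hkey
  exact ⟨i * n, s, u, a1, a2, a3, a4, a5⟩

end Pool.Agent.H60.ZC
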