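import Pool.Agent.H60.ZC.CXD
import Pool.Agent.H20.RT.Loc
import Pool.Agent.H89.RT.End

/-!
# [H60 ZC CX6] THEOREM C (MP_e49dc9_ag), CORE (a): `T(b,A,D) ≥ c₁ T(p,A,D)` for all prime divisors `D` with `T(b,A,D) ≠ 0`

`b` nef with `T(b,b,A) > 0`.
PROOF (by compactness, no sections).  Suppose not.  For `n = 1, 2, ..` there are `Q n`, `D n` with `0 < T(b,A,D n) < (1 / (n + 1)) T(p,A,D n)`.
(1) `|T(p,A,v)| ≤ C ‖v‖` (a linear functional, `lin_bd`), so `0 < T(b,A,D n) ≤ (C / (n + 1)) ‖cR (D n)‖`; `e n := cR (D n) / ‖cR (D n)‖`.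
(2) For every point `η` only finitely many `n` have `(Q n).η = η`: by `spr_R` (H89/RT/End) or `spr_T` the numbers `T(b,A,D n)`, `T(p,A,D n)` depend only on the point, and
`T(b,A,D n) > 0` is fixed while `T(p,A,D n) / (n + 1) → 0`.  So for every `m` there are infinitely many `n > m` with `(Q n).η ≠ (Q m).η`.
(3) `(Q n).η ≠ (Q m).η`: `T(A,D n,D m) ≥ 0` (`nn_two`, H24/VP/Two).
(4) The unit sphere is compact: a subsequence of `e n` converges to `δ`, `‖δ‖ = 1`; `T(b,A,δ) = 0` by (1), and `T(A,δ,δ) ≥ 0`: for fixed `m` let `n → ∞` in the subsequence,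
`n` with `(Q n).η ≠ (Q m).η`: `T(A,δ,e m) ≥ 0`, then `m → ∞` (continuity: `cont3'`, H20/RT/Hdr).
(5) Index theorem for the nef class `a = cR A`: `T(a,b,b) > 0`, `T(a,b,δ) = 0`, so `T(a,δ,δ) ≤ 0` (`hi_real` with `p = a`, `L = b`), so `= 0`, and `T(a,δ,w) = 0` for all `w`
(`hd_eq` with `p = a`, `L = b`, `v = δ`).  `curves_zero` (H20/RT/Ray; `T(δ,A,u) = 0`, `T(δ,δ,A) = 0`, symmetry `tr_sym`) and `num_zero` (H83/RT/Nz): `δ = 0`: contradiction.
-/

set_option autoImplicit false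

namespace Pool.Agent.H60.ZC

open Pool.Agent.H54.RV Pool.Agent.H83.TU Pool.Agent.H83.TK Pool.Agent.H20.TD Pool.Agent.H20.TP Pool.Agent.H20.RT
open Pool.Agent.H24.VP (RR chS chi)
open Filter Topology

variable {k K : Type} [Field k] [Field K] [Algebra k K] {X : Mod k K} {r : ℕ}
  {ν : Cart X →* Multiplicative (Fin r → ℤ)} {T : Cart X → Cart X → Cart X → ℝ} {l : Cart X → ℝ} {c : ℝ} {TR : Tri3 r}
  {A : Cart X}

/-- the ratio of two nef classes on the prime divisors -/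
theorem c1_ex [CharZero k] [IsAlgClosed k] [T0Space X.P] (h : Hyp X) (hr : RR T l c) (hν : NumR ν)
    (hT : ∀ U V W, TR (cR ν U) (cR ν V) (cR ν W) = T U V W) (hA : Ample A) {b : Fin r → ℝ} (hb : b ∈ closure (CC ν))
    (hbb : 0 < TR b b (cR ν A)) (p : Fin r → ℝ) :
    ∃ c₁ : ℝ, 0 < c₁ ∧ ∀ (Q : PDiv X) (D : Cart X), SPr X Q.η D → TR b (cR ν A) (cR ν D) ≠ 0 →
      c₁ * TR p (cR ν A) (cR ν D) ≤ TR b (cR ν A) (cR ν D) := by
  classical
  by_contra hcon
  push Not at hcon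
  have s1 := tr_s12 hr hν hT
  have s2 := tr_s23 hr hν hT
  obtain ⟨a, ha⟩ : ∃ a, a = cR ν A := ⟨_, rfl⟩
  have haC : a ∈ closure (CC ν) := by
    rw [ha]
    exact subset_closure (cc_amp h.var hν hA)
  have hex : ∀ n : ℕ, ∃ x : PDiv X × Cart X, SPr X x.1.η x.2 ∧ 0 < TR b a (cR ν x.2) ∧
      TR b a (cR ν x.2) < 1 / ((n : ℝ) + 1) * TR p a (cR ν x.2) := by
    intro n
    obtain ⟨Q, D, h1, h2, h3⟩ := hcon (1 / ((n : ℝ) + 1)) (by positivity)
    rw [← ha] at h2 h3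
    have h4 := tpa_nn h hr hν hT (trdeg_pdiv h Q) h1 hA hb
    rw [← ha] at h4
    exact ⟨(Q, D), h1, lt_of_le_of_ne h4 h2.symm, h3⟩
  choose x hS hpos hlt using hex
  obtain ⟨f, hf⟩ : ∃ f : ℕ → (Fin r → ℝ), ∀ n, f n = (‖cR ν (x n).2‖)⁻¹ • cR ν (x n).2 := ⟨_, fun _ => rfl⟩
  have hne : ∀ n, cR ν (x n).2 ≠ 0 := by
    intro n h0
    have h1 := hpos n
    rw [h0, map_zero] at h1
    exact lt_irrefl _ h1
  have hnp : ∀ n, 0 < ‖cR ν (x n).2‖ := fun n => norm_pos_iff.2 (hne n)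
  have hfn : ∀ n, ‖f n‖ = 1 := by
    intro n
    rw [hf, norm_smul, norm_inv, norm_norm, inv_mul_cancel₀ (hnp n).ne']
  -- (4) a convergent subsequence
  obtain ⟨δ, hδ, φ, hφ, hlim⟩ := (isCompact_sphere (0 : Fin r → ℝ) 1).tendsto_subseq (x := f) (fun n => by
    rw [mem_sphere_zero_iff_norm]
    exact hfn n)
  have hδ1 : ‖δ‖ = 1 := by
    rwa [mem_sphere_zero_iff_norm] at hδ
  -- (1)
  obtain ⟨C, hC, hCb⟩ := lin_bd (TR p a)
  have hsm : ∀ n, 0 ≤ TR b a (f n) ∧ TR b a (f n) ≤ 1 / ((n : ℝ) + 1) * C := by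
    intro n
    rw [hf, map_smul, smul_eq_mul]
    refine ⟨mul_nonneg (inv_nonneg.2 (hnp n).le) (hpos n).le, ?_⟩
    have h1 := hCb (cR ν (x n).2)
    have h2 : (0 : ℝ) < 1 / ((n : ℝ) + 1) := by positivity
    have h3 : TR b a (cR ν (x n).2) ≤ 1 / ((n : ℝ) + 1) * (C * ‖cR ν (x n).2‖) :=
      (hlt n).le.trans (mul_le_mul_of_nonneg_left ((le_abs_self _).trans h1) h2.le)
    rw [inv_mul_le_iff₀ (hnp n)]
    linarith
  have hbδ : TR b a δ = 0 := by
    have h1 : Tendsto (fun n => TR b a (f (φ n))) atTop (𝓝 (TR b a δ)) :=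
      ((cont3' TR continuous_const continuous_const continuous_id).tendsto δ).comp hlim
    have h2 : Tendsto (fun n : ℕ => 1 / ((n : ℝ) + 1) * C) atTop (𝓝 (0 * C)) :=
      tendsto_one_div_add_atTop_nhds_zero_nat.mul_const C
    rw [zero_mul] at h2
    have h3 := h2.comp hφ.tendsto_atTop
    exact tendsto_nhds_unique h1 (squeeze_zero (fun n => (hsm (φ n)).1) (fun n => (hsm (φ n)).2) h3)
  -- (2)
  have hev : ∀ m, ∀ᶠ n in atTop, (x n).1.η ≠ (x m).1.η := by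
    intro m
    obtain ⟨N, hN⟩ := exists_nat_gt (TR p a (cR ν (x m).2) / TR b a (cR ν (x m).2))
    filter_upwards [eventually_ge_atTop N] with n hn he
    have h1 := hS n
    rw [he] at h1
    have e1 := Pool.Agent.H89.RT.spr_R h hr hν hT h1 (hS m) b a
    have e2 := Pool.Agent.H89.RT.spr_R h hr hν hT h1 (hS m) p a
    have h2 := hlt n
    rw [e1, e2] at h2
    rw [div_lt_iff₀ (hpos m)] at hN
    have h3 : (N : ℝ) ≤ n := by exact_mod_cast hn
    have h4 : (0 : ℝ) < (n : ℝ) + 1 := by positivity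
    rw [one_div, lt_inv_mul_iff₀ h4] at h2
    nlinarith [mul_le_mul_of_nonneg_right h3 (hpos m).le, hpos m]
  -- (3)
  have h3 : ∀ n m, (x n).1.η ≠ (x m).1.η → 0 ≤ TR a (f n) (f m) := by
    intro n m hnm
    have h4 := Pool.Agent.H24.VP.nn_two h hr hA (x n).1 (x m).1 (hS n) (hS m) hnm
    rw [← hT, ← ha, s2, s1] at h4
    rw [hf n, hf m, map_smul, smul_eq_mul, map_smul, LinearMap.smul_apply, smul_eq_mul]
    exact mul_nonneg (inv_nonneg.2 (hnp m).le) (mul_nonneg (inv_nonneg.2 (hnp n).le) h4)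
  have h4 : ∀ m, 0 ≤ TR a δ (f m) := by
    intro m
    have h5 : Tendsto (fun n => TR a (f (φ n)) (f m)) atTop (𝓝 (TR a δ (f m))) :=
      ((cont3' TR continuous_const continuous_id continuous_const).tendsto δ).comp hlim
    exact ge_of_tendsto h5 ((hφ.tendsto_atTop.eventually (hev m)).mono fun n hn => h3 _ _ hn)
  have h5 : 0 ≤ TR a δ δ := by
    have h6 : Tendsto (fun n => TR a δ (f (φ n))) atTop (𝓝 (TR a δ δ)) :=
      ((cont3' TR continuous_const continuous_const continuous_id).tendsto δ).comp hlim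
    exact ge_of_tendsto h6 (Eventually.of_forall fun n => h4 _)
  -- (5)
  have h6 : 0 < TR a b b := by
    rw [← ha] at hbb
    rw [s1, s2]
    exact hbb
  have h7 : TR a b δ = 0 := by
    rw [s1]
    exact hbδ
  have h8 : TR a δ δ = 0 := by
    refine le_antisymm ?_ h5
    have h9 := hi_real h hr hν hT haC (v := δ) h6
    rw [h7] at h9
    by_contra hcon'
    push Not at hcon'
    have := mul_pos h6 hcon'
    norm_num at h9
    linarith
  have h9 : ∀ w, TR a δ w = 0 := fun w => hd_eq h hr hν hT haC h6 (by rw [s2]; exact h7) h8 w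
  have h10 : δ = 0 := Pool.Agent.H83.RT.num_zero h hr hν hT fun y hy =>
    curves_zero h hr hν hT hA (fun u => by rw [← ha, s1]; exact h9 u) (by rw [← ha, s2, s1]; exact h8) hy
  rw [h10, norm_zero] at hδ1
  exact zero_ne_one hδ1

end Pool.Agent.H60.ZC
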