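import Pool.Agent.H20.RT.Iso
import Pool.Agent.H20.RT.Pp
import Pool.Agent.H20.RT.Ray
import Pool.Agent.H83.RT.Nz

/-!
# [H60 ZC CXD] THEOREM C (MP_e49dc9_ag), CORE: the input

`p` is the class of a nef integral divisor, `TR p p ≠ 0`, `TR p p p = 0`.  `Ver`: the vertical prime divisors.  `VEff`: effective vertical divisors `E` with
`T(w,E,.)` a multiple of `T(p,p,.)` for `w ∈ N`.  `Core`: what is known about the span `N` of the minimal face of `p` and about a class `V` of the tangent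
cone with `T(p,p,V) = 0` (chapters (1) - (5) of the text, think 1242); `B` is the bilinear map with values in `N` with
`T(B(u,u'),w,.) = - T(u,u',w) T(p,p,.)` for `w ∈ N`.
-/

set_option autoImplicit false

namespace Pool.Agent.H60.ZC

open Pool.Agent.H54.RV Pool.Agent.H83.TU Pool.Agent.H83.TK Pool.Agent.H20.TD Pool.Agent.H20.TP Pool.Agent.H20.RT

variable {k K : Type} [Field k] [Field K] [Algebra k K] {X : Mod k K} {r : ℕ}
  (ν : Cart X →* Multiplicative (Fin r → ℤ)) (TR : Tri3 r) (p V : Fin r → ℝ) (N : Submodule ℝ (Fin r → ℝ))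
  (B : (Fin r → ℝ) →ₗ[ℝ] (Fin r → ℝ) →ₗ[ℝ] (Fin r → ℝ))

/-- `D` is the prime divisor of `Q` and is vertical -/
structure Ver (Q : PDiv X) (D : Cart X) : Prop where
  spr : SPr X Q.η D
  ver : TR p p (cR ν D) = 0

/-- effective vertical divisors which are numerically sums of fibres over curves, up to exceptional divisors -/
structure VEff (E : Cart X) : Prop where
  eff : Effective E
  ver : TR p p (cR ν E) = 0
  prop : ∀ w ∈ N, ∃ a : ℝ, ∀ v, TR w (cR ν E) v = a * TR p p v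

/-- the input of the core -/
structure Core (hX : IsVar X) : Prop where
  pN : p ∈ N
  int : ∀ w ∈ N, ∃ C : ℝ, 0 ≤ C ∧ C • p + w ∈ closure (CC ν)
  form : ∀ w ∈ N, ∀ w' ∈ N, ∃ a : ℝ, ∀ v, TR w w' v = a * TR p p v
  zN : ∀ w ∈ N, TR p p w = 0
  sqp : TR p p ≠ 0
  sqb : TR (B V V) (B V V) ≠ 0
  pw : ∀ w ∈ N, w ∈ closure (CC ν) → w ≠ 0 → TR p w ≠ 0
  zV : ∀ u ∈ Vp V, TR p p u = 0
  vv : ∀ u ∈ Vp V, ∀ w ∈ N, ∀ (Q : PDiv X) (D : Cart X), Ver ν TR p Q D → TR w u (cR ν D) = 0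
  test : ∀ (Q : PDiv X) (D G : Cart X), Ver ν TR p Q D → 0 < hz hX Q.η G → TR p (cR ν G) (cR ν D) = 0 →
    0 ≤ TR V (cR ν G) (cR ν D)
  nsq : ∀ E : Cart X, VEff ν TR p N E → TR V (cR ν E) (cR ν E) ≤ 0
  tan : ∀ (A : Cart X) (e : ℝ), Ample A → 0 < e → ∃ t : ℝ, V + e • cR ν A + t • p ∈ closure (CC ν)
  BN : ∀ u u', B u u' ∈ N
  Bsym : ∀ u u', B u u' = B u' u
  Bdef : ∀ u u', ∀ w ∈ N, ∀ v, TR (B u u') w v = - TR u u' w * TR p p v
  Bnef : ∀ u ∈ Vp V, B u u ∈ closure (CC ν)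
  dec : ∀ E : Cart X, VEff ν TR p N E → ∀ u ∈ Vp V, ∀ v, TR (B V u) v (cR ν E) = - TR V u (cR ν E) * TR p p v

end Pool.Agent.H60.ZC
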