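import Pool.Agent.H60.ZC.Def

/-!
# [H60 ZC Crv] THEOREM C (MP_e49dc9_ag): a curve in a member of a pencil on a surface, outside of a given curve

`z` a surface, `σ 0, σ 1` linearly independent sections of `G` on `z`, `Z` the zero set of a nonzero section of some `W` on `z`.  There is a curve `y` on `z`, not in `Z`, in the zero
set of a nonzero section of `G`.
PROOF. `V = subM h.var z`, a variety of dimension `2`.  `Z` is a closed subset which does not contain the generic point; there is a closed point `x ∉ Z` of `V` (trdeg `0`; in an affine chart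
`U` of `V` a maximal ideal which does not contain a given nonzero element: Nullstellensatz; closed points exist: see `clo_pt`, `exists_pt0` in H20/TP, H36/ZO, H20/ZO/Inf, H39).
`kap x = k` (`k` algebraically closed).  `G.eq x` identifies the values: `a i := ` the residue of `σ i * (resD G).eq x` in `k`; `(c 0, c 1) ≠ 0` with `∑ c i a i = 0`: `τ = ∑ c i σ i ≠ 0`
(independent) and `τ * (resD G).eq x` is not a unit in the local ring `V.O x`, which is noetherian of dimension `2` (local domain): there is a prime of height `1` containing it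
(Krull), the local ring of a point `y` of `V` with `y ⤳ x`, trdeg `1` (`≠ 2` since it is not the generic point, `≠ 0` since it is not maximal).  `Z' = Zst τ`.  `y ∉ Z` since `Z` is stable
under specialization and `x ∉ Z`.  [Alternatively with `T_dec` (H39/TZ/N2) and `T_decy`: choose `x` in an affine chart, see `inf_y` in H20/ZO/Inf.lean: infinitely many curves in the members
of the pencil spanned by `σ 0, σ 1`; `Z` contains only finitely many curves.  This may be shorter: if `inf_y` or its lemmas give infinitely many curves `y` with `σ 0` a unit at `y` and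
`σ 1 / σ 0 = t` on `y`, then one of them is not in `Z`.]
-/

set_option autoImplicit false

namespace Pool.Agent.H60.ZC

open Pool.Agent.H54.RV Pool.Agent.H83.TU Pool.Agent.H83.TK Pool.Agent.H20.TD Pool.Agent.H20.TP Pool.Agent.H20.RT
open Pool.Agent.H24.VP (RR)

variable {k K : Type} [Field k] [Field K] [Algebra k K] {X : Mod k K} {r : ℕ}
  {ν : Cart X →* Multiplicative (Fin r → ℤ)} {T : Cart X → Cart X → Cart X → ℝ} {l : Cart X → ℝ} {c : ℝ} {TR : Tri3 r}
  {L : (Fin r → ℝ) →ₗ[ℝ] ℝ} {A : Cart X}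

/-- a transcendental element of a finitely generated domain takes some value -/
private theorem crv_val {k B : Type} [Field k] [IsAlgClosed k] [CommRing B] [IsDomain B] [Algebra k B]
    [Algebra.FiniteType k B] {f : B} (hf : Transcendental k f) :
    ∃ c : k, ¬ IsUnit (f - algebraMap k B c) := by
  have hf0 : f ≠ 0 := by
    rintro rfl
    exact hf isAlgebraic_zero
  by_contra hcon
  push Not at hcon
  obtain ⟨m, hm⟩ := Ideal.exists_maximal B
  let _ : Field (B ⧸ m) := Ideal.Quotient.field m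
  have : Algebra.FiniteType k (B ⧸ m) := Algebra.FiniteType.of_surjective (Ideal.Quotient.mkₐ k m)
    (Ideal.Quotient.mkₐ_surjective k m)
  have : Module.Finite k (B ⧸ m) := finite_of_finite_type_of_isJacobsonRing k (B ⧸ m)
  have hsurj := (IsAlgClosed.algebraMap_bijective_of_isIntegral (k := k) (K := B ⧸ m)).2
  obtain ⟨c, hc⟩ := hsurj (Ideal.Quotient.mk m f)
  have hcm : f - algebraMap k B c ∈ m := by
    rw [← Ideal.Quotient.eq_zero_iff_mem, map_sub, ← hc, sub_eq_zero]
    rfl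
  exact hm.ne_top (Ideal.eq_top_of_isUnit_mem _ hcm (hcon c))

open MvPolynomial in
private theorem crv_hyper {k : Type} [Field k] (Ψ : MvPolynomial (Fin 2) k) (hΨ : Prime Ψ) :
    ∃ y : Fin 1 → MvPolynomial (Fin 2) k,
      AlgebraicIndependent k (fun i => Ideal.Quotient.mk (Ideal.span {Ψ}) (y i)) := by
  obtain ⟨i, hi⟩ : ∃ i, degreeOf i Ψ ≠ 0 := by
    by_contra hcon
    push Not at hcon
    apply hΨ.not_isUnit
    have h1 : Ψ.totalDegree = 0 := by
      rw [MvPolynomial.totalDegree_eq_zero_iff]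
      intro m hm i
      have h2 := MvPolynomial.monomial_le_degreeOf i hm
      rw [hcon i] at h2
      omega
    rw [MvPolynomial.totalDegree_eq_zero_iff_eq_C] at h1
    rw [h1]
    refine IsUnit.map _ (isUnit_iff_ne_zero.2 fun h2 => ?_)
    rw [h2, map_zero] at h1
    exact hΨ.ne_zero h1
  refine ⟨fun j => X (i.succAbove j), ?_⟩
  rw [algebraicIndependent_iff]
  intro Q hQ
  by_contra hQ0
  have h1 : (aeval fun j => (Ideal.Quotient.mk (Ideal.span {Ψ}) (X (i.succAbove j)))) Q =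
      Ideal.Quotient.mk (Ideal.span {Ψ}) (rename i.succAbove Q) := by
    have h2 : (aeval fun j => (Ideal.Quotient.mk (Ideal.span {Ψ}) (X (i.succAbove j)))) =
        (Ideal.Quotient.mkₐ k (Ideal.span {Ψ})).comp (rename i.succAbove : MvPolynomial (Fin 1) k →ₐ[k] _) := by
      apply MvPolynomial.algHom_ext
      intro j
      rw [aeval_X, AlgHom.comp_apply, rename_X]
      rfl
    rw [h2]
    rfl
  rw [h1, Ideal.Quotient.eq_zero_iff_mem, Ideal.mem_span_singleton] at hQ
  obtain ⟨H, hH⟩ := hQ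
  have hne : rename i.succAbove Q ≠ 0 := by
    intro h2
    exact hQ0 (rename_injective _ Fin.succAbove_right_injective (h2.trans (map_zero _).symm))
  have hH0 : H ≠ 0 := by
    rintro rfl
    rw [mul_zero] at hH
    exact hne hH
  have h3 : degreeOf i (rename i.succAbove Q) = 0 := by
    rw [← Nat.le_zero, MvPolynomial.degreeOf_le_iff]
    intro m hm
    obtain ⟨u, rfl, -⟩ := MvPolynomial.coeff_rename_ne_zero _ _ _ (MvPolynomial.mem_support_iff.1 hm)
    rw [Finsupp.mapDomain_of_notMem_range _ _ (by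
      rintro ⟨j, hj⟩
      exact Fin.succAbove_ne i j hj)]
  rw [hH, degreeOf_mul_eq hΨ.ne_zero hH0] at h3
  omega

private theorem crv_quot {k S : Type} [Field k] [CommRing S] [IsDomain S] [Algebra k S] [Algebra.FiniteType k S]
    (htr : Algebra.trdeg k S = 2) (q : Ideal S) [hqp : q.IsPrime] (hq0 : q ≠ ⊥)
    (hmin : ∀ Q : Ideal S, Q.IsPrime → Q ≠ ⊥ → Q ≤ q → Q = q) : 1 ≤ Algebra.trdeg k (S ⧸ q) := by
  have hqd : IsDomain (S ⧸ q) := Ideal.Quotient.isDomain q
  obtain ⟨s, g, hginj, hgint⟩ := exists_integral_inj_algHom_of_fg k S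
  have hs : s = 2 := by
    have h1 := Pool.Agent.H20.TU.trdeg_of_int g hginj hgint
    rw [MvPolynomial.trdeg_of_isDomain, htr] at h1
    simp at h1
    exact_mod_cast h1
  subst hs
  let _ : Algebra (MvPolynomial (Fin 2) k) S := g.toRingHom.toAlgebra
  have hfs : FaithfulSMul (MvPolynomial (Fin 2) k) S := (faithfulSMul_iff_algebraMap_injective _ _).2 hginj
  have hint2 : Algebra.IsIntegral (MvPolynomial (Fin 2) k) S := ⟨hgint⟩
  let q0 : Ideal (MvPolynomial (Fin 2) k) := q.under (MvPolynomial (Fin 2) k)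
  have hq0ne : q0 ≠ ⊥ := by
    obtain ⟨c, hc, hc0⟩ := Submodule.exists_mem_ne_zero_of_ne_bot hq0
    exact Ideal.comap_ne_bot_of_integral_mem hc0 hc (Algebra.IsIntegral.isIntegral c)
  have hq0p : q0.IsPrime := Ideal.IsPrime.under _ _
  obtain ⟨Ψ, hΨq, hΨ⟩ := hq0p.exists_mem_prime_of_ne_bot hq0ne
  have hsp : (Ideal.span {Ψ}).IsPrime := (Ideal.span_singleton_prime hΨ.ne_zero).2 hΨ
  have hspan : Ideal.span {Ψ} = q0 := by
    have hle : Ideal.span {Ψ} ≤ q0 := (Ideal.span_singleton_le_iff_mem _).2 hΨq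
    by_contra hne
    have hlt : Ideal.span {Ψ} < q0 := lt_of_le_of_ne hle hne
    obtain ⟨Q, hQle, hQp, hQo⟩ := Algebra.HasGoingDown.exists_ideal_le_liesOver_of_lt (p := Ideal.span {Ψ}) q hlt
    have hQ0 : Q ≠ ⊥ := by
      intro hbot
      have h1 : Ideal.span {Ψ} = Q.under _ := hQo.over
      have h2 : Ψ ∈ Q.under (MvPolynomial (Fin 2) k) := by rw [← h1]; exact Ideal.mem_span_singleton_self Ψ
      rw [hbot] at h2
      have h3 : algebraMap (MvPolynomial (Fin 2) k) S Ψ = 0 := h2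
      exact hΨ.ne_zero (hginj (h3.trans (map_zero g).symm))
    have hQe := hmin Q hQp hQ0 hQle
    apply hne
    have h1 : Ideal.span {Ψ} = Q.under _ := hQo.over
    rw [h1, hQe]
  obtain ⟨y, hy⟩ := crv_hyper Ψ hΨ
  let f : (MvPolynomial (Fin 2) k ⧸ Ideal.span {Ψ}) →ₐ[k] S ⧸ q :=
    Ideal.Quotient.liftₐ (Ideal.span {Ψ}) ((Ideal.Quotient.mkₐ k q).comp g) (fun a ha => by
      rw [hspan] at ha
      exact Ideal.Quotient.eq_zero_iff_mem.2 ha)
  have hf : Function.Injective f := by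
    rw [injective_iff_map_eq_zero]
    intro z hz
    obtain ⟨a, rfl⟩ := Ideal.Quotient.mk_surjective z
    rw [Ideal.Quotient.eq_zero_iff_mem, hspan]
    have h1 : Ideal.Quotient.mk q (g a) = 0 := hz
    have h2 : g a ∈ q := Ideal.Quotient.eq_zero_iff_mem.1 h1
    exact h2
  have h1 := (hy.map' hf).cardinalMk_le_trdeg
  rw [Cardinal.mk_fin] at h1
  exact_mod_cast h1

/-- a curve in an open subset of a surface on which a given function is constant -/
private theorem crv_srf {k L : Type} [Field k] [Field L] [Algebra k L] [IsAlgClosed k] {Y : Mod k L}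
    (hY : IsVar Y) {g : Y.P} (hg : Gen Y g) (htr : Algebra.trdeg k L = 2) {f : L} (hf : Transcendental k f)
    {N : Set Y.P} (hN : IsOpen N) (hgN : g ∈ N) :
    ∃ (c : k) (y : Y.P), y ∈ N ∧ Algebra.trdeg k (Y.kap y) = 1 ∧ f ∈ Y.O y ∧
      ¬ Un (Y.O y) (f - algebraMap k L c) := by
  obtain ⟨U, hU, hgU⟩ := hY.chart g
  obtain ⟨s, hs, hs1, hs2⟩ := hY.frac U g hU hgU f (by rw [hg.top]; exact Algebra.mem_top)
  obtain ⟨V, hV⟩ : ∃ V, V = {x | x ∈ U ∧ Un (Y.O x) s} := ⟨_, rfl⟩
  have hVaff : Y.aff V := by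
    rw [hV]
    exact hY.basic U s hU fun x hx => (mem_sec U s).1 hs x hx
  have hgV : g ∈ V := by
    rw [hV]
    exact ⟨hgU, hs1⟩
  have hfV : ∀ x ∈ V, f ∈ Y.O x := by
    intro x hx
    rw [hV] at hx
    have h1 : f = f * s * s⁻¹ := by
      rw [mul_assoc, mul_inv_cancel₀ hs1.1, mul_one]
    rw [h1]
    exact (Y.O x).mul_mem ((mem_sec U _).1 hs2 x hx.1) hx.2.2.2
  obtain ⟨a, ha1, ha2, ha3⟩ := hY.bas V N g hVaff hN hgV hgN
  obtain ⟨M, hM⟩ : ∃ M, M = {x | x ∈ V ∧ Un (Y.O x) a} := ⟨_, rfl⟩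
  have hMaff : Y.aff M := by
    rw [hM]
    exact hY.basic V a hVaff ha1
  have hgM : g ∈ M := by
    rw [hM]
    exact ⟨hgV, ha2⟩
  have hMN : ∀ x ∈ M, x ∈ N := by
    intro x hx
    rw [hM] at hx
    exact ha3 x hx.1 hx.2
  have hfM : f ∈ Y.sec M := by
    rw [mem_sec]
    intro x hx
    rw [hM] at hx
    exact hfV x hx.1
  have hft : Algebra.FiniteType k (Y.sec M) := ((Y.sec M).fg_iff_finiteType).1 (hY.fg M hMaff ⟨g, hgM⟩)
  have hno : IsNoetherianRing (Y.sec M) := Algebra.FiniteType.isNoetherianRing k _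
  have htrf : Transcendental k (⟨f, hfM⟩ : Y.sec M) := by
    intro h1
    apply hf
    exact h1.algHom (Y.sec M).val
  have htrS : Algebra.trdeg k (Y.sec M) = 2 := by
    rw [Pool.Agent.H20.TU.trdeg_sec hY ⟨g, hg⟩ M hMaff ⟨g, hgM⟩, htr]
  obtain ⟨c, hc⟩ := crv_val htrf
  have hne : f - algebraMap k L c ≠ 0 := fun h0 => by
    apply hf
    rw [sub_eq_zero.1 h0]
    exact isAlgebraic_algebraMap c
  obtain ⟨w, hw⟩ : ∃ w : Y.sec M, w = ⟨f, hfM⟩ - algebraMap k (Y.sec M) c := ⟨_, rfl⟩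
  rw [← hw] at hc
  have hwL : (w : L) = f - algebraMap k L c := by rw [hw]; rfl
  have hw0 : w ≠ 0 := by
    intro h0
    apply hne
    rw [← hwL, h0]
    rfl
  obtain ⟨m, hm, hwm⟩ := Ideal.exists_le_maximal (Ideal.span {w}) (by
    rw [Ne, Ideal.span_singleton_eq_top]
    exact hc)
  have := hm.isPrime
  obtain ⟨q, hqmin, hqm⟩ := Ideal.exists_minimalPrimes_le hwm
  have hqp : q.IsPrime := hqmin.1.1
  have hwq : w ∈ q := hqmin.1.2 (Ideal.mem_span_singleton_self w)
  have hq0 : q ≠ ⊥ := by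
    intro h
    rw [h, Ideal.mem_bot] at hwq
    exact hw0 hwq
  have htr2 := crv_quot htrS q hq0 (fun Q hQ hQ0 hQq => Pool.Agent.H20.TU.min_one w q hqmin Q hQ0 hQq)
  obtain ⟨y, hyM, hy⟩ := hY.prime M hMaff ⟨g, hgM⟩ q hqp
  have hsec : ∀ b : Y.sec M, (b : L) ∈ Y.O y := fun b => (mem_sec M b.1).1 b.2 y hyM
  have hker : RingHom.ker (evS Y y hyM : Y.sec M →+* Y.kap y) = q := by
    ext b
    rw [hy b, ← rs_ne y (hsec b), not_not]
    exact Iff.rfl
  have h1 := trdeg_ev hY hMaff y hyM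
  rw [hker] at h1
  rw [h1] at htr2
  have hun : ¬ Un (Y.O y) (f - algebraMap k L c) := by
    rw [← hwL]
    exact (hy w).1 hwq
  have hlt : Algebra.trdeg k (Y.kap y) < 2 := by
    rw [← htr]
    exact trdeg_lt_gen hY hg hne hun
  refine ⟨c, y, hMN y hyM, ?_, (mem_sec M f).1 hfM y hyM, hun⟩
  have h4 : Algebra.trdeg k (Y.kap y) < Cardinal.aleph0 :=
    hlt.trans (by exact_mod_cast Cardinal.natCast_lt_aleph0 (n := 2))
  obtain ⟨n, hn⟩ := Cardinal.lt_aleph0.1 h4
  rw [hn] at hlt htr2 ⊢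
  have h5 : n < 2 := by exact_mod_cast hlt
  have h6 : 1 ≤ n := by exact_mod_cast htr2
  have h7 : n = 1 := by omega
  rw [h7]
  norm_num

private theorem crv_trans {L : Type} [Field L] [Algebra k L] [IsAlgClosed k] {f : L}
    (hf : ∀ c : k, f ≠ algebraMap k L c) : Transcendental k f := by
  intro h1
  have h2 : IsIntegral k f := h1.isIntegral
  have h3 := IsAlgClosed.degree_eq_one_of_irreducible k (minpoly.irreducible h2)
  obtain ⟨c, hc⟩ := (minpoly.mem_range_of_degree_eq_one k f h3)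
  exact hf c hc.symm

private theorem crv_li {k L : Type} [Field k] [Field L] [Algebra k L] {σ : Fin 2 → L}
    (hl : LinearIndependent k σ) : σ 0 ≠ 0 ∧ ∀ c : k, σ 1 / σ 0 ≠ algebraMap k L c := by
  have hσ0 : σ 0 ≠ 0 := hl.ne_zero 0
  refine ⟨hσ0, fun c hc => ?_⟩
  have h1 : (-c) • σ 0 + (1 : k) • σ 1 = 0 := by
    have h3 : σ 1 = algebraMap k L c * σ 0 := by
      rw [← hc, div_mul_cancel₀ _ hσ0]
    rw [h3, one_smul, Algebra.smul_def, map_neg]
    ring
  have h2 := Fintype.linearIndependent_iff.1 hl ![-c, 1] (by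
    rw [Fin.sum_univ_two]
    exact h1) 1
  exact one_ne_zero h2

theorem crv_thr [CharZero k] [IsAlgClosed k] [T0Space X.P] (h : Hyp X) {z : X.P}
    (htr : Algebra.trdeg k (X.kap z) = 2) {G : Cart X} {σ : Fin 2 → X.kap z}
    (hσ : ∀ i, Sec (resD h.var z G) 1 (σ i)) (hl : LinearIndependent k σ) {W : Cart X} {Z : Set X.P}
    (hZ : HasS h.var z W Z) :
    ∃ (y : X.P) (Z' : Set X.P), Cv z y ∧ y ∉ Z ∧ HasS h.var z G Z' ∧ y ∈ Z' := by
  obtain ⟨s, hs0, hs, rfl⟩ := hZ
  have hY := isVar_sub h.var z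
  have hg := gen_sub h.var z
  obtain ⟨hσ0, hσ1⟩ := crv_li hl
  have hf : Transcendental k (σ 1 / σ 0) := crv_trans hσ1
  have hopen := Pool.Agent.H32.TK.nz_open hY (resD h.var z W) 1 s hs
  have hgN : subG h.var z ∈ nz (resD h.var z W) 1 s := by
    have h1 : s * (resD h.var z W).eq (subG h.var z) ^ 1 ≠ 0 :=
      mul_ne_zero hs0 (pow_ne_zero _ ((resD h.var z W).ne _))
    refine ⟨h1, ?_, ?_⟩
    · rw [hg.top]
      exact Algebra.mem_top
    · rw [hg.top]
      exact Algebra.mem_top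
  obtain ⟨c, y, hyN, hy1, hfy, hun⟩ := crv_srf hY hg htr hf hopen hgN
  obtain ⟨τ, hτ⟩ : ∃ τ, τ = σ 0 * (σ 1 / σ 0 - algebraMap k (X.kap z) c) := ⟨_, rfl⟩
  have hne : σ 1 / σ 0 - algebraMap k (X.kap z) c ≠ 0 := fun h0 => by
    apply hf
    rw [sub_eq_zero.1 h0]
    exact isAlgebraic_algebraMap c
  have hτ0 : τ ≠ 0 := by
    rw [hτ]
    exact mul_ne_zero hσ0 hne
  have hτS : Sec (resD h.var z G) 1 τ := by
    have h1 : τ = σ 1 - c • σ 0 := by
      rw [hτ, Algebra.smul_def, mul_sub, mul_div_cancel₀ _ hσ0]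
      ring
    rw [h1]
    exact (secL (resD h.var z G) 1).sub_mem (hσ 1) ((secL (resD h.var z G) 1).smul_mem _ (hσ 0))
  refine ⟨y.1, Zst h.var z G τ, ⟨y.2, ?_⟩, ?_, ⟨τ, hτ0, hτS, rfl⟩, ⟨y.2, ?_⟩⟩
  · rw [← Pool.Agent.H83.TK.trdeg_sub h.var z y]
    exact hy1
  · rintro ⟨hx, h1⟩
    apply h1
    have h2 : Un ((subM h.var z).O y) (s * (resD h.var z W).eq y ^ 1) := hyN
    rw [pow_one] at h2
    exact h2
  · intro hu
    apply hun
    have h1 := hσ 0 y
    rw [pow_one] at h1
    have h2 : τ * (resD h.var z G).eq y = (σ 0 * (resD h.var z G).eq y) *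
        (σ 1 / σ 0 - algebraMap k (X.kap z) c) := by
      rw [hτ]
      ring
    have h3 : Un ((subM h.var z).O y) (τ * (resD h.var z G).eq y) := hu
    rw [h2] at h3
    exact ((un_mul_iff h1 (((subM h.var z).O y).sub_mem hfy (((subM h.var z).O y).algebraMap_mem c))).1 h3).2

end Pool.Agent.H60.ZC
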