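import Pool.Agent.H60.ZC.Kz

/-!
# [H60 ZC PenV] THEOREM C (MP_e49dc9_ag): the classes of the tangent cone are orthogonal to the pencils

`B` effective with `z(B) = 0`, `ζ` a section of `B`, `1` and `ζ` without common component.
* `pen_sec`: every prime divisor `D` has a nonzero section of `B`: the residue of `1` or of `ζ` (`resS`, as in CX1; `0 < hz D B`).
* `pen_uu`: `B` is a product of vertical prime divisors `D i` and a trivial divisor (`fac_eff`); `T(p,B,D i) ≥ 0` (`pen_sec`, `(ms_nef ..).eff`), so `T(p,B,B) ≥ 0`; form `T(p,.,.)`: `p`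
  isotropic, `T(p,p,B) = 0`, `T(p,p,A) > 0`: `hx_le`, `hx_eq`: `B ∈ Uu`.
* `pen_v`: `D` vertical, `V ∈ K0`: `T(p,B,D) = a z(D) = 0`, so `T(V,B,D) ≥ 0` (`tan_test`, H24/RC/LbS, `pen_sec`); `T(V,B,p) = T(p,B,V) = a z(V) = 0`: `vt_sum` with `u = V`, `v = B`.
-/

set_option autoImplicit false

namespace Pool.Agent.H60.ZC

open Pool.Agent.H54.RV Pool.Agent.H83.TU Pool.Agent.H83.TK Pool.Agent.H20.TD Pool.Agent.H20.TP Pool.Agent.H20.RT
open Pool.Agent.H24.VP (RR)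

variable {k K : Type} [Field k] [Field K] [Algebra k K] {X : Mod k K} {r : ℕ}
  {ν : Cart X →* Multiplicative (Fin r → ℤ)} {T : Cart X → Cart X → Cart X → ℝ} {l : Cart X → ℝ} {c : ℝ} {TR : Tri3 r}
  {L : (Fin r → ℝ) →ₗ[ℝ] ℝ} {A : Cart X}

variable {P B D : Cart X} {ζ : K} {V : Fin r → ℝ} {Q : PDiv X}

theorem pen_sec [CharZero k] [IsAlgClosed k] [T0Space X.P] (h : Hyp X) (hB : Effective B) (hζ : Sec B 1 ζ)
    (hc : ∀ Q : PDiv X, Un (X.O Q.η) (B.eq Q.η) ∨ Un (X.O Q.η) (ζ * B.eq Q.η)) (Q : PDiv X) :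
    0 < hz h.var Q.η B := by
  obtain ⟨A, hA⟩ := h.amp
  have hV := fd_sub h.var hA Q.η (resD h.var Q.η B)
  have key : ∀ s : K, Sec B 1 s → Un (X.O Q.η) (s * B.eq Q.η) → 0 < hz h.var Q.η B := by
    intro s hs hu
    have hmem : s * B.eq Q.η ∈ X.O Q.η := by
      have h0 := hs Q.η
      rwa [pow_one] at h0
    have h1 := (rs_ne Q.η hmem).2 hu
    have h2 : (resS h.var Q.η B 1 ⟨s, hs⟩).1 ≠ 0 := by
      rw [resS_coe, pow_one]
      exact h1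
    exact H32.TK.pos_of_sec _ hV (resS h.var Q.η B 1 ⟨s, hs⟩).2 h2
  rcases hc Q with h1 | h1
  · exact key 1 (fun x => by rw [one_mul, pow_one]; exact hB x) (by rw [one_mul]; exact h1)
  · exact key ζ hζ h1

theorem pen_uu [CharZero k] [IsAlgClosed k] [T0Space X.P] (f : Fr ν T l c TR L A) (hE : Ell ν TR L P)
    (hB : Effective B) (hζ : Sec B 1 ζ) (hc : ∀ Q : PDiv X, Un (X.O Q.η) (B.eq Q.η) ∨ Un (X.O Q.η) (ζ * B.eq Q.η))
    (hz : TR (cR ν P) (cR ν P) (cR ν B) = 0) : cR ν B ∈ Uu TR (cR ν P) := by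
  have hnn : ∀ (Q : PDiv X) (D : Cart X), Ver ν TR (cR ν P) Q D → 0 ≤ TR (cR ν P) (cR ν B) (cR ν D) := by
    intro Q D hD
    exact (ms_nef f.h f.hr f.hν f.hT (trdeg_pdiv f.h Q) hD.spr hE.nef).eff B (pen_sec f.h hB hζ hc Q)
  have h1 : 0 ≤ TR (cR ν P) (cR ν B) (cR ν B) := eff_nn f hE hB hz hnn
  have h2 := ppa f hE.nef hE.sq
  have h3 := hx_le f hE.nef hE.c3 hz h2
  have h4 := le_antisymm h3 h1
  refine ⟨TR (cR ν P) (cR ν B) (cR ν A) / TR (cR ν P) (cR ν P) (cR ν A), fun v => ?_⟩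
  have h5 := hx_eq f hE.nef hE.c3 hz h2 h4 v
  rw [div_mul_eq_mul_div, eq_div_iff h2.ne', mul_comm, h5]

theorem pen_v [CharZero k] [IsAlgClosed k] [T0Space X.P] (f : Fr ν T l c TR L A) (hE : Ell ν TR L P)
    (hB : Effective B) (hζ : Sec B 1 ζ) (hc : ∀ Q : PDiv X, Un (X.O Q.η) (B.eq Q.η) ∨ Un (X.O Q.η) (ζ * B.eq Q.η))
    (hz : TR (cR ν P) (cR ν P) (cR ν B) = 0) (hV : V ∈ K0 ν TR A (cR ν P)) (hD : Ver ν TR (cR ν P) Q D) :
    TR V (cR ν B) (cR ν D) = 0 := by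
  obtain ⟨a, ha⟩ := pen_uu f hE hB hζ hc hz
  have hn : ∀ (Q : PDiv X) (D : Cart X), Ver ν TR (cR ν P) Q D → 0 ≤ TR V (cR ν B) (cR ν D) := by
    intro Q D hD
    refine Pool.Agent.H24.RC.tan_test f.h f.hr f.hν f.hT (trdeg_pdiv f.h Q) hD.spr hV.1
      (pen_sec f.h hB hζ hc Q) ?_
    rw [ha, hD.ver, mul_zero]
  have h0 : TR V (cR ν B) (cR ν P) = 0 := by
    rw [tr_s12 f.hr f.hν f.hT V, tr_s23 f.hr f.hν f.hT (cR ν B), tr_s12 f.hr f.hν f.hT (cR ν B), ha, hV.2,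
      mul_zero]
  exact vt_sum f hE h0 hn hD

end Pool.Agent.H60.ZC
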