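import Pool.Agent.H60.ZC.Pen
import Pool.Agent.H60.ZC.PenV
import Pool.Agent.H60.ZC.Crv

/-!
# [H60 ZC E3] THEOREM C (MP_e49dc9_ag): `T(V,u,E) = 0` for the exceptional prime divisors `E`

`E` a prime divisor with `T(p,A,E) = 0`, `V ∈ K0`, `u ∈ Vp V`: `T(V,u,E) = 0`.
PROOF. `T(p,.,E) = 0` (`hs_nn`), so `E` is vertical.  `b = T(.,.,E)`.  `V` is in `MS` on `E` (`k0_ms`): `b(V,V) ≥ 0` (`.sq`).
CLAIM: `b(u,u) ≤ 0` for all `u ∈ Vp V`.  Suppose `b(u,u) > 0`; then `b(u,A) ≠ 0` (`hs_le'`), replace `u` by `- u`: `b(u,A) > 0`.  `u₁ = u - ε A` with `b(u₁,u₁) > 0`, `b(u₁,A) > 0`, `ε > 0`.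
`big_s` (H89/RT/Hc): `C` with `‖cR W - t u₁‖ ≤ C` (`near_one`): for large `t` an integral `W` with a section on `E`, zero set `Z` (`hasS_of`).  `pen`: `B`, `ζ`; `crv_thr` with `G = B`, `σ` =
the residues of `1` and `ζ` at `E`: a curve `y` on `E`, `y ∉ Z`, in the zero set of a section of `B` on `E`.  `MS.cv`: `dR y V ≤ T(V,B,E) = 0` (`pen_v`), and `≥ 0` (`.deg`): `dR y V = 0`, so
`dR y u = 0` (`vp_int`: integral functional).  `y ∉ Z`: `dR y (cR W) ≥ 0` (a nonzero section of `W` on `E` which does not vanish at `y` restricts to a nonzero section on `y`: `dz_nn`; compare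
`hasX_res`, `dR_X` in H89/RT/End).  But `dR y (cR W) ≤ t dR y u₁ + C' dR y A = (C' - t ε) dR y A < 0` for `t` large, where `|dR y v| ≤ C'' ‖v‖ dR y A` with `C''` independent of `y` (`A ± δ v` is
in `CC ν` for small `δ`: `cc_open`; `dR ≥ 0` on `closure (CC ν)`), `dR y A > 0` (`dz_pos`).  Contradiction.
So `b ≤ 0` on `Vp V`, `b(V,V) = 0`: `0 ≥ b(V + s u,V + s u) = 2 s b(V,u) + s² b(u,u)` for all `s`: `b(V,u) = 0`.
-/

set_option autoImplicit false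

namespace Pool.Agent.H60.ZC

open Pool.Agent.H54.RV Pool.Agent.H83.TU Pool.Agent.H83.TK Pool.Agent.H20.TD Pool.Agent.H20.TP Pool.Agent.H20.RT
open Pool.Agent.H24.VP (RR)

variable {k K : Type} [Field k] [Field K] [Algebra k K] {X : Mod k K} {r : ℕ}
  {ν : Cart X →* Multiplicative (Fin r → ℤ)} {T : Cart X → Cart X → Cart X → ℝ} {l : Cart X → ℝ} {c : ℝ} {TR : Tri3 r}
  {L : (Fin r → ℝ) →ₗ[ℝ] ℝ} {A : Cart X}

variable {P D : Cart X} {V u : Fin r → ℝ} {Q : PDiv X}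

/-- the integral functional of the degree vanishes on `Vp V` -/
private theorem dR_vp [CharZero k] (f : Fr ν T l c TR L A) {y : X.P} (hy : Algebra.trdeg k (X.kap y) = 1)
    (h0 : dR f.hν f.h.var y V = 0) (hu : u ∈ Vp V) : dR f.hν f.h.var y u = 0 :=
  vp_int f.hν (fun D => ⟨dz f.h.var y D, dR_ci f.hν f.h.var f.h.amp hy D⟩) h0 hu

/-- a bound of the degrees by the degree of `A` -/
private theorem dR_bd [CharZero k] (f : Fr ν T l c TR L A) : ∃ C : ℝ, 0 < C ∧ ∀ (y : X.P) (w : Fin r → ℝ),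
    Algebra.trdeg k (X.kap y) = 1 → ‖w‖ ≤ 1 → |dR f.hν f.h.var y w| ≤ C * dR f.hν f.h.var y (cR ν A) := by
  have haC : cR ν A ∈ CC ν := cc_amp f.h.var f.hν f.hA
  obtain ⟨δ, hδ, hball⟩ := Metric.isOpen_iff.1 (cc_open (ν := ν)) _ haC
  have key : ∀ (y : X.P) (w : Fin r → ℝ), Algebra.trdeg k (X.kap y) = 1 → ‖w‖ ≤ 1 →
      - dR f.hν f.h.var y w ≤ 2 / δ * dR f.hν f.h.var y (cR ν A) := by
    intro y w hy hw
    have h1 : cR ν A + (δ / 2) • w ∈ CC ν := hball (by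
      rw [Metric.mem_ball, dist_eq_norm, add_sub_cancel_left, norm_smul, Real.norm_eq_abs, abs_of_pos (by positivity)]
      nlinarith)
    have h2 := dR_cc f.hν f.h.var f.hA hy h1
    rw [map_add, map_smul, smul_eq_mul] at h2
    rw [div_mul_eq_mul_div, le_div_iff₀ hδ]
    linarith
  refine ⟨2 / δ, by positivity, fun y w hy hw => ?_⟩
  have h1 := key y w hy hw
  have h2 := key y (-w) hy (by rwa [norm_neg])
  rw [map_neg, neg_neg] at h2
  rw [abs_le]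
  constructor <;> linarith

/-- no class of `Vp V` has positive square -/
private theorem e3_aux [CharZero k] [IsAlgClosed k] [T0Space X.P] (f : Fr ν T l c TR L A) (hE : Ell ν TR L P)
    (hV : V ∈ K0 ν TR A (cR ν P)) (hD : SPr X Q.η D) (h1 : TR (cR ν P) (cR ν A) (cR ν D) = 0) (hu : u ∈ Vp V)
    (hua : 0 < TR u (cR ν A) (cR ν D)) : TR u u (cR ν D) ≤ 0 := by
  by_contra hcon
  push Not at hcon
  have h := f.h
  have htr := trdeg_pdiv h Q
  have hver : Ver ν TR (cR ν P) Q D := ⟨hD, (hs_nn f hD hE.nef h1).1 _⟩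
  have hms := k0_ms f hE hV hD h1
  have hs12 := tr_s12 f.hr f.hν f.hT
  have hs23 := tr_s23 f.hr f.hν f.hT
  have haa : 0 < TR (cR ν A) (cR ν A) (cR ν D) := by
    rw [f.hT]
    exact pos_srf h f.hr htr hD f.hA f.hA
  obtain ⟨C, hC0, hC⟩ := dR_bd f
  obtain ⟨x, hx⟩ : ∃ x, x = TR u u (cR ν D) := ⟨_, rfl⟩
  obtain ⟨b, hb⟩ : ∃ b, b = TR u (cR ν A) (cR ν D) := ⟨_, rfl⟩
  obtain ⟨a, ha⟩ : ∃ a, a = TR (cR ν A) (cR ν A) (cR ν D) := ⟨_, rfl⟩
  rw [← hx] at hcon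
  rw [← hb] at hua
  rw [← ha] at haa
  obtain ⟨ε, hε⟩ : ∃ ε, ε = min (x / (4 * b)) (b / (2 * a)) := ⟨_, rfl⟩
  have hε0 : 0 < ε := by
    rw [hε]
    exact lt_min (by positivity) (by positivity)
  have hε1 : ε * (4 * b) ≤ x := by
    rw [← le_div_iff₀ (by positivity), hε]
    exact min_le_left _ _
  have hε2 : ε * (2 * a) ≤ b := by
    rw [← le_div_iff₀ (by positivity), hε]
    exact min_le_right _ _
  obtain ⟨u₁, hu₁⟩ : ∃ u₁, u₁ = u - ε • cR ν A := ⟨_, rfl⟩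
  have e1 : TR u₁ (cR ν A) (cR ν D) = b - ε * a := by
    rw [hu₁, hb, ha]
    simp only [map_sub, map_smul, LinearMap.sub_apply, LinearMap.smul_apply, smul_eq_mul]
  have e2 : TR u₁ u₁ (cR ν D) = x - 2 * ε * b + ε ^ 2 * a := by
    rw [hu₁, hb, ha, hx]
    simp only [map_sub, map_smul, LinearMap.sub_apply, LinearMap.smul_apply, smul_eq_mul]
    rw [hs12 (cR ν A) u]
    ring
  obtain ⟨t₀, ht₀⟩ := Pool.Agent.H89.RT.big_s h f.hr f.hν f.hT htr hD f.hA (u := u₁)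
    (by rw [e1]; nlinarith) (by rw [e2]; nlinarith [mul_pos hε0 hua, mul_pos (pow_pos hε0 2) haa]) 1
  obtain ⟨t, ht⟩ : ∃ t, t = max t₀ ((C + 1) / ε) := ⟨_, rfl⟩
  have ht1 : t₀ ≤ t := by rw [ht]; exact le_max_left _ _
  have ht2 : C + 1 ≤ t * ε := by
    rw [← div_le_iff₀ hε0, ht]
    exact le_max_right _ _
  obtain ⟨W, hW⟩ := Pool.Agent.H89.RT.near_one (X := X) f.hν (t • u₁)
  obtain ⟨Z, hZ⟩ := hasS_of_pos h.var (ht₀ t W ht1 hW)
  obtain ⟨B, ζ, hB, hζ, hc, hz, -, hli⟩ := pen f hE hver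
  have h1S : Sec B 1 (1 : K) := fun x => by
    rw [pow_one, one_mul]
    exact hB x
  have hσ : ∀ i, Sec (resD h.var Q.η B) 1 ((![X.rs Q.η (B.eq Q.η), X.rs Q.η (ζ * B.eq Q.η)] : Fin 2 → X.kap Q.η) i) := by
    intro i
    fin_cases i
    · have h5 := (resS h.var Q.η B 1 ⟨1, h1S⟩).2
      rw [resS_coe, pow_one, one_mul] at h5
      exact h5
    · have h5 := (resS h.var Q.η B 1 ⟨ζ, hζ⟩).2
      rw [resS_coe, pow_one] at h5
      exact h5
  obtain ⟨y, Z', hy, hyZ, hZ', hyZ'⟩ := crv_thr h htr hσ hli hZ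
  have h5 := hms.cv B Z' y hZ' hyZ' hy
  rw [pen_v f hE hB hζ hc hz hV hver] at h5
  have h6 := dR_vp f hy.2 (le_antisymm h5 (hms.deg y hy)) hu
  have h7 : (0 : ℝ) ≤ dR f.hν h.var y (cR ν W) := by
    rw [dR_ci f.hν h.var h.amp hy.2]
    exact_mod_cast dz_out h.var f.hA hZ hy hyZ
  obtain ⟨w, hw⟩ : ∃ w : Fin r → ℝ, w = cR ν W - t • u₁ := ⟨_, rfl⟩
  have hWw : cR ν W = t • u₁ + w := by rw [hw]; abel
  rw [← hw] at hW
  have h8 := hC y w hy.2 hW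
  have h9 : 0 < dR f.hν h.var y (cR ν A) := dR_cc f.hν h.var f.hA hy.2 (cc_amp h.var f.hν f.hA)
  rw [hWw, map_add, map_smul, hu₁, map_sub, map_smul, h6, smul_eq_mul, smul_eq_mul] at h7
  rw [abs_le] at h8
  nlinarith [h8.2]

theorem e3 [CharZero k] [IsAlgClosed k] [T0Space X.P] (f : Fr ν T l c TR L A) (hE : Ell ν TR L P)
    (hV : V ∈ K0 ν TR A (cR ν P)) (hD : SPr X Q.η D) (h1 : TR (cR ν P) (cR ν A) (cR ν D) = 0) (hu : u ∈ Vp V) :
    TR V u (cR ν D) = 0 := by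
  have hs12 := tr_s12 f.hr f.hν f.hT
  have hneg : ∀ u ∈ Vp V, TR u u (cR ν D) ≤ 0 := by
    intro u hu
    rcases lt_trichotomy (TR u (cR ν A) (cR ν D)) 0 with h2 | h2 | h2
    · have h3 := e3_aux f hE hV hD h1 (u := -u) (Submodule.neg_mem _ hu) (by
        rw [map_neg, LinearMap.neg_apply, LinearMap.neg_apply]
        linarith)
      simpa only [map_neg, LinearMap.neg_apply, neg_neg] using h3
    · exact hs_le' f hD h2
    · exact e3_aux f hE hV hD h1 hu h2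
  have h2 : TR V V (cR ν D) = 0 := le_antisymm (hneg V (self_vp V)) (k0_ms f hE hV hD h1).sq
  have h3 : ∀ s : ℝ, 2 * s * TR V u (cR ν D) + s ^ 2 * TR u u (cR ν D) ≤ 0 := by
    intro s
    have h4 := hneg (V + s • u) (Submodule.add_mem _ (self_vp V) (Submodule.smul_mem _ _ hu))
    simp only [map_add, map_smul, LinearMap.add_apply, LinearMap.smul_apply, smul_eq_mul] at h4
    rw [h2, hs12 u V] at h4
    linarith
  obtain ⟨x, hx⟩ : ∃ x, x = TR V u (cR ν D) := ⟨_, rfl⟩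
  obtain ⟨y, hy⟩ : ∃ y, y = TR u u (cR ν D) := ⟨_, rfl⟩
  rw [← hx, ← hy] at h3
  rw [← hx]
  by_contra hne
  have h5 : 0 < 1 + |y| := by positivity
  have h4 := h3 (x / (1 + |y|))
  have h6 : 2 * (x / (1 + |y|)) * x + (x / (1 + |y|)) ^ 2 * y = x ^ 2 / (1 + |y|) ^ 2 * (2 * (1 + |y|) + y) := by
    field_simp
  rw [h6] at h4
  have h7 : 0 < x ^ 2 / (1 + |y|) ^ 2 := by positivity
  have h8 : 0 < 2 * (1 + |y|) + y := by
    have := neg_abs_le y
    have := abs_nonneg y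
    linarith
  exact absurd (mul_pos h7 h8) (not_lt.2 h4)

end Pool.Agent.H60.ZC
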