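import Pool.Agent.H60.ZC.Sum
import Pool.Agent.H60.ZC.Rat
import Pool.Agent.H24.RC.LbS

/-!
# [H60 ZC Kz] THEOREM C (MP_e49dc9_ag): the classes of the tangent cone with `T(p,p,V) = 0`

`V ∈ K0`: for all `ε > 0` there is `t` with `N_ε = V + ε A + t p` nef; `z(V) = 0`.
* `k0_w`: `T(w,V,D) = 0` for `w ∈ Nn`, `D` vertical.  For `q ∈ Ph`: `T(N_ε,q,D) ≥ 0` (`pr_nn`) and `T(p,q,D) = 0` (`form`, `z(D) = 0`): `T(V,q,D) + ε T(A,q,D) ≥ 0`, `ε → 0`
  (`eps_nn`).  `T(V,q,p) = ip(p,q) z(V) = 0` (`form`): `vt_sum` with `u = V`, `v = q`.  Linear in `w`.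
* `k0_vp`: `u ∈ Vp V`: `z(u) = 0` and `T(w,u,D) = 0`: `w = ∑ a i cR (Q i)` (`nn_span`); `T(Q i,.,D)` is an integral functional which vanishes at `V` (`vp_tri`).
* `k0_le`: `T(p,A,D) > 0`, `D` vertical: `T(V,V,D) ≤ 0` (`hs_le` with `q = p`, `u = V`).
* `k0_uu`: `u ∈ Uu`: `T(V,u,u) ≤ 0`.  `z(u) = T(p,u,p) = a z(p) = 0`, `T(p,u,u) = a z(u) = 0`, `T(V,p,u) = a z(V) = 0`.  `hi_real` for `N_ε`, `L := p`: `T(N_ε,p,p) = ε z(A) > 0`,
  `T(N_ε,p,u) = ε T(A,p,u)`, `T(N_ε,u,u) = T(V,u,u) + ε T(A,u,u)`: `ε z(A) (T(V,u,u) + ε T(A,u,u)) ≤ ε² T(A,p,u)²`; divide by `ε`, `ε → 0`.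
* `k0_ms`: `D` a prime divisor with `T(p,A,D) = 0`: `MS` holds for `V` on `D`: `N_ε` is in `MS` (`ms_nef`), `p` in `KS` (`ms_zero`), so `V + ε A` is (`ms_add` with a multiple of `- p`,
  which is in `KS`), `ms_closed`.
-/

set_option autoImplicit false

namespace Pool.Agent.H60.ZC

open Pool.Agent.H54.RV Pool.Agent.H83.TU Pool.Agent.H83.TK Pool.Agent.H20.TD Pool.Agent.H20.TP Pool.Agent.H20.RT
open Pool.Agent.H24.VP (RR)

variable {k K : Type} [Field k] [Field K] [Algebra k K] {X : Mod k K} {r : ℕ}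
  {ν : Cart X →* Multiplicative (Fin r → ℤ)} {T : Cart X → Cart X → Cart X → ℝ} {l : Cart X → ℝ} {c : ℝ} {TR : Tri3 r}
  {L : (Fin r → ℝ) →ₗ[ℝ] ℝ} {A : Cart X}

variable {P D : Cart X} {V u w : Fin r → ℝ} {Q : PDiv X}

private theorem kz_p (hE : Ell ν TR L P) : cR ν P ∈ Nn ν TR (cR ν P) :=
  Submodule.subset_span (p_ph hE.nef hE.c3)

theorem k0_w [CharZero k] [IsAlgClosed k] [T0Space X.P] (f : Fr ν T l c TR L A) (hE : Ell ν TR L P)
    (hV : V ∈ K0 ν TR A (cR ν P)) (hw : w ∈ Nn ν TR (cR ν P)) (hD : Ver ν TR (cR ν P) Q D) :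
    TR w V (cR ν D) = 0 := by
  have s12 := tr_s12 f.hr f.hν f.hT
  have s23 := tr_s23 f.hr f.hν f.hT
  refine Submodule.span_induction (p := fun w _ => TR w V (cR ν D) = 0) ?_ ?_ ?_ ?_ hw
  · intro q hq
    have hqN : q ∈ Nn ν TR (cR ν P) := Submodule.subset_span hq
    have h1 : TR V q (cR ν P) = 0 := by
      rw [s23 V q (cR ν P), s12 V (cR ν P) q, s23 (cR ν P) V q,
        form f hE.nef hE.c3 hE.sq (kz_p hE) hqN V, hV.2, mul_zero]
    have h2 : ∀ (Q : PDiv X) (D : Cart X), Ver ν TR (cR ν P) Q D → 0 ≤ TR V q (cR ν D) := by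
      intro Q' D' hD'
      refine Pool.Agent.H24.RC.eps_nn (b := TR (cR ν A) q (cR ν D')) fun e he => ?_
      obtain ⟨t, ht⟩ := hV.1 e he
      have h3 := pr_nn f hD'.spr ht hq.1
      have h4 : TR (cR ν P) q (cR ν D') = 0 := by
        rw [form f hE.nef hE.c3 hE.sq (kz_p hE) hqN (cR ν D'), hD'.ver, mul_zero]
      simp only [map_add, map_smul, LinearMap.add_apply, LinearMap.smul_apply, smul_eq_mul, h4,
        mul_zero, add_zero] at h3
      exact h3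
    rw [s12 q V]
    exact vt_sum f hE h1 h2 hD
  · rw [map_zero]
    rfl
  · intro x y _ _ hx hy
    rw [map_add, LinearMap.add_apply, LinearMap.add_apply, hx, hy, add_zero]
  · intro a x _ hx
    rw [map_smul, LinearMap.smul_apply, LinearMap.smul_apply, hx, smul_zero]

theorem k0_vp [CharZero k] [IsAlgClosed k] [T0Space X.P] (f : Fr ν T l c TR L A) (hE : Ell ν TR L P)
    (hV : V ∈ K0 ν TR A (cR ν P)) (hu : u ∈ Vp V) : TR (cR ν P) (cR ν P) u = 0 ∧
      ∀ w ∈ Nn ν TR (cR ν P), ∀ (Q : PDiv X) (D : Cart X), Ver ν TR (cR ν P) Q D → TR w u (cR ν D) = 0 := by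
  have s12 := tr_s12 f.hr f.hν f.hT
  have s23 := tr_s23 f.hr f.hν f.hT
  refine ⟨?_, ?_⟩
  · rw [s23 (cR ν P) (cR ν P) u, s12 (cR ν P) u (cR ν P)]
    refine vp_tri f.hr f.hν f.hT ⟨A, f.hA⟩ ?_ hu
    rw [s12 V (cR ν P) (cR ν P), s23 (cR ν P) V (cR ν P)]
    exact hV.2
  · intro w hw Q D hD
    obtain ⟨m, a, R, hR, rfl⟩ := nn_span f hE hw
    rw [map_sum, LinearMap.sum_apply, LinearMap.sum_apply]
    refine Finset.sum_eq_zero fun i _ => ?_
    rw [map_smul, LinearMap.smul_apply, LinearMap.smul_apply]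
    have h1 : TR (cR ν (R i)) u (cR ν D) = 0 := by
      rw [s12 (cR ν (R i)) u (cR ν D)]
      refine vp_tri f.hr f.hν f.hT ⟨A, f.hA⟩ ?_ hu
      rw [s12 V (cR ν (R i)) (cR ν D)]
      exact k0_w f hE hV (Submodule.subset_span (hR i)) hD
    rw [h1, smul_zero]

theorem k0_le [CharZero k] [IsAlgClosed k] [T0Space X.P] (f : Fr ν T l c TR L A) (hE : Ell ν TR L P)
    (hV : V ∈ K0 ν TR A (cR ν P)) (hD : Ver ν TR (cR ν P) Q D) (h1 : 0 < TR (cR ν P) (cR ν A) (cR ν D)) :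
    TR V V (cR ν D) ≤ 0 :=
  hs_le f hD.spr hE.nef hD.ver (k0_w f hE hV (kz_p hE) hD) h1

theorem k0_uu [CharZero k] [IsAlgClosed k] [T0Space X.P] (f : Fr ν T l c TR L A) (hE : Ell ν TR L P)
    (hV : V ∈ K0 ν TR A (cR ν P)) (hu : u ∈ Uu TR (cR ν P)) : TR V u u ≤ 0 := by
  have s12 := tr_s12 f.hr f.hν f.hT
  have s23 := tr_s23 f.hr f.hν f.hT
  obtain ⟨a', ha'⟩ := hu
  have zu : TR (cR ν P) (cR ν P) u = 0 := by
    rw [s23 (cR ν P) (cR ν P) u, ha', hE.c3, mul_zero]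
  have puu : TR (cR ν P) u u = 0 := by
    rw [ha', zu, mul_zero]
  have vpu : TR V (cR ν P) u = 0 := by
    rw [s12 V (cR ν P) u, s23 (cR ν P) V u, ha', hV.2, mul_zero]
  have vpp : TR V (cR ν P) (cR ν P) = 0 := by
    rw [s12 V (cR ν P) (cR ν P), s23 (cR ν P) V (cR ν P)]
    exact hV.2
  have app : TR (cR ν A) (cR ν P) (cR ν P) = TR (cR ν P) (cR ν P) (cR ν A) := by
    rw [s12 (cR ν A) (cR ν P) (cR ν P), s23 (cR ν P) (cR ν A) (cR ν P)]
  have hz : 0 < TR (cR ν P) (cR ν P) (cR ν A) := ppa f hE.nef hE.sq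
  have key : 0 ≤ -(TR (cR ν P) (cR ν P) (cR ν A) * TR V u u) := by
    refine Pool.Agent.H24.RC.eps_nn (b := TR (cR ν A) (cR ν P) u ^ 2 -
      TR (cR ν P) (cR ν P) (cR ν A) * TR (cR ν A) u u) fun e he => ?_
    obtain ⟨t, ht⟩ := hV.1 e he
    have e1 : TR (V + e • cR ν A + t • cR ν P) (cR ν P) (cR ν P) =
        e * TR (cR ν P) (cR ν P) (cR ν A) := by
      simp only [map_add, map_smul, LinearMap.add_apply, LinearMap.smul_apply, smul_eq_mul, vpp,
        app, hE.c3, mul_zero, add_zero, zero_add]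
    have e2 : TR (V + e • cR ν A + t • cR ν P) (cR ν P) u = e * TR (cR ν A) (cR ν P) u := by
      simp only [map_add, map_smul, LinearMap.add_apply, LinearMap.smul_apply, smul_eq_mul, vpu,
        zu, mul_zero, add_zero, zero_add]
    have e3 : TR (V + e • cR ν A + t • cR ν P) u u = TR V u u + e * TR (cR ν A) u u := by
      simp only [map_add, map_smul, LinearMap.add_apply, LinearMap.smul_apply, smul_eq_mul, puu,
        mul_zero, add_zero]
    have h3 := hi_real (L := cR ν P) (v := u) f.h f.hr f.hν f.hT ht (by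
      rw [e1]
      exact mul_pos he hz)
    rw [e1, e2, e3] at h3
    have h4 : e * (TR (cR ν P) (cR ν P) (cR ν A) * (TR V u u + e * TR (cR ν A) u u)) ≤
        e * (e * TR (cR ν A) (cR ν P) u ^ 2) := by
      nlinarith [h3]
    have h5 := le_of_mul_le_mul_left h4 he
    nlinarith [h5]
  by_contra hcon
  push Not at hcon
  have := mul_pos hz hcon
  linarith

theorem k0_ms [CharZero k] [IsAlgClosed k] [T0Space X.P] (f : Fr ν T l c TR L A) (hE : Ell ν TR L P)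
    (hV : V ∈ K0 ν TR A (cR ν P)) (hD : SPr X Q.η D) (h1 : TR (cR ν P) (cR ν A) (cR ν D) = 0) :
    MS f.hν f.h.var TR Q.η D V := by
  have s12 := tr_s12 f.hr f.hν f.hT
  have htr : Algebra.trdeg k (X.kap Q.η) = 2 := trdeg_pdiv f.h Q
  have hp : cR ν P ∈ KS f.hν f.h.var TR Q.η D :=
    ms_zero f.h f.hr f.hν f.hT htr hD f.hA (ms_nef f.h f.hr f.hν f.hT htr hD hE.nef) h1
  have key : ∀ e : ℝ, 0 < e → MS f.hν f.h.var TR Q.η D (V + e • cR ν A) := by
    intro e he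
    obtain ⟨t, ht⟩ := hV.1 e he
    have h2 := ms_nef f.h f.hr f.hν f.hT htr hD ht
    have h3 : (-t) • cR ν P ∈ KS f.hν f.h.var TR Q.η D := by
      refine ⟨fun W => ?_, fun x hx => ?_⟩
      · rw [map_smul, LinearMap.smul_apply, LinearMap.smul_apply, hp.1 W, smul_zero]
      · rw [map_smul, hp.2 x hx, smul_zero]
    have h4 := ms_add f.h.var f.hν s12 h2 h3
    have h5 : V + e • cR ν A + t • cR ν P + (-t) • cR ν P = V + e • cR ν A := by module
    rw [h5] at h4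
    exact h4
  have hcl := ms_closed (TR := TR) (z := Q.η) (S := D) f.h.var f.hν
  have htd : Filter.Tendsto (fun e : ℝ => V + e • cR ν A) (nhdsWithin 0 (Set.Ioi 0)) (nhds V) := by
    have h2 : ContinuousAt (fun e : ℝ => V + e • cR ν A) 0 := by fun_prop
    have h3 := h2.tendsto.mono_left (nhdsWithin_le_nhds (s := Set.Ioi (0 : ℝ)))
    simpa using h3
  exact hcl.mem_of_tendsto htd (by
    filter_upwards [self_mem_nhdsWithin] with e he
    exact key e he)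

end Pool.Agent.H60.ZC
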