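import Pool.Agent.H60.ZC.Bn
import Pool.Agent.H60.ZC.Bex
import Pool.Agent.H60.ZC.Kz
import Pool.Agent.H60.ZC.E3

/-!
# [H60 ZC Ci] THEOREM C (MP_e49dc9_ag): the input of the core

`V ∈ K0`: all the fields of `Core` (CXD.lean) with `N = Nn ν TR p`, `B` from `ex_B`, except `sqb`.
`pN`: `p_ph`.  `int`: `nn_int`.  `form`: `form`.  `zN`: `nn_z`.  `zV`, `vv`: `k0_vp`.  `test`: `tan_test` (H24/RC/LbS).  `nsq`: a `VEff E` has `T(p,E,.)` proportional to `z`: `k0_uu`.  `tan`: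
for another ample `A'`: `e A'` minus a small multiple of `A` is ample.  `BN`, `Bsym`, `Bdef`: `ex_B`.  `Bnef`: `bn`, `u ∈ Vp V` is in `K1` by `k0_vp`.  `dec`: `uu_dec` for `E`:
`E = n + ∑ b i E i`; `T(B(V,u),v,E) = T(B(V,u),v,n)` (`T(w,v,E i) = 0` for `w ∈ Nn`) `= - T(V,u,n) z(v)` and `T(V,u,E) = T(V,u,n) + ∑ b i T(V,u,E i) = T(V,u,n)` (`e3`).
-/

set_option autoImplicit false

namespace Pool.Agent.H60.ZC

open Pool.Agent.H54.RV Pool.Agent.H83.TU Pool.Agent.H83.TK Pool.Agent.H20.TD Pool.Agent.H20.TP Pool.Agent.H20.RT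
open Pool.Agent.H24.VP (RR)

variable {k K : Type} [Field k] [Field K] [Algebra k K] {X : Mod k K} {r : ℕ}
  {ν : Cart X →* Multiplicative (Fin r → ℤ)} {T : Cart X → Cart X → Cart X → ℝ} {l : Cart X → ℝ} {c : ℝ} {TR : Tri3 r}
  {L : (Fin r → ℝ) →ₗ[ℝ] ℝ} {A : Cart X}

variable {P : Cart X} {V : Fin r → ℝ}

private theorem nn_e [CharZero k] [IsAlgClosed k] [T0Space X.P] (f : Fr ν T l c TR L A) (hE : Ell ν TR L P)
    {m : ℕ} {z : Fin m → PDiv X} {E : Fin m → Cart X} (hEt : Et ν TR A (cR ν P) z E) (i : Fin m) {w : Fin r → ℝ}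
    (hw : w ∈ Nn ν TR (cR ν P)) (v : Fin r → ℝ) : TR w v (cR ν (E i)) = 0 := by
  have hAC : cR ν A ∈ closure (CC ν) := subset_closure (cc_amp f.h.var f.hν f.hA)
  have hnn : ∀ w ∈ Nn ν TR (cR ν P), 0 ≤ TR w (cR ν A) (cR ν (E i)) := by
    intro w hw
    obtain ⟨C, -, hC⟩ := nn_int f hE hw
    have h1 := pr_nn f (hEt.spr i) hC hAC
    rw [map_add, map_smul, LinearMap.add_apply, LinearMap.add_apply, LinearMap.smul_apply, LinearMap.smul_apply,
      hEt.zero i, smul_zero, zero_add] at h1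
    exact h1
  have h1 : TR w (cR ν A) (cR ν (E i)) = 0 := by
    refine le_antisymm ?_ (hnn w hw)
    have h2 := hnn (-w) ((Nn ν TR (cR ν P)).neg_mem hw)
    rw [map_neg, LinearMap.neg_apply, LinearMap.neg_apply] at h2
    linarith
  obtain ⟨C, -, hC⟩ := nn_int f hE hw
  have h2 := (hs_nn f (hEt.spr i) hC (by
    rw [map_add, map_smul, LinearMap.add_apply, LinearMap.add_apply, LinearMap.smul_apply, LinearMap.smul_apply,
      hEt.zero i, smul_zero, zero_add, h1])).1 v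
  rw [map_add, map_smul, LinearMap.add_apply, LinearMap.add_apply, LinearMap.smul_apply, LinearMap.smul_apply,
    (hs_nn f (hEt.spr i) hE.nef (hEt.zero i)).1 v, smul_zero, zero_add] at h2
  exact h2

private theorem tr_sum {m : ℕ} (b : Fin m → ℝ) (E : Fin m → Cart X) (u v : Fin r → ℝ) (n : Fin r → ℝ) :
    TR u v (n + ∑ i, b i • cR ν (E i)) = TR u v n + ∑ i, b i * TR u v (cR ν (E i)) := by
  rw [map_add, map_sum]
  simp only [map_smul, smul_eq_mul]

theorem core_in [CharZero k] [IsAlgClosed k] [T0Space X.P] (f : Fr ν T l c TR L A) (hE : Ell ν TR L P)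
    (hV : V ∈ K0 ν TR A (cR ν P)) : ∃ B : (Fin r → ℝ) →ₗ[ℝ] (Fin r → ℝ) →ₗ[ℝ] (Fin r → ℝ),
      (TR (B V V) (B V V) ≠ 0 → Core ν TR (cR ν P) V (Nn ν TR (cR ν P)) B f.h.var) ∧ (B V V ∈ closure (CC ν)) ∧
      B V V ∈ Nn ν TR (cR ν P) ∧
      ∀ w ∈ Nn ν TR (cR ν P), ∀ v, TR (B V V) w v = - TR V V w * TR (cR ν P) (cR ν P) v := by
  have hr := f.hr
  have hν := f.hν
  have hT := f.hT
  obtain ⟨B, hB1, hB2, hB3⟩ := ex_B f hE.nef hE.c3 hE.sq
  have hpN : cR ν P ∈ Nn ν TR (cR ν P) := Submodule.subset_span (p_ph hE.nef hE.c3)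
  have hK1 : ∀ u ∈ Vp V, u ∈ K1 ν TR (cR ν P) := by
    intro u hu
    obtain ⟨h1, h2⟩ := k0_vp f hE hV hu
    exact ⟨h1, fun Q D hD => h2 _ hpN Q D hD⟩
  have hBn : ∀ u ∈ Vp V, B u u ∈ closure (CC ν) := fun u hu => bn f hE (hK1 u hu) (hB1 u u) (fun w hw v => hB3 u u w hw v)
  refine ⟨B, fun hb => ?_, hBn V (self_vp V), hB1 V V, fun w hw v => hB3 V V w hw v⟩
  exact
    { pN := hpN
      int := fun w hw => nn_int f hE hw
      form := fun w hw w' hw' => ⟨_, fun v => form f hE.nef hE.c3 hE.sq hw hw' v⟩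
      zN := fun w hw => nn_z hw
      sqp := hE.sq
      sqb := hb
      pw := fun w hw hwC hw0 h0 => by
        have h1 := pqa f hE.nef hE.c3 hE.sq ⟨hwC, nn_z hw⟩ hw0
        rw [h0, LinearMap.zero_apply] at h1
        exact lt_irrefl _ h1
      zV := fun u hu => (k0_vp f hE hV hu).1
      vv := fun u hu w hw Q D hD => (k0_vp f hE hV hu).2 w hw Q D hD
      test := fun Q D G hD hG h0 =>
        Pool.Agent.H24.RC.tan_test f.h hr hν hT (trdeg_pdiv f.h Q) hD.spr hV.1 hG h0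
      nsq := fun E hVE => k0_uu f hE hV (hVE.prop _ hpN)
      tan := fun A' e hA' he => by
        obtain ⟨ε, hε, h1⟩ := (oc_cc f.h.var hν).sub_small (cc_amp f.h.var hν hA') (cR ν A)
        have h2 := h1 (-ε) (by rw [abs_neg, abs_of_pos hε])
        obtain ⟨t, ht⟩ := hV.1 (e * ε) (mul_pos he hε)
        refine ⟨t, subset_closure ?_⟩
        have h3 := (oc_cc f.h.var hν).add_cl ((oc_cc f.h.var hν).smul e he _ h2) ht
        refine (congrArg (fun x => x ∈ CC ν) ?_).mp h3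
        rw [smul_add, smul_smul, mul_neg, neg_smul]
        abel
      BN := hB1
      Bsym := hB2
      Bdef := hB3
      Bnef := hBn
      dec := fun E hVE u hu v => by
        obtain ⟨m, z, E', hEt⟩ := ex_et f hE.nef (ppa f hE.nef hE.sq)
        obtain ⟨n, hn, b, hEn⟩ := uu_dec f hE hEt (hVE.prop _ hpN)
        rw [hEn, tr_sum, tr_sum]
        have h1 : ∑ i, b i * TR (B V u) v (cR ν (E' i)) = 0 :=
          Finset.sum_eq_zero fun i _ => by rw [nn_e f hE hEt i (hB1 V u) v, mul_zero]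
        have h2 : ∑ i, b i * TR V u (cR ν (E' i)) = 0 :=
          Finset.sum_eq_zero fun i _ => by rw [e3 f hE hV (hEt.spr i) (hEt.zero i) hu, mul_zero]
        rw [h1, h2, add_zero, add_zero, tr_s23 hr hν hT, hB3 V u n hn] }

end Pool.Agent.H60.ZC
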