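import Pool.Agent.H60.ZC.CXD
import Pool.Agent.H89.RS.Klm
import Pool.Agent.H89.RT.End

/-!
# [H60 ZC Def] THEOREM C (MP_e49dc9_ag): definitions

* `Fr ν T l c TR L A`: the frame (`X` factorial of dimension `3`, Riemann-Roch, the numerical classes, `L` = `l` on real classes, `A` ample).
* `Ver ν TR p Q D` (CXD.lean): `D` is a prime divisor with `T(p,p,D) = 0` (vertical), `Q` its place.
* `Ph ν TR p`: the nef classes `q` with `T(p,p,q) = 0`.  `Nn ν TR p`: their span.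
* `Ell ν TR L P`: the hypotheses on the nef divisor `P`, `p = cR ν P`: `p` is in the relative interior of the face `Ph ν TR p`, all nonzero
  classes of the face have `L > 0` and are interior points of the nef cone of their rational hull (THEOREM R*); the number of sections of `P ^ n`
  grows quadratically.  (`TR q q = 0` is allowed for `q` in the face, `q ≠ p`.)
* `ip TR A p w w'`: the number `(w,w')` with `T(w,w',.) = (w,w') T(p,p,.)` for `w, w'` in `Nn ν TR p`.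
* `Tg ν A q`: the tangent cone of the nef cone at `q`.  `K0`: the `v` in the tangent cone at `p` with `T(p,p,v) = 0`.
* `Uu`: the classes `u` with `T(p,u,.)` proportional to `T(p,p,.)`.
* `Et ν TR A p z E`: `E i` are the prime divisors with `T(p,A,E i) = 0` (finitely many), with places `z i`.
-/

set_option autoImplicit false

namespace Pool.Agent.H60.ZC

open Pool.Agent.H54.RV Pool.Agent.H83.TU Pool.Agent.H83.TK Pool.Agent.H20.TD Pool.Agent.H20.TP Pool.Agent.H20.RT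
open Pool.Agent.H24.VP (RR)

variable {k K : Type} [Field k] [Field K] [Algebra k K] {X : Mod k K} {r : ℕ}
  (ν : Cart X →* Multiplicative (Fin r → ℤ)) (T : Cart X → Cart X → Cart X → ℝ) (l : Cart X → ℝ) (c : ℝ) (TR : Tri3 r)
  (L : (Fin r → ℝ) →ₗ[ℝ] ℝ)

/-- the frame -/
structure Fr (A : Cart X) : Prop where
  h : Hyp X
  hr : RR T l c
  hν : NumR ν
  hT : ∀ U V W, TR (cR ν U) (cR ν V) (cR ν W) = T U V W
  hL : ∀ D, L (cR ν D) = l D
  hA : Ample A

/-- the face of the nef classes `q` with `T(p,p,q) = 0` -/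
def Ph (p : Fin r → ℝ) : Set (Fin r → ℝ) := {q | q ∈ closure (CC ν) ∧ TR p p q = 0}

/-- the span of the face -/
def Nn (p : Fin r → ℝ) : Submodule ℝ (Fin r → ℝ) := Submodule.span ℝ (Ph ν TR p)

/-- the hypotheses on `P` -/
structure Ell (P : Cart X) : Prop where
  nef : cR ν P ∈ closure (CC ν)
  c3 : TR (cR ν P) (cR ν P) (cR ν P) = 0
  sq : TR (cR ν P) (cR ν P) ≠ 0
  top : ∀ q ∈ Ph ν TR (cR ν P), ∃ M : ℝ, 0 ≤ M ∧ M • cR ν P - q ∈ closure (CC ν)
  lp : ∀ q ∈ Ph ν TR (cR ν P), q ≠ 0 → 0 < L q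
  ri : ∀ q ∈ Ph ν TR (cR ν P), q ≠ 0 → ∃ e : ℝ, 0 < e ∧ ∀ y ∈ Vp q, ‖y - q‖ < e → y ∈ closure (CC ν)
  gro : ∃ c₀ : ℝ, 0 < c₀ ∧ ∃ n₀ : ℕ, ∀ n : ℕ, n₀ ≤ n → c₀ * (n : ℝ) ^ 2 ≤ h0 (P ^ n) 1

/-- the form on the span of the face -/
noncomputable def ip (A : Cart X) (p w w' : Fin r → ℝ) : ℝ := TR w w' (cR ν A) / TR p p (cR ν A)

/-- the tangent cone of the nef cone at `q` (`A` ample) -/
def Tg (A : Cart X) (q : Fin r → ℝ) : Set (Fin r → ℝ) :=
  {v | ∀ ε : ℝ, 0 < ε → ∃ t : ℝ, v + ε • cR ν A + t • q ∈ closure (CC ν)}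

/-- the classes of the tangent cone at `p` with `T(p,p,v) = 0` -/
def K0 (A : Cart X) (p : Fin r → ℝ) : Set (Fin r → ℝ) := {v | v ∈ Tg ν A p ∧ TR p p v = 0}

/-- the classes which are orthogonal to `p . p` and to `p . D` for all vertical prime divisors `D` -/
def K1 (p : Fin r → ℝ) : Set (Fin r → ℝ) :=
  {v | TR p p v = 0 ∧ ∀ (Q : PDiv X) (D : Cart X), Ver ν TR p Q D → TR p v (cR ν D) = 0}

/-- the classes `u` with `T(p,u,.)` proportional to `T(p,p,.)` -/
def Uu (p : Fin r → ℝ) : Set (Fin r → ℝ) := {u | ∃ a : ℝ, ∀ v, TR p u v = a * TR p p v}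

/-- `E i`, with places `z i`, are the prime divisors with `T(p,A,E i) = 0`; the form `T(A,.,.)` is negative definite on their span, so
`proj` and `neg` hold -/
structure Et (A : Cart X) (p : Fin r → ℝ) {m : ℕ} (z : Fin m → PDiv X) (E : Fin m → Cart X) : Prop where
  spr : ∀ i, SPr X (z i).η (E i)
  zero : ∀ i, TR p (cR ν A) (cR ν (E i)) = 0
  all : ∀ (Q : PDiv X) (D : Cart X), SPr X Q.η D → TR p (cR ν A) (cR ν D) = 0 → ∃ i, Q.η = (z i).η
  inj : ∀ i j, (z i).η = (z j).η → i = j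
  proj : ∀ v : Fin r → ℝ, ∃ b : Fin m → ℝ, ∀ j, TR (v + ∑ i, b i • cR ν (E i)) (cR ν A) (cR ν (E j)) = 0
  neg : ∀ b : Fin m → ℝ, (∀ j, 0 ≤ TR (∑ i, b i • cR ν (E i)) (cR ν A) (cR ν (E j))) → ∀ i, b i ≤ 0

end Pool.Agent.H60.ZC
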