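import Pool.Agent.H60.ZC.Kn
import Pool.Agent.H24.RC.LemB
import Pool.Agent.H32.ZC.Cvx
import Pool.Agent.H39.TZ.Def2
import Pool.Agent.H39.TZ.LocP

/-!
# [H60 ZC Fin1] THEOREM C (MP_e49dc9_ag): the nef cone is rational polyhedral near the classes of the face

`cvx_ind` (H32/ZC/Cvx.lean) for `C = closure (AmpR ν) = closure (CC ν)` (`cl_eq`), `Q q : q ∈ Ph ν TR p ∧ TR q q ≠ 0`.
* `h0`: the integral functional `z = T(p,p,.)` (`int_fun`, H20/RT/Bgd), `≥ 0` on the nef cone, `0` at `q`, `≠ 0`.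
* `H`: `D ∈ Tq C q`, `D ∉ Nq`.  `D ∈ Tg ν A q` (`A` is interior; `Tq` is the closure of the `D` with `D + t q` nef).  `TR q q = (q,q) z`, `(q,q) > 0` (`form`).  `z(D) ≥ 0` (`z(D + ε A + t q) ≥ 0`).
  (i) `z(D) > 0`: `T(q,q,D) > 0`: `lem_b` (H24/RC/LemB): `D + t q` is nef and `T(D+tq,D+tq,D+tq) > 0` for `t ≥ t₀`: `RatC` there (`loc_poly` of H20/TP/Poly; in H39/TZ/Pf*: the statement `RatAt` at
  big classes).
  (ii) `z(D) = 0`: `D ∈ K0 ν TR A p`: `q ≤ M p` (`hE.top`), so `D + ε A + t q` nef gives `D + ε A + t M p` nef (`t ≥ 0` w.l.o.g.).  `k_nn`: `D ∈ Nn`.  `nb` at `q`: `w = q + s D`, `s > 0` small: for a prime divisor `G`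
  with `T(q,A,G) = 0`: `T(D + ε A + t q,A,G) ≥ 0`, so `T(D,A,G) ≥ 0` (`ε → 0`).  So `q + s D` is nef for `0 ≤ s ≤ s₀`, in `Ph` (`z = 0`), so `D + t q ∈ Ph` for `t ≥ 1 / s₀`, and
  `T(D+tq,D+tq,A) = t² T(q,q,A) + O(t) > 0` for `t` large: `Q (D + t q)`.
-/

set_option autoImplicit false

namespace Pool.Agent.H60.ZC

open Pool.Agent.H54.RV Pool.Agent.H83.TU Pool.Agent.H83.TK Pool.Agent.H20.TD Pool.Agent.H20.TP Pool.Agent.H20.RT
open Pool.Agent.H24.VP (RR)

variable {k K : Type} [Field k] [Field K] [Algebra k K] {X : Mod k K} {r : ℕ}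
  {ν : Cart X →* Multiplicative (Fin r → ℤ)} {T : Cart X → Cart X → Cart X → ℝ} {l : Cart X → ℝ} {c : ℝ} {TR : Tri3 r}
  {L : (Fin r → ℝ) →ₗ[ℝ] ℝ} {A : Cart X}

variable {P : Cart X} {q : Fin r → ℝ}

open Pool.Agent.H32.ZC (Cone Tq Nq RatC cvx_ind) in
private theorem cc_cone (hX : IsVar X) (hν : NumR ν) (hA : Ample A) : Cone (closure (CC ν)) where
  cl := isClosed_closure
  cv := by
    refine Convex.closure ?_
    intro x hx y hy a b ha hb hab
    rcases ha.eq_or_lt with h1 | h1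
    · rw [← h1, zero_smul, zero_add]
      rw [← h1, zero_add] at hab
      rw [hab, one_smul]
      exact hy
    rcases hb.eq_or_lt with h2 | h2
    · rw [← h2, zero_smul, add_zero]
      rw [← h2, add_zero] at hab
      rw [hab, one_smul]
      exact hx
    exact cc_add hX hν (cc_smul h1 hx) (cc_smul h2 hy)
  sm := fun a x ha hx => cl_smul ha.le hx
  int := ⟨cR ν A, interior_mono subset_closure (by rw [cc_open.interior_eq]; exact cc_amp hX hν hA)⟩

private theorem rat_iff (hX : IsVar X) (hν : NumR ν) (x : Fin r → ℝ) :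
    Pool.Agent.H39.TZ.RatAt ν x ↔ Pool.Agent.H32.ZC.RatC (closure (CC ν)) x := by
  unfold Pool.Agent.H39.TZ.RatAt Pool.Agent.H32.ZC.RatC
  rw [cl_eq hX hν]

/-- the closure of the tangent cone -/
private theorem tq_tg (hX : IsVar X) (hν : NumR ν) (hA : Ample A) {D : Fin r → ℝ}
    (hD : D ∈ Pool.Agent.H32.ZC.Tq (closure (CC ν)) q) : D ∈ Tg ν A q := by
  intro ε hε
  obtain ⟨ρ, hρ, hball⟩ := Metric.isOpen_iff.1 (cc_open (ν := ν)) _ (cc_amp hX hν hA)
  obtain ⟨D', ⟨t, ht⟩, hd⟩ := Metric.mem_closure_iff.1 hD (ε * ρ) (by positivity)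
  refine ⟨t, ?_⟩
  have h1 : cR ν A + ε⁻¹ • (D - D') ∈ CC ν := by
    refine hball ?_
    rw [Metric.mem_ball, dist_eq_norm]
    have e : rv (ci ν A) + ε⁻¹ • (D - D') - rv (ci ν A) = ε⁻¹ • (D - D') := by abel
    rw [e, norm_smul, norm_inv, Real.norm_eq_abs, abs_of_pos hε, inv_mul_lt_iff₀ hε, ← dist_eq_norm]
    exact hd
  have h2 := (cc_cone hX hν hA).add ht (subset_closure (cc_smul hε h1))
  have e : D' + t • q + ε • (cR ν A + ε⁻¹ • (D - D')) = D + ε • cR ν A + t • q := by
    rw [smul_add, smul_smul, mul_inv_cancel₀ hε.ne', one_smul]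
    abel
  rwa [e] at h2

theorem loc_ell [CharZero k] [IsAlgClosed k] [T0Space X.P] (f : Fr ν T l c TR L A) (hE : Ell ν TR L P)
    (hq : q ∈ Ph ν TR (cR ν P)) (hqq : TR q q ≠ 0) : Pool.Agent.H39.TZ.RatAt ν q := by
  obtain ⟨a, ha⟩ : ∃ a, a = cR ν A := ⟨_, rfl⟩
  have hC : Pool.Agent.H32.ZC.Cone (closure (CC ν)) := cc_cone f.h.var f.hν f.hA
  have hac : a ∈ closure (CC ν) := by rw [ha]; exact subset_closure (cc_amp f.h.var f.hν f.hA)
  have hppa : 0 < TR (cR ν P) (cR ν P) a := by rw [ha]; exact pp_pos f.h f.hr f.hν f.hT f.hA hE.nef hE.sq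
  have hz : ∀ x ∈ closure (CC ν), 0 ≤ TR (cR ν P) (cR ν P) x := fun x hx =>
    tr_nn f.h f.hr f.hν f.hT hE.nef hE.nef hx
  rw [rat_iff f.h.var f.hν]
  refine Pool.Agent.H32.ZC.cvx_ind hC (Q := fun x => x ∈ Ph ν TR (cR ν P) ∧ TR x x ≠ 0) ?_ ?_ q hq.1 ⟨hq, hqq⟩
  · -- the integral functional
    rintro x - ⟨hx, -⟩
    obtain ⟨φ, hφ⟩ := int_fun f.hν (F := TR (cR ν P) (cR ν P)) fun D => by
      obtain ⟨n, hn⟩ := Pool.Agent.H24.VP.t_int f.hr ⟨A, f.hA⟩ P P D
      exact ⟨n, by rw [f.hT, hn]⟩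
    refine ⟨φ, ?_, fun y hy => ?_, ?_⟩
    · intro h0
      apply hE.sq
      refine LinearMap.ext fun w => ?_
      rw [hφ w, h0, LinearMap.zero_apply]
      have e : rv (0 : Fin r → ℤ) = 0 := by
        funext i
        simp [rv]
      rw [e, zero_dotProduct]
    · rw [← hφ]
      exact hz y hy
    · rw [← hφ]
      exact hx.2
  · -- the directions
    rintro x hx ⟨hxP, hxx⟩ D hDT -
    have hDx := tq_tg f.h.var f.hν f.hA hDT
    have hxxa : 0 < TR x x a := by rw [ha]; exact pp_pos f.h f.hr f.hν f.hT f.hA hx hxx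
    have hform : ∀ v, TR x x v = ip ν TR A (cR ν P) x x * TR (cR ν P) (cR ν P) v := fun v =>
      form f hE.nef hE.c3 hE.sq (Submodule.subset_span hxP) (Submodule.subset_span hxP) v
    have hip : 0 < ip ν TR A (cR ν P) x x := by
      have h1 := hform a
      rw [h1] at hxxa
      by_contra h2
      have h3 := mul_nonpos_of_nonpos_of_nonneg (not_lt.1 h2) hppa.le
      linarith
    have hxxx : TR x x x = 0 := by rw [hform, hxP.2, mul_zero]
    have hzD : 0 ≤ TR (cR ν P) (cR ν P) D := by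
      refine le_of_forall_pos_le_add fun e he => ?_
      obtain ⟨t, ht⟩ := hDx (e / TR (cR ν P) (cR ν P) a) (by positivity)
      have h1 := hz _ ht
      rw [← ha, map_add, map_add, map_smul, map_smul, smul_eq_mul, smul_eq_mul, hxP.2, mul_zero, add_zero,
        div_mul_cancel₀ _ hppa.ne'] at h1
      exact h1
    rcases hzD.lt_or_eq with hpos | hzero
    · -- case (i)
      obtain ⟨t₀, ht₀⟩ := Pool.Agent.H24.RC.lem_b f.h f.hr f.hν f.hT f.hL f.hA hx hxxx hDx (by
        rw [hform]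
        exact mul_pos hip hpos)
      refine ⟨t₀, fun t ht => ⟨(ht₀ t ht).1, Or.inl ?_⟩⟩
      rw [← rat_iff f.h.var f.hν]
      refine Pool.Agent.H39.TZ.loc_poly f.h f.hr f.hν f.hT ?_ (ht₀ t ht).2
      rw [cl_eq f.h.var f.hν]
      exact (ht₀ t ht).1
    · -- case (ii)
      have hDK : D ∈ K0 ν TR A (cR ν P) := by
        refine ⟨fun ε hε => ?_, hzero.symm⟩
        obtain ⟨t, ht⟩ := hDx ε hε
        obtain ⟨M, hM0, hM⟩ := hE.top x hxP
        refine ⟨|t| * M, ?_⟩
        have h1 : D + ε • cR ν A + |t| • x ∈ closure (CC ν) := by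
          have h2 := hC.add ht (cl_smul (show 0 ≤ |t| - t by linarith [le_abs_self t]) hx)
          have e : D + ε • cR ν A + t • x + (|t| - t) • x = D + ε • cR ν A + |t| • x := by
            rw [sub_smul]
            abel
          rwa [e] at h2
        have h2 := hC.add h1 (cl_smul (abs_nonneg t) hM)
        have e : D + ε • cR ν A + |t| • x + |t| • (M • cR ν P - x) = D + ε • cR ν A + (|t| * M) • cR ν P := by
          rw [smul_sub, smul_smul]
          abel
        rwa [e] at h2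
      have hDN := k_nn f hE hDK
      obtain ⟨ρ, hρ, hnb⟩ := nb f hE hxP (by rw [← ha]; exact hxxa)
      obtain ⟨s₀, hs₀⟩ : ∃ s₀, s₀ = ρ / (‖D‖ + 1) := ⟨_, rfl⟩
      have hs₀0 : 0 < s₀ := by rw [hs₀]; positivity
      have hnef : ∀ s : ℝ, 0 < s → s < s₀ → x + s • D ∈ closure (CC ν) := by
        intro s hs hs1
        refine hnb _ ((Nn ν TR (cR ν P)).add_mem (Submodule.subset_span hxP) ((Nn ν TR (cR ν P)).smul_mem s hDN)) ?_ ?_
        · have e : x + s • D - x = s • D := by abel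
          rw [e, norm_smul, Real.norm_eq_abs, abs_of_pos hs]
          have h1 : s * (‖D‖ + 1) < ρ := by
            rw [hs₀, lt_div_iff₀ (by positivity)] at hs1
            exact hs1
          nlinarith [norm_nonneg D]
        · intro Q E hE1 hE2
          have h1 : 0 ≤ TR D (cR ν A) (cR ν E) := by
            refine le_of_forall_pos_le_add fun e he => ?_
            have h3 := tpa_nn f.h f.hr f.hν f.hT (trdeg_pdiv f.h Q) hE1 f.hA hac
            obtain ⟨t, ht⟩ := hDx (e / (TR a (cR ν A) (cR ν E) + 1)) (by positivity)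
            have h4 := tpa_nn f.h f.hr f.hν f.hT (trdeg_pdiv f.h Q) hE1 f.hA ht
            simp only [map_add, map_smul, LinearMap.add_apply, LinearMap.smul_apply, smul_eq_mul, hE2, mul_zero,
              add_zero] at h4
            rw [← ha] at h4 h3 ⊢
            have h5 : e / (TR a a (cR ν E) + 1) * TR a a (cR ν E) ≤ e := by
              rw [div_mul_eq_mul_div, div_le_iff₀ (by positivity)]
              nlinarith
            linarith
          simp only [map_add, map_smul, LinearMap.add_apply, LinearMap.smul_apply, smul_eq_mul, hE2, zero_add]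
          exact mul_nonneg hs.le h1
      obtain ⟨t₁, ht₁⟩ := Pool.Agent.H24.ZL.quad_ev hxxa (-(2 * TR x D a)) (-TR D D a)
      refine ⟨max (2 / s₀) t₁, fun t ht => ?_⟩
      have ht2 : 2 / s₀ ≤ t := (le_max_left _ _).trans ht
      have ht0 : 0 < t := lt_of_lt_of_le (by positivity) ht2
      have hmem : D + t • x ∈ closure (CC ν) := by
        have h1 := hnef (1 / t) (by positivity) (by
          rw [div_lt_iff₀ ht0]
          rw [div_le_iff₀ hs₀0] at ht2
          linarith)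
        have h2 := cl_smul ht0.le h1
        have e : t • (x + (1 / t) • D) = D + t • x := by
          rw [smul_add, smul_smul, mul_one_div_cancel ht0.ne', one_smul]
          abel
        rwa [e] at h2
      refine ⟨hmem, Or.inr ⟨⟨hmem, ?_⟩, fun h0 => ?_⟩⟩
      · rw [map_add, map_smul, hxP.2, smul_zero, add_zero]
        exact hzero.symm
      · have h1 := ht₁ t ((le_max_right _ _).trans ht)
        have h2 : TR (D + t • x) (D + t • x) a = 0 := by rw [h0, LinearMap.zero_apply]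
        have e1 : TR D x a = TR x D a := tr_s12 f.hr f.hν f.hT _ _ _
        simp only [map_add, map_smul, LinearMap.add_apply, LinearMap.smul_apply, smul_eq_mul, e1] at h2
        nlinarith

end Pool.Agent.H60.ZC
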