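import Pool.Agent.H60.ZC.Def
import Pool.Agent.H20.RT.Ray

/-!
# [H60 ZC Hx] THEOREM C (MP_e49dc9_ag): the index theorem for a nef class `q`, form `T(q,.,.)`

* `hx_le2`: `hi_real` (H20/RT/Hdr) with `L := w`.  `hx_eq2`: `hd_eq`.
* `hx_le`: `p` isotropic with `T(q,p,A) > 0`: as `hd_z` (H20/RT/Hdr) with `p + t A`, `t → 0+`: `T(q,p+tA,p+tA) = 2 t T(q,p,A) + t² T(q,A,A) > 0`
  (`tr_nn`), `T(q,p+tA,u) = t T(q,A,u)`: `2 t T(q,p,A) T(q,u,u) ≤ t² T(q,A,u)²` if `T(q,u,u) > 0`.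
* `hx_eq`: `u' = T(q,p,A) u - T(q,u,A) p`, `w = A + s p`, `s` large: `T(q,w,w) > 0`, `T(q,u',w) = 0`, `T(q,u',u') = 0`: `hd_eq`.
* `lef`: `T(A,w,.) = 0`: `w = 0`: `curves_zero` (H20/RT/Ray), `num_zero` (H83/RT/Nz).
-/

set_option autoImplicit false

namespace Pool.Agent.H60.ZC

open Pool.Agent.H54.RV Pool.Agent.H83.TU Pool.Agent.H83.TK Pool.Agent.H20.TD Pool.Agent.H20.TP Pool.Agent.H20.RT
open Pool.Agent.H24.VP (RR)

variable {k K : Type} [Field k] [Field K] [Algebra k K] {X : Mod k K} {r : ℕ}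
  {ν : Cart X →* Multiplicative (Fin r → ℤ)} {T : Cart X → Cart X → Cart X → ℝ} {l : Cart X → ℝ} {c : ℝ} {TR : Tri3 r}
  {L : (Fin r → ℝ) →ₗ[ℝ] ℝ} {A : Cart X}

variable {q p u w : Fin r → ℝ}

theorem hx_le2 [CharZero k] [IsAlgClosed k] [T0Space X.P] (f : Fr ν T l c TR L A) (hq : q ∈ closure (CC ν))
    (h1 : 0 < TR q w w) (h2 : TR q w u = 0) : TR q u u ≤ 0 := by
  have h3 := hi_real f.h f.hr f.hν f.hT hq (L := w) (v := u) h1
  rw [h2] at h3
  have h4 : TR q w w * TR q u u ≤ 0 := by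
    refine h3.trans ?_
    norm_num
  by_contra hcon
  push Not at hcon
  have := mul_pos h1 hcon
  linarith

theorem hx_eq2 [CharZero k] [IsAlgClosed k] [T0Space X.P] (f : Fr ν T l c TR L A) (hq : q ∈ closure (CC ν))
    (h1 : 0 < TR q w w) (h2 : TR q w u = 0) (h3 : TR q u u = 0) (v : Fin r → ℝ) : TR q u v = 0 := by
  exact hd_eq f.h f.hr f.hν f.hT hq h1 (by rw [tr_s23 f.hr f.hν f.hT]; exact h2) h3 v

theorem hx_le [CharZero k] [IsAlgClosed k] [T0Space X.P] (f : Fr ν T l c TR L A) (hq : q ∈ closure (CC ν))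
    (h1 : TR q p p = 0) (h2 : TR q p u = 0) (h3 : 0 < TR q p (cR ν A)) : TR q u u ≤ 0 := by
  have hAC : cR ν A ∈ CC ν := cc_amp f.h.var f.hν f.hA
  have h4 : 0 ≤ TR q (cR ν A) (cR ν A) :=
    tr_nn f.h f.hr f.hν f.hT hq (subset_closure hAC) (subset_closure hAC)
  obtain ⟨y, hy⟩ : ∃ y, y = TR q (cR ν A) u ^ 2 := ⟨_, rfl⟩
  have hy0 : 0 ≤ y := by rw [hy]; positivity
  by_contra hcon
  push Not at hcon
  have key : ∀ t : ℝ, 0 < t → 2 * TR q p (cR ν A) * TR q u u ≤ t * y := by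
    intro t ht
    have e1 : TR q (p + t • cR ν A) (p + t • cR ν A) =
        2 * t * TR q p (cR ν A) + t ^ 2 * TR q (cR ν A) (cR ν A) := by
      simp only [map_add, map_smul, LinearMap.add_apply, LinearMap.smul_apply, smul_eq_mul]
      rw [tr_s23 f.hr f.hν f.hT q (cR ν A) p, h1]
      ring
    have e2 : TR q (p + t • cR ν A) u = t * TR q (cR ν A) u := by
      simp only [map_add, map_smul, LinearMap.add_apply, LinearMap.smul_apply, smul_eq_mul]
      rw [h2, zero_add]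
    have h5 := hi_real f.h f.hr f.hν f.hT hq (L := p + t • cR ν A) (v := u) (by
      rw [e1]
      have := mul_pos ht h3
      have := mul_nonneg (pow_pos ht 2).le h4
      linarith)
    rw [e1, e2, mul_pow, ← hy] at h5
    have h6 : 2 * t * TR q p (cR ν A) * TR q u u ≤ t ^ 2 * y := by
      have h8 := mul_nonneg (mul_nonneg (sq_nonneg t) h4) hcon.le
      nlinarith
    have h7 : t * (2 * TR q p (cR ν A) * TR q u u) ≤ t * (t * y) := by nlinarith
    exact le_of_mul_le_mul_left h7 ht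
  have h5 : 0 < 2 * TR q p (cR ν A) * TR q u u := by positivity
  have h6 := key (TR q p (cR ν A) * TR q u u / (y + 1)) (by positivity)
  have h7 : TR q p (cR ν A) * TR q u u / (y + 1) * y ≤ TR q p (cR ν A) * TR q u u := by
    rw [div_mul_eq_mul_div, div_le_iff₀ (by linarith)]
    nlinarith
  linarith

theorem hx_eq [CharZero k] [IsAlgClosed k] [T0Space X.P] (f : Fr ν T l c TR L A) (hq : q ∈ closure (CC ν))
    (h1 : TR q p p = 0) (h2 : TR q p u = 0) (h3 : 0 < TR q p (cR ν A)) (h4 : TR q u u = 0) (v : Fin r → ℝ) :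
    TR q p (cR ν A) * TR q u v = TR q u (cR ν A) * TR q p v := by
  have hAC : cR ν A ∈ CC ν := cc_amp f.h.var f.hν f.hA
  have h5 : 0 ≤ TR q (cR ν A) (cR ν A) :=
    tr_nn f.h f.hr f.hν f.hT hq (subset_closure hAC) (subset_closure hAC)
  have h2' : TR q u p = 0 := by rw [tr_s23 f.hr f.hν f.hT]; exact h2
  have h3' : TR q (cR ν A) p = TR q p (cR ν A) := tr_s23 f.hr f.hν f.hT _ _ _
  have e1 : 0 < TR q (cR ν A + p) (cR ν A + p) := by
    simp only [map_add, LinearMap.add_apply]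
    rw [h3', h1]
    linarith
  have e2 : TR q (TR q p (cR ν A) • u - TR q u (cR ν A) • p) (cR ν A + p) = 0 := by
    simp only [map_add, map_sub, map_smul, LinearMap.sub_apply, LinearMap.smul_apply, smul_eq_mul]
    rw [h2', h1]
    ring
  have e3 : TR q (TR q p (cR ν A) • u - TR q u (cR ν A) • p) (TR q p (cR ν A) • u - TR q u (cR ν A) • p) = 0 := by
    simp only [map_sub, map_smul, LinearMap.sub_apply, LinearMap.smul_apply, smul_eq_mul]
    rw [h2', h1, h2, h4]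
    ring
  have e4 := hd_eq f.h f.hr f.hν f.hT hq e1 e2 e3 v
  simp only [map_sub, map_smul, LinearMap.sub_apply, LinearMap.smul_apply, smul_eq_mul] at e4
  linarith

theorem lef [CharZero k] [IsAlgClosed k] [T0Space X.P] (f : Fr ν T l c TR L A) (h1 : ∀ v, TR (cR ν A) w v = 0) :
    w = 0 := by
  have h2 : ∀ u, TR w (cR ν A) u = 0 := fun u => by
    rw [tr_s12 f.hr f.hν f.hT]
    exact h1 u
  have h3 : TR w w (cR ν A) = 0 := by
    rw [tr_s23 f.hr f.hν f.hT]
    exact h2 w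
  exact Pool.Agent.H83.RT.num_zero f.h f.hr f.hν f.hT
    (fun x hx => curves_zero f.h f.hr f.hν f.hT f.hA h2 h3 hx)

end Pool.Agent.H60.ZC
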