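import Pool.Agent.H60.ZC.Hs
import Pool.Agent.H60.ZC.Hx

/-!
# [H60 ZC Frm] THEOREM C (MP_e49dc9_ag): the form on the span of the face

`p` nef, `T(p,p,p) = 0`, `T(p,p,.) ≠ 0`; `z = T(p,p,.)`; `q ∈ Ph`: `q` nef, `z(q) = 0`.
* `ppa`: `pp_pos` (H20/RT/Pp).  `nn_z`: `z = 0` on `Nn` (span).
* `pqa`: `q ∈ Ph`, `q ≠ 0`: `T(p,q,A) > 0`: it is `≥ 0` (`tr_nn`); if `= 0`: form `T(A,.,.)`: `T(A,p,p) > 0`, `T(A,p,q) = 0`, `T(A,q,q) ≥ 0`, so `T(A,q,.) = 0` (`hx_le2`,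
  `hx_eq2`), `q = 0` (`lef`).
* `form`: for `q ∈ Ph`, `q ≠ 0`: form `T(p,.,.)`: `p` isotropic, `T(p,p,q) = 0`, `T(p,q,q) ≥ 0`: `hx_le`, `hx_eq`: `T(p,q,.) = a z`.  Form `T(q,.,.)`: `T(q,p,p) = 0`, `T(q,p,q) = 0`
  (`= a z(q)`), `T(q,p,A) > 0`, `T(q,q,q) ≥ 0`: `hx_le`, `hx_eq` with `u = q`: `T(q,q,.)` is a multiple of `T(q,p,.)`, so of `z`.  For `q, q' ∈ Ph`: `q + q' ∈ Ph`, polarization.
  Bilinear: for all `w, w' ∈ Nn` `T(w,w',.) = a z` (`Submodule.span_induction` twice), `a` is found at `A`.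
* `ip_nn`: `ip q q' ≥ 0` for `q, q' ∈ Ph`.  `ip_pp`: `ip p q > 0` for `q ∈ Ph`, `q ≠ 0`.
* `ip_nd`: `w ∈ Nn` with `T(w,w',A) = 0` for all `w' ∈ Nn`: `T(A,w,w) = 0`, `T(A,p,w) = 0 < T(A,p,p)`: `hx_eq2`, `lef`.
-/

set_option autoImplicit false

namespace Pool.Agent.H60.ZC

open Pool.Agent.H54.RV Pool.Agent.H83.TU Pool.Agent.H83.TK Pool.Agent.H20.TD Pool.Agent.H20.TP Pool.Agent.H20.RT
open Pool.Agent.H24.VP (RR)

variable {k K : Type} [Field k] [Field K] [Algebra k K] {X : Mod k K} {r : ℕ}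
  {ν : Cart X →* Multiplicative (Fin r → ℤ)} {T : Cart X → Cart X → Cart X → ℝ} {l : Cart X → ℝ} {c : ℝ} {TR : Tri3 r}
  {L : (Fin r → ℝ) →ₗ[ℝ] ℝ} {A : Cart X}

variable {p q q' w w' : Fin r → ℝ}

private theorem aC [CharZero k] [IsAlgClosed k] [T0Space X.P] (f : Fr ν T l c TR L A) : cR ν A ∈ closure (CC ν) :=
  subset_closure (cc_amp f.h.var f.hν f.hA)

private theorem addC [CharZero k] [IsAlgClosed k] [T0Space X.P] (f : Fr ν T l c TR L A) (hp : p ∈ closure (CC ν))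
    (hq : q ∈ closure (CC ν)) : p + q ∈ closure (CC ν) :=
  map_mem_closure₂ continuous_add hp hq fun _ ha _ hb => cc_add f.h.var f.hν ha hb

theorem ppa [CharZero k] [IsAlgClosed k] [T0Space X.P] (f : Fr ν T l c TR L A) (hp : p ∈ closure (CC ν))
    (hpp : TR p p ≠ 0) : 0 < TR p p (cR ν A) :=
  pp_pos f.h f.hr f.hν f.hT f.hA hp hpp

theorem nn_z (hw : w ∈ Nn ν TR p) : TR p p w = 0 := by
  unfold Nn at hw
  induction hw using Submodule.span_induction with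
  | mem x hx => exact hx.2
  | zero => exact map_zero _
  | add x y _ _ hx hy => rw [map_add, hx, hy, add_zero]
  | smul a x _ hx => rw [map_smul, hx, smul_zero]

theorem p_ph (hp : p ∈ closure (CC ν)) (h3 : TR p p p = 0) : p ∈ Ph ν TR p := ⟨hp, h3⟩

theorem pqa [CharZero k] [IsAlgClosed k] [T0Space X.P] (f : Fr ν T l c TR L A) (hp : p ∈ closure (CC ν))
    (h3 : TR p p p = 0) (hpp : TR p p ≠ 0) (hq : q ∈ Ph ν TR p) (hq0 : q ≠ 0) : 0 < TR p q (cR ν A) := by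
  have s12 := tr_s12 f.hr f.hν f.hT
  have s23 := tr_s23 f.hr f.hν f.hT
  rcases (tr_nn f.h f.hr f.hν f.hT hp hq.1 (aC f)).eq_or_lt with h1 | h1
  · exfalso
    have h2 : TR (cR ν A) p q = 0 := by
      rw [s12, s23]
      exact h1.symm
    have h4 : 0 < TR (cR ν A) p p := by
      rw [s12, s23]
      exact ppa f hp hpp
    have h5 : TR (cR ν A) q q = 0 :=
      le_antisymm (hx_le2 f (aC f) h4 h2) (tr_nn f.h f.hr f.hν f.hT (aC f) hq.1 hq.1)
    exact hq0 (lef f (hx_eq2 f (aC f) h4 h2 h5))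
  · exact h1

private theorem key1 [CharZero k] [IsAlgClosed k] [T0Space X.P] (f : Fr ν T l c TR L A) (hp : p ∈ closure (CC ν))
    (h3 : TR p p p = 0) (hpp : TR p p ≠ 0) (hq : q ∈ Ph ν TR p) :
    TR p q q = 0 ∧ ∀ v, TR p p (cR ν A) * TR p q v = TR p q (cR ν A) * TR p p v := by
  have h1 := ppa f hp hpp
  have h2 : TR p q q = 0 := le_antisymm (hx_le f hp h3 hq.2 h1) (tr_nn f.h f.hr f.hν f.hT hp hq.1 hq.1)
  exact ⟨h2, hx_eq f hp h3 hq.2 h1 h2⟩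

private theorem key2 [CharZero k] [IsAlgClosed k] [T0Space X.P] (f : Fr ν T l c TR L A) (hp : p ∈ closure (CC ν))
    (h3 : TR p p p = 0) (hpp : TR p p ≠ 0) (hq : q ∈ Ph ν TR p) : ∃ a : ℝ, ∀ v, TR q q v = a * TR p p v := by
  have s12 := tr_s12 f.hr f.hν f.hT
  have s23 := tr_s23 f.hr f.hν f.hT
  by_cases hq0 : q = 0
  · refine ⟨0, fun v => ?_⟩
    rw [hq0, map_zero, zero_mul]
    simp
  · obtain ⟨h1, h2⟩ := key1 f hp h3 hpp hq
    have h4 := ppa f hp hpp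
    have h5 : TR q p p = 0 := by
      rw [s12, s23]
      exact hq.2
    have h6 : TR q p q = 0 := by
      rw [s12]
      exact h1
    have h7 : 0 < TR q p (cR ν A) := by
      rw [s12]
      exact pqa f hp h3 hpp hq hq0
    have h8 : TR q q q = 0 := le_antisymm (hx_le f hq.1 h5 h6 h7) (tr_nn f.h f.hr f.hν f.hT hq.1 hq.1 hq.1)
    have h9 := hx_eq f hq.1 h5 h6 h7 h8
    refine ⟨TR q q (cR ν A) / TR p p (cR ν A), fun v => ?_⟩
    have h10 := h9 v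
    have h11 := h2 v
    rw [s12 q p, s12 q p] at h10
    have h12 : TR p q (cR ν A) ≠ 0 := by
      rw [s12]
      exact h7.ne'
    rw [div_mul_eq_mul_div, eq_div_iff h4.ne']
    apply mul_left_cancel₀ h12
    linear_combination TR p p (cR ν A) * h10 + TR q q (cR ν A) * h11

private theorem key3 [CharZero k] [IsAlgClosed k] [T0Space X.P] (f : Fr ν T l c TR L A) (hp : p ∈ closure (CC ν))
    (h3 : TR p p p = 0) (hpp : TR p p ≠ 0) (hq : q ∈ Ph ν TR p) (hq' : q' ∈ Ph ν TR p) :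
    ∃ a : ℝ, ∀ v, TR q q' v = a * TR p p v := by
  have s12 := tr_s12 f.hr f.hν f.hT
  have h1 : q + q' ∈ Ph ν TR p := ⟨addC f hq.1 hq'.1, by rw [map_add, hq.2, hq'.2, add_zero]⟩
  obtain ⟨a, ha⟩ := key2 f hp h3 hpp hq
  obtain ⟨b, hb⟩ := key2 f hp h3 hpp hq'
  obtain ⟨d, hd⟩ := key2 f hp h3 hpp h1
  refine ⟨(d - a - b) / 2, fun v => ?_⟩
  have h2 := hd v
  simp only [map_add, LinearMap.add_apply] at h2
  have h4 := s12 q' q v
  linear_combination (1 / 2 : ℝ) * h2 - (1 / 2 : ℝ) * ha v - (1 / 2 : ℝ) * hb v - (1 / 2 : ℝ) * h4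

private theorem key4 [CharZero k] [IsAlgClosed k] [T0Space X.P] (f : Fr ν T l c TR L A) (hp : p ∈ closure (CC ν))
    (h3 : TR p p p = 0) (hpp : TR p p ≠ 0) (hw : w ∈ Nn ν TR p) (hw' : w' ∈ Nn ν TR p) :
    ∃ a : ℝ, ∀ v, TR w w' v = a * TR p p v := by
  unfold Nn at hw hw'
  induction hw using Submodule.span_induction with
  | mem x hx =>
    induction hw' using Submodule.span_induction with
    | mem y hy => exact key3 f hp h3 hpp hx hy
    | zero => exact ⟨0, fun v => by simp⟩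
    | add y y' _ _ hy hy' =>
      obtain ⟨a, ha⟩ := hy
      obtain ⟨b, hb⟩ := hy'
      refine ⟨a + b, fun v => ?_⟩
      rw [map_add, LinearMap.add_apply, ha v, hb v]
      ring
    | smul t y _ hy =>
      obtain ⟨a, ha⟩ := hy
      refine ⟨t * a, fun v => ?_⟩
      rw [map_smul, LinearMap.smul_apply, ha v, smul_eq_mul]
      ring
  | zero => exact ⟨0, fun v => by simp⟩
  | add x x' _ _ hx hx' =>
    obtain ⟨a, ha⟩ := hx
    obtain ⟨b, hb⟩ := hx'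
    refine ⟨a + b, fun v => ?_⟩
    rw [map_add, LinearMap.add_apply, LinearMap.add_apply, ha v, hb v]
    ring
  | smul t x _ hx =>
    obtain ⟨a, ha⟩ := hx
    refine ⟨t * a, fun v => ?_⟩
    rw [map_smul, LinearMap.smul_apply, LinearMap.smul_apply, ha v, smul_eq_mul]
    ring

theorem form [CharZero k] [IsAlgClosed k] [T0Space X.P] (f : Fr ν T l c TR L A) (hp : p ∈ closure (CC ν))
    (h3 : TR p p p = 0) (hpp : TR p p ≠ 0) (hw : w ∈ Nn ν TR p) (hw' : w' ∈ Nn ν TR p) (v : Fin r → ℝ) :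
    TR w w' v = ip ν TR A p w w' * TR p p v := by
  obtain ⟨a, ha⟩ := key4 f hp h3 hpp hw hw'
  have h1 := (ppa f hp hpp).ne'
  have h2 : ip ν TR A p w w' = a := by
    unfold ip
    rw [ha (cR ν A), mul_div_assoc, div_self h1, mul_one]
  rw [h2]
  exact ha v

theorem ip_nn [CharZero k] [IsAlgClosed k] [T0Space X.P] (f : Fr ν T l c TR L A) (hp : p ∈ closure (CC ν))
    (hpp : TR p p ≠ 0) (hq : q ∈ Ph ν TR p) (hq' : q' ∈ Ph ν TR p) : 0 ≤ ip ν TR A p q q' :=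
  div_nonneg (tr_nn f.h f.hr f.hν f.hT hq.1 hq'.1 (aC f)) (ppa f hp hpp).le

theorem ip_pp [CharZero k] [IsAlgClosed k] [T0Space X.P] (f : Fr ν T l c TR L A) (hp : p ∈ closure (CC ν))
    (h3 : TR p p p = 0) (hpp : TR p p ≠ 0) (hq : q ∈ Ph ν TR p) (hq0 : q ≠ 0) : 0 < ip ν TR A p p q :=
  div_pos (pqa f hp h3 hpp hq hq0) (ppa f hp hpp)

theorem ip_nd [CharZero k] [IsAlgClosed k] [T0Space X.P] (f : Fr ν T l c TR L A) (hp : p ∈ closure (CC ν))
    (h3 : TR p p p = 0) (hpp : TR p p ≠ 0) (hw : w ∈ Nn ν TR p)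
    (h : ∀ w' ∈ Nn ν TR p, TR w w' (cR ν A) = 0) : w = 0 := by
  have s12 := tr_s12 f.hr f.hν f.hT
  have s23 := tr_s23 f.hr f.hν f.hT
  have h1 : TR (cR ν A) w w = 0 := by
    rw [s12, s23]
    exact h w hw
  have h2 : TR (cR ν A) p w = 0 := by
    rw [s23, s12, s23]
    exact h p (Submodule.subset_span (p_ph hp h3))
  have h4 : 0 < TR (cR ν A) p p := by
    rw [s12, s23]
    exact ppa f hp hpp
  exact lef f (hx_eq2 f (aC f) h4 h2 h1)

end Pool.Agent.H60.ZC
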