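import Pool.Agent.H60.ZC.Def
import Pool.Agent.H20.RT.Ray

/-!
# [H60 ZC Hs] THEOREM C (MP_e49dc9_ag): the index theorem on a prime divisor

`D` a prime divisor, `b = T(.,.,D)`.
* `pr_nn`: `b(q,q') ≥ 0` for nef `q, q'` (`ms_nef`, `ms_TT`).  `pr_pr`: `T(q,D,D') ≥ 0` for nef `q` and different prime divisors (`D` has a section on `D'`: `(ms_nef ..).eff`;
  compare `ff_nn` of H89/RS/Fam0).
* `hs_le`: `q` nef, `b(q,q) = 0 = b(q,u)`, `b(q,A) > 0`: `b(u,u) ≤ 0`.  PROOF. Suppose `b(u,u) > 0`; `v = b(q,A) u - b(u,A) q`: `b(v,A) = 0`, `b(v,v) = b(q,A)² b(u,u) > 0`, so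
  `dR y v = 0` for all curves `y` of `D` (`hc_nn`, H89/RT/Hc), so `b(v,.) = 0` (`dec_zero`, H20/RT/Ray): `b(v,v) = 0`.
* `hs_eq`: moreover `b(u,u) = 0`: `b(v,v) = 0`, the same argument (`hc`).
* `hs_le'`, `hs_eq'`: the same with `v = u` if `b(u,A) = 0`.
* `hs_nn`: `q` nef, `b(q,A) = 0`: `ms_nef`, `ms_zero` (H20/TP/Ms), `ks_zero`.
-/

set_option autoImplicit false

namespace Pool.Agent.H60.ZC

open Pool.Agent.H54.RV Pool.Agent.H83.TU Pool.Agent.H83.TK Pool.Agent.H20.TD Pool.Agent.H20.TP Pool.Agent.H20.RT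
open Pool.Agent.H24.VP (RR)

variable {k K : Type} [Field k] [Field K] [Algebra k K] {X : Mod k K} {r : ℕ}
  {ν : Cart X →* Multiplicative (Fin r → ℤ)} {T : Cart X → Cart X → Cart X → ℝ} {l : Cart X → ℝ} {c : ℝ} {TR : Tri3 r}
  {L : (Fin r → ℝ) →ₗ[ℝ] ℝ} {A : Cart X}

variable {q q' u : Fin r → ℝ} {Q Q' : PDiv X} {D D' : Cart X}

/-- the combination -/
private theorem comb [CharZero k] [IsAlgClosed k] [T0Space X.P] (f : Fr ν T l c TR L A)
    (h1 : TR q q (cR ν D) = 0) (h2 : TR q u (cR ν D) = 0) :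
    TR (TR q (cR ν A) (cR ν D) • u - TR u (cR ν A) (cR ν D) • q) (cR ν A) (cR ν D) = 0 ∧
      TR (TR q (cR ν A) (cR ν D) • u - TR u (cR ν A) (cR ν D) • q)
        (TR q (cR ν A) (cR ν D) • u - TR u (cR ν A) (cR ν D) • q) (cR ν D) =
        TR q (cR ν A) (cR ν D) ^ 2 * TR u u (cR ν D) := by
  obtain ⟨α, hα⟩ : ∃ α, α = TR q (cR ν A) (cR ν D) := ⟨_, rfl⟩
  obtain ⟨β, hβ⟩ : ∃ β, β = TR u (cR ν A) (cR ν D) := ⟨_, rfl⟩
  have h3 : TR u q (cR ν D) = 0 := by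
    rw [tr_s12 f.hr f.hν f.hT]
    exact h2
  rw [← hα, ← hβ]
  constructor
  · simp only [map_sub, map_smul, LinearMap.sub_apply, LinearMap.smul_apply, smul_eq_mul]
    rw [← hα, ← hβ]
    ring
  · simp only [map_sub, map_smul, LinearMap.sub_apply, LinearMap.smul_apply, smul_eq_mul]
    rw [h1, h2, h3]
    ring

private theorem all_zero [CharZero k] [IsAlgClosed k] [T0Space X.P] (f : Fr ν T l c TR L A) (hD : SPr X Q.η D)
    {v : Fin r → ℝ} (h1 : TR v (cR ν A) (cR ν D) = 0) (h2 : 0 ≤ TR v v (cR ν D)) :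
    (∀ w, TR v w (cR ν D) = 0) ∧ ∀ y, Cv Q.η y → dR f.hν f.h.var y v = 0 := by
  have htr := trdeg_pdiv f.h Q
  have h3 : ∀ y, Cv Q.η y → dR f.hν f.h.var y v = 0 := fun y hy =>
    Pool.Agent.H89.RT.hc_nn f.h f.hr f.hν f.hT htr hD f.hA h1 h2 hy
  exact ⟨fun w => dec_zero f.h f.hr f.hν f.hT htr hD h3 w, h3⟩

theorem pr_nn [CharZero k] [IsAlgClosed k] [T0Space X.P] (f : Fr ν T l c TR L A) (hD : SPr X Q.η D)
    (hq : q ∈ closure (CC ν)) (hq' : q' ∈ closure (CC ν)) : 0 ≤ TR q q' (cR ν D) := by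
  have htr := trdeg_pdiv f.h Q
  exact ms_TT f.h f.hr f.hν f.hT htr hD (ms_nef f.h f.hr f.hν f.hT htr hD hq)
    (ms_nef f.h f.hr f.hν f.hT htr hD hq')

theorem pr_pr [CharZero k] [IsAlgClosed k] [T0Space X.P] (f : Fr ν T l c TR L A) (hD : SPr X Q.η D)
    (hD' : SPr X Q'.η D') (hne : Q.η ≠ Q'.η) (hq : q ∈ closure (CC ν)) : 0 ≤ TR q (cR ν D) (cR ν D') := by
  have htr := trdeg_pdiv f.h Q
  have htr' := trdeg_pdiv f.h Q'
  have hne' : ¬ Q'.η ⤳ Q.η := fun h1 =>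
    hne (Pool.Agent.H89.RT.eq_of_sp f.h.var h1 (htr'.trans htr.symm)).symm
  have hX1 : HasX D' {x | ¬ Un (X.O x) (1 * D'.eq x)} := by
    refine ⟨1, one_ne_zero, fun x => ?_, rfl⟩
    rw [one_mul, pow_one]
    exact hD'.eff x
  have hz0 : Q.η ∉ {x | ¬ Un (X.O x) (1 * D'.eq x)} := by
    intro h1
    apply h1
    rw [one_mul]
    exact hD'.un _ hne'
  have hpos : 0 < hz f.h.var Q.η D' := hasS_pos f.h.var f.hA (hasX_res f.h.var hX1 hz0)
  have h1 := (ms_nef f.h f.hr f.hν f.hT htr hD hq).eff D' hpos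
  rw [tr_s23 f.hr f.hν f.hT]
  exact h1

theorem hs_le [CharZero k] [IsAlgClosed k] [T0Space X.P] (f : Fr ν T l c TR L A) (hD : SPr X Q.η D)
    (hq : q ∈ closure (CC ν)) (h1 : TR q q (cR ν D) = 0) (h2 : TR q u (cR ν D) = 0)
    (h3 : 0 < TR q (cR ν A) (cR ν D)) : TR u u (cR ν D) ≤ 0 := by
  by_contra hcon
  push Not at hcon
  obtain ⟨a1, a2⟩ := comb f h1 h2
  have a3 := mul_pos (pow_pos h3 2) hcon
  have a4 := (all_zero f hD a1 (by rw [a2]; exact a3.le)).1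
    (TR q (cR ν A) (cR ν D) • u - TR u (cR ν A) (cR ν D) • q)
  rw [a2] at a4
  exact a3.ne' a4

theorem hs_eq [CharZero k] [IsAlgClosed k] [T0Space X.P] (f : Fr ν T l c TR L A) (hD : SPr X Q.η D)
    (hq : q ∈ closure (CC ν)) (h1 : TR q q (cR ν D) = 0) (h2 : TR q u (cR ν D) = 0)
    (h3 : 0 < TR q (cR ν A) (cR ν D)) (h4 : TR u u (cR ν D) = 0) :
    (∀ v, TR q (cR ν A) (cR ν D) * TR u v (cR ν D) = TR u (cR ν A) (cR ν D) * TR q v (cR ν D)) ∧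
      ∀ y, Cv Q.η y →
        TR q (cR ν A) (cR ν D) * dR f.hν f.h.var y u = TR u (cR ν A) (cR ν D) * dR f.hν f.h.var y q := by
  obtain ⟨a1, a2⟩ := comb f h1 h2
  obtain ⟨a3, a4⟩ := all_zero f hD a1 (by rw [a2, h4, mul_zero])
  constructor
  · intro v
    have a5 := a3 v
    rw [map_sub, map_smul, map_smul, LinearMap.sub_apply, LinearMap.smul_apply, LinearMap.smul_apply,
      LinearMap.sub_apply, LinearMap.smul_apply, LinearMap.smul_apply, smul_eq_mul, smul_eq_mul] at a5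
    linarith
  · intro y hy
    have a5 := a4 y hy
    rw [map_sub, map_smul, map_smul, smul_eq_mul, smul_eq_mul] at a5
    linarith

theorem hs_le' [CharZero k] [IsAlgClosed k] [T0Space X.P] (f : Fr ν T l c TR L A) (hD : SPr X Q.η D)
    (h1 : TR u (cR ν A) (cR ν D) = 0) : TR u u (cR ν D) ≤ 0 := by
  by_contra hcon
  push Not at hcon
  exact hcon.ne' ((all_zero f hD h1 hcon.le).1 u)

theorem hs_eq' [CharZero k] [IsAlgClosed k] [T0Space X.P] (f : Fr ν T l c TR L A) (hD : SPr X Q.η D)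
    (h1 : TR u (cR ν A) (cR ν D) = 0) (h2 : TR u u (cR ν D) = 0) :
    (∀ v, TR u v (cR ν D) = 0) ∧ ∀ y, Cv Q.η y → dR f.hν f.h.var y u = 0 :=
  all_zero f hD h1 h2.ge

theorem hs_nn [CharZero k] [IsAlgClosed k] [T0Space X.P] (f : Fr ν T l c TR L A) (hD : SPr X Q.η D)
    (hq : q ∈ closure (CC ν)) (h1 : TR q (cR ν A) (cR ν D) = 0) :
    (∀ v, TR q v (cR ν D) = 0) ∧ ∀ y, Cv Q.η y → dR f.hν f.h.var y q = 0 :=
  all_zero f hD h1 (pr_nn f hD hq hq)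

end Pool.Agent.H60.ZC
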