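import Pool.Agent.H60.ZC.Kz
import Pool.Agent.H20.ZO.Glb
import Pool.Agent.H89.RT.Main

/-!
# [H60 ZC Iso] THEOREM C (MP_e49dc9_ag): the case where `B(V,V)` is isotropic

`V ∈ K0`, `b ∈ Nn` nef, `T(b,w,.) = - T(V,V,w) z` on `Nn`, `TR b b = 0`: `T(p,V,V) = 0`.
PROOF. `b = 0`: `T(V,V,p) z = - T(b,p,.) = 0`.  `b ≠ 0`: `l(b) > 0` (`hE.lp`), `TR b b = 0`: by Part 2 of THEOREM R (`thmR` of H89/RT, the case `p . p = 0`) `Vp b` is the line of `b`: `b = β cR F`,
`β > 0`, `F` integral nef, `TR F F = 0`, `l F > 0`.  `T(F,V,V) = 0` (`(b,b) = 0`), `T(F,V,p) = (F,p) z(V) = 0`, `T(F,p,p) = 0`, `T(F,p,A) > 0` (`pqa`): `hx_eq` for the form `T(F,.,.)`: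
`V' := V - c p` has `T(F,V',.) = 0`.  CLAIM: `U` integral with `T(F,U,.) = 0` has `T(p,V,U) = 0`: `z(U) = T(p,p,U)` and `T(p,F,.) = (p,F) z`, `(p,F) > 0`: `z(U) = 0`.  `u := U P`:
`T(F,u,A) = T(F,p,A) > 0`: `glb` (H20/ZO/Glb) with `N = F`: `h0 (u ^ j F ^ n) ≥ n (j² T(F,u,u) / 2 + l F) - C > 0` for `j` large, `T(F,u,u) = 0`: `W = u ^ j F ^ n` has a section, `z(W) = 0`:
`T(p,V,W) = 0` (`k0_w`, `eff_z` of Sum.lean), `T(p,V,p) = z(V) = 0`, `T(p,V,F) = (p,F) z(V) = 0`: `T(p,V,U) = 0`.  The `u` with `T(F,u,.) = 0` form a rational subspace (`vp_sum` and `vp_tri` for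
`V'`): `T(p,V,V') = 0`, `T(p,V,V) = T(p,V,V') + c T(p,V,p) = 0`.
-/

set_option autoImplicit false

namespace Pool.Agent.H60.ZC

open Pool.Agent.H54.RV Pool.Agent.H83.TU Pool.Agent.H83.TK Pool.Agent.H20.TD Pool.Agent.H20.TP Pool.Agent.H20.RT
open Pool.Agent.H24.VP (RR)

variable {k K : Type} [Field k] [Field K] [Algebra k K] {X : Mod k K} {r : ℕ}
  {ν : Cart X →* Multiplicative (Fin r → ℤ)} {T : Cart X → Cart X → Cart X → ℝ} {l : Cart X → ℝ} {c : ℝ} {TR : Tri3 r}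
  {L : (Fin r → ℝ) →ₗ[ℝ] ℝ} {A : Cart X}

variable {P : Cart X} {V b : Fin r → ℝ}

private theorem cR_pow9 (U : Cart X) (n : ℕ) : cR ν (U ^ n) = (n : ℝ) • cR ν U := by
  change rv (ci ν (U ^ n)) = _
  rw [ci_pow, rv_smul]
  rfl

private theorem cR_inv9 (U : Cart X) : cR ν U⁻¹ = - cR ν U := by
  change rv (ci ν U⁻¹) = _
  rw [ci_inv, rv_neg]

/-- a section gives an effective divisor of the same class -/
private theorem eff_of_pos (hν : NumR ν) {W : Cart X} (h : 0 < h0 W 1) :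
    ∃ E : Cart X, Effective E ∧ cR ν E = cR ν W := by
  obtain ⟨s, hs0, hs⟩ := ex_sec h
  refine ⟨prin X s hs0 * W, fun y => ?_, ?_⟩
  · have h4 := hs y
    rw [pow_one] at h4
    rw [mul_eq]
    exact h4
  · have e1 : ci ν (prin X s hs0) = 0 := by
      unfold ci
      rw [(hν.ker _).2 (numz_prin s hs0)]
      rfl
    change rv (ci ν (prin X s hs0 * W)) = rv (ci ν W)
    rw [ci_mul, e1, zero_add]

/-- an isotropic nef class with `l > 0` is a positive multiple of an integral class -/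
private theorem ray_int [CharZero k] [IsAlgClosed k] [T0Space X.P] (f : Fr ν T l c TR L A)
    (hbn : b ∈ closure (CC ν)) (hb0 : b ≠ 0) (hL : 0 < L b) (hbb : TR b b = 0) :
    ∃ (F : Cart X) (β : ℝ), 0 < β ∧ b = β • cR ν F := by
  have hAC : cR ν A ∈ closure (CC ν) := subset_closure (cc_amp f.h.var f.hν f.hA)
  have h1 : 0 < TR b (cR ν A) (cR ν A) := by
    rcases (tr_nn f.h f.hr f.hν f.hT hbn hAC hAC).eq_or_lt with h1 | h1
    · have h2 := pq_zero f.h f.hr f.hν f.hT f.hA hbn hAC h1.symm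
      exact (hb0 (Pool.Agent.H83.RT.num_zero f.h f.hr f.hν f.hT fun x hx =>
        curves_zero f.h f.hr f.hν f.hT f.hA (fun u => by rw [h2, LinearMap.zero_apply])
          (by rw [hbb, LinearMap.zero_apply]) hx)).elim
    · exact h1
  have h2 := Pool.Agent.H36.RZ.sq_theta f.h f.hr f.hν f.hT f.hL f.hA hbn hL hbb
  have hline : ∀ w ∈ Vp b, ∃ q : ℝ, w = q • b := fun w hw =>
    ray_of' f.h f.hr f.hν f.hT (fun v hv => Pool.Agent.H83.RT.num_zero f.h f.hr f.hν f.hT hv) f.hA h1 h2 hw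
  obtain ⟨a, d, hd, hsum⟩ := vp_sum b (self_vp b)
  obtain ⟨j, hj⟩ : ∃ j, rv (d j) ≠ 0 := by
    by_contra hno
    push Not at hno
    apply hb0
    rw [hsum]
    exact Finset.sum_eq_zero fun j _ => by rw [hno j, smul_zero]
  obtain ⟨q, hq⟩ := hline _ (hd j)
  have hq0 : q ≠ 0 := by
    rintro rfl
    rw [zero_smul] at hq
    exact hj hq
  obtain ⟨D, hD⟩ := ci_surj f.hν (d j)
  have hDc : cR ν D = q • b := by
    rw [← hq, ← hD]
  rcases lt_or_gt_of_ne hq0 with h3 | h3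
  · refine ⟨D⁻¹, (-q)⁻¹, inv_pos.2 (by linarith), ?_⟩
    rw [cR_inv9, hDc, ← neg_smul, smul_smul, inv_mul_cancel₀ (by linarith), one_smul]
  · refine ⟨D, q⁻¹, inv_pos.2 h3, ?_⟩
    rw [hDc, smul_smul, inv_mul_cancel₀ hq0, one_smul]

theorem iso_b [CharZero k] [IsAlgClosed k] [T0Space X.P] (f : Fr ν T l c TR L A) (hE : Ell ν TR L P)
    (hV : V ∈ K0 ν TR A (cR ν P)) (hb : b ∈ Nn ν TR (cR ν P)) (hbn : b ∈ closure (CC ν))
    (hbV : ∀ w ∈ Nn ν TR (cR ν P), ∀ v, TR b w v = - TR V V w * TR (cR ν P) (cR ν P) v) (hbb : TR b b = 0) :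
    TR (cR ν P) V V = 0 := by
  have s12 := tr_s12 f.hr f.hν f.hT
  have s23 := tr_s23 f.hr f.hν f.hT
  have hpPh : cR ν P ∈ Ph ν TR (cR ν P) := p_ph hE.nef hE.c3
  have hpN : cR ν P ∈ Nn ν TR (cR ν P) := Submodule.subset_span hpPh
  have hA0 : 0 < TR (cR ν P) (cR ν P) (cR ν A) := ppa f hE.nef hE.sq
  have hzV : TR (cR ν P) (cR ν P) V = 0 := hV.2
  by_cases hb0 : b = 0
  · have h1 := hbV _ hpN (cR ν A)
    rw [hb0, map_zero, LinearMap.zero_apply, LinearMap.zero_apply] at h1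
    have h2 : TR V V (cR ν P) = 0 := by
      rcases mul_eq_zero.1 h1.symm with h3 | h3
      · linarith
      · exact absurd h3 hA0.ne'
    rw [s12, s23]
    exact h2
  have hbPh : b ∈ Ph ν TR (cR ν P) := ⟨hbn, nn_z hb⟩
  obtain ⟨F, β, hβ, hbF⟩ := ray_int f hbn hb0 (hE.lp b hbPh hb0) hbb
  have hFb : cR ν F = β⁻¹ • b := by
    rw [hbF, smul_smul, inv_mul_cancel₀ hβ.ne', one_smul]
  have hβi : 0 < β⁻¹ := inv_pos.2 hβ
  have hFn : cR ν F ∈ closure (CC ν) := by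
    rw [hFb]
    exact cl_smul hβi.le hbn
  have hFF : ∀ v, TR (cR ν F) (cR ν F) v = 0 := by
    intro v
    rw [hFb]
    simp only [map_smul, LinearMap.smul_apply, smul_eq_mul, hbb, LinearMap.zero_apply, mul_zero]
  have hlF : 0 < l F := by
    rw [← f.hL, hFb, map_smul, smul_eq_mul]
    exact mul_pos hβi (hE.lp b hbPh hb0)
  have hpb : 0 < ip ν TR A (cR ν P) (cR ν P) b := ip_pp f hE.nef hE.c3 hE.sq hbPh hb0
  obtain ⟨σ, hσ⟩ : ∃ σ : ℝ, σ = β⁻¹ * ip ν TR A (cR ν P) (cR ν P) b := ⟨_, rfl⟩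
  have hσ0 : 0 < σ := by rw [hσ]; exact mul_pos hβi hpb
  have hpF : ∀ v, TR (cR ν P) (cR ν F) v = σ * TR (cR ν P) (cR ν P) v := by
    intro v
    rw [hFb, map_smul, LinearMap.smul_apply, smul_eq_mul, form f hE.nef hE.c3 hE.sq hpN hb v, hσ]
    ring
  have hFp : ∀ v, TR (cR ν F) (cR ν P) v = σ * TR (cR ν P) (cR ν P) v := fun v => by
    rw [s12]
    exact hpF v
  -- `T(F,V,V) = 0`
  have hFVV : TR (cR ν F) V V = 0 := by
    have h1 := hbV b hb (cR ν A)
    rw [hbb, LinearMap.zero_apply] at h1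
    have h2 : TR V V b = 0 := by
      rcases mul_eq_zero.1 h1.symm with h3 | h3
      · linarith
      · exact absurd h3 hA0.ne'
    rw [hFb, map_smul, LinearMap.smul_apply, LinearMap.smul_apply, smul_eq_mul, s12, s23, h2, mul_zero]
  have hFA : 0 < TR (cR ν F) (cR ν P) (cR ν A) := by
    rw [hFp]
    exact mul_pos hσ0 hA0
  have hx := hx_eq f (q := cR ν F) (p := cR ν P) (u := V) hFn
    (by rw [hFp, hE.c3, mul_zero]) (by rw [hFp, hzV, mul_zero]) hFA hFVV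
  obtain ⟨cc, hcc⟩ : ∃ cc : ℝ, cc = TR (cR ν F) V (cR ν A) / TR (cR ν F) (cR ν P) (cR ν A) := ⟨_, rfl⟩
  obtain ⟨V', hV'⟩ : ∃ V', V' = V - cc • cR ν P := ⟨_, rfl⟩
  have hFV' : ∀ v, TR (cR ν F) V' v = 0 := by
    intro v
    have h1 := hx v
    rw [hV', map_sub, map_smul, LinearMap.sub_apply, LinearMap.smul_apply, smul_eq_mul, hcc]
    rw [div_mul_eq_mul_div, sub_eq_zero, eq_div_iff hFA.ne']
    linarith
  -- the claim
  have hcl : ∀ U : Cart X, (∀ v, TR (cR ν F) (cR ν U) v = 0) → TR (cR ν P) V (cR ν U) = 0 := by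
    intro U hU
    have hzU : TR (cR ν P) (cR ν P) (cR ν U) = 0 := by
      have h1 := hU (cR ν P)
      rw [s23, hFp] at h1
      exact (mul_eq_zero.1 h1).resolve_left hσ0.ne'
    have hZn : Pool.Agent.H20.ZO.Zn T l A F := by
      refine ⟨f.hA, ?_, fun U => ?_, ?_, hlF⟩
      · refine Pool.Agent.H39.TZ.nf_of_cl f.h.var f.hν ?_
        rw [cl_eq f.h.var f.hν]
        exact hFn
      · rw [← f.hT]
        exact hFF _
      · rw [← f.hT]
        have hAC : cR ν A ∈ closure (CC ν) := subset_closure (cc_amp f.h.var f.hν f.hA)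
        rcases (tr_nn f.h f.hr f.hν f.hT hFn hAC hAC).eq_or_lt with h1 | h1
        · have h2 := pq_zero f.h f.hr f.hν f.hT f.hA hFn hAC h1.symm
          have h3 := hFA
          rw [s23, h2, LinearMap.zero_apply] at h3
          exact absurd h3 (lt_irrefl _)
        · exact h1
    have hu : 0 < T F (U * P) A := by
      rw [← f.hT, cR_mul, map_add, LinearMap.add_apply, hU, zero_add]
      exact hFA
    obtain ⟨j₀, hj₀⟩ := Pool.Agent.H20.ZO.glb f.h f.hr hZn hu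
    obtain ⟨C, n₀, hn₀⟩ := hj₀ (j₀ + 1) (by omega)
    have hTuu : T F (U * P) (U * P) = 0 := by
      rw [← f.hT, cR_mul]
      simp only [map_add, LinearMap.add_apply]
      rw [hU, hU, hFp, hFp, hzU, hE.c3]
      ring
    obtain ⟨n₁, hn₁⟩ := exists_nat_gt (C / l F)
    rw [div_lt_iff₀ hlF] at hn₁
    have h1 := hn₀ (n₀ + n₁) (by omega)
    rw [hTuu, mul_zero, zero_div, zero_add] at h1
    have h2 : (0 : ℝ) < h0 ((U * P) ^ (j₀ + 1) * F ^ (n₀ + n₁)) 1 := by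
      refine lt_of_lt_of_le ?_ h1
      push_cast
      have h3 : (0 : ℝ) ≤ n₀ * l F := by positivity
      nlinarith
    have h3 : 0 < h0 ((U * P) ^ (j₀ + 1) * F ^ (n₀ + n₁)) 1 := by exact_mod_cast h2
    obtain ⟨E, hEf, hEc⟩ := eff_of_pos f.hν h3
    have hEc' : cR ν E = ((j₀ + 1 : ℕ) : ℝ) • (cR ν U + cR ν P) + ((n₀ + n₁ : ℕ) : ℝ) • cR ν F := by
      rw [hEc, cR_mul, cR_pow9, cR_pow9, cR_mul]
    have hzF : TR (cR ν P) (cR ν P) (cR ν F) = 0 := by
      rw [s23, hpF, hE.c3, mul_zero]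
    have hzE : TR (cR ν P) (cR ν P) (cR ν E) = 0 := by
      rw [hEc']
      simp only [map_add, map_smul, smul_eq_mul]
      rw [hzU, hE.c3, hzF]
      ring
    have h4 := eff_z f hE (u := cR ν P) (v := V) hEf hzE
      (fun Q D hD => k0_w f hE hV hpN hD)
    rw [hEc'] at h4
    simp only [map_add, map_smul, smul_eq_mul] at h4
    have h5 : TR (cR ν P) V (cR ν P) = 0 := by
      rw [s23]
      exact hzV
    have h6 : TR (cR ν P) V (cR ν F) = 0 := by
      rw [s23, hpF, hzV, mul_zero]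
    rw [h5, h6, mul_zero, add_zero, add_zero] at h4
    refine (mul_eq_zero.1 h4).resolve_left ?_
    positivity
  -- the rational subspace
  obtain ⟨a, d, hd, hsum⟩ := vp_sum V' (self_vp V')
  have hpVV' : TR (cR ν P) V V' = 0 := by
    rw [hsum]
    simp only [map_sum, map_smul, smul_eq_mul]
    refine Finset.sum_eq_zero fun j _ => ?_
    obtain ⟨D, hD⟩ := ci_surj f.hν (d j)
    have h5 : rv (d j) = cR ν D := by
      change _ = rv (ci ν D)
      rw [hD]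
    have h6 : ∀ v, TR (cR ν F) (cR ν D) v = 0 := by
      intro v
      have h7 : TR (cR ν F) (cR ν D) = 0 := ext_uniq f.hν fun E => by
        have h8 := vp_tri (p := V') (w := cR ν D) (U := F) (V := E) f.hr f.hν f.hT ⟨A, f.hA⟩
          (by rw [s12]; exact hFV' _) (by rw [← h5]; exact hd j)
        rw [LinearMap.zero_apply]
        change TR (cR ν F) (cR ν D) (cR ν E) = 0
        rw [s12]
        exact h8
      rw [h7, LinearMap.zero_apply]
    rw [h5, hcl D h6, mul_zero]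
  have h5 : TR (cR ν P) V (cR ν P) = 0 := by
    rw [s23]
    exact hzV
  have h6 : TR (cR ν P) V V = TR (cR ν P) V V' + cc * TR (cR ν P) V (cR ν P) := by
    rw [hV', map_sub, map_smul, smul_eq_mul]
    ring
  rw [h6, hpVV', h5]
  ring

end Pool.Agent.H60.ZC
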