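import Pool.Agent.H60.ZC.Ci
import Pool.Agent.H60.ZC.Iso
import Pool.Agent.H60.ZC.CX11

/-!
# [H60 ZC Kn] THEOREM C (MP_e49dc9_ag): the classes of the tangent cone with `T(p,p,V) = 0` are in the span of the face

PROOF. `T(p,V,V) = 0`: `core` (CX11.lean; `core_in`; its other inputs: `low_w`, H24/RG/LowB, and `hE.gro`) gives `0 ≤ T(p,V,V)` if `B(V,V)` is not isotropic, and `T(p,V,V) ≤ 0` (`hx_le`, `p` isotropic);
otherwise `iso_b`.  So `V ∈ Uu` (`hx_eq`), `V = n + ∑ b i E i` (`uu_dec`).  `T(V,V,D) = 0` for all vertical `D`: `T(V,V,E i) = 0` (`e3`), `T(V,V,D) ≤ 0` otherwise (`k0_le`), `T(V,V,p) = 0`: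
`vt_sum` for `- T(V,V,.)`.  `b i ≤ 0`: `T(n,A,E j) = 0`, `T(V,A,E j) ≥ 0` (`k0_ms`, `ms_TT` or `.eff`): `Et.neg`.  CLAIM: `V + t p` is nef for `t` large (`klm`), so `V + t p ∈ Ph`, `V ∈ Nn`.  Let `y` be a
curve; `cur_vt`: `y` on a vertical prime divisor `D`.  If `T(p,A,D) = 0`: `dR y p = 0` (`hs_nn`), `dR y V ≥ 0` (`tan_deg`, H24/RC/LbS).  If `T(p,A,D) > 0`: `T(p,A,D) dR y V = T(V,A,D) dR y p` (`hs_eq`), so it
is enough that `T(V,A,D) + t T(p,A,D) ≥ 0` with `t` independent of `D`.  `T(n,A,D) + t₁ T(p,A,D) ≥ 0` (`nn_int`).  `M := ∏ (E i) ^ c i`, `c i ≥ - b i`: `f1` (H24/RC/FOne): `P ^ n M⁻¹` has a section: for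
`D` outside of its zero set and different from the `E i`: `T(n p - M,A,D) ≥ 0` and `T(E i,A,D) ≥ 0` (`pr_pr`): `T(n p + ∑ b i E i,A,D) ≥ 0`.  For the finitely many other `D` with `T(p,A,D) > 0` enlarge `t`.
-/

set_option autoImplicit false

namespace Pool.Agent.H60.ZC

open Pool.Agent.H54.RV Pool.Agent.H83.TU Pool.Agent.H83.TK Pool.Agent.H20.TD Pool.Agent.H20.TP Pool.Agent.H20.RT
open Pool.Agent.H24.VP (RR)

variable {k K : Type} [Field k] [Field K] [Algebra k K] {X : Mod k K} {r : ℕ}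
  {ν : Cart X →* Multiplicative (Fin r → ℤ)} {T : Cart X → Cart X → Cart X → ℝ} {l : Cart X → ℝ} {c : ℝ} {TR : Tri3 r}
  {L : (Fin r → ℝ) →ₗ[ℝ] ℝ} {A : Cart X}

variable {P : Cart X} {V : Fin r → ℝ}

/-- the lower bound for the sections of `W * P ^ n` -/
private theorem kn_low [CharZero k] [IsAlgClosed k] [T0Space X.P] (f : Fr ν T l c TR L A) (hE : Ell ν TR L P)
    (W : Cart X) : ∃ (C : ℝ) (n₀ : ℕ), ∀ n, n₀ ≤ n →
      Pool.Agent.H24.VP.chi T l c (W * P ^ n) - C ≤ h0 (W * P ^ n) 1 := by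
  have hpp := ppa f hE.nef hE.sq
  have hAC : cR ν A ∈ CC ν := cc_amp f.h.var f.hν f.hA
  have h1 : ∀ B : Cart X, Ample B → Ample (B * P) := by
    intro B hB
    refine cc_ample (ν := ν) ?_
    have h2 : cR ν B + cR ν P ∈ CC ν := (oc_cc f.h.var f.hν).add_cl (cc_amp f.h.var f.hν hB) hE.nef
    rw [← cR_mul] at h2
    exact h2
  have h3 : 0 < TR (cR ν P) (cR ν A) (cR ν A) := by
    refine tr_cc f.h f.hr f.hν f.hT hE.nef (subset_closure hAC) (v := cR ν P) ?_ hAC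
    rw [tr_s23 f.hr f.hν f.hT]
    exact hpp
  rw [f.hT] at h3 hpp
  exact Pool.Agent.H24.RG.low_w f.h f.hr f.hA h1 h3 hpp W

/-- `T(p,V,V) = 0` -/
private theorem kn_vv [CharZero k] [IsAlgClosed k] [T0Space X.P] (f : Fr ν T l c TR L A) (hE : Ell ν TR L P)
    (hV : V ∈ K0 ν TR A (cR ν P)) : TR (cR ν P) V V = 0 := by
  obtain ⟨B, hB1, hB2, hB3, hB4⟩ := core_in f hE hV
  by_cases h0 : TR (B V V) (B V V) = 0
  · exact iso_b f hE hV hB3 hB2 hB4 h0
  · have hC := hB1 h0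
    have hp0 : cR ν P ≠ 0 := by
      intro h1
      apply hE.sq
      rw [h1, map_zero]
    obtain ⟨c₀, hc₀, hgro⟩ := hE.gro
    have h1 := core f.h f.hr f.hν f.hT rfl hE.nef hp0 hC (kn_low f hE) hc₀ hgro
    have h2 := hx_le f hE.nef hE.c3 hV.2 (ppa f hE.nef hE.sq) (u := V)
    exact le_antisymm h2 h1

/-- the face is orthogonal to the exceptional prime divisors -/
private theorem kn_na [CharZero k] [IsAlgClosed k] [T0Space X.P] (f : Fr ν T l c TR L A) (hE : Ell ν TR L P)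
    {Q : PDiv X} {D : Cart X} (hD : SPr X Q.η D) (h1 : TR (cR ν P) (cR ν A) (cR ν D) = 0) {n : Fin r → ℝ}
    (hn : n ∈ Nn ν TR (cR ν P)) : TR n (cR ν A) (cR ν D) = 0 := by
  have hAC : cR ν A ∈ closure (CC ν) := subset_closure (cc_amp f.h.var f.hν f.hA)
  have key : ∀ n ∈ Nn ν TR (cR ν P), 0 ≤ TR n (cR ν A) (cR ν D) := by
    intro n hn
    obtain ⟨C, hC0, hC⟩ := nn_int f hE hn
    have h2 := pr_nn f hD hC hAC
    simp only [map_add, map_smul, LinearMap.add_apply, LinearMap.smul_apply, smul_eq_mul] at h2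
    rw [h1, mul_zero, zero_add] at h2
    exact h2
  refine le_antisymm ?_ (key n hn)
  have h3 := key (-n) (Submodule.neg_mem _ hn)
  simp only [map_neg, LinearMap.neg_apply] at h3
  linarith

private theorem kn_pow (U : Cart X) (n : ℕ) : cR ν (U ^ n) = (n : ℝ) • cR ν U := by
  change rv (ci ν (U ^ n)) = _
  rw [ci_pow, rv_smul]
  rfl

private theorem kn_inv (U : Cart X) : cR ν U⁻¹ = - cR ν U := by
  change rv (ci ν U⁻¹) = _
  rw [ci_inv, rv_neg]

private theorem kn_prin (hν : NumR ν) {s : K} (hs0 : s ≠ 0) : cR ν (prin X s hs0) = 0 := by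
  change rv (ci ν (prin X s hs0)) = 0
  unfold ci
  rw [(hν.ker _).2 (numz_prin s hs0), toAdd_one]
  funext j
  simp [rv]

private theorem kn_prod {m : ℕ} (E : Fin m → Cart X) (e : Fin m → ℕ) :
    cR ν (∏ i, E i ^ e i) = ∑ i, (e i : ℝ) • cR ν (E i) := by
  classical
  have key : ∀ s : Finset (Fin m), cR ν (∏ i ∈ s, E i ^ e i) = ∑ i ∈ s, (e i : ℝ) • cR ν (E i) := by
    intro s
    induction s using Finset.induction_on with
    | empty => rw [Finset.prod_empty, Finset.sum_empty, cR_one]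
    | insert a s ha ih => rw [Finset.prod_insert ha, Finset.sum_insert ha, cR_mul, kn_pow, ih]
  exact key Finset.univ

private theorem kn_peff {m : ℕ} (E : Fin m → Cart X) (e : Fin m → ℕ) (hE : ∀ i, Effective (E i)) :
    Effective (∏ i, E i ^ e i) := by
  classical
  have hmul : ∀ U W : Cart X, Effective U → Effective W → Effective (U * W) := by
    intro U W hU hW y
    rw [mul_eq]
    exact (X.O y).mul_mem (hU y) (hW y)
  have hone : Effective (1 : Cart X) := by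
    intro y
    exact (X.O y).one_mem
  have hpow : ∀ (U : Cart X) (n : ℕ), Effective U → Effective (U ^ n) := by
    intro U n hU
    induction n with
    | zero => rw [pow_zero]; exact hone
    | succ n ih => rw [pow_succ]; exact hmul _ _ ih hU
  have key : ∀ s : Finset (Fin m), Effective (∏ i ∈ s, E i ^ e i) := by
    intro s
    induction s using Finset.induction_on with
    | empty => rw [Finset.prod_empty]; exact hone
    | insert a s ha ih =>
      rw [Finset.prod_insert ha]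
      exact hmul _ _ (hpow _ _ (hE a)) ih
  exact key Finset.univ

/-- the bound which is independent of `D` -/
private theorem kn_t [CharZero k] [IsAlgClosed k] [T0Space X.P] (f : Fr ν T l c TR L A) (hE : Ell ν TR L P)
    {m : ℕ} {z : Fin m → PDiv X} {E : Fin m → Cart X} (hEt : Et ν TR A (cR ν P) z E) {n : Fin r → ℝ}
    (hn : n ∈ Nn ν TR (cR ν P)) {b : Fin m → ℝ} (hb : ∀ i, b i ≤ 0) (hVn : V = n + ∑ i, b i • cR ν (E i)) :
    ∃ t : ℝ, 0 ≤ t ∧ ∀ (Q : PDiv X) (D : Cart X), Ver ν TR (cR ν P) Q D → 0 < TR (cR ν P) (cR ν A) (cR ν D) →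
      0 ≤ TR V (cR ν A) (cR ν D) + t * TR (cR ν P) (cR ν A) (cR ν D) := by
  classical
  have hAC : cR ν A ∈ closure (CC ν) := subset_closure (cc_amp f.h.var f.hν f.hA)
  have hs12 := tr_s12 f.hr f.hν f.hT
  have hs23 := tr_s23 f.hr f.hν f.hT
  obtain ⟨t₁, ht₁, hn1⟩ := nn_int f hE hn
  -- the divisor `M`
  obtain ⟨e, he⟩ : ∃ e : Fin m → ℕ, ∀ i, - b i ≤ e i := ⟨fun i => ⌈- b i⌉₊, fun i => Nat.le_ceil _⟩
  obtain ⟨M, hM⟩ : ∃ M, M = ∏ i, E i ^ e i := ⟨_, rfl⟩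
  have hMe : Effective M := by
    rw [hM]
    exact kn_peff E e (fun i => (hEt.spr i).eff)
  have hMc : cR ν M = ∑ i, (e i : ℝ) • cR ν (E i) := by rw [hM, kn_prod]
  have hzE : ∀ i, TR (cR ν P) (cR ν P) (cR ν (E i)) = 0 := fun i =>
    (hs_nn f (hEt.spr i) hE.nef (hEt.zero i)).1 _
  have hzM : TR (cR ν P) (cR ν P) (cR ν M) = 0 := by
    rw [hMc, map_sum]
    refine Finset.sum_eq_zero fun i _ => ?_
    rw [map_smul, hzE, smul_zero]
  obtain ⟨c₀, hc₀, hgro⟩ := hE.gro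
  obtain ⟨N, hN⟩ := Pool.Agent.H24.RC.f1 f.h f.hr f.hν f.hT hE.nef hc₀ hgro hMe hzM
  obtain ⟨s, hs0, hs⟩ := ex_sec (hN N le_rfl)
  have hF : Effective (prin X s hs0 * (P ^ N * M⁻¹)) := by
    intro y
    have h4 := hs y
    rw [pow_one] at h4
    rw [mul_eq]
    exact h4
  obtain ⟨Ls, U, h1, h2, h3, h4⟩ := Pool.Agent.H24.VP.fac_eff f.h f.hr hF
  have hFc : ∀ v w, TR v w (cR ν (prin X s hs0 * (P ^ N * M⁻¹))) = N * TR v w (cR ν P) - TR v w (cR ν M) := by
    intro v w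
    rw [cR_mul, kn_prin f.hν, zero_add, cR_mul, kn_pow, kn_inv, map_add, map_smul, map_neg, smul_eq_mul]
    ring
  have hFs : ∀ v w, N * TR v w (cR ν P) - TR v w (cR ν M) = (Ls.map fun x => TR v w (cR ν x.2)).sum := by
    intro v w
    rw [← hFc, h4, cR_mul, map_add, list_tr, tr_triv f.h f.hr f.hν f.hT h2 h3, add_zero]
  obtain ⟨t₂, ht₂⟩ : ∃ t₂ : ℝ, t₂ = (Ls.map fun x => |TR V (cR ν A) (cR ν x.2)| /
    TR (cR ν P) (cR ν A) (cR ν x.2)).sum := ⟨_, rfl⟩
  have hnn : ∀ x ∈ Ls, 0 ≤ |TR V (cR ν A) (cR ν x.2)| / TR (cR ν P) (cR ν A) (cR ν x.2) := fun x hx =>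
    div_nonneg (abs_nonneg _) (pr_nn f (h1 x hx) hE.nef hAC)
  have hnn' : ∀ y ∈ Ls.map (fun x => |TR V (cR ν A) (cR ν x.2)| / TR (cR ν P) (cR ν A) (cR ν x.2)), 0 ≤ y := by
    intro y hy
    obtain ⟨x, hx, rfl⟩ := List.mem_map.1 hy
    exact hnn x hx
  have ht2 : 0 ≤ t₂ := by
    rw [ht₂]
    exact List.sum_nonneg hnn'
  refine ⟨t₁ + N + t₂, by positivity, fun Q D hD hpA => ?_⟩
  by_cases hQ : ∃ x ∈ Ls, x.1.η = Q.η
  · obtain ⟨x, hx, hxQ⟩ := hQ
    have hxD : SPr X Q.η x.2 := hxQ ▸ h1 x hx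
    have e1 : ∀ v w, TR v w (cR ν x.2) = TR v w (cR ν D) := fun v w =>
      Pool.Agent.H89.RT.spr_R f.h f.hr f.hν f.hT hxD hD.spr v w
    have h5 := List.single_le_sum hnn' _ (List.mem_map.2 ⟨x, hx, rfl⟩)
    rw [← ht₂, e1, e1, div_le_iff₀ hpA] at h5
    have h6 := neg_abs_le (TR V (cR ν A) (cR ν D))
    have h7 : 0 ≤ (t₁ + N) * TR (cR ν P) (cR ν A) (cR ν D) := by positivity
    nlinarith
  · push Not at hQ
    have h5 : 0 ≤ (Ls.map fun x => TR (cR ν A) (cR ν D) (cR ν x.2)).sum := by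
      refine List.sum_nonneg fun y hy => ?_
      obtain ⟨x, hx, rfl⟩ := List.mem_map.1 hy
      exact pr_pr f hD.spr (h1 x hx) (fun h => hQ x hx h.symm) hAC
    rw [← hFs] at h5
    have h6 : 0 ≤ TR (t₁ • cR ν P + n) (cR ν A) (cR ν D) := pr_nn f hD.spr hn1 hAC
    simp only [map_add, map_smul, LinearMap.add_apply, LinearMap.smul_apply, smul_eq_mul] at h6
    have hEi : ∀ i, 0 ≤ TR (cR ν (E i)) (cR ν A) (cR ν D) := by
      intro i
      have hne : (z i).η ≠ Q.η := by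
        intro h
        have h7 : SPr X (z i).η D := h ▸ hD.spr
        have h8 := Pool.Agent.H89.RT.spr_R f.h f.hr f.hν f.hT h7 (hEt.spr i) (cR ν P) (cR ν A)
        rw [hEt.zero i] at h8
        exact hpA.ne' h8
      rw [hs12]
      exact pr_pr f (hEt.spr i) hD.spr hne hAC
    have h7 : TR (cR ν A) (cR ν D) (cR ν M) = ∑ i, (e i : ℝ) * TR (cR ν (E i)) (cR ν A) (cR ν D) := by
      rw [hMc, map_sum]
      refine Finset.sum_congr rfl fun i _ => ?_
      rw [map_smul, smul_eq_mul, hs23, hs12]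
    have h8 : TR (cR ν A) (cR ν D) (cR ν P) = TR (cR ν P) (cR ν A) (cR ν D) := by
      rw [hs23, hs12]
    have h9 : TR V (cR ν A) (cR ν D) = TR n (cR ν A) (cR ν D) + ∑ i, b i * TR (cR ν (E i)) (cR ν A) (cR ν D) := by
      rw [hVn]
      simp only [map_add, map_sum, map_smul, LinearMap.add_apply, LinearMap.sum_apply, LinearMap.smul_apply,
        smul_eq_mul]
    have h10 : 0 ≤ ∑ i, (e i : ℝ) * TR (cR ν (E i)) (cR ν A) (cR ν D) +
        ∑ i, b i * TR (cR ν (E i)) (cR ν A) (cR ν D) := by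
      rw [← Finset.sum_add_distrib]
      refine Finset.sum_nonneg fun i _ => ?_
      rw [← add_mul]
      exact mul_nonneg (by linarith [he i]) (hEi i)
    rw [h7, h8] at h5
    have h11 : 0 ≤ t₂ * TR (cR ν P) (cR ν A) (cR ν D) := mul_nonneg ht2 hpA.le
    rw [h9]
    nlinarith

theorem k_nn [CharZero k] [IsAlgClosed k] [T0Space X.P] (f : Fr ν T l c TR L A) (hE : Ell ν TR L P)
    (hV : V ∈ K0 ν TR A (cR ν P)) : V ∈ Nn ν TR (cR ν P) := by
  have hAC : cR ν A ∈ closure (CC ν) := subset_closure (cc_amp f.h.var f.hν f.hA)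
  have hs12 := tr_s12 f.hr f.hν f.hT
  have hs23 := tr_s23 f.hr f.hν f.hT
  have hpp := ppa f hE.nef hE.sq
  have hpN : cR ν P ∈ Nn ν TR (cR ν P) := Submodule.subset_span (p_ph hE.nef hE.c3)
  have hVV := kn_vv f hE hV
  -- `V ∈ Uu`
  have hU : V ∈ Uu TR (cR ν P) := by
    refine ⟨TR (cR ν P) V (cR ν A) / TR (cR ν P) (cR ν P) (cR ν A), fun v => ?_⟩
    have h1 := hx_eq f hE.nef hE.c3 hV.2 hpp hVV v
    rw [div_mul_eq_mul_div, eq_div_iff hpp.ne', mul_comm]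
    exact h1
  obtain ⟨m, z, E, hEt⟩ := ex_et f hE.nef hpp
  obtain ⟨n, hn, b, hVn⟩ := uu_dec f hE hEt hU
  -- `T(V,V,D) = 0` for vertical `D`
  have hVD : ∀ (Q : PDiv X) (D : Cart X), Ver ν TR (cR ν P) Q D → TR V V (cR ν D) = 0 := by
    intro Q D hD
    have h1 := vt_sum f hE (u := -V) (v := V) (by
      simp only [map_neg, LinearMap.neg_apply]
      rw [hs23, hs12, hVV, neg_zero]) (fun Q D hD => by
      simp only [map_neg, LinearMap.neg_apply]
      rw [neg_nonneg]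
      rcases (pr_nn f hD.spr hE.nef hAC).lt_or_eq with h2 | h2
      · exact k0_le f hE hV hD h2
      · exact (e3 f hE hV hD.spr h2.symm (self_vp V)).le) hD
    simp only [map_neg, LinearMap.neg_apply] at h1
    linarith
  -- `b i ≤ 0`
  have hb : ∀ i, b i ≤ 0 := by
    refine hEt.neg b fun j => ?_
    have h1 : 0 ≤ TR V (cR ν A) (cR ν (E j)) :=
      ms_TT f.h f.hr f.hν f.hT (trdeg_pdiv f.h (z j)) (hEt.spr j) (k0_ms f hE hV (hEt.spr j) (hEt.zero j))
        (ms_nef f.h f.hr f.hν f.hT (trdeg_pdiv f.h (z j)) (hEt.spr j) hAC)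
    have h2 := kn_na f hE (hEt.spr j) (hEt.zero j) hn
    rw [hVn, map_add, LinearMap.add_apply, LinearMap.add_apply, h2, zero_add] at h1
    exact h1
  obtain ⟨t, ht0, ht⟩ := kn_t f hE hEt hn hb hVn
  -- `V + t p` is nef
  have hcl : V + t • cR ν P ∈ closure (CC ν) := by
    refine Pool.Agent.H89.RS.klm f.h f.hr f.hν f.hT fun y hy => ?_
    obtain ⟨Q, D, hD, hQy⟩ := cur_vt f hE hy
    have hpn : 0 ≤ dR f.hν f.h.var y (cR ν P) := dR_nef f.hν f.h.var f.hA hy hE.nef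
    rw [map_add, map_smul, smul_eq_mul]
    rcases (pr_nn f hD.spr hE.nef hAC).lt_or_eq with h2 | h2
    · have h3 := (hs_eq f hD.spr hE.nef hD.ver ((k0_vp f hE hV (self_vp V)).2 _ hpN Q D hD) h2
        (hVD Q D hD)).2 y ⟨hQy, hy⟩
      have h4 := mul_nonneg (ht Q D hD h2) hpn
      have h5 : 0 ≤ TR (cR ν P) (cR ν A) (cR ν D) *
          (dR f.hν f.h.var y V + t * dR f.hν f.h.var y (cR ν P)) := by
        rw [mul_add, h3]
        nlinarith
      exact nonneg_of_mul_nonneg_right h5 h2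
    · have h3 := (hs_nn f hD.spr hE.nef h2.symm).2 y ⟨hQy, hy⟩
      have h4 := Pool.Agent.H24.RC.tan_deg f.h f.hν f.hA hV.1 hy h3
      rw [h3, mul_zero, add_zero]
      exact h4
  have hph : V + t • cR ν P ∈ Ph ν TR (cR ν P) := by
    refine ⟨hcl, ?_⟩
    rw [map_add, map_smul, hV.2, hE.c3, smul_zero, add_zero]
  have h1 : V = (V + t • cR ν P) - t • cR ν P := by
    rw [add_sub_cancel_right]
  rw [h1]
  exact Submodule.sub_mem _ (Submodule.subset_span hph) (Submodule.smul_mem _ _ hpN)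

end Pool.Agent.H60.ZC
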