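import Pool.Agent.H60.ZC.Sum
import Pool.Agent.H60.ZC.CX4

/-!
# [H60 ZC Pen] THEOREM C (MP_e49dc9_ag): a pencil on a vertical prime divisor

`D₀` a vertical prime divisor.  There are `B` effective with `z(B) = 0` and `ζ ∈ K` such that `1` and `ζ` are sections of `B` without common component, `B` is a unit at `D₀`, and
their residues at `D₀` are linearly independent over `k`.
PROOF. `h0 (P ^ n) ≥ c₀ n²` (`hE.gro`).  `secL (P ^ n * (D₀ ^ j)⁻¹)`, `j = 0, 1, ..`: decreasing, zero if `j T(A,A,D₀) > n T(A,A,P)` (`T(A,A,E) ≥ 0` for effective `E`), that is for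
`j > C n`.  So for large `n` there is `j` with `dim secL (P ^ n * (D₀ ^ j)⁻¹) ≥ dim secL (P ^ n * (D₀ ^ (j+1))⁻¹) + 2` (otherwise `c₀ n² ≤ C n + 1`).  `M := P ^ n * (D₀ ^ j)⁻¹`:
`s₀, s₁ ∈ secL M 1` with linearly independent residues `X.rs D₀ (s i * M.eq D₀)` (`ex_mem`, `ex_ker` of H83/TK/SubE: the kernel of the restriction to `D₀` is `secL (M * D₀⁻¹)`).
`E := prin X s₀ * M` is effective, a unit at `D₀`, `ζ := s₁ / s₀` is a section of `E`: `pole` (CX4.lean) with `W = 1`, `φ = ζ`: `B := N` effective, `E N⁻¹` effective, `ζ` a section of `1 * N`,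
a unit where `N` is not a unit.  `z(B) + z(E N⁻¹) = z(E) = n z(p) - j z(D₀) = 0`, both `≥ 0` (`tr_eff`).  `B.eq D₀` is a unit at `D₀` (it divides `E.eq D₀`).  The residues:
`res (B.eq)`, `res (ζ B.eq) = (res (s₁ M.eq) / res (s₀ M.eq)) res (B.eq)`.
-/

set_option autoImplicit false

namespace Pool.Agent.H60.ZC

open Pool.Agent.H54.RV Pool.Agent.H83.TU Pool.Agent.H83.TK Pool.Agent.H20.TD Pool.Agent.H20.TP Pool.Agent.H20.RT
open Pool.Agent.H24.VP (RR)

variable {k K : Type} [Field k] [Field K] [Algebra k K] {X : Mod k K} {r : ℕ}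
  {ν : Cart X →* Multiplicative (Fin r → ℤ)} {T : Cart X → Cart X → Cart X → ℝ} {l : Cart X → ℝ} {c : ℝ} {TR : Tri3 r}
  {L : (Fin r → ℝ) →ₗ[ℝ] ℝ} {A : Cart X}

private theorem pairQ {k V : Type} [Field k] [Field V] [Algebra k V] (x y : V) :
    LinearIndependent k ![x, y] ↔ ∀ (s t : k), s • x + t • y = 0 → s = 0 ∧ t = 0 := LinearIndependent.pair_iff

variable {P D₀ : Cart X} {Q₀ : PDiv X}

private theorem cR_powP (U : Cart X) (n : ℕ) : cR ν (U ^ n) = (n : ℝ) • cR ν U := by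
  change rv (ci ν (U ^ n)) = _
  rw [ci_pow, rv_smul]
  rfl

private theorem cR_invP (U : Cart X) : cR ν U⁻¹ = - cR ν U := by
  change rv (ci ν U⁻¹) = _
  rw [ci_inv, rv_neg]

private theorem cR_prinP (hν : NumR ν) (s : K) (hs : s ≠ 0) : cR ν (prin X s hs) = 0 := by
  have e1 : ci ν (prin X s hs) = 0 := by
    unfold ci
    rw [(hν.ker _).2 (numz_prin s hs)]
    rfl
  change rv (ci ν (prin X s hs)) = _
  rw [e1]
  funext i
  simp [rv]

/-- the degree of effective divisors -/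
private theorem aaeP [CharZero k] [T0Space X.P] (h : Hyp X) (hr : RR T l c) (hA : Ample A) {E : Cart X}
    (hE : Effective E) : 0 ≤ T A A E := by
  by_cases hE' : Effective E⁻¹
  · have h1 := Pool.Agent.H24.VP.triv_T h hr hE hE' A A
    rw [hr.tri.s23, hr.tri.s12, h1]
  · exact (Pool.Agent.H24.VP.pos_eff h hr hA hA hE hE').le

/-- sections of a divisor of negative degree -/
private theorem negP [CharZero k] [T0Space X.P] (h : Hyp X) (hr : RR T l c) (hA : Ample A) {M : Cart X}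
    (hM : T A A M < 0) : h0 M 1 = 0 := by
  by_contra h1
  obtain ⟨s, hs0, hs⟩ := ex_sec (Nat.pos_of_ne_zero h1)
  have hE : Effective (prin X s hs0 * M) := by
    intro y
    have h4 := hs y
    rw [pow_one] at h4
    rw [mul_eq]
    exact h4
  have h2 := aaeP h hr hA hE
  rw [hr.tri.add3, hr.tri.s23, hr.tri.s12, Pool.Agent.H24.VP.numz_T h hr (numz_prin s hs0) A A, zero_add] at h2
  linarith

/-- a linear map of rank at least two -/
private theorem pairP {V W : Type*} [AddCommGroup V] [Module k V] [AddCommGroup W] [Module k W] (φ : V →ₗ[k] W)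
    (h : 1 < Module.finrank k (LinearMap.range φ)) :
    ∃ s₀ s₁ : V, ∀ a b : k, a • φ s₀ + b • φ s₁ = 0 → a = 0 ∧ b = 0 := by
  have : Nontrivial (LinearMap.range φ) := Module.nontrivial_of_finrank_pos (R := k) (by omega)
  obtain ⟨x, hx⟩ := exists_ne (0 : LinearMap.range φ)
  obtain ⟨y, hy⟩ := exists_linearIndependent_pair_of_one_lt_finrank h hx
  obtain ⟨s0, h0⟩ := x.2
  obtain ⟨s1, h1⟩ := y.2
  refine ⟨s0, s1, fun a b hab => ?_⟩
  rw [LinearIndependent.pair_iff] at hy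
  apply hy a b
  apply Subtype.ext
  change a • (x : W) + b • (y : W) = 0
  rw [← h0, ← h1]
  exact hab

/-- a step of the filtration with two independent residues -/
private theorem stepP [CharZero k] [IsAlgClosed k] [T0Space X.P] (f : Fr ν T l c TR L A) (hE : Ell ν TR L P)
    (hD : SPr X Q₀.η D₀) : ∃ n j : ℕ,
      1 < Module.finrank k (LinearMap.range (resS f.h.var Q₀.η (P ^ n * (D₀ ^ j)⁻¹) 1)) := by
  have h := f.h
  have hr := f.hr
  by_contra hcon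
  push Not at hcon
  obtain ⟨c₀, hc0, n₀, hg⟩ := hE.gro
  have hT1 : 0 < T A A D₀ := Pool.Agent.H24.VP.pos_prm h hr f.hA f.hA Q₀ hD
  obtain ⟨C, hC⟩ : ∃ C : ℝ, C = |T A A P / T A A D₀| := ⟨_, rfl⟩
  have hC0 : 0 ≤ C := by rw [hC]; exact abs_nonneg _
  have hCP : T A A P ≤ C * T A A D₀ := by
    have h1 := le_abs_self (T A A P / T A A D₀)
    rw [← hC, div_le_iff₀ hT1] at h1
    exact h1
  obtain ⟨n, hn⟩ := exists_nat_gt (max (n₀ : ℝ) (max 1 ((C + 2) / c₀)))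
  have hn1 : (n₀ : ℝ) < n := lt_of_le_of_lt (le_max_left _ _) hn
  have hn2 : (1 : ℝ) < n := lt_of_le_of_lt ((le_max_left _ _).trans (le_max_right _ _)) hn
  have hn3 : C + 2 < n * c₀ := by
    have := lt_of_le_of_lt ((le_max_right _ _).trans (le_max_right _ _)) hn
    rwa [div_lt_iff₀ hc0] at this
  have h1 := hg n (by exact_mod_cast hn1.le)
  have key : ∀ j : ℕ, h0 (P ^ n) 1 ≤ j + h0 (P ^ n * (D₀ ^ j)⁻¹) 1 := by
    intro j
    induction j with
    | zero =>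
      rw [pow_zero, inv_one, mul_one]
      omega
    | succ j ih =>
      have := Pool.Agent.H24.TK.fd h.var h.gen f.hA (P ^ n * (D₀ ^ j)⁻¹)
      have h2 := ex_dim h.var hD (P ^ n * (D₀ ^ j)⁻¹) 1
      have h3 := hcon n j
      have h4 : (P ^ n * (D₀ ^ j)⁻¹) ^ 1 * D₀⁻¹ = P ^ n * (D₀ ^ (j + 1))⁻¹ := by
        rw [pow_one, pow_succ, mul_inv, mul_assoc]
      rw [h4] at h2
      omega
  obtain ⟨J, hJ⟩ : ∃ J : ℕ, J = ⌊(n : ℝ) * C⌋₊ + 1 := ⟨_, rfl⟩
  have hJ1 : (n : ℝ) * C < J := by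
    rw [hJ]
    push_cast
    exact Nat.lt_floor_add_one _
  have hJ2 : (J : ℝ) ≤ n * C + 1 := by
    rw [hJ]
    push_cast
    have := Nat.floor_le (show 0 ≤ (n : ℝ) * C from mul_nonneg (by linarith) hC0)
    linarith
  have h5 : h0 (P ^ n * (D₀ ^ J)⁻¹) 1 = 0 := by
    apply negP h hr f.hA
    rw [hr.tri.add3, hr.tri.inv3, hr.tri.pow3, hr.tri.pow3]
    have h6 : (n : ℝ) * T A A P ≤ n * (C * T A A D₀) := mul_le_mul_of_nonneg_left hCP (by linarith)
    have h7 : (n : ℝ) * C * T A A D₀ < J * T A A D₀ := mul_lt_mul_of_pos_right hJ1 hT1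
    linarith
  have h6 := key J
  rw [h5, add_zero] at h6
  have h7 : (h0 (P ^ n) 1 : ℝ) ≤ J := by exact_mod_cast h6
  have h8 : (C + 2) * n < n * c₀ * n := mul_lt_mul_of_pos_right hn3 (by linarith)
  nlinarith

/-- the pencil of a divisor with two independent residues -/
private theorem finP [CharZero k] [IsAlgClosed k] [T0Space X.P] (f : Fr ν T l c TR L A) (hE : Ell ν TR L P)
    (M : Cart X) (hz : TR (cR ν P) (cR ν P) (cR ν M) = 0)
    (hrk : 1 < Module.finrank k (LinearMap.range (resS f.h.var Q₀.η M 1))) : ∃ (B : Cart X) (ζ : K),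
      Effective B ∧ Sec B 1 ζ ∧
      (∀ Q : PDiv X, Un (X.O Q.η) (B.eq Q.η) ∨ Un (X.O Q.η) (ζ * B.eq Q.η)) ∧
      TR (cR ν P) (cR ν P) (cR ν B) = 0 ∧ Un (X.O Q₀.η) (B.eq Q₀.η) ∧
      LinearIndependent k ![X.rs Q₀.η (B.eq Q₀.η), X.rs Q₀.η (ζ * B.eq Q₀.η)] := by
  have h := f.h
  have hr := f.hr
  obtain ⟨s₀, s₁, hs⟩ := pairP _ hrk
  have e0 : s₀.1 * M.eq Q₀.η ∈ X.O Q₀.η := by
    have h1 := s₀.2 Q₀.η
    rw [pow_one] at h1
    exact h1
  have e1 : s₁.1 * M.eq Q₀.η ∈ X.O Q₀.η := by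
    have h1 := s₁.2 Q₀.η
    rw [pow_one] at h1
    exact h1
  have hu0 : Un (X.O Q₀.η) (s₀.1 * M.eq Q₀.η) := by
    by_contra h1
    have h2 : resS f.h.var Q₀.η M 1 s₀ = 0 := by
      rw [resS_zero, pow_one]
      exact h1
    have h3 := (hs 1 0 (by rw [h2, smul_zero, zero_smul, add_zero])).1
    exact one_ne_zero h3
  have hs00 : s₀.1 ≠ 0 := left_ne_zero_of_mul hu0.1
  obtain ⟨E, hEd⟩ : ∃ E : Cart X, E = prin X s₀.1 hs00 * M := ⟨_, rfl⟩
  have hEq : ∀ y, E.eq y = s₀.1 * M.eq y := by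
    intro y
    rw [hEd, mul_eq]
    rfl
  have hEff : Effective E := by
    intro y
    have h1 := s₀.2 y
    rw [pow_one] at h1
    rw [hEq]
    exact h1
  have hsec : Sec (1 * E) 1 (s₁.1 / s₀.1) := by
    intro y
    have h1 := s₁.2 y
    rw [pow_one] at h1
    rw [one_mul, pow_one, hEq, ← mul_assoc, div_mul_cancel₀ _ hs00]
    exact h1
  obtain ⟨N, hN1, hN2, hN3, hN4⟩ := pole h hr hEff hsec
  have hzE : TR (cR ν P) (cR ν P) (cR ν E) = 0 := by
    rw [hEd, cR_mul, cR_prinP f.hν, zero_add, hz]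
  have z1 := tr_eff h hr f.hν f.hT hE.nef hN1
  have z2 := tr_eff h hr f.hν f.hT hE.nef hN2
  rw [cR_mul, cR_invP, map_add, map_neg, hzE, zero_add] at z2
  have hEN : Un (X.O Q₀.η) (N.eq Q₀.η * (E * N⁻¹).eq Q₀.η) := by
    have h1 : N.eq Q₀.η * (E * N⁻¹).eq Q₀.η = s₀.1 * M.eq Q₀.η := by
      rw [mul_eq, inv_eq, hEq]
      have := N.ne Q₀.η
      field_simp
    rw [h1]
    exact hu0
  have hNu := ((un_mul_iff (hN1 Q₀.η) (hN2 Q₀.η)).1 hEN).1
  refine ⟨N, s₁.1 / s₀.1, hN1, ?_, ?_, by linarith, hNu, ?_⟩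
  · rwa [one_mul] at hN3
  · intro Q
    by_cases hq : Un (X.O Q.η) (N.eq Q.η)
    · exact Or.inl hq
    · have h1 := hN4 Q hq
      rw [one_mul] at h1
      exact Or.inr h1
  · obtain ⟨u, hu⟩ : ∃ u : K, u = N.eq Q₀.η / (s₀.1 * M.eq Q₀.η) := ⟨_, rfl⟩
    have huu : Un (X.O Q₀.η) u := by
      rw [hu]
      exact un_div hNu hu0
    have e2 : N.eq Q₀.η = (s₀.1 * M.eq Q₀.η) * u := by
      rw [hu, mul_div_cancel₀ _ hu0.1]
    have e3 : s₁.1 / s₀.1 * N.eq Q₀.η = (s₁.1 * M.eq Q₀.η) * u := by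
      rw [e2]
      field_simp
    refine (pairQ _ _).2 fun a b hab => ?_
    rw [e3, e2, rs_mul Q₀.η e0 huu.2.1, rs_mul Q₀.η e1 huu.2.1, ← smul_mul_assoc, ← smul_mul_assoc, ← add_mul] at hab
    have h5 := (mul_eq_zero.1 hab).resolve_right ((rs_ne Q₀.η huu.2.1).2 huu)
    apply hs a b
    apply Subtype.ext
    change a • (resS f.h.var Q₀.η M 1 s₀ : X.kap Q₀.η) + b • (resS f.h.var Q₀.η M 1 s₁ : X.kap Q₀.η) = 0
    rw [resS_coe, resS_coe, pow_one]
    exact h5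

theorem pen [CharZero k] [IsAlgClosed k] [T0Space X.P] (f : Fr ν T l c TR L A) (hE : Ell ν TR L P)
    (hD : Ver ν TR (cR ν P) Q₀ D₀) : ∃ (B : Cart X) (ζ : K), Effective B ∧ Sec B 1 ζ ∧
      (∀ Q : PDiv X, Un (X.O Q.η) (B.eq Q.η) ∨ Un (X.O Q.η) (ζ * B.eq Q.η)) ∧
      TR (cR ν P) (cR ν P) (cR ν B) = 0 ∧ Un (X.O Q₀.η) (B.eq Q₀.η) ∧
      LinearIndependent k ![X.rs Q₀.η (B.eq Q₀.η), X.rs Q₀.η (ζ * B.eq Q₀.η)] := by
  obtain ⟨n, j, hnj⟩ := stepP f hE hD.spr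
  refine finP f hE _ ?_ hnj
  rw [cR_mul, cR_powP, cR_invP, cR_powP, map_add, map_smul, map_neg, map_smul, hE.c3, hD.ver, smul_zero, smul_zero,
    neg_zero, add_zero]

end Pool.Agent.H60.ZC
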