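import Pool.Agent.H60.ZC.Hs
import Pool.Agent.H24.RC.FOne

/-!
# [H60 ZC Sum] THEOREM C (MP_e49dc9_ag): sums over the components of vertical divisors

`p = cR ν P`.  `Ver ν TR p Q D`: vertical prime divisors.
* `eff_list`: an effective `W` with `z(W) = 0` (`z = T(p,p,.)`) is a product of vertical prime divisors and of a trivial divisor (`fac_eff`, H24/VP/PosB; `tr_srf`: `z(D) ≥ 0`), so
  `T(u,v,W) = ∑ T(u,v,D i)` (`list_tr`, `tr_triv`): nonnegative (zero) if `T(u,v,D) ≥ 0` (`= 0`) for all vertical `D`.  (`eff_nn`, `eff_z`)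
* `vt_sum`: `D` vertical: `f1` (H24/RC/FOne): `P ^ n D⁻¹` has a section: `P ^ n D⁻¹` times a principal divisor is effective; `0 = n T(u,v,p) = T(u,v,D) + T(u,v,W)`, `W` effective with
  `z(W) = n z(p) - z(D) = 0`, `T(u,v,W) ≥ 0`.
* `cur_vt`: `y` a curve.  `h0 (P ^ n) ≥ c₀ n²`, `hz y (P ^ n) ≤ C (n + 1)` (sections on a curve: `h0_le_dg`, H41/TK/DG, `hz_cur`: `≤ max(deg,0) + const`), so for large `n` some section
  `s ≠ 0` of `P ^ n` vanishes at `y` (kernel of `resS`).  `E = prin s * P ^ n` is effective, `E.eq y` is not a unit at `y`; `fac_eff` (or a prime factor in the factorial ring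
  `X.O y`, `pdiv_of_prime`): a prime divisor `D` through `y` with `E D⁻¹` effective; `z(E) = 0`, so `z(D) = 0` (`bgd_srf`).
-/

set_option autoImplicit false

namespace Pool.Agent.H60.ZC

open Pool.Agent.H54.RV Pool.Agent.H83.TU Pool.Agent.H83.TK Pool.Agent.H20.TD Pool.Agent.H20.TP Pool.Agent.H20.RT
open Pool.Agent.H24.VP (RR)

variable {k K : Type} [Field k] [Field K] [Algebra k K] {X : Mod k K} {r : ℕ}
  {ν : Cart X →* Multiplicative (Fin r → ℤ)} {T : Cart X → Cart X → Cart X → ℝ} {l : Cart X → ℝ} {c : ℝ} {TR : Tri3 r}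
  {L : (Fin r → ℝ) →ₗ[ℝ] ℝ} {A : Cart X}

variable {P : Cart X} {u v : Fin r → ℝ} {W D : Cart X} {Q : PDiv X}

private theorem su_pow (U : Cart X) (n : ℕ) : cR ν (U ^ n) = (n : ℝ) • cR ν U := by
  change rv (ci ν (U ^ n)) = _
  rw [ci_pow, rv_smul]
  rfl

private theorem su_inv (U : Cart X) : cR ν U⁻¹ = - cR ν U := by
  change rv (ci ν U⁻¹) = _
  rw [ci_inv, rv_neg]

private theorem su_prin (hν : NumR ν) {s : K} (hs0 : s ≠ 0) : cR ν (prin X s hs0) = 0 := by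
  change rv (ci ν (prin X s hs0)) = 0
  unfold ci
  rw [(hν.ker _).2 (numz_prin s hs0), toAdd_one]
  funext j
  simp [rv]

/-- an effective divisor with `T(p,p,W) = 0` is a sum of vertical prime divisors -/
private theorem eff_list [CharZero k] [IsAlgClosed k] [T0Space X.P] (f : Fr ν T l c TR L A) (hE : Ell ν TR L P)
    (hW : Effective W) (hz : TR (cR ν P) (cR ν P) (cR ν W) = 0) :
    ∃ (Ls : List (PDiv X × Cart X)) (U : Cart X), (∀ x ∈ Ls, Ver ν TR (cR ν P) x.1 x.2) ∧ Effective U ∧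
      Effective U⁻¹ ∧ W = (Ls.map Prod.snd).prod * U := by
  obtain ⟨Ls, U, h2, h3, h4, h5⟩ := Pool.Agent.H24.VP.fac_eff f.h f.hr hW
  refine ⟨Ls, U, fun x hx => ⟨h2 x hx, ?_⟩, h3, h4, h5⟩
  rw [h5, cR_mul, map_add, list_tr, tr_triv f.h f.hr f.hν f.hT h3 h4, add_zero] at hz
  have h7 : ∀ y ∈ Ls.map (fun x => TR (cR ν P) (cR ν P) (cR ν x.2)), 0 ≤ y := by
    intro y hy
    obtain ⟨z, hz, rfl⟩ := List.mem_map.1 hy
    exact tr_srf f.h f.hr f.hν f.hT hE.nef z.1 (h2 z hz)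
  have h8 := List.single_le_sum h7 (TR (cR ν P) (cR ν P) (cR ν x.2)) (List.mem_map.2 ⟨x, hx, rfl⟩)
  rw [hz] at h8
  exact le_antisymm h8 (tr_srf f.h f.hr f.hν f.hT hE.nef x.1 (h2 x hx))

theorem eff_nn [CharZero k] [IsAlgClosed k] [T0Space X.P] (f : Fr ν T l c TR L A) (hE : Ell ν TR L P)
    (hW : Effective W) (hz : TR (cR ν P) (cR ν P) (cR ν W) = 0)
    (hn : ∀ (Q : PDiv X) (D : Cart X), Ver ν TR (cR ν P) Q D → 0 ≤ TR u v (cR ν D)) : 0 ≤ TR u v (cR ν W) := by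
  obtain ⟨Ls, U, h1, h2, h3, h4⟩ := eff_list f hE hW hz
  rw [h4, cR_mul, map_add, list_tr, tr_triv f.h f.hr f.hν f.hT h2 h3, add_zero]
  refine List.sum_nonneg fun x hx => ?_
  obtain ⟨y, hy, rfl⟩ := List.mem_map.1 hx
  exact hn y.1 y.2 (h1 y hy)

theorem eff_z [CharZero k] [IsAlgClosed k] [T0Space X.P] (f : Fr ν T l c TR L A) (hE : Ell ν TR L P)
    (hW : Effective W) (hz : TR (cR ν P) (cR ν P) (cR ν W) = 0)
    (hn : ∀ (Q : PDiv X) (D : Cart X), Ver ν TR (cR ν P) Q D → TR u v (cR ν D) = 0) : TR u v (cR ν W) = 0 := by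
  obtain ⟨Ls, U, h1, h2, h3, h4⟩ := eff_list f hE hW hz
  rw [h4, cR_mul, map_add, list_tr, tr_triv f.h f.hr f.hν f.hT h2 h3, add_zero]
  refine List.sum_eq_zero fun x hx => ?_
  obtain ⟨y, hy, rfl⟩ := List.mem_map.1 hx
  exact hn y.1 y.2 (h1 y hy)

theorem vt_sum [CharZero k] [IsAlgClosed k] [T0Space X.P] (f : Fr ν T l c TR L A) (hE : Ell ν TR L P)
    (h0 : TR u v (cR ν P) = 0) (hn : ∀ (Q : PDiv X) (D : Cart X), Ver ν TR (cR ν P) Q D → 0 ≤ TR u v (cR ν D))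
    (hD : Ver ν TR (cR ν P) Q D) : TR u v (cR ν D) = 0 := by
  obtain ⟨c₀, hc₀, hgro⟩ := hE.gro
  obtain ⟨n, hn0⟩ := Pool.Agent.H24.RC.f1 f.h f.hr f.hν f.hT hE.nef hc₀ hgro hD.spr.eff hD.ver
  obtain ⟨s, hs0, hEf⟩ := Pool.Agent.H20.TK.eff_of_pos _ (hn0 n le_rfl)
  have h5 : cR ν (prin X s hs0 * (P ^ n * D⁻¹)) = (n : ℝ) • cR ν P - cR ν D := by
    rw [cR_mul, cR_mul, su_prin f.hν, su_pow, su_inv]
    abel
  have h6 := eff_nn f hE hEf (by
    rw [h5, map_sub, map_smul, hE.c3, hD.ver, smul_zero, sub_zero]) hn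
  rw [h5, map_sub, map_smul, h0, smul_zero, zero_sub] at h6
  exact le_antisymm (by linarith) (hn Q D hD)

private theorem su_prod {y : X.P} (Ls : List (PDiv X × Cart X)) (h : ∀ x ∈ Ls, Un (X.O y) (x.2.eq y)) :
    Un (X.O y) ((Ls.map Prod.snd).prod.eq y) := by
  induction Ls with
  | nil =>
    rw [List.map_nil, List.prod_nil, one_eq]
    exact ⟨one_ne_zero, (X.O y).one_mem, by rw [inv_one]; exact (X.O y).one_mem⟩
  | cons q Ls ih =>
    rw [List.map_cons, List.prod_cons, mul_eq]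
    exact un_mul (h q List.mem_cons_self) (ih fun x hx => h x (List.mem_cons_of_mem _ hx))

/-- linear growth on a curve -/
private theorem su_cur [CharZero k] (hX : IsVar X) (hA : ∃ A : Cart X, Ample A) {y : X.P}
    (hy : Algebra.trdeg k (X.kap y) = 1) (P : Cart X) (hP : 0 ≤ dz hX y P) :
    ∃ C : ℝ, 0 ≤ C ∧ ∀ n : ℕ, (hz hX y (P ^ n) : ℝ) ≤ C * (n + 1) := by
  refine ⟨(dz hX y P : ℝ) + h0 (1 : Cart (subM hX y)) 1, by
    have : (0 : ℝ) ≤ dz hX y P := by exact_mod_cast hP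
    positivity, fun n => ?_⟩
  have h1 := dz_pow hX hA hy P n
  have h2 := H41.TK.h0_le_dg (crv_of hX hA hy) (resD hX y (P ^ n)) (by
    change 0 ≤ dz hX y (P ^ n)
    rw [h1]
    positivity)
  have h3 : (hz hX y (P ^ n) : ℤ) ≤ n * dz hX y P + h0 (1 : Cart (subM hX y)) 1 := by
    rw [← h1]
    exact h2
  have h4 : (hz hX y (P ^ n) : ℝ) ≤ n * dz hX y P + h0 (1 : Cart (subM hX y)) 1 := by exact_mod_cast h3
  have h5 : (0 : ℝ) ≤ dz hX y P := by exact_mod_cast hP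
  have h6 : (0 : ℝ) ≤ h0 (1 : Cart (subM hX y)) 1 := Nat.cast_nonneg _
  have h7 : (0 : ℝ) ≤ n := Nat.cast_nonneg _
  nlinarith

/-- sections which vanish at a curve -/
private theorem su_sec [CharZero k] (h : Hyp X) {y : X.P} (W : Cart X) (hlt : hz h.var y W < h0 W 1) :
    ∃ (s : K) (hs : s ≠ 0), Effective (prin X s hs * W) ∧ ¬ Un (X.O y) ((prin X s hs * W).eq y) := by
  obtain ⟨A, hA⟩ := h.amp
  have := Pool.Agent.H24.TK.fd h.var h.gen hA W
  have := fd_sub h.var hA y (resD h.var y W)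
  have h1 : ¬ Function.Injective (resS h.var y W 1) := by
    intro hinj
    have h2 := LinearMap.finrank_le_finrank_of_injective hinj
    unfold hz h0 at hlt
    omega
  have h2 : ∃ s : secL W 1, s ≠ 0 ∧ resS h.var y W 1 s = 0 := by
    by_contra hno
    push Not at hno
    refine h1 ((injective_iff_map_eq_zero _).2 fun a ha => ?_)
    by_contra ha0
    exact hno a ha0 ha
  obtain ⟨s, hs, hs1⟩ := h2
  rw [resS_zero, pow_one] at hs1
  have hs0 : (s : K) ≠ 0 := fun h0 => hs (Subtype.ext h0)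
  refine ⟨s, hs0, fun x => ?_, hs1⟩
  have h3 := s.2 x
  rw [pow_one] at h3
  exact h3

theorem cur_vt [CharZero k] [IsAlgClosed k] [T0Space X.P] (f : Fr ν T l c TR L A) (hE : Ell ν TR L P)
    {y : X.P} (hy : Algebra.trdeg k (X.kap y) = 1) :
    ∃ (Q : PDiv X) (D : Cart X), Ver ν TR (cR ν P) Q D ∧ Q.η ⤳ y := by
  obtain ⟨c₀, hc₀, n₀, hgro⟩ := hE.gro
  have hP0 : 0 ≤ dz f.h.var y P := by
    have h1 := dR_nef f.hν f.h.var f.hA hy hE.nef
    rw [dR_ci f.hν f.h.var ⟨A, f.hA⟩ hy] at h1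
    exact_mod_cast h1
  obtain ⟨C, hC, hcur⟩ := su_cur f.h.var ⟨A, f.hA⟩ hy P hP0
  obtain ⟨n₂, hn₂⟩ := exists_nat_gt ((2 * C) / c₀)
  rw [div_lt_iff₀ hc₀] at hn₂
  obtain ⟨n, hn⟩ : ∃ n, n = n₀ + n₂ + 1 := ⟨_, rfl⟩
  have h4 := hgro n (by omega)
  have h3 := hcur n
  have h5 : (n₂ : ℝ) ≤ n := by exact_mod_cast (show n₂ ≤ n by omega)
  have h6 : (1 : ℝ) ≤ n := by exact_mod_cast (show 1 ≤ n by omega)
  have h7 : C * ((n : ℝ) + 1) < c₀ * n ^ 2 := by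
    have h8 : 2 * C < n * c₀ := by nlinarith
    nlinarith
  have h8 : (hz f.h.var y (P ^ n) : ℝ) < h0 (P ^ n) 1 := by linarith
  obtain ⟨s, hs, h9, h10⟩ := su_sec f.h (P ^ n) (by exact_mod_cast h8)
  have h11 : TR (cR ν P) (cR ν P) (cR ν (prin X s hs * P ^ n)) = 0 := by
    rw [cR_mul, su_prin f.hν, su_pow, zero_add, map_smul, hE.c3, smul_zero]
  obtain ⟨Ls, U, g1, g2, g3, g4⟩ := eff_list f hE h9 h11
  by_contra hno
  push Not at hno
  apply h10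
  rw [g4, mul_eq]
  refine un_mul (su_prod Ls fun x hx => (g1 x hx).spr.un y (hno x.1 x.2 (g1 x hx))) ⟨U.ne y, g2 y, ?_⟩
  have := g3 y
  rwa [inv_eq] at this

end Pool.Agent.H60.ZC
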