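import Pool.Agent.H60.ZC.Sum
import Pool.Agent.H60.ZC.Rat
import Pool.Agent.H60.ZC.Ety

/-!
# [H60 ZC Th] THEOREM C (MP_e49dc9_ag): the part of a fibre where a class of the span of the face is negative

`b ∈ Nn`, `D₀` vertical with `T(p,A,D₀) > 0 > T(b,A,D₀)`.  There is a nonempty list of vertical prime divisors `D` with `T(p,A,D) > 0 > T(b,A,D)`, whose product is in `Uu`.
PROOF. `f1` (H24/RC/FOne): `P ^ n D₀⁻¹` has a section: `cR (P ^ n) = cR M`, `M` effective with `D₀` as a component; `fac_eff`: `M` = the product of a list `Ls` of prime divisors (all vertical,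
`tr_srf`), one of them is `D₀`, times a trivial divisor.  For `D` in `Ls` with `T(p,A,D) > 0`: `r_D := T(b,A,D) / T(p,A,D)`; `T(p,p,D) = 0`, `T(p,b,D) = 0`, `T(b,b,D) = 0` (`form`, `z(D) = 0`),
so `T(b,v,D) = r_D T(p,v,D)` for all `v` (`hs_eq`).  `ρ := r_(D₀) < 0`.  `Ls' := ` the `D` in `Ls` with `T(p,A,D) > 0`, `r_D = ρ`; `Θ` its product.  For `D ∈ Ls'`, `G` in `Ls` not in `Ls'`:
`T(p,G,D) = 0`: if `T(p,A,G) = 0`: `T(p,.,G) = 0` (`hs_nn`); otherwise `ρ T(p,G,D) = T(b,G,D) = r_G T(p,D,G)`, `r_G ≠ ρ`.  So `T(p,Θ,D) = T(p,M,D) = n T(p,p,D) = 0`, `T(p,Θ,Θ) = 0`,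
`T(p,p,Θ) = 0`: `hx_eq` for the form `T(p,.,.)` (`p` isotropic): `T(p,Θ,.)` is proportional to `z`.
-/

set_option autoImplicit false

namespace Pool.Agent.H60.ZC

open Pool.Agent.H54.RV Pool.Agent.H83.TU Pool.Agent.H83.TK Pool.Agent.H20.TD Pool.Agent.H20.TP Pool.Agent.H20.RT
open Pool.Agent.H24.VP (RR)

variable {k K : Type} [Field k] [Field K] [Algebra k K] {X : Mod k K} {r : ℕ}
  {ν : Cart X →* Multiplicative (Fin r → ℤ)} {T : Cart X → Cart X → Cart X → ℝ} {l : Cart X → ℝ} {c : ℝ} {TR : Tri3 r}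
  {L : (Fin r → ℝ) →ₗ[ℝ] ℝ} {A : Cart X}

variable {P D₀ : Cart X} {b : Fin r → ℝ} {Q₀ : PDiv X}

private theorem th_prin (hν : NumR ν) {s : K} (hs0 : s ≠ 0) : cR ν (prin X s hs0) = 0 := by
  change rv (ci ν (prin X s hs0)) = 0
  unfold ci
  rw [(hν.ker _).2 (numz_prin s hs0), toAdd_one]
  funext j
  simp [rv]

private theorem th_list [CharZero k] [IsAlgClosed k] [T0Space X.P] (f : Fr ν T l c TR L A) (hE : Ell ν TR L P)
    (hD : Ver ν TR (cR ν P) Q₀ D₀) : ∃ (n : ℕ) (Ls : List (PDiv X × Cart X)), (∀ x ∈ Ls, Ver ν TR (cR ν P) x.1 x.2) ∧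
      ∀ v w, TR v w (cR ν D₀) + TR v w (cR ν (Ls.map Prod.snd).prod) = n * TR v w (cR ν P) := by
  obtain ⟨c₀, hc₀, hgro⟩ := hE.gro
  obtain ⟨n, hn⟩ := Pool.Agent.H24.RC.f1 f.h f.hr f.hν f.hT hE.nef hc₀ hgro hD.spr.eff hD.ver
  have hn1 := hn n le_rfl
  obtain ⟨s, hs0, hs⟩ := ex_sec hn1
  have hEf : Effective (prin X s hs0 * (P ^ n * D₀⁻¹)) := by
    intro y
    have h4 := hs y
    rw [pow_one] at h4
    rw [mul_eq]
    exact h4
  obtain ⟨Ls, U, h1, h2, h3, h4⟩ := Pool.Agent.H24.VP.fac_eff f.h f.hr hEf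
  have h5 : cR ν (prin X s hs0 * (P ^ n * D₀⁻¹)) = (n : ℝ) • cR ν P - cR ν D₀ := by
    rw [cR_mul, th_prin f.hν, zero_add, cR_mul]
    have e1 : cR ν (P ^ n) = (n : ℝ) • cR ν P := by
      change rv (ci ν (P ^ n)) = _
      rw [ci_pow, rv_smul]
      rfl
    have e2 : cR ν D₀⁻¹ = - cR ν D₀ := by
      change rv (ci ν D₀⁻¹) = _
      rw [ci_inv, rv_neg]
    rw [e1, e2, sub_eq_add_neg]
  have h6 : ∀ v w, TR v w (cR ν D₀) + TR v w (cR ν (Ls.map Prod.snd).prod) = n * TR v w (cR ν P) := by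
    intro v w
    have h7 : TR v w (cR ν (prin X s hs0 * (P ^ n * D₀⁻¹))) = TR v w (cR ν (Ls.map Prod.snd).prod) := by
      rw [h4, cR_mul, map_add, tr_triv f.h f.hr f.hν f.hT h2 h3, add_zero]
    rw [← h7, h5, map_sub, map_smul, smul_eq_mul]
    ring
  refine ⟨n, Ls, fun x hx => ⟨h1 x hx, ?_⟩, h6⟩
  have h7 := h6 (cR ν P) (cR ν P)
  rw [hD.ver, hE.c3, mul_zero, zero_add, list_tr] at h7
  refine le_antisymm ?_ (tr_srf f.h f.hr f.hν f.hT hE.nef x.1 (h1 x hx))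
  rw [← h7]
  refine List.single_le_sum (l := Ls.map fun x => TR (cR ν P) (cR ν P) (cR ν x.2)) (fun y hy => ?_) _
    (List.mem_map.2 ⟨x, hx, rfl⟩)
  obtain ⟨y, hy', rfl⟩ := List.mem_map.1 hy
  exact tr_srf f.h f.hr f.hν f.hT hE.nef y.1 (h1 y hy')

theorem th [CharZero k] [IsAlgClosed k] [T0Space X.P] (f : Fr ν T l c TR L A) (hE : Ell ν TR L P)
    (hb : b ∈ Nn ν TR (cR ν P)) (hD : Ver ν TR (cR ν P) Q₀ D₀) (h1 : 0 < TR (cR ν P) (cR ν A) (cR ν D₀))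
    (h2 : TR b (cR ν A) (cR ν D₀) < 0) : ∃ Ls : List (PDiv X × Cart X), Ls ≠ [] ∧
      (∀ x ∈ Ls, Ver ν TR (cR ν P) x.1 x.2 ∧ 0 < TR (cR ν P) (cR ν A) (cR ν x.2) ∧ TR b (cR ν A) (cR ν x.2) < 0) ∧
      cR ν (Ls.map Prod.snd).prod ∈ Uu TR (cR ν P) := by
  classical
  obtain ⟨n, Ls₀, hv₀, hsum₀⟩ := th_list f hE hD
  obtain ⟨p, hp⟩ : ∃ p, p = cR ν P := ⟨_, rfl⟩
  obtain ⟨a, ha⟩ : ∃ a, a = cR ν A := ⟨_, rfl⟩
  have hpn : p ∈ closure (CC ν) := by rw [hp]; exact hE.nef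
  have hp3 : TR p p p = 0 := by rw [hp]; exact hE.c3
  have hpp : TR p p ≠ 0 := by rw [hp]; exact hE.sq
  have hs12 := tr_s12 f.hr f.hν f.hT
  have hs23 := tr_s23 f.hr f.hν f.hT
  obtain ⟨Ls, hLs⟩ : ∃ Ls, Ls = (Q₀, D₀) :: Ls₀ := ⟨_, rfl⟩
  have hv : ∀ x ∈ Ls, Ver ν TR p x.1 x.2 := by
    intro x hx
    rw [hp]
    rw [hLs] at hx
    rcases List.mem_cons.1 hx with h3 | h3
    · rw [h3]; exact hD
    · exact hv₀ x h3
  have hsum : ∀ v w, (Ls.map fun x => TR v w (cR ν x.2)).sum = n * TR v w p := by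
    intro v w
    rw [hp, ← hsum₀ v w, hLs, List.map_cons, List.sum_cons, list_tr]
  have hpN : p ∈ Nn ν TR p := Submodule.subset_span (p_ph hpn hp3)
  rw [← hp, ← ha] at h1
  rw [← ha] at h2
  rw [← hp] at hb ⊢
  rw [← ha]
  obtain ⟨ρ, hρ⟩ : ∃ ρ, ρ = TR b a (cR ν D₀) / TR p a (cR ν D₀) := ⟨_, rfl⟩
  have hρ0 : ρ < 0 := by rw [hρ]; exact div_neg_of_neg_of_pos h2 h1
  obtain ⟨good, hgood⟩ : ∃ good : PDiv X × Cart X → Prop, good = fun x =>
    0 < TR p a (cR ν x.2) ∧ TR b a (cR ν x.2) = ρ * TR p a (cR ν x.2) := ⟨_, rfl⟩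
  obtain ⟨Lg, hLg⟩ : ∃ Lg, Lg = Ls.filter (fun x => decide (good x)) := ⟨_, rfl⟩
  have hmem : ∀ x, x ∈ Lg ↔ x ∈ Ls ∧ good x := by
    intro x
    rw [hLg, List.mem_filter, decide_eq_true_iff]
  -- proportionality
  have hprop : ∀ x ∈ Ls, 0 < TR p a (cR ν x.2) → ∀ v, TR p a (cR ν x.2) * TR b v (cR ν x.2) =
      TR b a (cR ν x.2) * TR p v (cR ν x.2) := by
    intro x hx hpos
    have hx1 := hv x hx
    have e1 : TR p b (cR ν x.2) = 0 := by rw [form f hpn hp3 hpp hpN hb, hx1.ver, mul_zero]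
    have e2 : TR b b (cR ν x.2) = 0 := by rw [form f hpn hp3 hpp hb hb, hx1.ver, mul_zero]
    rw [ha] at hpos ⊢
    exact (hs_eq f hx1.spr hpn hx1.ver e1 hpos e2).1
  have key : ∀ x ∈ Lg, ∀ y ∈ Ls, ¬ good y → TR p (cR ν x.2) (cR ν y.2) = 0 := by
    intro x hx y hy hyg
    obtain ⟨hx1, hx2⟩ := (hmem x).1 hx
    rw [hgood] at hx2 hyg
    simp only at hx2 hyg
    have hnn : 0 ≤ TR p a (cR ν y.2) := by
      rw [ha]
      exact pr_nn f (hv y hy).spr hpn (subset_closure (cc_amp f.h.var f.hν f.hA))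
    rcases hnn.eq_or_lt with h3 | h3
    · rw [ha] at h3
      exact (hs_nn f (hv y hy).spr hpn h3.symm).1 _
    · have h4 := hprop x hx1 hx2.1 (cR ν y.2)
      have h5 := hprop y hy h3 (cR ν x.2)
      rw [hx2.2] at h4
      have h6 : TR b (cR ν y.2) (cR ν x.2) = ρ * TR p (cR ν y.2) (cR ν x.2) := by
        apply mul_left_cancel₀ hx2.1.ne'
        rw [h4]
        ring
      rw [hs23 b, hs23 p] at h6
      rw [h6] at h5
      have h7 : (TR b a (cR ν y.2) - ρ * TR p a (cR ν y.2)) * TR p (cR ν x.2) (cR ν y.2) = 0 := by linarith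
      rcases mul_eq_zero.1 h7 with h8 | h8
      · exact absurd ⟨h3, by linarith⟩ hyg
      · exact h8
  obtain ⟨θ, hθ⟩ : ∃ θ, θ = cR ν (Lg.map Prod.snd).prod := ⟨_, rfl⟩
  have hθs : ∀ v w, TR v w θ = (Lg.map fun x => TR v w (cR ν x.2)).sum := by
    intro v w
    rw [hθ, list_tr]
  have hfil : ∀ (g : PDiv X × Cart X → ℝ) (M : List (PDiv X × Cart X)), (∀ y ∈ M, ¬ good y → g y = 0) →
      ((M.filter (fun x => decide (good x))).map g).sum = (M.map g).sum := by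
    intro g M
    induction M with
    | nil => intro _; rfl
    | cons x M ih =>
      intro hM
      have h3 := ih fun y hy => hM y (List.mem_cons_of_mem _ hy)
      by_cases h4 : good x
      · rw [List.filter_cons_of_pos (by simpa using h4), List.map_cons, List.sum_cons, List.map_cons, List.sum_cons, h3]
      · rw [List.filter_cons_of_neg (by simpa using h4), h3, List.map_cons, List.sum_cons,
          hM x List.mem_cons_self h4, zero_add]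
  have hθx : ∀ x ∈ Lg, TR p (cR ν x.2) θ = 0 := by
    intro x hx
    rw [hθs, hLg, hfil _ Ls fun y hy hyg => key x hx y hy hyg, hsum]
    have h3 : TR p (cR ν x.2) p = 0 := by
      rw [hs23]
      exact (hv x ((hmem x).1 hx).1).ver
    rw [h3, mul_zero]
  have hθθ : TR p θ θ = 0 := by
    rw [hθs]
    refine List.sum_eq_zero fun y hy => ?_
    obtain ⟨x, hx, rfl⟩ := List.mem_map.1 hy
    show TR p θ (cR ν x.2) = 0
    rw [hs23]
    exact hθx x hx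
  have hppθ : TR p p θ = 0 := by
    rw [hθs]
    refine List.sum_eq_zero fun y hy => ?_
    obtain ⟨x, hx, rfl⟩ := List.mem_map.1 hy
    exact (hv x ((hmem x).1 hx).1).ver
  refine ⟨Lg, ?_, fun x hx => ?_, ?_⟩
  · intro h3
    have h4 : (Q₀, D₀) ∈ Lg := by
      rw [hmem, hLs, hgood]
      refine ⟨List.mem_cons_self, h1, ?_⟩
      rw [hρ]
      field_simp
    rw [h3] at h4
    exact absurd h4 (by simp)
  · obtain ⟨hx1, hx2⟩ := (hmem x).1 hx
    rw [hgood] at hx2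
    refine ⟨hv x hx1, hx2.1, ?_⟩
    rw [hx2.2]
    exact mul_neg_of_neg_of_pos hρ0 hx2.1
  · rw [← hθ]
    have hpA := ppa f hpn hpp
    refine ⟨TR p θ (cR ν A) / TR p p (cR ν A), fun v => ?_⟩
    have h3 := hx_eq f hpn hp3 hppθ hpA hθθ v
    rw [div_mul_eq_mul_div, eq_div_iff hpA.ne']
    linarith

end Pool.Agent.H60.ZC
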